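import Pool.Agent.Lib.MP_e5111b_co.Gp.Defs

set_option autoImplicit false

namespace Pool.Agent.Lib.MP_e5111b_co.Gp

open Finset WithZero

theorem ba_one_le (m : ℕ) : (1 : ℤᵐ⁰) ≤ exp (m : ℤ) := by
  rw [← exp_zero, exp_le_exp]
  exact Int.natCast_nonneg m

theorem ba_lt_one {x : ℤᵐ⁰} : x < 1 ↔ x ≤ exp (-1) := by
  by_cases h : x = 0
  · simp [h]
  · rw [← exp_zero, ← log_lt_iff_lt_exp h, ← log_le_iff_le_exp h]
    omega

namespace Cur

variable {k K : Type} [Field k] [Field K] [Algebra k K] {B : ℕ} {C : Cur k K B} {m m' : ℕ}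
  {f g : K}

theorem v_const (C : Cur k K B) (p : C.P) {c : k} (hc : c ≠ 0) :
    C.v p (algebraMap k K c) = 1 := by
  have h1 := C.triv p c
  have h2 := C.triv p c⁻¹
  have h3 : C.v p (algebraMap k K c) * C.v p (algebraMap k K c⁻¹) = 1 := by
    rw [← map_mul, ← map_mul, mul_inv_cancel₀ hc, map_one, map_one]
  refine le_antisymm h1 ?_
  calc (1 : ℤᵐ⁰) = _ := h3.symm
    _ ≤ C.v p (algebraMap k K c) * 1 := mul_le_mul_right h2 _
    _ = _ := mul_one _

theorem Reg.mono (h : C.Reg m f) (hm : m ≤ m') : C.Reg m' f :=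
  ⟨fun p => (h.1 p).trans (exp_le_exp.mpr (by exact_mod_cast hm)), h.2⟩

theorem reg_const (C : Cur k K B) (m : ℕ) (c : k) : C.Reg m (algebraMap k K c) :=
  ⟨fun p => (C.triv p c).trans (ba_one_le m), fun p _ => C.triv p c⟩

theorem reg_nat (C : Cur k K B) (m n : ℕ) : C.Reg m (n : K) := by
  have := C.reg_const m (n : k)
  rwa [map_natCast] at this

theorem reg_t (C : Cur k K B) : C.Reg B C.t :=
  ⟨C.t_le, C.t_good⟩

theorem Reg.add (hf : C.Reg m f) (hg : C.Reg m g) : C.Reg m (f + g) :=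
  ⟨fun p => (C.v p).map_add_le (hf.1 p) (hg.1 p),
    fun p hp => (C.v p).map_add_le (hf.2 p hp) (hg.2 p hp)⟩

theorem Reg.neg (hf : C.Reg m f) : C.Reg m (-f) :=
  ⟨fun p => by rw [Valuation.map_neg]; exact hf.1 p,
    fun p hp => by rw [Valuation.map_neg]; exact hf.2 p hp⟩

theorem Reg.sub (hf : C.Reg m f) (hg : C.Reg m g) : C.Reg m (f - g) := by
  rw [sub_eq_add_neg]
  exact hf.add hg.neg

theorem Reg.mul (hf : C.Reg m f) (hg : C.Reg m' g) : C.Reg (m + m') (f * g) := by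
  refine ⟨fun p => ?_, fun p hp => ?_⟩
  · rw [map_mul, Nat.cast_add, exp_add]
    exact mul_le_mul' (hf.1 p) (hg.1 p)
  · rw [map_mul]
    exact mul_le_one' (hf.2 p hp) (hg.2 p hp)

theorem Reg.const_mul (c : k) (hf : C.Reg m f) : C.Reg m (algebraMap k K c * f) := by
  have := (C.reg_const 0 c).mul hf
  rwa [zero_add] at this

theorem Reg.nat_mul (n : ℕ) (hf : C.Reg m f) : C.Reg m (n * f) := by
  have := (C.reg_nat 0 n).mul hf
  rwa [zero_add] at this

theorem Reg.pow (hf : C.Reg m f) (n : ℕ) : C.Reg (m * n) (f ^ n) := by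
  induction n with
  | zero => simpa using C.reg_nat 0 1
  | succ n ih =>
    rw [pow_succ, mul_add, mul_one]
    exact ih.mul hf

theorem reg_sum {ι : Type} (s : Finset ι) {a : ι → K} (h : ∀ i ∈ s, C.Reg m (a i)) :
    C.Reg m (∑ i ∈ s, a i) :=
  ⟨fun p => (C.v p).map_sum_le fun i hi => (h i hi).1 p,
    fun p hp => (C.v p).map_sum_le fun i hi => (h i hi).2 p hp⟩

theorem Reg.of_sq (h : C.Reg (m + m) (f ^ 2)) : C.Reg m f := by
  refine ⟨fun p => ?_, fun p hp => ?_⟩
  · have := h.1 p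
    rw [map_pow, Nat.cast_add, exp_add, ← sq] at this
    exact (pow_le_pow_iff_left₀ zero_le zero_le two_ne_zero).mp this
  · have := h.2 p hp
    rw [map_pow, ← one_pow 2] at this
    exact (pow_le_pow_iff_left₀ zero_le zero_le two_ne_zero).mp this

/-- the number of zeros is bounded -/
theorem Reg.card_le (hf : C.Reg m f) (h0 : f ≠ 0) {T : Finset C.P} (hT : ∀ p ∈ T, C.v p f < 1) :
    #T ≤ B * m := by
  have := C.cnt m f h0 hf.1 hf.2 T (fun _ => 1) fun p hp => by
    simpa using ba_lt_one.mp (hT p hp)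
  simpa using this

theorem Reg.zeros (hf : C.Reg m f) (h0 : f ≠ 0) :
    ∃ T : Finset C.P, #T ≤ B * m ∧ ∀ p, p ∈ T ↔ C.v p f < 1 := by
  have hfin : {p | C.v p f < 1}.Finite := by
    by_contra hinf
    obtain ⟨T, hT, hc⟩ := Set.Infinite.exists_subset_card_eq hinf (B * m + 1)
    have := hf.card_le h0 (T := T) fun p hp => hT hp
    omega
  exact ⟨hfin.toFinset, hf.card_le h0 fun p hp => hfin.mem_toFinset.mp hp,
    fun p => hfin.mem_toFinset⟩

/-- the order of a zero is bounded -/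
theorem Reg.le_v (hf : C.Reg m f) (h0 : f ≠ 0) (p : C.P) :
    exp (-((B * m : ℕ) : ℤ)) ≤ C.v p f := by
  have hv : C.v p f ≠ 0 := (C.v p).ne_zero_iff.mpr h0
  have := C.cnt m f h0 hf.1 hf.2 {p} (fun _ => (-log (C.v p f)).toNat)
  rw [← le_log_iff_exp_le hv]
  by_cases hn : 0 ≤ log (C.v p f)
  · omega
  · have h2 := this fun q hq => by
      rw [mem_singleton.mp hq, ← log_le_iff_le_exp hv]
      omega
    rw [sum_singleton] at h2
    omega

/-- a function without poles is constant -/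
theorem const (h : ∀ p, C.v p f ≤ 1) : ∃ c : k, f = algebraMap k K c := by
  obtain ⟨p⟩ := C.nonempty
  obtain ⟨c, hc⟩ := C.res p f (h p)
  refine ⟨c, ?_⟩
  by_contra hne
  have hf : C.Reg 0 f := ⟨fun q => by simpa using h q, fun q _ => h q⟩
  have := (hf.sub (C.reg_const 0 c)).card_le (sub_ne_zero.mpr hne) (T := {p})
    fun q hq => by rw [mem_singleton.mp hq]; exact hc
  simp at this

theorem ratio (hg : g ≠ 0) (h : ∀ p, C.v p f = C.v p g) :
    ∃ c : k, f = algebraMap k K c * g := by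
  obtain ⟨c, hc⟩ := const (C := C) (f := f / g) fun p => by
    rw [map_div₀, h p, div_self ((C.v p).ne_zero_iff.mpr hg)]
  exact ⟨c, by rw [← hc, div_mul_cancel₀ _ hg]⟩

/-- the orders at boundedly many places take boundedly many values -/
theorem colour (C : Cur k K B) (m s : ℕ) (S₁ : Finset C.P) (hs : #S₁ ≤ s) :
    ∃ col : K → Fin ((B * m + m + 1) ^ s), ∀ f g, C.Reg m f → C.Reg m g → f ≠ 0 → g ≠ 0 →
      col f = col g → ∀ p ∈ S₁, C.v p f = C.v p g := by
  classical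
  obtain ⟨e⟩ : Nonempty ((S₁ → Fin (B * m + m + 1)) ↪ Fin ((B * m + m + 1) ^ s)) := by
    apply Function.Embedding.nonempty_of_card_le
    simp only [Fintype.card_fun, Fintype.card_fin, Fintype.card_coe]
    exact Nat.pow_le_pow_right (by omega) hs
  refine ⟨fun f => e fun p => ⟨min (log (C.v p f) + (B * m : ℕ)).toNat (B * m + m), by omega⟩,
    fun f g hf hg f0 g0 h p hp => ?_⟩
  have h1 := congrArg Fin.val (congrFun (e.injective h) ⟨p, hp⟩)
  have vf : C.v p f ≠ 0 := (C.v p).ne_zero_iff.mpr f0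
  have vg : C.v p g ≠ 0 := (C.v p).ne_zero_iff.mpr g0
  have a1 := (le_log_iff_exp_le vf).mpr (hf.le_v f0 p)
  have a2 := (le_log_iff_exp_le vg).mpr (hg.le_v g0 p)
  have a3 := (log_le_iff_le_exp vf).mpr (hf.1 p)
  have a4 := (log_le_iff_le_exp vg).mpr (hg.1 p)
  simp only at h1
  rw [← exp_log vf, ← exp_log vg]
  congr 1
  omega

/-- if `f g` is a square and neither factor has a double zero or a pole, the orders agree -/
theorem v_eq_of_sq (C : Cur k K B) (p : C.P) {d : K} (h : f * g = d ^ 2) (hf : C.v p f ≤ 1)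
    (hg : C.v p g ≤ 1) (hf' : ¬ C.v p f ≤ exp (-2)) (hg' : ¬ C.v p g ≤ exp (-2)) :
    C.v p f = C.v p g := by
  have vf : C.v p f ≠ 0 := fun h0 => hf' (by rw [h0]; exact zero_le)
  have vg : C.v p g ≠ 0 := fun h0 => hg' (by rw [h0]; exact zero_le)
  have e : log (C.v p f) + log (C.v p g) = 2 • log (C.v p d) := by
    rw [← log_mul vf vg, ← map_mul, h, map_pow, log_pow]
  rw [← exp_zero, ← log_le_iff_le_exp vf] at hf
  rw [← exp_zero, ← log_le_iff_le_exp vg] at hg
  rw [← log_le_iff_le_exp vf] at hf'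
  rw [← log_le_iff_le_exp vg] at hg'
  rw [two_nsmul] at e
  rw [← exp_log vf, ← exp_log vg]
  congr 1
  omega

end Cur

end Pool.Agent.Lib.MP_e5111b_co.Gp
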