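import Pool.Agent.Lib.MP_e5111b_co.Gp.BasicA

set_option autoImplicit false

namespace Pool.Agent.Lib.MP_e5111b_co.Gp

open Finset WithZero

theorem bb_lt {x : ℤᵐ⁰} : x < 1 ↔ x ≤ exp (-1) := by
  rcases eq_or_ne x 0 with rfl | h
  · simp
  · rw [← exp_log h, ← exp_zero, exp_lt_exp, exp_le_exp]
    omega

theorem bb_pow {k K : Type} [Field k] [Field K] [Algebra k K] (D : Derivation k K K) (a : K)
    (n : ℕ) : a * D (a ^ n) = n * a ^ n * D a := by
  induction n with
  | zero => simp
  | succ n ih =>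
    rw [pow_succ, D.leibniz, smul_eq_mul, smul_eq_mul]
    push_cast
    linear_combination a * ih

namespace Cur

variable {k K : Type} [Field k] [Field K] [Algebra k K] {B : ℕ} {C : Cur k K B} {m : ℕ} {f : K}

theorem bb_nat (C : Cur k K B) (p : C.P) (n : ℕ) : C.v p (n : K) ≤ 1 := by
  simpa using C.triv p (n : k)

theorem Reg.deriv (hf : C.Reg m f) : C.Reg (m + B + 1) (C.D f) := by
  refine ⟨fun p => ?_, fun p hp => C.dgood p hp f (hf.2 p hp)⟩
  obtain ⟨π, hπ⟩ := C.unif p
  have h1 : C.v p π ≤ 1 := (bb_lt.2 hπ.le).le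
  have hpw : ∀ n : ℕ, C.v p (π ^ n) = exp (-(n : ℤ)) := by
    intro n
    rw [map_pow, hπ, ← exp_nsmul]
    simp
  have hg : C.v p (f * π ^ m) ≤ 1 := by
    rw [map_mul, hpw]
    calc _ ≤ exp (m : ℤ) * exp (-(m : ℤ)) := mul_le_mul_left (hf.1 p) _
      _ = 1 := by rw [← exp_add]; simp
  have e : π ^ (m + 1) * C.D f = π * C.D (f * π ^ m) - m * (f * π ^ m) * C.D π := by
    rw [C.D.leibniz, smul_eq_mul, smul_eq_mul]
    linear_combination (-f) * bb_pow C.D π m
  have h2 : C.v p (π ^ (m + 1) * C.D f) ≤ exp (B : ℤ) := by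
    rw [e]
    refine Valuation.map_sub_le _ ?_ ?_
    · rw [map_mul]
      exact (mul_le_mul' h1 (C.dbad p _ hg)).trans (one_mul _).le
    · rw [map_mul, map_mul]
      exact (mul_le_mul' (mul_le_one' (C.bb_nat p m) hg) (C.dbad p _ h1)).trans (one_mul _).le
  rw [map_mul, hpw] at h2
  calc C.v p (C.D f) = exp ((m + 1 : ℕ) : ℤ) * (exp (-((m + 1 : ℕ) : ℤ)) * C.v p (C.D f)) := by
        rw [← mul_assoc, ← exp_add]; simp
    _ ≤ exp ((m + 1 : ℕ) : ℤ) * exp (B : ℤ) := mul_le_mul_right h2 _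
    _ = _ := by rw [← exp_add]; congr 1; push_cast; ring

/-- the derivative of a function with a double zero vanishes -/
theorem double {p : C.P} (hp : p ∉ C.S) (h : C.v p f ≤ exp (-2)) : C.v p (C.D f) < 1 := by
  obtain ⟨π, hπ⟩ := C.unif p
  have h1 : C.v p π < 1 := bb_lt.2 hπ.le
  have h0 : π ≠ 0 := by
    rintro rfl
    rw [map_zero] at hπ
    exact exp_ne_zero hπ.symm
  have hg : C.v p (f / π) < 1 := by
    rw [bb_lt, map_div₀, hπ, div_le_iff₀ exp_pos, ← exp_add]
    exact h
  have e : C.D f = π * C.D (f / π) + f / π * C.D π := by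
    rw [← smul_eq_mul, ← smul_eq_mul (f / π), ← C.D.leibniz, mul_div_cancel₀ _ h0]
  rw [e]
  refine Valuation.map_add_lt _ ?_ ?_
  · rw [map_mul]
    exact (mul_le_mul_right (C.dgood p hp _ hg.le) _).trans_lt (by rwa [mul_one])
  · rw [map_mul]
    exact (mul_le_mul_right (C.dgood p hp _ h1.le) _).trans_lt (by rwa [mul_one])

theorem bb_Ds (C : Cur k K B) (a : k) : C.D (C.t - algebraMap k K a) = 1 := by
  rw [map_sub, C.Dt, Derivation.map_algebraMap, sub_zero]

theorem bb_s_ne (C : Cur k K B) (a : k) : C.t - algebraMap k K a ≠ 0 := by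
  intro h
  have := C.bb_Ds a
  rw [h, map_zero] at this
  exact zero_ne_one this

theorem bb_v_ne (C : Cur k K B) (p : C.P) (h0 : f ≠ 0) : C.v p f ≠ 0 :=
  (Valuation.ne_zero_iff _).2 h0

variable [CharZero k]

/-- differentiation lowers the order of a zero by one -/
theorem simple {p : C.P} (hp : p ∉ C.S) (h0 : f ≠ 0) (h : C.v p f < 1) :
    C.v p (C.D f) = C.v p f * exp 1 := by
  obtain ⟨a, ha⟩ := C.res p C.t (C.t_good p hp)
  set s := C.t - algebraMap k K a with hs
  have hD : C.D s = 1 := C.bb_Ds a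
  have hs0 : s ≠ 0 := C.bb_s_ne a
  have hv : C.v p s = exp (-1) := by
    refine le_antisymm (bb_lt.1 ha) ?_
    by_contra hc
    have h2 : C.v p s ≤ exp (-2) := by
      rw [← exp_log (C.bb_v_ne p hs0), exp_le_exp] at hc ⊢
      omega
    have := double hp h2
    rw [hD, map_one] at this
    exact lt_irrefl _ this
  obtain ⟨e, he, hf⟩ : ∃ e : ℕ, e ≠ 0 ∧ C.v p f = exp (-(e : ℤ)) := by
    rw [← exp_log (C.bb_v_ne p h0), ← exp_zero, exp_lt_exp] at h
    refine ⟨(-log (C.v p f)).toNat, by omega, ?_⟩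
    rw [Int.toNat_of_nonneg (by omega), neg_neg, exp_log (C.bb_v_ne p h0)]
  have hpw : C.v p (s ^ e) = exp (-(e : ℤ)) := by
    rw [map_pow, hv, ← exp_nsmul]
    simp
  set u := f / s ^ e with hu
  have hvu : C.v p u = 1 := by rw [hu, map_div₀, hf, hpw, div_self exp_ne_zero]
  have hfu : f = s ^ e * u := (mul_div_cancel₀ _ (pow_ne_zero e hs0)).symm
  have e1 : s * C.D f = s ^ e * (e * u + s * C.D u) := by
    have := bb_pow C.D s e
    rw [hD] at this
    rw [hfu, C.D.leibniz, smul_eq_mul, smul_eq_mul]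
    linear_combination u * this
  have h1 : C.v p (e * u) = 1 := by
    have := C.v_const p (c := (e : k)) (Nat.cast_ne_zero.2 he)
    rw [map_natCast] at this
    rw [map_mul, this, hvu, one_mul]
  have h2 : C.v p (s * C.D u) < C.v p (e * u) := by
    rw [h1, map_mul]
    exact (mul_le_mul_right (C.dgood p hp _ hvu.le) _).trans_lt (by rwa [mul_one])
  have h3 := congrArg (C.v p) e1
  rw [map_mul, map_mul, Valuation.map_add_eq_of_lt_left _ h2, h1, mul_one, hpw, hv, ← hf] at h3
  rw [← h3, mul_right_comm, ← exp_add]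
  simp

theorem places (C : Cur k K B) (T : Finset C.P) (N : ℕ) :
    ∃ T' : Finset C.P, #T' = N ∧ Disjoint T' T := by
  have h1 : ∀ a : k, ∃ p, C.v p (C.t - algebraMap k K a) < 1 := by
    intro a
    by_contra hc
    push Not at hc
    obtain ⟨c, hc⟩ := const (C := C) (f := (C.t - algebraMap k K a)⁻¹) fun p => by
      rw [map_inv₀]
      exact inv_le_one_of_one_le₀ (hc p)
    have h2 := C.bb_Ds a
    rw [← inv_inv (C.t - algebraMap k K a), hc, ← map_inv₀, Derivation.map_algebraMap] at h2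
    exact zero_ne_one h2
  choose φ hφ using h1
  have hinj : Function.Injective φ := by
    intro a b hab
    by_contra hne
    have h2 := Valuation.map_sub_lt _ (hφ b) (hab ▸ hφ a)
    rw [sub_sub_sub_cancel_left, ← map_sub, C.v_const _ (sub_ne_zero.2 hne)] at h2
    exact lt_irrefl _ h2
  have := Infinite.of_injective φ hinj
  obtain ⟨T', h2, h3⟩ := (T.finite_toSet.infinite_compl).exists_subset_card_eq N
  exact ⟨T', h3, disjoint_left.2 fun p hp hT => h2 hp hT⟩

theorem prop {α : K} (hα : C.Reg m α) (hf : C.Reg m f) (h0 : α ≠ 0)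
    (h : α * C.D f - f * C.D α = 0) : ∃ c : k, f = algebraMap k K c * α := by
  classical
  obtain ⟨T, -, hT⟩ := hα.zeros h0
  obtain ⟨T', h1, h2⟩ := C.places (T ∪ C.S) 1
  obtain ⟨p, rfl⟩ := card_eq_one.1 h1
  rw [disjoint_singleton_left, mem_union, not_or, hT] at h2
  have hv : C.v p α = 1 := le_antisymm (hα.2 p h2.2) (not_lt.1 h2.1)
  have hz : C.v p (f / α) ≤ 1 := by rw [map_div₀, hv, div_one]; exact hf.2 p h2.2
  have hD : C.D (f / α) = 0 := by
    have e : C.D f = α * C.D (f / α) + f / α * C.D α := by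
      rw [← smul_eq_mul, ← smul_eq_mul (f / α), ← C.D.leibniz, mul_div_cancel₀ _ h0]
    have e2 : α * (f / α) = f := mul_div_cancel₀ _ h0
    have : α ^ 2 * C.D (f / α) = 0 := by linear_combination h - α * e - C.D α * e2
    exact (mul_eq_zero.1 this).resolve_left (pow_ne_zero 2 h0)
  obtain ⟨c, hc⟩ := C.res p _ hz
  refine ⟨c, ?_⟩
  by_contra hne
  have h3 : f / α - algebraMap k K c ≠ 0 := fun h3 => hne ((div_eq_iff h0).1 (sub_eq_zero.1 h3))
  have h4 := simple h2.2 h3 hc
  rw [map_sub, hD, Derivation.map_algebraMap, sub_zero, map_zero] at h4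
  exact mul_ne_zero (C.bb_v_ne p h3) exp_ne_zero h4.symm

theorem bb_tr (C : Cur k K B) : Transcendental k C.t := by
  intro h
  have hi := h.isIntegral
  have h1 := (minpoly.irreducible hi).separable.aeval_derivative_ne_zero (minpoly.aeval k C.t)
  have h2 := C.D.map_aeval (minpoly k C.t) C.t
  rw [minpoly.aeval, map_zero, C.Dt, smul_eq_mul, mul_one] at h2
  exact h1 h2.symm

theorem t_indep (C : Cur k K B) {n : ℕ} (l : Fin n → k)
    (h : ∑ a, algebraMap k K (l a) * C.t ^ (a : ℕ) = 0) : l = 0 := by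
  have h1 := transcendental_iff.1 C.bb_tr (∑ a : Fin n, Polynomial.monomial (a : ℕ) (l a))
    (by simpa only [map_sum, Polynomial.aeval_monomial] using h)
  funext a
  have h2 := congrArg (fun q => Polynomial.coeff q a) h1
  simpa [Polynomial.coeff_monomial, Fin.val_inj] using h2

/-- many regular vectors are linearly dependent over the constants -/
theorem dep {ι κ : Type} [Fintype ι] [Fintype κ] (a : ι → κ → K) (ha : ∀ i j, C.Reg m (a i j))
    (h : Fintype.card κ * (B * m + 1) < Fintype.card ι) :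
    ∃ l : ι → k, l ≠ 0 ∧ ∀ j, ∑ i, algebraMap k K (l i) * a i j = 0 := by
  obtain ⟨T, h1, h2⟩ := C.places C.S (B * m + 1)
  have h3 : ∀ (i : ι) (x : κ × T), ∃ c : k, C.v x.2 (a i x.1 - algebraMap k K c) < 1 :=
    fun i x => C.res _ _ ((ha i x.1).2 _ (disjoint_left.1 h2 x.2.2))
  choose r hr using h3
  have h4 : ¬ LinearIndependent k r := fun hl => by
    have := hl.fintype_card_le_finrank
    rw [Module.finrank_fintype_fun_eq_card, Fintype.card_prod, Fintype.card_coe, h1] at this
    omega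
  obtain ⟨l, hl, i0, hi0⟩ := Fintype.not_linearIndependent_iff.1 h4
  refine ⟨l, fun h0 => hi0 (congrFun h0 i0), fun j => ?_⟩
  by_contra hne
  have hreg : C.Reg m (∑ i, algebraMap k K (l i) * a i j) :=
    reg_sum _ fun i _ => (ha i j).const_mul (l i)
  have h5 := hreg.card_le hne (T := T) fun p hp => by
    have e0 : ∑ i, l i * r i (j, ⟨p, hp⟩) = 0 := by
      simpa only [Finset.sum_apply, Pi.smul_apply, smul_eq_mul, Pi.zero_apply] using
        congrFun hl (j, ⟨p, hp⟩)
    have e : ∑ i, algebraMap k K (l i) * a i j =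
        ∑ i, algebraMap k K (l i) * (a i j - algebraMap k K (r i (j, ⟨p, hp⟩))) := by
      simp only [mul_sub, sum_sub_distrib, ← map_mul, ← map_sum, e0, map_zero, sub_zero]
    rw [e]
    refine Valuation.map_sum_lt _ one_ne_zero fun i _ => ?_
    rw [map_mul]
    exact (mul_le_mul_left (C.triv p _) _).trans_lt (by rw [one_mul]; exact hr i (j, ⟨p, hp⟩))
  omega

end Cur

end Pool.Agent.Lib.MP_e5111b_co.Gp
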