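import Pool.Agent.Lib.MP_e5111b_co.Gp.Der

set_option autoImplicit false

namespace Pool.Agent.Lib.MP_e5111b_co.Gp

open Finset WithZero IntermediateField

/-- residues at a maximal ideal of a finitely generated algebra -/
theorem ca_res {k R : Type} [Field k] [IsAlgClosed k] [CommRing R] [Algebra k R]
    [Algebra.FiniteType k R] (p : Ideal R) [p.IsMaximal] (x : R ⧸ p) :
    ∃ c : k, algebraMap k (R ⧸ p) c = x := by
  let _ := Ideal.Quotient.field p
  have : Module.Finite k (R ⧸ p) := finite_of_finite_type_of_isJacobsonRing k (R ⧸ p)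
  exact (IsAlgClosed.algebraMap_bijective_of_isIntegral (k := k) (K := R ⧸ p)).2 x

theorem ca_res' {k R : Type} [Field k] [IsAlgClosed k] [CommRing R] [Algebra k R]
    [Algebra.FiniteType k R] (p : Ideal R) [p.IsMaximal] (g h : R) (hh : h ∉ p) :
    ∃ c : k, g - algebraMap k R c * h ∈ p := by
  let _ := Ideal.Quotient.field p
  obtain ⟨c, hc⟩ := ca_res (k := k) p (Ideal.Quotient.mk p g / Ideal.Quotient.mk p h)
  refine ⟨c, ?_⟩
  have h0 : Ideal.Quotient.mk p h ≠ 0 := fun h0 => hh (Ideal.Quotient.eq_zero_iff_mem.1 h0)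
  rw [← Ideal.Quotient.eq_zero_iff_mem, map_sub, map_mul, Ideal.Quotient.mk_algebraMap, hc,
    div_mul_cancel₀ _ h0, sub_self]

open Polynomial IsDedekindDomain in
/-- the number of zeros is at most the degree of the norm -/
theorem ca_cnt {k A R : Type} [Field k] [IsAlgClosed k] [CommRing A] [IsDomain A]
    [IsPrincipalIdealRing A] [Algebra k A] [CommRing R] [IsDedekindDomain R] [Algebra k R]
    [Algebra A R] [IsScalarTower k A R] [Module.Finite A R] [Module.IsTorsionFree A R]
    [Algebra.FiniteType k R] (φ : k[X] ≃ₐ[k] A) {g : R} (hg : g ≠ 0)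
    (T : Finset (HeightOneSpectrum R)) (e : HeightOneSpectrum R → ℕ)
    (he : ∀ p ∈ T, g ∈ p.asIdeal ^ e p) {q : k[X]} (hq : φ q = Algebra.intNorm A R g) :
    ∑ p ∈ T, e p ≤ q.natDegree := by
  classical
  have h1 : ∀ p : HeightOneSpectrum R, ∃ c : k,
      Ideal.relNorm A p.asIdeal ≤ Ideal.span {φ (X - C c)} := by
    intro p
    have := p.isMaximal
    obtain ⟨c, hc⟩ := ca_res' (k := k) p.asIdeal (algebraMap A R (φ X)) 1
      ((Ideal.ne_top_iff_one _).1 p.isPrime.ne_top)
    refine ⟨c, (Ideal.relNorm_le_comap A _).trans (le_of_eq ?_)⟩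
    have hm : (Ideal.span {φ (X - C c)}).IsMaximal :=
      PrincipalIdealRing.isMaximal_of_irreducible
        ((MulEquiv.irreducible_iff φ).2 (irreducible_X_sub_C c))
    refine (hm.eq_of_le (Ideal.comap_ne_top _ p.isPrime.ne_top) ?_).symm
    rw [Ideal.span_singleton_le_iff_mem, Ideal.mem_comap, map_sub, map_sub, ← algebraMap_eq,
      AlgEquiv.commutes, ← IsScalarTower.algebraMap_apply]
    simpa using hc
  choose c hc using h1
  have h2 : Ideal.span {g} ≤ ∏ p ∈ T, p.asIdeal ^ e p := by
    rw [← HeightOneSpectrum.inf_pow_eq_prod T e (fun p => p) fun _ _ _ _ h => h,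
      Ideal.span_singleton_le_iff_mem, Submodule.mem_finsetInf]
    exact he
  have h3 := Ideal.relNorm_mono A h2
  rw [Ideal.relNorm_singleton, map_prod] at h3
  have h4 : ∏ p ∈ T, Ideal.relNorm A (p.asIdeal ^ e p) ≤
      Ideal.span {φ (∏ p ∈ T, (X - C (c p)) ^ e p)} := by
    rw [map_prod, ← Ideal.prod_span_singleton]
    refine Finset.prod_le_prod' fun p _ => ?_
    rw [map_pow, map_pow, ← Ideal.span_singleton_pow]
    exact Ideal.pow_right_mono (hc p) _
  have h5 := h3.trans h4
  rw [Ideal.span_singleton_le_span_singleton, ← hq, map_dvd_iff] at h5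
  have hq0 : q ≠ 0 := by
    rintro rfl
    have h6 : Ideal.relNorm A (Ideal.span {g}) = ⊥ := by
      rw [Ideal.relNorm_singleton, ← hq, map_zero, Ideal.span_singleton_eq_bot]
    rw [Ideal.relNorm_eq_bot_iff, Ideal.span_singleton_eq_bot] at h6
    exact hg h6
  refine le_trans (le_of_eq ?_) (natDegree_le_of_dvd h5 hq0)
  rw [natDegree_prod_of_monic _ _ fun p _ => (monic_X_sub_C _).pow _]
  simp

open scoped IntermediateField.algebraAdjoinAdjoin in
/-- the finite places -/
theorem chartA {k K : Type} [Field k] [IsAlgClosed k] [CharZero k] [Field K] [Algebra k K] {t : K}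
    (ht : Transcendental k t) [FiniteDimensional k⟮t⟯ K] :
    ∃ (P : Type) (v : P → Valuation K ℤᵐ⁰), Nonempty P ∧
      (∀ f, IsIntegral (Algebra.adjoin k {t}) f ↔ ∀ p, v p f ≤ 1) ∧
      (∀ p, ∃ π, v p π = exp (-1)) ∧
      (∀ p f, v p f ≤ 1 → ∃ c : k, v p (f - algebraMap k K c) < 1) ∧
      (∀ p f, v p f ≤ 1 → ∃ g h, IsIntegral (Algebra.adjoin k {t}) g ∧
        IsIntegral (Algebra.adjoin k {t}) h ∧ v p h = 1 ∧ f * h = g) ∧
      ∀ (m : ℕ) (g : K), Itg k t m g → g ≠ 0 → ∀ (T : Finset P) (e : P → ℕ),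
        (∀ p ∈ T, v p g ≤ exp (-(e p : ℤ))) → ∑ p ∈ T, e p ≤ Module.finrank k⟮t⟯ K * m := by
  let φ := Polynomial.algEquivOfTranscendental k t ht
  have hP : IsPrincipalIdealRing (Algebra.adjoin k {t}) :=
    IsPrincipalIdealRing.of_surjective φ.toRingEquiv.toRingHom φ.surjective
  have hc : CharZero k⟮t⟯ := algebraRat.charZero _
  have hD : IsDedekindDomain (integralClosure (Algebra.adjoin k {t}) K) :=
    integralClosure.isDedekindDomain (Algebra.adjoin k {t}) k⟮t⟯ K
  have hF : IsFractionRing (integralClosure (Algebra.adjoin k {t}) K) K :=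
    integralClosure.isFractionRing_of_finite_extension k⟮t⟯ K
  have hfin : Module.Finite (Algebra.adjoin k {t}) (integralClosure (Algebra.adjoin k {t}) K) :=
    IsIntegralClosure.finite (Algebra.adjoin k {t}) k⟮t⟯ K _
  have hA : Algebra.FiniteType k (Algebra.adjoin k {t}) :=
    Algebra.FiniteType.of_surjective φ.toAlgHom φ.surjective
  have hft : Algebra.FiniteType k (integralClosure (Algebra.adjoin k {t}) K) :=
    Algebra.FiniteType.trans hA inferInstance
  have hinj : Function.Injective (algebraMap (Algebra.adjoin k {t})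
      (integralClosure (Algebra.adjoin k {t}) K)) := fun a b h =>
    Subtype.ext (congrArg (fun x : integralClosure (Algebra.adjoin k {t}) K => (x : K)) h)
  have htf : Module.IsTorsionFree (Algebra.adjoin k {t})
      (integralClosure (Algebra.adjoin k {t}) K) :=
    Module.isTorsionFree_iff_algebraMap_injective.2 hinj
  have hloc : ∀ (p : IsDedekindDomain.HeightOneSpectrum (integralClosure (Algebra.adjoin k {t}) K))
      (f : K), p.valuation K f ≤ 1 → ∃ g h : integralClosure (Algebra.adjoin k {t}) K,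
        h ∉ p.asIdeal ∧ f * h = g := by
    intro p f hf
    obtain ⟨g, h, hh⟩ := p.exists_primeCompl_mul_eq_of_integer f hf
    exact ⟨g, h, h.2, hh⟩
  refine ⟨IsDedekindDomain.HeightOneSpectrum (integralClosure (Algebra.adjoin k {t}) K),
    fun p => p.valuation K, ?_, ?_, fun p => p.valuation_exists_uniformizer K, ?_, ?_, ?_⟩
  · have h1 : ¬ IsField (integralClosure (Algebra.adjoin k {t}) K) := by
      intro h
      have h2 : IsField (Algebra.adjoin k {t}) :=
        isField_of_isIntegral_of_isField hinj h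
      exact Polynomial.not_isField k (φ.toRingEquiv.toMulEquiv.isField h2)
    obtain ⟨p, hp0, hp⟩ := Ring.not_isField_iff_exists_prime.1 h1
    exact ⟨⟨p, hp, hp0⟩⟩
  · intro f
    constructor
    · intro hf p
      exact p.valuation_le_one (K := K) ⟨f, hf⟩
    · intro hf
      obtain ⟨g, hg⟩ := IsDedekindDomain.HeightOneSpectrum.mem_integers_of_valuation_le_one K f hf
      rw [← hg]
      exact g.2
  · intro p f hf
    obtain ⟨g, h, hh, hfg⟩ := hloc p f hf
    have := p.isMaximal
    obtain ⟨c, hc⟩ := ca_res' (k := k) p.asIdeal g h hh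
    refine ⟨c, ?_⟩
    have h1 : p.valuation K (h : K) = 1 := (p.valuation_eq_one_iff_notMem (K := K)).2 hh
    have h2 : p.valuation K (algebraMap (integralClosure (Algebra.adjoin k {t}) K) K
        (g - algebraMap k _ c * h)) < 1 := (p.valuation_lt_one_iff_mem (K := K) _).2 hc
    have h3 : (algebraMap (integralClosure (Algebra.adjoin k {t}) K) K
        (g - algebraMap k _ c * h)) = (f - algebraMap k K c) * h := by
      rw [map_sub, map_mul, ← IsScalarTower.algebraMap_apply, sub_mul, hfg]
      rfl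
    rw [h3, map_mul, h1, mul_one] at h2
    exact h2
  · intro p f hf
    obtain ⟨g, h, hh, hfg⟩ := hloc p f hf
    exact ⟨g, h, g.2, h.2, (p.valuation_eq_one_iff_notMem (K := K)).2 hh, hfg⟩
  · intro m g hg hg0 T e he
    obtain ⟨q, hq, hd⟩ := norm_deg ht hg
    refine le_trans (ca_cnt (A := Algebra.adjoin k {t}) φ
      (g := (⟨g, hg.1⟩ : integralClosure (Algebra.adjoin k {t}) K))
      (fun h => hg0 (congrArg Subtype.val h)) T e (fun p hp => ?_) ?_) hd
    · rw [← p.intValuation_le_pow_iff_mem, ← p.valuation_of_algebraMap (K := K)]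
      exact he p hp
    · have h1 := Algebra.algebraMap_intNorm (A := Algebra.adjoin k {t}) (K := k⟮t⟯) (L := K)
        (⟨g, hg.1⟩ : integralClosure (Algebra.adjoin k {t}) K)
      apply Subtype.ext
      have h2 := congrArg (fun x : k⟮t⟯ => (x : K)) h1
      simp only [IntermediateField.algebraAdjoinAdjoin.coe_algebraMap] at h2
      rw [h2]
      refine Eq.trans ?_ hq.symm
      simp [φ]

end Pool.Agent.Lib.MP_e5111b_co.Gp
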