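import Pool.Agent.Lib.MP_e5111b_co.Gp.Itg

set_option autoImplicit false

namespace Pool.Agent.Lib.MP_e5111b_co.Gp

open Finset IntermediateField Polynomial
open scoped IntermediateField.algebraAdjoinAdjoin

section

variable {k K : Type} [Field k] [Field K] [Algebra k K] {t y : K}

theorem cb_mem {A : Subalgebra k K} {x : K} (h : x ∈ A) : IsIntegral A x :=
  isIntegral_algebraMap (x := (⟨x, h⟩ : A))

theorem cb_eq {A : Subalgebra k K} {x z : K} (h : IsIntegral A x) (e : z = x) : IsIntegral A z :=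
  e ▸ h

theorem cb_der (D : Derivation k K K) (hD : D t = 1) {a : K} (ha : a ∈ Algebra.adjoin k {t}) :
    D a ∈ Algebra.adjoin k {t} := by
  induction ha using Algebra.adjoin_induction with
  | mem x hx => rw [Set.mem_singleton_iff.1 hx, hD]; exact one_mem _
  | algebraMap r => rw [D.map_algebraMap]; exact zero_mem _
  | add x z _ _ hx hz => rw [map_add]; exact add_mem hx hz
  | mul x z h1 h2 hx hz =>
    rw [D.leibniz, smul_eq_mul, smul_eq_mul]
    exact add_mem (mul_mem h1 hz) (mul_mem h2 hx)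

theorem cb_aeval {A : Subalgebra k K} (hy : IsIntegral A y) (q : A[X]) :
    IsIntegral A (aeval y q) :=
  IsIntegral.of_mem_of_fg _ hy.fg_adjoin_singleton _ (aeval_mem_adjoin_singleton A y)

theorem cb_chain (D : Derivation k K K) (hD : D t = 1) (hy : IsIntegral (Algebra.adjoin k {t}) y)
    (q : (Algebra.adjoin k {t})[X]) : ∃ r, IsIntegral (Algebra.adjoin k {t}) r ∧
      D (aeval y q) = aeval y (derivative q) * D y + r := by
  induction q using Polynomial.induction_on' with
  | add p q hp hq =>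
    obtain ⟨r, h1, h2⟩ := hp
    obtain ⟨s, h3, h4⟩ := hq
    exact ⟨r + s, h1.add h3, by simp only [map_add, h2, h4]; ring⟩
  | monomial n a =>
    refine ⟨y ^ n * D a, (hy.pow n).mul (cb_mem (cb_der D hD a.2)), ?_⟩
    rw [derivative_monomial, aeval_monomial, aeval_monomial, D.leibniz, D.leibniz_pow]
    simp only [smul_eq_mul, nsmul_eq_mul, map_mul, map_natCast]
    change _ + y ^ n * D a = _
    ring

theorem cb_coeff (F : IntermediateField k K) {A : Subalgebra k K} (hA : A ≤ F.toSubalgebra) {z : K}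
    (hF : IsIntegral F z) (hz : IsIntegral A z) (i : ℕ) :
    IsIntegral A (((minpoly F z).coeff i : F) : K) := by
  obtain ⟨q, hq, e⟩ := hz
  have hc : (algebraMap F K).comp (Subalgebra.inclusion hA : A →+* F.toSubalgebra) =
      algebraMap A K := rfl
  have h1 : minpoly F z ∣ q.map (Subalgebra.inclusion hA : A →+* F.toSubalgebra) :=
    minpoly.dvd F z (by rw [aeval_def, eval₂_map, hc, e])
  have h2 := Polynomial.map_dvd (algebraMap F K) h1
  rw [Polynomial.map_map, hc] at h2
  have := isIntegral_coeff_of_dvd q _ hq ((minpoly.monic hF).map (algebraMap F K)) h2 i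
  rwa [coeff_map] at this

/-- the order of the pole of the different at infinity -/
theorem cb_inf (ht : t ≠ 0) (hF : IsIntegral k⟮t⟯ y)
    (h : IsIntegral (Algebra.adjoin k {t⁻¹}) (y / t ^ 2)) :
    IsIntegral (Algebra.adjoin k {t⁻¹})
      (aeval y (derivative (minpoly k⟮t⟯ y)) / t ^ (2 * (minpoly k⟮t⟯ y).natDegree)) := by
  have hA : Algebra.adjoin k {t⁻¹} ≤ k⟮t⟯.toSubalgebra :=
    Algebra.adjoin_le (Set.singleton_subset_iff.2 (k⟮t⟯.inv_mem (mem_adjoin_simple_self k t)))
  let s : k⟮t⟯ := (AdjoinSimple.gen k t)⁻¹ ^ 2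
  have es : (s : K) = t⁻¹ ^ 2 := by simp [s]
  have s0 : s ≠ 0 := fun e => by
    rw [e] at es
    exact pow_ne_zero 2 (inv_ne_zero ht) es.symm
  have e1 : s • y = y / t ^ 2 := by
    rw [Algebra.smul_def, div_eq_inv_mul, ← inv_pow, ← es]; rfl
  have hc := cb_coeff k⟮t⟯ hA (hF.smul s) (e1 ▸ h)
  rw [IsIntegrallyClosed.minpoly_smul s0 hF] at hc
  have hs : IsIntegral (Algebra.adjoin k {t⁻¹}) (t⁻¹ ^ 2) :=
    (cb_mem (Algebra.self_mem_adjoin_singleton k _)).pow 2
  rw [aeval_eq_sum_range, sum_div]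
  refine IsIntegral.sum _ fun i _ => ?_
  rw [coeff_derivative]
  by_cases hi : i + 1 ≤ (minpoly k⟮t⟯ y).natDegree
  · have h1 := ((hc (i + 1)).mul ((h.pow i).mul hs)).mul (cb_mem (natCast_mem _ (i + 1)))
    refine cb_eq h1 ?_
    obtain ⟨m, hm⟩ := Nat.exists_eq_add_of_le hi
    rw [coeff_scaleRoots, hm, Nat.add_sub_cancel_left, Algebra.smul_def]
    simp only [map_mul, map_add, map_natCast, map_one, MulMemClass.coe_mul, SubmonoidClass.coe_pow,
      es, IntermediateField.algebraMap_apply, inv_pow, div_pow]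
    push_cast
    field_simp
    ring
  · rw [coeff_eq_zero_of_natDegree_lt (by omega)]
    simpa using isIntegral_zero

end

/-- a denominator for the derivatives of integral elements -/
theorem chartB {k K : Type} [Field k] [CharZero k] [Field K] [Algebra k K] {t y : K}
    (ht : Transcendental k t) [FiniteDimensional k⟮t⟯ K] (hy : k⟮t⟯⟮y⟯ = ⊤) (hy2 : Itg k t 2 y) :
    ∃ Δ : K, Δ ≠ 0 ∧ Itg k t (4 * Module.finrank k⟮t⟯ K) Δ ∧ ∀ D : Derivation k K K, D t = 1 →
      ∀ g, IsIntegral (Algebra.adjoin k {t}) g →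
        IsIntegral (Algebra.adjoin k {t}) (Δ * D g) := by
  have t0 : t ≠ 0 := fun e => ht (e ▸ isAlgebraic_zero)
  have : IsIntegrallyClosed (Algebra.adjoin k {t}) :=
    IsIntegrallyClosed.of_equiv (Polynomial.algEquivOfTranscendental k t ht).toRingEquiv
  have : CharZero k⟮t⟯ := algebraRat.charZero _
  have hF : IsIntegral k⟮t⟯ y := Algebra.IsIntegral.isIntegral y
  have ep := minpoly.isIntegrallyClosed_eq_field_fractions' k⟮t⟯ hy2.1
  have eδ : aeval y (derivative (minpoly k⟮t⟯ y)) =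
      aeval y (derivative (minpoly (Algebra.adjoin k {t}) y)) := by
    rw [ep, derivative_map, aeval_map_algebraMap]
  have δ0 : aeval y (derivative (minpoly k⟮t⟯ y)) ≠ 0 :=
    (Algebra.IsSeparable.isSeparable k⟮t⟯ y).aeval_derivative_ne_zero (minpoly.aeval _ _)
  have δi : IsIntegral (Algebra.adjoin k {t}) (aeval y (derivative (minpoly k⟮t⟯ y))) :=
    eδ ▸ cb_aeval hy2.1 _
  have htop : Algebra.adjoin k⟮t⟯ {y} = ⊤ := by
    rw [← adjoin_simple_toSubalgebra_of_isAlgebraic hF.isAlgebraic, hy, top_toSubalgebra]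
  have dual := traceForm_dualSubmodule_adjoin (Algebra.adjoin k {t}) k⟮t⟯ htop hy2.1
  have hI : Itg k t _ _ := ⟨δi, cb_inf t0 hF hy2.2⟩
  refine ⟨_, pow_ne_zero 2 δ0, (hI.pow 2).mono ?_, fun D hD g hg => ?_⟩
  · have := minpoly.natDegree_le (A := k⟮t⟯) y
    omega
  · set δ := aeval y (derivative (minpoly k⟮t⟯ y))
    have h1 : IsIntegral (Algebra.adjoin k {t}) (δ * D y) := by
      obtain ⟨r, hr, e⟩ := cb_chain D hD hy2.1 (minpoly (Algebra.adjoin k {t}) y)
      rw [minpoly.aeval, map_zero, ← eδ] at e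
      rw [eq_neg_of_add_eq_zero_left e.symm]
      exact hr.neg
    have h2 : ∀ q : (Algebra.adjoin k {t})[X],
        IsIntegral (Algebra.adjoin k {t}) (δ * D (aeval y q)) := fun q => by
      obtain ⟨r, hr, e⟩ := cb_chain D hD hy2.1 q
      rw [e, mul_add, mul_left_comm]
      exact ((cb_aeval hy2.1 _).mul h1).add (δi.mul hr)
    have h3 : g ∈ (Algebra.traceForm k⟮t⟯ K).dualSubmodule
        (Subalgebra.toSubmodule (Algebra.adjoin (Algebra.adjoin k {t}) {y})) := fun u hu => by
      have hu' : IsIntegral (Algebra.adjoin k {t}) u :=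
        IsIntegral.of_mem_of_fg _ hy2.1.fg_adjoin_singleton _ hu
      rw [Submodule.mem_one]
      exact IsIntegrallyClosed.isIntegral_iff.1 (Algebra.isIntegral_trace (hg.mul hu'))
    rw [dual, Submodule.mem_smul_pointwise_iff_exists] at h3
    obtain ⟨u, hu, e⟩ := h3
    obtain ⟨q, rfl⟩ := (Algebra.adjoin_singleton_eq_range_aeval (Algebra.adjoin k {t}) y).le hu
    have e1 : aeval y q = δ * g := by
      rw [← e, smul_eq_mul, mul_inv_cancel_left₀ δ0]; rfl
    have h4 := h2 q
    have h5 := h2 (derivative (minpoly (Algebra.adjoin k {t}) y))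
    rw [← eδ] at h5
    rw [e1, D.leibniz, smul_eq_mul, smul_eq_mul] at h4
    exact cb_eq (h4.sub (hg.mul h5)) (by ring)

end Pool.Agent.Lib.MP_e5111b_co.Gp
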