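import Pool.Agent.Lib.MP_e5111b_co.Gp.Defs

set_option autoImplicit false

namespace Pool.Agent.Lib.MP_e5111b_co.Gp

open Finset

theorem lin_cyc {K : Type} [Field K] {g b e x y z w : K} (hy : y ≠ 0) (hw : w ≠ 0) (hz : z - x ≠ 0)
    (h0 : g = 0 → b = 0 → e = 0 → False) (h1 : g * (x * y) + b * x + e * y = 0)
    (h2 : g * (z * w) + b * z + e * w = 0) (s t : K) :
    g * (s * t) + b * s + e * t = 0 ↔ x * (z - s) * ((y - t) * w) - (x - s) * z * (y * (w - t)) = 0 := by
  have hk : y * w * (z - x) ≠ 0 := mul_ne_zero (mul_ne_zero hy hw) hz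
  have m1 : g * (y * w * (z - x)) = b * (x * w - z * y) := by linear_combination y * h2 - w * h1
  have m2 : e * (y * w * (z - x)) = b * (x * z * (y - w)) := by
    linear_combination z * w * h1 - x * y * h2
  have hb : b ≠ 0 := by
    rintro rfl
    rw [zero_mul] at m1 m2
    exact h0 ((mul_eq_zero.1 m1).resolve_right hk) rfl ((mul_eq_zero.1 m2).resolve_right hk)
  have e1 : y * w * (z - x) * (g * (s * t) + b * s + e * t) =
      b * (x * (z - s) * ((y - t) * w) - (x - s) * z * (y * (w - t))) := by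
    linear_combination s * t * m1 + t * m2
  constructor
  · intro h
    rw [h, mul_zero] at e1
    exact (mul_eq_zero.1 e1.symm).resolve_left hb
  · intro h
    rw [h, mul_zero] at e1
    exact (mul_eq_zero.1 e1).resolve_left hk

theorem lin_tri {k K : Type} [Field k] [Field K] [Algebra k K] {μ P Q R S : K} (hμ : μ ≠ 0)
    {u v w : k} (h1 : R = algebraMap k K u * μ * P) (h2 : S = algebraMap k K v * μ * Q)
    (h3 : S - R = algebraMap k K w * μ * (Q - P)) (h : ∀ s : k, Q ≠ algebraMap k K s * P) :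
    ∃ l, R = l * P ∧ S = l * Q := by
  refine ⟨algebraMap k K v * μ, ?_, h2⟩
  by_cases hv : v = w
  · subst hv
    linear_combination h2 - h3
  · refine absurd ?_ (h ((u - w) / (v - w)))
    have h4 : algebraMap k K (v - w) ≠ 0 := (map_ne_zero _).2 (sub_ne_zero.2 hv)
    rw [map_div₀, div_mul_eq_mul_div, eq_div_iff h4, map_sub, map_sub]
    refine mul_left_cancel₀ hμ ?_
    linear_combination h3 - h2 + h1

namespace Cf

variable {ι K : Type} [Field K] {c : Cf ι K}

/-- a homogeneous family has constant shape or lies on a line -/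
theorem Hom.split {k : Type} [Field k] [Algebra k K] {Y : Finset ι} (h : c.Hom k Y) {a b : ι}
    (ha : a ∈ Y) (hb : b ∈ Y) (hab : a ≠ b) : (∀ i ∈ Y, c.Con k a b i) ∨
      ∃ l : K, ∀ i ∈ Y, ∀ j ∈ Y, c.W i - c.W j = l * (c.Z i - c.Z j) := by
  obtain ⟨μ, h⟩ := h
  obtain ⟨u0, h0⟩ := h b hb a ha
  have hW := c.W_ne hab.symm
  have hZ := c.Z_ne hab.symm
  have h1 : algebraMap k K u0 * μ ≠ 0 := left_ne_zero_of_mul (h0 ▸ hW)
  have tri : ∀ y ∈ Y, ∀ z ∈ Y, (∀ s : k, c.Z z - c.Z a ≠ algebraMap k K s * (c.Z y - c.Z a)) →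
      ∃ l, c.W y - c.W a = l * (c.Z y - c.Z a) ∧ c.W z - c.W a = l * (c.Z z - c.Z a) := by
    intro y hy z hz hs
    obtain ⟨u, hu⟩ := h y hy a ha
    obtain ⟨v, hv⟩ := h z hz a ha
    obtain ⟨w, hw⟩ := h z hz y hy
    exact lin_tri (right_ne_zero_of_mul h1) (w := w) hu hv (by linear_combination hw) hs
  by_cases hc : ∀ i ∈ Y, ∃ s : k, c.Z i - c.Z a = algebraMap k K s * (c.Z b - c.Z a)
  · refine Or.inl fun i hi => ?_
    obtain ⟨s, hs⟩ := hc i hi
    obtain ⟨u, hu⟩ := h i hi a ha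
    refine ⟨s, u * s / u0, hs, ?_⟩
    rw [map_div₀, div_mul_eq_mul_div, eq_div_iff (left_ne_zero_of_mul h1), map_mul, hu, hs, h0]
    ring
  · push Not at hc
    obtain ⟨o, ho, hs⟩ := hc
    obtain ⟨l, h2, h3⟩ := tri b hb o ho hs
    have key : ∀ j ∈ Y, c.W j - c.W a = l * (c.Z j - c.Z a) := by
      intro j hj
      by_cases hj' : ∀ s : k, c.Z j - c.Z a ≠ algebraMap k K s * (c.Z b - c.Z a)
      · obtain ⟨l', h4, h5⟩ := tri b hb j hj hj'
        rw [h5, mul_right_cancel₀ hZ (h4.symm.trans h2)]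
      · push Not at hj'
        obtain ⟨s, hj'⟩ := hj'
        obtain ⟨l', h4, h5⟩ := tri j hj o ho fun t ht =>
          hs (t * s) (by rw [ht, hj', map_mul, mul_assoc])
        have h6 : c.Z o - c.Z a ≠ 0 := by simpa using hs 0
        rw [h4, mul_right_cancel₀ h6 (h5.symm.trans h3)]
    exact Or.inr ⟨l, fun i hi j hj => by linear_combination key i hi - key j hj⟩

theorem on_iff_cyc {γ : Fin 4 → K} (hγ : γ ≠ 0) {i j l : ι} (hij : i ≠ j) (hil : i ≠ l)
    (hjl : j ≠ l) (hi : c.On γ i) (hj : c.On γ j) (hl : c.On γ l) (m : ι) :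
    c.On γ m ↔ c.cyc i j l m = 0 := by
  unfold On bil at *
  have key := lin_cyc (g := γ 0) (b := γ 1 + γ 0 * c.W l) (e := γ 2 + γ 0 * c.Z l)
    (x := c.Z i - c.Z l) (y := c.W i - c.W l) (z := c.Z j - c.Z l) (w := c.W j - c.W l)
    (c.W_ne hil) (c.W_ne hjl) (by rw [sub_sub_sub_cancel_right]; exact c.Z_ne hij.symm)
    (fun h0 h1 h2 => hγ (by
      rw [h0, zero_mul, add_zero] at h1 h2
      rw [h0, h1, h2] at hl
      funext r
      fin_cases r
      exacts [h0, h1, h2, by simpa using hl]))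
    (by linear_combination hi - hl) (by linear_combination hj - hl) (c.Z m - c.Z l) (c.W m - c.W l)
  unfold cyc
  constructor
  · intro h
    linear_combination key.1 (by linear_combination h - hl)
  · intro h
    linear_combination key.2 (by linear_combination h) + hl

theorem cyc_sq (c : Cf ι K) (i j l m : ι) : c.cyc i j l m ^ 2 =
    ((c.d i j * c.d l m) ^ 2 - (c.d i l * c.d j m) ^ 2 - (c.d i m * c.d j l) ^ 2) ^ 2 -
      4 * (c.d i l * c.d j m) ^ 2 * (c.d i m * c.d j l) ^ 2 := by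
  simp only [mul_pow, ← c.sq]
  unfold cyc
  ring

theorem Miss.mono {n n' : ℕ} (h : c.Miss n) (hn : n' ≤ n) : c.Miss n' := fun γ hγ =>
  let ⟨Y, h1, h2⟩ := h γ hγ
  ⟨Y, hn.trans h1, h2⟩

theorem Miss.swap {n : ℕ} (h : c.Miss n) : c.swap.Miss n := by
  intro γ hγ
  obtain ⟨Y, h1, h2⟩ := h ![γ 0, γ 2, γ 1, γ 3] fun h0 => hγ (by
    funext r
    fin_cases r
    exacts [congrFun h0 0, congrFun h0 2, congrFun h0 1, congrFun h0 3])
  refine ⟨Y, h1, fun i hi h3 => h2 i hi ?_⟩
  have h4 : γ 0 * (c.W i * c.Z i) + γ 1 * c.W i + γ 2 * c.Z i + γ 3 = 0 := h3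
  change γ 0 * (c.Z i * c.W i) + γ 2 * c.Z i + γ 1 * c.W i + γ 3 = 0
  linear_combination h4

end Cf

/-- two hyperbolas with five common points -/
theorem hyp {k K : Type} [Field k] [Field K] [Algebra k K] {f g f' g' η : K}
    (h : LinearIndependent k ![f, g]) (h' : LinearIndependent k ![f', g']) (u u' : Fin 5 → k)
    (hu : Function.Injective u) (h0 : ∀ i, u i ≠ 0) (h0' : ∀ i, u' i ≠ 0)
    (e : ∀ i, u i • f - (u i)⁻¹ • g - (u' i • f' - (u' i)⁻¹ • g') = η) :
    η = 0 ∧ f * g = f' * g' := by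
  set M := Submodule.span k ({f', g'} : Set K) with hM
  have m1 : f' ∈ M := Submodule.subset_span (by simp)
  have m2 : g' ∈ M := Submodule.subset_span (by simp)
  have m3 : ∀ i, u' i • f' - (u' i)⁻¹ • g' ∈ M := fun i =>
    M.sub_mem (M.smul_mem _ m1) (M.smul_mem _ m2)
  have m4 : ∀ i, (u i - u 0) • f - ((u i)⁻¹ - (u 0)⁻¹) • g ∈ M := by
    intro i
    have := M.sub_mem (m3 i) (m3 0)
    convert this using 1
    have h1 := (e i).trans (e 0).symm
    rw [sub_smul, sub_smul]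
    linear_combination h1
  have hΔ : (u 1 - u 0) * ((u 2)⁻¹ - (u 0)⁻¹) - (u 2 - u 0) * ((u 1)⁻¹ - (u 0)⁻¹) ≠ 0 := by
    have a0 := h0 0
    have a1 := h0 1
    have a2 := h0 2
    have : (u 1 - u 0) * ((u 2)⁻¹ - (u 0)⁻¹) - (u 2 - u 0) * ((u 1)⁻¹ - (u 0)⁻¹) =
        (u 1 - u 0) * (u 2 - u 0) * (u 2 - u 1) / (u 0 * u 1 * u 2) := by
      field_simp
      ring
    rw [this]
    exact div_ne_zero (mul_ne_zero (mul_ne_zero (sub_ne_zero.2 (hu.ne (by decide)))
      (sub_ne_zero.2 (hu.ne (by decide)))) (sub_ne_zero.2 (hu.ne (by decide))))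
      (mul_ne_zero (mul_ne_zero a0 a1) a2)
  have m5 : f ∈ M := by
    refine (M.smul_mem_iff hΔ).1 ?_
    convert M.sub_mem (M.smul_mem ((u 2)⁻¹ - (u 0)⁻¹) (m4 1))
      (M.smul_mem ((u 1)⁻¹ - (u 0)⁻¹) (m4 2)) using 1
    module
  have m6 : g ∈ M := by
    refine (M.smul_mem_iff hΔ).1 ?_
    convert M.sub_mem (M.smul_mem (u 2 - u 0) (m4 1)) (M.smul_mem (u 1 - u 0) (m4 2)) using 1
    module
  have m7 : η ∈ M := e 0 ▸ M.sub_mem (M.sub_mem (M.smul_mem _ m5) (M.smul_mem _ m6)) (m3 0)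
  obtain ⟨a, b, rfl⟩ := Submodule.mem_span_pair.1 m5
  obtain ⟨a', b', rfl⟩ := Submodule.mem_span_pair.1 m6
  obtain ⟨e1, e2, rfl⟩ := Submodule.mem_span_pair.1 m7
  have q : ∀ i, (a * u i ^ 2 - e1 * u i - a') * (-b * u i ^ 2 + e2 * u i + b') = u i ^ 2 := by
    intro i
    obtain ⟨q1, q2⟩ := LinearIndependent.pair_iff.1 h'
      (u i * a - (u i)⁻¹ * a' - u' i - e1) (u i * b - (u i)⁻¹ * b' + (u' i)⁻¹ - e2)
      (by rw [← sub_eq_zero.2 (e i)]; module)
    have q3 := mul_inv_cancel₀ (h0 i)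
    have q4 := mul_inv_cancel₀ (h0' i)
    have q5 : a * u i ^ 2 - e1 * u i - a' = u i * u' i := by
      linear_combination u i * q1 + a' * q3
    have q6 : -b * u i ^ 2 + e2 * u i + b' = u i * (u' i)⁻¹ := by
      linear_combination (-u i) * q2 - b' * q3
    rw [q5, q6]
    linear_combination u i ^ 2 * q4
  have hv := Matrix.eq_zero_of_forall_index_sum_pow_mul_eq_zero hu
    (v := ![-(a' * b'), -(e1 * b') - a' * e2, a * b' - e1 * e2 + a' * b - 1, a * e2 + e1 * b,
      -(a * b)]) fun j => by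
      simp only [Fin.sum_univ_five, Matrix.cons_val, Fin.val_zero, Fin.val_one, Fin.val_two,
        Fin.coe_ofNat_eq_mod, Nat.reduceMod]
      linear_combination q j
  have c0 : -(a' * b') = 0 := congrFun hv 0
  have c1 : -(e1 * b') - a' * e2 = 0 := congrFun hv 1
  have c2 : a * b' - e1 * e2 + a' * b - 1 = 0 := congrFun hv 2
  have c3 : a * e2 + e1 * b = 0 := congrFun hv 3
  have c4 : -(a * b) = 0 := congrFun hv 4
  have fin : a * a' = 0 → b * b' = 0 → e1 = 0 → e2 = 0 → e1 • f' + e2 • g' = 0 ∧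
      (a • f' + b • g') * (a' • f' + b' • g') = f' * g' := by
    intro d1 d2 d3 d4
    refine ⟨by simp [d3, d4], ?_⟩
    have d5 : a * b' + a' * b = 1 := by rw [d3] at c2; linear_combination c2
    have d6 := congrArg (algebraMap k K) d1
    have d7 := congrArg (algebraMap k K) d2
    have d8 := congrArg (algebraMap k K) d5
    simp only [map_mul, map_add, map_zero, map_one] at d6 d7 d8
    simp only [Algebra.smul_def]
    linear_combination f' ^ 2 * d6 + g' ^ 2 * d7 + f' * g' * d8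
  by_cases ha : a = 0
  · subst ha
    have hb : b ≠ 0 := by
      rintro rfl
      simpa using h.ne_zero 0
    have d3 : e1 = 0 := (mul_eq_zero.1 (by linear_combination c3)).resolve_right hb
    subst d3
    have d5 : a' * b = 1 := by linear_combination c2
    exact fin (zero_mul _) (by linear_combination (-b ^ 2) * c0 - b * b' * d5) rfl
      (by linear_combination (-b) * c1 - e2 * d5)
  · have hb : b = 0 := (mul_eq_zero.1 (neg_eq_zero.1 c4)).resolve_left ha
    subst hb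
    have d4 : e2 = 0 := (mul_eq_zero.1 (by linear_combination c3)).resolve_left ha
    subst d4
    have d5 : a * b' = 1 := by linear_combination c2
    exact fin (by linear_combination (-a ^ 2) * c0 - a * a' * d5) (zero_mul _)
      (by linear_combination (-a) * c1 - e1 * d5) rfl

end Pool.Agent.Lib.MP_e5111b_co.Gp
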