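import Pool.Agent.Lib.MP_e5111b_co.Gp.BasicA
import Pool.Agent.Lib.MP_e5111b_co.Gp.Lin

set_option autoImplicit false

namespace Pool.Agent.Lib.MP_e5111b_co.Gp

open Finset WithZero

section

variable {ι K : Type} [Field K] (c : Cf ι K) (a b o i : ι)

/-- the position of `o` relative to the line through `a` and `b` -/
def colG : K := (c.Z a - c.Z b) * (c.W a - c.W o) - (c.W a - c.W b) * (c.Z a - c.Z o)

/-- the coordinate of `i` on the line -/
def colA : K := 2 * ((c.W a - c.W b) * (c.Z i - c.Z o)) + colG c a b o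

/-- first factor -/
def colP : K := 2 * (c.d a b * c.d i o) + colA c a b o i

/-- second factor -/
def colM : K := 2 * (c.d a b * c.d i o) - colA c a b o i

variable {c a b o i}

theorem col_mul {l : K} (hi : c.W i - c.W a = l * (c.Z i - c.Z a))
    (hb : c.W a - c.W b = l * (c.Z a - c.Z b)) :
    colP c a b o i * colM c a b o i = -colG c a b o ^ 2 := by
  have key : (c.Z a - c.Z b) * (c.W i - c.W a) = (c.W a - c.W b) * (c.Z i - c.Z a) := by
    rw [hi, hb]; ring
  unfold colP colM colA colG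
  linear_combination (-4 * c.d i o ^ 2) * c.sq a b -
    4 * (c.Z a - c.Z b) * (c.W a - c.W b) * c.sq i o +
    4 * (c.W a - c.W b) * (c.Z i - c.Z o) * key

variable {k : Type} [Field k] [Algebra k K] {B m : ℕ} {C : Cur k K B}

theorem col_regd (hZ : ∀ i, C.Reg m (c.Z i)) (hW : ∀ i, C.Reg m (c.W i)) (i j : ι) :
    C.Reg m (c.d i j) :=
  Cur.Reg.of_sq (c.sq i j ▸ ((hZ i).sub (hZ j)).mul ((hW i).sub (hW j)))

theorem col_regG (hZ : ∀ i, C.Reg m (c.Z i)) (hW : ∀ i, C.Reg m (c.W i)) (a b o : ι) :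
    C.Reg (m + m) (colG c a b o) :=
  (((hZ a).sub (hZ b)).mul ((hW a).sub (hW o))).sub (((hW a).sub (hW b)).mul ((hZ a).sub (hZ o)))

theorem col_two {f : K} (h : C.Reg m f) : C.Reg m (2 * f) := by
  rw [two_mul]; exact h.add h

theorem col_regA (hZ : ∀ i, C.Reg m (c.Z i)) (hW : ∀ i, C.Reg m (c.W i)) (a b o i : ι) :
    C.Reg (m + m) (colA c a b o i) :=
  (col_two (((hW a).sub (hW b)).mul ((hZ i).sub (hZ o)))).add (col_regG hZ hW a b o)

theorem col_regP (hZ : ∀ i, C.Reg m (c.Z i)) (hW : ∀ i, C.Reg m (c.W i)) (a b o i : ι) :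
    C.Reg (m + m) (colP c a b o i) :=
  (col_two ((col_regd hZ hW a b).mul (col_regd hZ hW i o))).add (col_regA hZ hW a b o i)

theorem col_regM (hZ : ∀ i, C.Reg m (c.Z i)) (hW : ∀ i, C.Reg m (c.W i)) (a b o i : ι) :
    C.Reg (m + m) (colM c a b o i) :=
  (col_two ((col_regd hZ hW a b).mul (col_regd hZ hW i o))).sub (col_regA hZ hW a b o i)

theorem col_unit (hZ : ∀ i, C.Reg m (c.Z i)) (hW : ∀ i, C.Reg m (c.W i))
    (h : colP c a b o i * colM c a b o i = -colG c a b o ^ 2) {p : C.P} (hp : p ∉ C.S)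
    (hG : ¬ C.v p (colG c a b o) < 1) : C.v p (colP c a b o i) = 1 := by
  have h1 : C.v p (colG c a b o) = 1 := le_antisymm ((col_regG hZ hW a b o).2 p hp) (not_lt.1 hG)
  have h2 := congrArg (C.v p) h
  rw [map_mul, Valuation.map_neg, map_pow, h1, one_pow] at h2
  refine le_antisymm ((col_regP hZ hW a b o i).2 p hp) ?_
  calc 1 = _ := h2.symm
    _ ≤ C.v p (colP c a b o i) * 1 := mul_le_mul_right ((col_regM hZ hW a b o i).2 p hp) _
    _ = _ := mul_one _

theorem col_cls {j : ι} (hG : colG c a b o ≠ 0)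
    (hi : colP c a b o i * colM c a b o i = -colG c a b o ^ 2)
    (hj : colP c a b o j * colM c a b o j = -colG c a b o ^ 2)
    (h : ∀ p, C.v p (colP c a b o i) = C.v p (colP c a b o j)) :
    ∃ u : k, u ≠ 0 ∧ u • colP c a b o j - u⁻¹ • colM c a b o j = 2 * colA c a b o i := by
  have h0 : -colG c a b o ^ 2 ≠ 0 := neg_ne_zero.2 (pow_ne_zero 2 hG)
  have hi0 : colP c a b o i ≠ 0 := left_ne_zero_of_mul (hi ▸ h0)
  have hj0 : colP c a b o j ≠ 0 := left_ne_zero_of_mul (hj ▸ h0)
  obtain ⟨u, hu⟩ := Cur.ratio hj0 h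
  have hu0 : u ≠ 0 := by
    rintro rfl
    rw [map_zero, zero_mul] at hu
    exact hi0 hu
  have hu1 : algebraMap k K u ≠ 0 := (map_ne_zero _).2 hu0
  refine ⟨u, hu0, ?_⟩
  have e : (algebraMap k K u)⁻¹ * colM c a b o j = colM c a b o i := by
    rw [inv_mul_eq_iff_eq_mul₀ hu1]
    refine mul_left_cancel₀ hj0 ?_
    rw [hj, ← hi, hu]
    ring
  rw [Algebra.smul_def, Algebra.smul_def, map_inv₀, e, ← hu, colP, colM]
  ring

end

/-- many points on a line and three points off it: many points have constant shape -/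
theorem col (B m y : ℕ) : ∃ n : ℕ, ∀ (k K : Type) [Field k] [CharZero k] [Field K] [Algebra k K]
    (C : Cur k K B) (ι : Type) (c : Cf ι K) (Y : Finset ι) (l : K), (∀ i, C.Reg m (c.Z i)) →
    (∀ i, C.Reg m (c.W i)) → c.Miss 3 → n ≤ #Y →
    (∀ i ∈ Y, ∀ j ∈ Y, c.W i - c.W j = l * (c.Z i - c.Z j)) →
    ∃ Y' ⊆ Y, y ≤ #Y' ∧ ∃ a b, a ≠ b ∧ ∀ i ∈ Y', c.Con k a b i := by
  refine ⟨((B * (m + m) + (m + m) + 1) ^ (B + 3 * (B * (m + m)))) ^ 3 * (y + 5) + 2, ?_⟩
  intro k K _ _ _ _ C ι c Y l hZ hW hM hY hl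
  classical
  have : CharZero K := charZero_of_injective_algebraMap (algebraMap k K).injective
  obtain ⟨a, ha, b, hb, hab⟩ := one_lt_card.1 (show 1 < #Y by omega)
  obtain ⟨Y3, h3, hoff⟩ := hM ![0, -l, 1, l * c.Z a - c.W a] fun h => by
    simpa using congrFun h 2
  obtain ⟨O⟩ := Function.Embedding.nonempty_of_card_le (α := Fin 3) (β := Y3) (by simpa using h3)
  have hG : ∀ r, colG c a b (O r) ≠ 0 := by
    intro r h
    refine hoff _ (O r).2 ?_
    refine mul_left_cancel₀ (c.Z_ne hab) ?_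
    simp only [bil, Matrix.cons_val_zero, Matrix.cons_val_one, Matrix.cons_val]
    rw [colG, hl a ha b hb] at h
    linear_combination -h
  have hPM : ∀ r, ∀ i ∈ Y, colP c a b (O r) i * colM c a b (O r) i = -colG c a b (O r) ^ 2 :=
    fun r i hi => col_mul (hl i hi a ha) (hl a ha b hb)
  have hP0 : ∀ r, ∀ i ∈ Y, colP c a b (O r) i ≠ 0 := fun r i hi =>
    left_ne_zero_of_mul (hPM r i hi ▸ neg_ne_zero.2 (pow_ne_zero 2 (hG r)))
  choose T hT hT' using fun r => (col_regG hZ hW a b (O r)).zeros (hG r)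
  have hS : #(C.S ∪ univ.biUnion T) ≤ B + 3 * (B * (m + m)) := by
    have h1 := card_biUnion_le_card_mul univ T _ fun r _ => hT r
    rw [card_univ, Fintype.card_fin] at h1
    exact (card_union_le _ _).trans (add_le_add C.card_S h1)
  obtain ⟨χ, hχ⟩ := C.colour (m + m) _ _ hS
  obtain ⟨w, -, hw⟩ := exists_lt_card_fiber_of_mul_lt_card_of_maps_to (s := Y) (t := univ)
    (f := fun i (r : Fin 3) => χ (colP c a b (O r) i)) (n := y + 5) (fun _ _ => mem_univ _)
    (by rw [card_univ, Fintype.card_fun, Fintype.card_fin, Fintype.card_fin]; omega)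
  set Y' := Y.filter fun i => (fun r : Fin 3 => χ (colP c a b (O r) i)) = w with hY'
  have hsub : Y' ⊆ Y := filter_subset _ _
  obtain ⟨a', ha', b', hb', hab'⟩ := one_lt_card.1 (show 1 < #Y' by omega)
  have hu : ∀ (r : Fin 3) (i : Y'), ∃ u : k, u ≠ 0 ∧
      u • colP c a b (O r) a' - u⁻¹ • colM c a b (O r) a' = 2 * colA c a b (O r) i := by
    intro r i
    refine col_cls (C := C) (hG r) (hPM r i (hsub i.2)) (hPM r a' (hsub ha')) fun p => ?_
    by_cases hp : p ∈ C.S ∪ univ.biUnion T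
    · refine hχ _ _ (col_regP hZ hW _ _ _ _) (col_regP hZ hW _ _ _ _) (hP0 r i (hsub i.2))
        (hP0 r a' (hsub ha')) ?_ p hp
      exact (congrFun (mem_filter.1 i.2).2 r).trans (congrFun (mem_filter.1 ha').2 r).symm
    · rw [mem_union, not_or] at hp
      have h1 : ¬ C.v p (colG c a b (O r)) < 1 := fun h =>
        hp.2 (mem_biUnion.2 ⟨r, mem_univ _, (hT' r p).2 h⟩)
      rw [col_unit hZ hW (hPM r i (hsub i.2)) hp.1 h1,
        col_unit hZ hW (hPM r a' (hsub ha')) hp.1 h1]
  choose u hu0 hu using hu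
  have hW0 := c.W_ne hab
  refine ⟨Y', hsub, by omega, a', b', hab', ?_⟩
  by_cases hind : ∀ r, LinearIndependent k ![colP c a b (O r) a', colM c a b (O r) a']
  · exfalso
    obtain ⟨e⟩ := Function.Embedding.nonempty_of_card_le (α := Fin 5) (β := Y')
      (by rw [Fintype.card_fin, Fintype.card_coe]; omega)
    have key : ∀ r s, r ≠ s → colG c a b (O s) = -colG c a b (O r) := by
      intro r s hrs
      have hinj : Function.Injective fun t => u r (e t) := by
        intro t t' htt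
        by_contra hne
        have h1 := hu r (e t)
        have h2 := hu r (e t')
        rw [show u r (e t) = u r (e t') from htt, h2] at h1
        have h4 : (e t : ι) ≠ e t' := fun h => hne (e.injective (Subtype.ext h))
        refine mul_ne_zero (mul_ne_zero (show (4 : K) ≠ 0 by norm_num) hW0) (c.Z_ne h4) ?_
        unfold colA at h1
        linear_combination -h1
      obtain ⟨h1, h2⟩ := hyp (hind r) (hind s) (fun t => u r (e t)) (fun t => u s (e t)) hinj
        (fun t => hu0 r _) (fun t => hu0 s _)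
        (η := 4 * (c.W a - c.W b) * (c.Z (O s) - c.Z (O r)) +
          2 * (colG c a b (O r) - colG c a b (O s)))
        fun t => by rw [hu, hu, colA, colA]; ring
      rw [hPM r a' (hsub ha'), hPM s a' (hsub ha'), neg_inj] at h2
      rcases sq_eq_sq_iff_eq_or_eq_neg.1 h2.symm with h | h
      · exfalso
        have h4 : (O s : ι) ≠ O r := fun h => hrs (O.injective (Subtype.ext h)).symm
        refine mul_ne_zero (mul_ne_zero (show (4 : K) ≠ 0 by norm_num) hW0) (c.Z_ne h4) ?_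
        linear_combination h1 + 2 * h
      · exact h
    have h1 := key 0 1 (by decide)
    have h2 := key 0 2 (by decide)
    have h4 := key 1 2 (by decide)
    refine mul_ne_zero (two_ne_zero (α := K)) (hG 0) ?_
    linear_combination h2 - h4 + h1
  · push Not at hind
    obtain ⟨r, hr⟩ := hind
    rw [LinearIndependent.pair_iff' (hP0 r a' (hsub ha'))] at hr
    push Not at hr
    obtain ⟨κ, hκ⟩ := hr
    have h1 : ∀ i ∈ Y', ∃ x : k, 4 * (c.W a - c.W b) * (c.Z i - c.Z a') =
        algebraMap k K x * colP c a b (O r) a' := by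
      intro i hi
      have h2 := hu r ⟨i, hi⟩
      have h4 := hu r ⟨a', ha'⟩
      rw [← hκ] at h2 h4
      simp only [Algebra.smul_def, colA] at h2 h4
      refine ⟨u r ⟨i, hi⟩ - (u r ⟨i, hi⟩)⁻¹ * κ - (u r ⟨a', ha'⟩ - (u r ⟨a', ha'⟩)⁻¹ * κ), ?_⟩
      simp only [map_sub, map_mul]
      linear_combination h4 - h2
    obtain ⟨x0, hx0⟩ := h1 b' hb'
    have h40 := mul_ne_zero (show (4 : K) ≠ 0 by norm_num) hW0
    have hx : algebraMap k K x0 ≠ 0 :=
      left_ne_zero_of_mul (hx0 ▸ mul_ne_zero h40 (c.Z_ne hab'.symm))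
    intro i hi
    obtain ⟨x, hx1⟩ := h1 i hi
    have e : c.Z i - c.Z a' = algebraMap k K (x / x0) * (c.Z b' - c.Z a') := by
      rw [map_div₀, div_mul_eq_mul_div, eq_div_iff hx]
      refine mul_left_cancel₀ h40 ?_
      linear_combination algebraMap k K x0 * hx1 - algebraMap k K x * hx0
    refine ⟨x / x0, x / x0, e, ?_⟩
    rw [hl i (hsub hi) a' (hsub ha'), hl b' (hsub hb') a' (hsub ha'), e]
    ring

end Pool.Agent.Lib.MP_e5111b_co.Gp
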