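import Pool.Agent.Lib.MP_e5111b_co.Gp.Place

set_option autoImplicit false

namespace Pool.Agent.Lib.MP_e5111b_co.Gp

open Finset Polynomial IntermediateField Pc

theorem ca_const {k Ω : Type} [Field k] [IsAlgClosed k] [Field Ω] [Algebra k Ω] {w : Ω}
    (h : IsAlgebraic k w) : ∃ e : k, w = algebraMap k Ω e := by
  have h1 := h.isIntegral
  obtain ⟨e, he⟩ := minpoly.mem_range_of_degree_eq_one k w
    (IsAlgClosed.degree_eq_one_of_irreducible k (minpoly.irreducible h1))
  exact ⟨e, he.symm⟩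

theorem ca_ne {k Ω : Type} [Field k] [Field Ω] [Algebra k Ω] {z : Ω} (hz : Transcendental k z)
    {B : k[X]} (hB : B ≠ 0) : aeval z B ≠ 0 := fun h => hB (transcendental_iff.1 hz B h)

/-- two generators of the same rational function field satisfy a bilinear relation -/
theorem moebius {k Ω : Type} [Field k] [IsAlgClosed k] [CharZero k] [Field Ω] [Algebra k Ω]
    {z w : Ω} (hz : Transcendental k z) {A B A' B' : k[X]} (hB : B ≠ 0) (hB' : B' ≠ 0)
    (h : aeval z B * w = aeval z A) (h' : aeval w B' * z = aeval w A') :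
    ∃ γ : Fin 4 → k, γ ≠ 0 ∧ bil (fun r => algebraMap k Ω (γ r)) z w = 0 := by
  by_cases hw : IsAlgebraic k w
  · obtain ⟨e, rfl⟩ := ca_const hw
    refine ⟨![0, 0, 1, -e], fun h0 => ?_, ?_⟩
    · simpa using congrFun h0 2
    · simp [bil]
  have hinj : Function.Injective (aeval z : k[X] →ₐ[k] Ω) := transcendental_iff_injective.1 hz
  have hle := nonZeroDivisors_le_comap_nonZeroDivisors_of_injective (aeval z : k[X] →ₐ[k] Ω) hinj
  set φ : RatFunc k →ₐ[k] Ω := RatFunc.liftAlgHom (aeval z) hle with hφ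
  set f : RatFunc k := algebraMap k[X] _ A / algebraMap k[X] _ B with hf
  have e1 : φ f = w := by
    rw [hf, hφ, RatFunc.liftAlgHom_apply_div, ← h, mul_div_cancel_left₀ _ (ca_ne hz hB)]
  have e2 : φ RatFunc.X = z := by
    rw [hφ, RatFunc.liftAlgHom_apply]
    simp
  have e3 : (RatFunc.X : RatFunc k) ∈ k⟮f⟯ := by
    refine (mem_adjoin_simple_iff _ _).2 ⟨A', B', φ.toRingHom.injective ?_⟩
    change φ _ = φ _
    rw [map_div₀, ← aeval_algHom_apply, ← aeval_algHom_apply, e1, e2, ← h',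
      mul_div_cancel_left₀ _ (ca_ne hw hB')]
  have e4 : k⟮f⟯ = ⊤ := by
    rw [eq_top_iff, ← RatFunc.adjoin_X]
    exact adjoin_simple_le_iff.2 e3
  have e5 := RatFunc.finrank_eq_max_natDegree f
  rw [e4, IntermediateField.finrank_top] at e5
  have d1 : f.num.natDegree ≤ 1 := e5 ▸ le_max_left _ _
  have d2 : f.denom.natDegree ≤ 1 := e5 ▸ le_max_right _ _
  have e6 : aeval z f.denom * w = aeval z f.num := by
    rw [← e1, hφ, RatFunc.liftAlgHom_apply, mul_div_cancel₀ _ (ca_ne hz f.denom_ne_zero)]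
  have n1 := eq_X_add_C_of_natDegree_le_one d1
  have n2 := eq_X_add_C_of_natDegree_le_one d2
  refine ⟨![f.denom.coeff 1, -f.num.coeff 1, f.denom.coeff 0, -f.num.coeff 0], fun h0 => ?_, ?_⟩
  · have a0 : f.denom.coeff 1 = 0 := by simpa using congrFun h0 0
    have a2 : f.denom.coeff 0 = 0 := by simpa using congrFun h0 2
    exact f.denom_ne_zero (by rw [n2, a0, a2]; simp)
  · rw [n1, n2] at e6
    simp only [map_add, map_mul, aeval_C, aeval_X] at e6
    simp only [bil, Matrix.cons_val_zero, Matrix.cons_val_one, Matrix.cons_val, map_neg]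
    linear_combination e6

theorem ca_down {k Ω : Type} [Field k] [Field Ω] [Algebra k Ω] (E : IntermediateField k Ω)
    {a v : E} (h : IsAlgebraic (Algebra.adjoin k {a}) v) :
    IsAlgebraic (Algebra.adjoin k {(a : Ω)}) (v : Ω) := by
  have hm : ∀ y : Algebra.adjoin k {a}, ((y : E) : Ω) ∈ Algebra.adjoin k {(a : Ω)} := by
    intro y
    have h1 : Algebra.adjoin k {a} ≤ (Algebra.adjoin k {(a : Ω)}).comap E.val :=
      Algebra.adjoin_le (by
        rintro _ rfl
        exact Algebra.subset_adjoin rfl)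
    exact h1 y.2
  let f : Algebra.adjoin k {a} →+* Algebra.adjoin k {(a : Ω)} :=
    ((algebraMap E Ω).comp (algebraMap (Algebra.adjoin k {a}) E)).codRestrict _ hm
  refine h.ringHom_of_comp_eq f (algebraMap E Ω) (fun y y' e => ?_) (RingHom.ext fun _ => rfl)
  have e1 : ((y : E) : Ω) = ((y' : E) : Ω) :=
    congrArg (fun x : Algebra.adjoin k {(a : Ω)} => (x : Ω)) e
  exact Subtype.ext (Subtype.ext e1)

theorem ca_mem {k Ω : Type} [Field k] [Field Ω] [Algebra k Ω] (E : IntermediateField k Ω)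
    {S S' : Set Ω} {D : Ω} (hD : D ∈ IntermediateField.adjoin k S) (h : ∀ y ∈ S, y ∈ E ∨ y ∈ S') :
    D ∈ IntermediateField.adjoin E S' := by
  have h1 : IntermediateField.adjoin k S ≤ (IntermediateField.adjoin E S').restrictScalars k :=
    adjoin_le_iff.2 fun y hy => (h y hy).elim
      (fun e => (IntermediateField.adjoin E S').algebraMap_mem ⟨y, e⟩)
      fun e => (IntermediateField.subset_adjoin E S' e : y ∈ IntermediateField.adjoin E S')
  exact h1 hD

theorem ca_step {k Ω ι α β : Type} [Field k] [IsAlgClosed k] [CharZero k] [Field Ω] [IsAlgClosed Ω]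
    [Algebra k Ω] (c : Cf ι Ω) (a : α ⊕ β → ι) (t : α ⊕ β → Ω)
    (ha : Function.Injective a) (h1 : AlgebraicIndependent k t)
    (h2 : ∀ i, IsAlgebraic (Algebra.adjoin k {t i}) (c.Z (a i)))
    (h3 : ∀ i, IsAlgebraic (Algebra.adjoin k {t i}) (c.W (a i)))
    (J : Finset (α × β)) {l : α} {r : β} (hJ : (l, r) ∈ J)
    (hl : Transcendental k (c.Z (a (.inl l)))) (hr : Transcendental k (c.Z (a (.inr r))))
    (hD : ∏ s ∈ J, c.d (a (.inl s.1)) (a (.inr s.2)) ∈ IntermediateField.adjoin k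
      (Set.range t ∪ (Set.range (fun i => c.Z (a i)) ∪ Set.range fun i => c.W (a i)))) :
    ∃ A B : k[X], B ≠ 0 ∧
      aeval (c.Z (a (.inl l))) B * c.W (a (.inl l)) = aeval (c.Z (a (.inl l))) A ∧
      aeval (c.Z (a (.inr r))) B * c.W (a (.inr r)) = aeval (c.Z (a (.inr r))) A := by
  classical
  obtain ⟨E, hE, hcl⟩ := kit_cl (F := k) (t '' {m | m ≠ .inl l})
  have up : ∀ m, m ≠ Sum.inl l → ∀ y, IsAlgebraic (Algebra.adjoin k {t m}) y → y ∈ E :=
    fun m hm y hy => (hE y).2 (rk_trans hy fun b hb =>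
      rk_mem (Algebra.subset_adjoin ⟨m, hm, (Set.mem_singleton_iff.1 hb).symm⟩))
  have hτ := alg_swap hl (h2 (.inl l))
  have hw : IsAlgebraic (Algebra.adjoin k {c.Z (a (.inl l))}) (c.W (a (.inl l))) :=
    rk_trans (h3 _) fun b hb => by rw [Set.mem_singleton_iff.1 hb]; exact hτ
  have hT : Transcendental E (c.Z (a (.inl l))) := by
    intro h
    have h4 : IsAlgebraic (Algebra.adjoin E (∅ : Set Ω)) (c.Z (a (.inl l))) :=
      h.extendScalars (algebraMap E (Algebra.adjoin E (∅ : Set Ω))).injective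
    have h5 := alg_tower (fun y hy => (hE y).1 hy) h4
    rw [Set.union_empty] at h5
    refine h1.transcendental_adjoin (s := {m | m ≠ .inl l}) (i := .inl l) (fun h => h rfl) ?_
    exact rk_trans hτ fun b hb => by rw [Set.mem_singleton_iff.1 hb]; exact h5
  let Zr : β → E := fun j => ⟨c.Z (a (.inr j)), up (.inr j) Sum.inr_ne_inl _ (h2 _)⟩
  let Wr : β → E := fun j => ⟨c.W (a (.inr j)), up (.inr j) Sum.inr_ne_inl _ (h3 _)⟩
  have hne : ∀ (i : α) (j : β), a (.inl i) ≠ a (.inr j) := fun i j e => Sum.inl_ne_inr (ha e)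
  have hu : ∏ s ∈ J.filter (fun s => ¬ s.1 = l), c.d (a (.inl s.1)) (a (.inr s.2)) ^ 2 ∈ E := by
    refine prod_mem fun s hs => ?_
    have hs' : (Sum.inl s.1 : α ⊕ β) ≠ .inl l := fun e => (mem_filter.1 hs).2 (Sum.inl.inj e)
    rw [← c.sq]
    exact mul_mem (sub_mem (up _ hs' _ (h2 _)) (Zr s.2).2) (sub_mem (up _ hs' _ (h3 _)) (Wr s.2).2)
  have hu0 : (⟨_, hu⟩ : E) ≠ 0 := fun e =>
    prod_ne_zero_iff.2 (fun s _ => pow_ne_zero 2 (c.ne _ _ (hne s.1 s.2))) (congrArg Subtype.val e)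
  have hrr : ∀ s ∈ (J.filter fun s => s.1 = l).erase (l, r), s.2 ≠ r := fun s hs e =>
    (mem_erase.1 hs).1 (Prod.ext (mem_filter.1 (mem_erase.1 hs).2).2 e)
  obtain ⟨A, B, hB, e1, e2⟩ := place (k := k) (k' := E) (τ := t (.inl l)) (a := Zr r) (b := Wr r)
    (h := ∏ s ∈ J, c.d (a (.inl s.1)) (a (.inr s.2)))
    hT hw hτ (fun h => hr (IntermediateField.isAlgebraic_iff.1 h)) hu0
    ((J.filter fun s => s.1 = l).erase (l, r)) (fun s => Zr s.2) (fun s => Wr s.2)
    (fun s hs e => c.Z_ne (fun e' => hrr s hs (Sum.inr.inj (ha e')))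
      (sub_eq_zero.2 (congrArg Subtype.val e)))
    (fun s hs => by
      by_cases h : IsAlgebraic k (c.W (a (.inr s.2)))
      · obtain ⟨e, he⟩ := ca_const h
        exact .inl ⟨e, Subtype.ext he, fun e' => c.W_ne (hne l s.2) (by rw [e', he, sub_self])⟩
      · refine .inr fun h' => ?_
        have h6 : IsAlgebraic (Algebra.adjoin k {c.Z (a (.inr r))}) (c.W (a (.inr s.2))) :=
          ca_down E (a := Zr r) (v := Wr s.2) h'
        have h7 : IsAlgebraic (Algebra.adjoin k {t (.inr r)}) (c.W (a (.inr s.2))) :=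
          rk_trans h6 fun b hb => by rw [Set.mem_singleton_iff.1 hb]; exact h2 _
        have h8 : IsAlgebraic (Algebra.adjoin k {t (.inr r)}) (t (.inr s.2)) :=
          rk_trans (alg_swap h (h3 _)) fun b hb => by rw [Set.mem_singleton_iff.1 hb]; exact h7
        refine h1.transcendental_adjoin (s := {.inr r}) (i := .inr s.2)
          (fun e => hrr s hs (Sum.inr.inj e)) ?_
        rwa [Set.image_singleton])
    (ca_mem E hD (by
      rintro _ (⟨m, rfl⟩ | ⟨m, rfl⟩ | ⟨m, rfl⟩) <;> by_cases hm : m = .inl l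
      · exact .inr (by rw [hm]; exact .inr (.inr rfl))
      · exact .inl (up m hm _ (rk_mem (Algebra.subset_adjoin rfl)))
      · exact .inr (by rw [hm]; exact .inl rfl)
      · exact .inl (up m hm _ (h2 m))
      · exact .inr (by rw [hm]; exact .inr (.inl rfl))
      · exact .inl (up m hm _ (h3 m))))
    (by
      rw [← prod_pow, ← prod_filter_mul_prod_filter_not J (fun s => s.1 = l),
        ← mul_prod_erase _ _ (mem_filter.2 ⟨hJ, rfl⟩ : (l, r) ∈ J.filter fun s => s.1 = l),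
        ← c.sq]
      have e3 : ∏ s ∈ (J.filter fun s => s.1 = l).erase (l, r),
          c.d (a (.inl s.1)) (a (.inr s.2)) ^ 2 = ∏ s ∈ (J.filter fun s => s.1 = l).erase (l, r),
          (c.Z (a (.inl l)) - algebraMap E Ω (Zr s.2)) *
            (c.W (a (.inl l)) - algebraMap E Ω (Wr s.2)) :=
        prod_congr rfl fun s hs => by
          rw [← c.sq, (mem_filter.1 (mem_erase.1 hs).2).2]
          rfl
      rw [e3]
      change _ = (∏ s ∈ J.filter (fun s => ¬ s.1 = l), c.d (a (.inl s.1)) (a (.inr s.2)) ^ 2) *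
        ((c.Z (a (.inl l)) - c.Z (a (.inr r))) * (c.W (a (.inl l)) - c.W (a (.inr r)))) * _
      ring)
  refine ⟨A, B, hB, e1, ?_⟩
  have e4 := congrArg E.val e2
  rwa [map_mul, ← aeval_algHom_apply, ← aeval_algHom_apply] at e4

theorem ca_both {k Ω : Type} [Field k] [Field Ω] [Algebra k Ω] {z w z' w' : Ω}
    (hz : Transcendental k z) (hz' : Transcendental k z') {A B : k[X]} (hB : B ≠ 0)
    (h : aeval z B * w = aeval z A) (h' : aeval z' B * w' = aeval z' A) (γ : Fin 4 → k)
    (h0 : bil (fun r => algebraMap k Ω (γ r)) z w = 0) :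
    bil (fun r => algebraMap k Ω (γ r)) z' w' = 0 := by
  have key : ∀ x y : Ω, aeval x B * y = aeval x A →
      aeval x (C (γ 0) * (X * A) + C (γ 1) * (X * B) + C (γ 2) * A + C (γ 3) * B) =
        aeval x B * bil (fun r => algebraMap k Ω (γ r)) x y := by
    intro x y e
    simp only [map_add, map_mul, aeval_C, aeval_X, bil, ← e]
    ring
  have h1 := key z w h
  rw [h0, mul_zero] at h1
  have h2 := key z' w' h'
  rw [transcendental_iff.1 hz _ h1, map_zero] at h2
  exact (mul_eq_zero.1 h2.symm).resolve_left (ca_ne hz' hB)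

/-- independent moving points on different curves have independent distances -/
theorem coreA {k Ω ι α β : Type} [Field k] [IsAlgClosed k] [CharZero k] [Field Ω] [IsAlgClosed Ω]
    [Algebra k Ω] [Fintype α] [Fintype β] (c : Cf ι Ω) (a : α ⊕ β → ι) (t : α ⊕ β → Ω)
    (ha : Function.Injective a) (h1 : AlgebraicIndependent k t)
    (h2 : ∀ i, IsAlgebraic (Algebra.adjoin k {t i}) (c.Z (a i)))
    (h3 : ∀ i, IsAlgebraic (Algebra.adjoin k {t i}) (c.W (a i)))
    (h4 : ∀ i, Transcendental k (c.Z (a i)))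
    (h5 : ∀ l r, ¬ c.Bad k (a (.inl l)) (a (.inr r))) (J : Finset (α × β)) (hJ : J.Nonempty) :
    ∏ s ∈ J, c.d (a (.inl s.1)) (a (.inr s.2)) ∉ IntermediateField.adjoin k
      (Set.range t ∪ (Set.range (fun i => c.Z (a i)) ∪ Set.range fun i => c.W (a i))) := by
  intro hD
  obtain ⟨⟨l, r⟩, hlr⟩ := hJ
  obtain ⟨A, B, hB, e1, e2⟩ := ca_step c a t ha h1 h2 h3 J hlr (h4 _) (h4 _) hD
  have hne : a (.inl l) ≠ a (.inr r) := fun e => Sum.inl_ne_inr (ha e)
  have cst : ∀ (e : k) (x y : Ω),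
      bil (fun r => algebraMap k Ω (![0, 0, 1, -e] r)) x y = 0 ↔ y = algebraMap k Ω e := by
    intro e x y
    simp [bil, add_neg_eq_zero]
  have w1 : Transcendental k (c.W (a (.inl l))) := fun h => by
    obtain ⟨e, he⟩ := ca_const h
    have := (cst e _ _).1 (ca_both (h4 _) (h4 _) hB e1 e2 _ ((cst e _ _).2 he))
    exact c.W_ne hne (by rw [he, this, sub_self])
  have w2 : Transcendental k (c.W (a (.inr r))) := fun h => by
    obtain ⟨e, he⟩ := ca_const h
    have := (cst e _ _).1 (ca_both (h4 _) (h4 _) hB e2 e1 _ ((cst e _ _).2 he))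
    exact c.W_ne hne (by rw [he, this, sub_self])
  obtain ⟨A', B', hB', e3, -⟩ := ca_step c.swap a t ha h1 h3 h2 J hlr w1 w2
    (by rw [Set.union_comm (Set.range fun i => c.swap.Z (a i))]; exact hD)
  exact h5 l r ⟨moebius (h4 _) hB hB' e1 e3, fun γ hγ => ca_both (h4 _) (h4 _) hB e1 e2 γ hγ⟩

end Pool.Agent.Lib.MP_e5111b_co.Gp
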