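import Pool.Agent.Lib.MP_e5111b_co.Gp.Kit

set_option autoImplicit false

namespace Pool.Agent.Lib.MP_e5111b_co.Gp

open Finset

/-- points off a line or circle, none the centre, none the mirror image of an earlier one -/
theorem offs {ι Ω : Type} [Field Ω] (c : Cf ι Ω) {γ : Fin 4 → Ω} (hγ : γ 0 ≠ 0 ∨ γ 2 ≠ 0) (r : ℕ)
    (h : c.Miss (2 * r)) : ∃ o : Fin r → ι, Function.Injective o ∧
      (∀ l, γ 0 * c.Z (o l) + γ 2 ≠ 0) ∧ ∀ l l', l ≤ l' → bil γ (c.Z (o l)) (c.W (o l')) ≠ 0 := by
  classical
  obtain ⟨Y, hY, hO⟩ := h γ (by rintro rfl; simp at hγ)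
  rcases Nat.eq_zero_or_pos r with rfl | hr
  · exact ⟨Fin.elim0, fun l => l.elim0, fun l => l.elim0, fun l => l.elim0⟩
  obtain ⟨y0, -⟩ := card_pos.1 (show 0 < #Y by omega)
  have key : ∀ n ≤ r, ∃ o : ℕ → ι, (∀ l l', l < l' → l' < n → o l ≠ o l') ∧
      (∀ l < n, γ 0 * c.Z (o l) + γ 2 ≠ 0) ∧
      ∀ l l', l ≤ l' → l' < n → bil γ (c.Z (o l)) (c.W (o l')) ≠ 0 := by
    intro n
    induction n with
    | zero => exact fun _ => ⟨fun _ => y0, by omega, by omega, by omega⟩
    | succ n ih =>
      intro hn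
      obtain ⟨o, o1, o2, o3⟩ := ih (by omega)
      have c1 : #(Y.filter fun y => γ 0 * c.Z y + γ 2 = 0) ≤ 1 := card_le_one.2 fun a ha b hb => by
        by_contra e
        have ea := (mem_filter.1 ha).2
        have eb := (mem_filter.1 hb).2
        have g : γ 0 = 0 := (mul_eq_zero.1 (show γ 0 * (c.Z a - c.Z b) = 0 by
          linear_combination ea - eb)).resolve_right (c.Z_ne e)
        rw [g, zero_mul, zero_add] at ea
        tauto
      have c2 : #((range n).image o) ≤ n := card_image_le.trans (card_range n).le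
      have c3 : #((range n).biUnion fun l => Y.filter fun y => bil γ (c.Z (o l)) (c.W y) = 0) ≤
          #(range n) * 1 := card_biUnion_le_card_mul _ _ _ fun l hl => card_le_one.2
        fun a ha b hb => by
          by_contra e
          have ea := (mem_filter.1 ha).2
          have eb := (mem_filter.1 hb).2
          rw [bil] at ea eb
          exact mul_ne_zero (o2 l (mem_range.1 hl)) (c.W_ne e) (by linear_combination ea - eb)
      rw [card_range] at c3
      obtain ⟨y, hy, hn'⟩ := exists_mem_notMem_of_card_lt_card (t := Y)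
        (((card_union_le _ _).trans (add_le_add ((card_union_le _ _).trans (add_le_add c1 c2))
          c3)).trans_lt (by omega))
      simp only [mem_union, mem_filter, mem_image, mem_biUnion, mem_range, not_or, not_exists,
        not_and] at hn'
      obtain ⟨⟨y1, y2⟩, y3⟩ := hn'
      refine ⟨fun l => if l = n then y else o l, fun l l' a b => ?_, fun l a => ?_,
        fun l l' a b => ?_⟩ <;> beta_reduce
      · rw [if_neg (show l ≠ n by omega)]
        split_ifs with e
        · exact y2 l (by omega)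
        · exact o1 l l' a (by omega)
      · split_ifs with e
        · exact y1 hy
        · exact o2 l (by omega)
      · split_ifs with e e' e'
        · exact hO y hy
        · omega
        · exact y3 l (by omega) hy
        · exact o3 l l' a (by omega)
  obtain ⟨o, o1, o2, o3⟩ := key r le_rfl
  refine ⟨fun l => o l, fun l l' e => ?_, fun l => o2 l l.2, fun l l' e => o3 l l' e l'.2⟩
  rcases lt_trichotomy (l : ℕ) l' with g | g | g
  · exact (o1 _ _ g l'.2 e).elim
  · exact Fin.ext g
  · exact (o1 _ _ g l.2 e.symm).elim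

open Polynomial in
/-- a product with a simple zero is no square -/
theorem cb_nsq {k κ β : Type} [Field k] [CharZero k] [Fintype β] (q : β → k[X])
    (hq : ∀ l, q l ≠ 0) {J : Finset (κ × β)} {s : κ × β} (hs : s ∈ J) {z : k} {u : k[X]}
    (h0 : q s.2 = (X - C z) * u) (hu : u.eval z ≠ 0)
    (h : ∀ t ∈ J, t ≠ s → t.1 = s.1 → (q t.2).eval z ≠ 0) (D : MvPolynomial κ k) :
    ∏ t ∈ J, aeval (MvPolynomial.X t.1 : MvPolynomial κ k) (q t.2) ≠ D ^ 2 := by
  classical
  intro e
  obtain ⟨x, hx⟩ : ∃ x, (∏ l, q l).eval x ≠ 0 := by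
    by_contra g
    push Not at g
    exact prod_ne_zero_iff.2 (fun l _ => hq l) (zero_of_eval_zero _ g)
  rw [eval_prod, prod_ne_zero_iff] at hx
  let φ : MvPolynomial κ k →ₐ[k] k[X] :=
    MvPolynomial.aeval fun i => if i = s.1 then X else C x
  have e1 := congrArg φ e
  have e2 : ∀ t : κ × β, φ (aeval (MvPolynomial.X t.1) (q t.2)) =
      if t.1 = s.1 then q t.2 else C ((q t.2).eval x) := fun t => by
    rw [← aeval_algHom_apply]
    simp only [φ, MvPolynomial.aeval_X]
    split_ifs
    · simp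
    · rw [← algebraMap_eq, aeval_algebraMap_apply]
      simp
  rw [map_prod, map_pow, ← mul_prod_erase _ _ hs] at e1
  simp only [e2, if_true] at e1
  rw [h0, mul_assoc] at e1
  have e3 := congrArg (eval z) e1
  simp only [eval_mul, eval_sub, eval_X, eval_C, sub_self, zero_mul, eval_pow] at e3
  obtain ⟨E, hE⟩ := dvd_iff_isRoot.2 (pow_eq_zero_iff two_ne_zero |>.1 e3.symm)
  rw [hE, mul_pow, pow_two (X - C z), mul_assoc] at e1
  have e4 := congrArg (eval z) (mul_left_cancel₀ (X_sub_C_ne_zero z) e1)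
  simp only [eval_mul, eval_sub, eval_X, eval_C, sub_self, zero_mul, eval_prod] at e4
  refine mul_ne_zero hu (prod_ne_zero_iff.2 fun t ht => ?_) e4
  split_ifs with g
  · exact h t (mem_of_mem_erase ht) (ne_of_mem_erase ht) g
  · rw [eval_C]
    exact hx _ (mem_univ _)

open Polynomial in
/-- independent points on a line or circle have independent distances to points off it -/
theorem coreB {k Ω ι κ : Type} [Field k] [CharZero k] [Field Ω] [Algebra k Ω] [Fintype κ]
    (c : Cf ι Ω) (γ : Fin 4 → k) (a : κ → ι) (h1 : AlgebraicIndependent k fun i => c.Z (a i))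
    (h2 : ∀ i, c.On (fun s => algebraMap k Ω (γ s)) (a i)) {r : ℕ} (o : Fin r → ι) (z w : Fin r → k)
    (hz : ∀ l, c.Z (o l) = algebraMap k Ω (z l)) (hw : ∀ l, c.W (o l) = algebraMap k Ω (w l))
    (ho : Function.Injective o) (h3 : ∀ l, γ 0 * z l + γ 2 ≠ 0)
    (h4 : ∀ l l', l ≤ l' → bil γ (z l) (w l') ≠ 0) :
    (∀ i l, c.d (a i) (o l) ^ 2 ∈ IntermediateField.adjoin k (Set.range fun i => c.Z (a i))) ∧
    (∀ i l, IsAlgebraic (Algebra.adjoin k {c.d (a i) (o l)}) (c.Z (a i))) ∧
    ∀ J : Finset (κ × Fin r), J.Nonempty → ∏ s ∈ J, c.d (a s.1) (o s.2) ∉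
      IntermediateField.adjoin k (Set.range fun i => c.Z (a i)) := by
  classical
  let L : k[X] := C (γ 0) * X + C (γ 2)
  let b : Fin r → k[X] := fun l => C (γ 0 * w l + γ 1) * X + C (γ 2 * w l + γ 3)
  have eL : ∀ l, L.eval (z l) ≠ 0 := fun l => by simpa [L] using h3 l
  have eb : ∀ l l', l ≤ l' → (b l').eval (z l) ≠ 0 := fun l l' e => by
    have := h4 l l' e
    rw [bil] at this
    simp only [b, eval_add, eval_mul, eval_C, eval_X]
    exact fun g => this (by linear_combination g)
  have L0 : Fin r → L ≠ 0 := fun l g => eL l (by rw [g, eval_zero])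
  have nz : ∀ i (p : k[X]), p ≠ 0 → aeval (c.Z (a i)) p ≠ 0 := fun i p hp g =>
    h1.transcendental i ⟨p, hp, g⟩
  have key : ∀ i l, c.d (a i) (o l) ^ 2 * aeval (c.Z (a i)) L =
      aeval (c.Z (a i)) (-((X - C (z l)) * b l)) := fun i l => by
    have e := h2 i
    simp only [Cf.On, bil] at e
    rw [← c.sq, hz, hw]
    simp only [L, b, map_neg, map_mul, map_add, map_sub, aeval_X, aeval_C]
    linear_combination (c.Z (a i) - algebraMap k Ω (z l)) * e
  have mem : ∀ i (p : k[X]), aeval (c.Z (a i)) p ∈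
      IntermediateField.adjoin k (Set.range fun i => c.Z (a i)) := fun i p =>
    IntermediateField.algebra_adjoin_le_adjoin k _ (Algebra.adjoin_mono
      (Set.singleton_subset_iff.2 (Set.mem_range_self i)) (aeval_mem_adjoin_singleton k _))
  refine ⟨fun i l => ?_, fun i l => ?_, fun J hJ hm => ?_⟩
  · rw [eq_div_of_mul_eq (nz i L (L0 l)) (key i l)]
    exact div_mem (mem i _) (mem i _)
  · have d0 : c.d (a i) (o l) ≠ 0 := c.ne _ _ fun g => nz i _ (X_sub_C_ne_zero (z l)) (by
      rw [g, hz]; simp)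
    let A := Algebra.adjoin k {c.d (a i) (o l)}
    let δ : A := ⟨_, Algebra.self_mem_adjoin_singleton k _⟩
    refine ⟨C (δ ^ 2) * L.map (algebraMap k A) + ((X - C (z l)) * b l).map (algebraMap k A),
      fun g => ?_, ?_⟩
    · have e := congrArg (aeval (algebraMap k Ω (z l))) g
      rw [map_add, map_mul, aeval_C, aeval_map_algebraMap, aeval_map_algebraMap, map_zero,
        aeval_algebraMap_apply, aeval_algebraMap_apply] at e
      simp only [map_mul, map_sub, aeval_X, aeval_C, Algebra.algebraMap_self, RingHom.id_apply,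
        sub_self, zero_mul, map_zero, add_zero, map_pow, coe_aeval_eq_eval] at e
      exact mul_ne_zero (pow_ne_zero 2 d0) ((_root_.map_ne_zero _).2 (eL l)) e
    · rw [map_add, map_mul, aeval_C, aeval_map_algebraMap, aeval_map_algebraMap, map_pow]
      have := key i l
      rw [map_neg] at this
      exact eq_neg_iff_add_eq_zero.1 this
  · let q : Fin r → k[X] := fun l => (X - C (z l)) * -(b l * L)
    have hq : ∀ l, q l ≠ 0 := fun l => mul_ne_zero (X_sub_C_ne_zero _) (neg_ne_zero.2
      (mul_ne_zero (fun g => eb l l le_rfl (by rw [g, eval_zero])) (L0 l)))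
    obtain ⟨s, hs, hmin⟩ := exists_min_image J Prod.snd hJ
    have ns := cb_nsq q hq hs (z := z s.2) rfl (by
      rw [eval_neg, eval_mul]; exact neg_ne_zero.2 (mul_ne_zero (eb _ _ le_rfl) (eL _)))
      fun t ht ts e => by
        simp only [q, eval_mul, eval_neg, eval_sub, eval_X, eval_C]
        refine mul_ne_zero (fun g => c.Z_ne (i := o s.2) (j := o t.2)
          (fun g' => ts (Prod.ext e (ho g').symm)) ?_)
          (neg_ne_zero.2 (mul_ne_zero (eb _ _ (hmin t ht)) (eL _)))
        rw [hz, hz, ← map_sub, g, map_zero]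
    have hm2 := mul_mem hm (prod_mem (t := J) fun t _ => mem t.1 L)
    obtain ⟨A, B, e⟩ := (IntermediateField.mem_adjoin_range_iff k _ _).1 hm2
    have e2 : ((∏ t ∈ J, c.d (a t.1) (o t.2)) * ∏ t ∈ J, aeval (c.Z (a t.1)) L) ^ 2 =
        MvPolynomial.aeval (fun i => c.Z (a i))
          (∏ t ∈ J, aeval (MvPolynomial.X t.1 : MvPolynomial κ k) (q t.2)) := by
      rw [← prod_mul_distrib, ← prod_pow, map_prod]
      refine prod_congr rfl fun t _ => ?_
      rw [← aeval_algHom_apply, MvPolynomial.aeval_X, mul_pow, pow_two (aeval _ L), ← mul_assoc,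
        key, ← map_mul]
      congr 1
      simp only [q]
      ring
    by_cases hB : MvPolynomial.aeval (fun i => c.Z (a i)) B = 0
    · refine ns 0 (h1 ?_)
      rw [← e2, e, hB]; simp
    · have e3 : A ^ 2 =
          B ^ 2 * ∏ t ∈ J, aeval (MvPolynomial.X t.1 : MvPolynomial κ k) (q t.2) := by
        refine h1 ?_
        rw [map_mul, ← e2, e, map_pow, map_pow]; field_simp
      obtain ⟨D, rfl⟩ := (IsIntegrallyClosed.pow_dvd_pow_iff two_ne_zero).1 ⟨_, e3⟩
      have B0 : B ≠ 0 := fun h => hB (by rw [h, map_zero])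
      refine ns D (mul_left_cancel₀ (pow_ne_zero 2 B0) ?_)
      rw [← e3]; ring

end Pool.Agent.Lib.MP_e5111b_co.Gp
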