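import Mathlib

set_option autoImplicit false

namespace Pool.Agent.Lib.MP_e5111b_co.Gp

open Finset

theorem cv_par {v1 v2 u1 u2 w1 w2 : ℝ} (h0 : 0 < v1 ^ 2 + v2 ^ 2) (h0' : 0 < u1 ^ 2 + u2 ^ 2)
    (hc : v1 * u2 - v2 * u1 = 0) (h1 : v1 * (v1 + w1) + v2 * (v2 + w2) ≤ 0)
    (h2 : u1 * (u1 + w1) + u2 * (u2 + w2) ≤ 0)
    (h3 : (v1 + w1) ^ 2 + (v2 + w2) ^ 2 = (u1 + w1) ^ 2 + (u2 + w2) ^ 2) : u1 = v1 ∧ u2 = v2 := by
  obtain ⟨s, hs⟩ : ∃ s, s = (u1 * v1 + u2 * v2) / (v1 ^ 2 + v2 ^ 2) := ⟨_, rfl⟩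
  have e1 : u1 = s * v1 := by
    rw [hs]
    field_simp
    linear_combination -v2 * hc
  have e2 : u2 = s * v2 := by
    rw [hs]
    field_simp
    linear_combination v1 * hc
  clear hs hc
  subst e1 e2
  obtain ⟨n, hn⟩ : ∃ n, n = v1 ^ 2 + v2 ^ 2 := ⟨_, rfl⟩
  obtain ⟨m, hm⟩ : ∃ m, m = v1 * w1 + v2 * w2 := ⟨_, rfl⟩
  have a1 : n + m ≤ 0 := by rw [hn, hm]; linarith
  have a2 : s ^ 2 * n + s * m ≤ 0 := by rw [hn, hm]; linarith
  have a3 : (1 - s) * ((1 + s) * n + 2 * m) = 0 := by rw [hn, hm]; linear_combination h3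
  rw [← hn] at h0
  have : s = 1 := by
    by_contra h
    have a4 := (mul_eq_zero.1 a3).resolve_left (sub_ne_zero.2 (Ne.symm h))
    have a5 : 1 ≤ s := by nlinarith
    have a6 : 0 < s - 1 := sub_pos.2 (lt_of_le_of_ne a5 (Ne.symm h))
    have a7 : s * (s - 1) * n ≤ 0 := by nlinarith
    exact absurd a7 (not_le.2 (by positivity))
  simp [this]

theorem cv_neg {α β v1 v2 u1 u2 : ℝ} (h0 : α ≠ 0 ∨ β ≠ 0) (h1 : α * v1 + β * v2 = 0)
    (h2 : α * u1 + β * u2 ≤ 0) (hc : v1 * u2 - v2 * u1 ≠ 0) : α * u1 + β * u2 < 0 :=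
  lt_of_le_of_ne h2 fun e => hc (h0.elim
    (fun h => mul_left_cancel₀ h (by linear_combination u2 * h1 - v2 * e))
    fun h => mul_left_cancel₀ h (by linear_combination v1 * e - u1 * h1))

theorem cv_opp {a b c d : ℝ} (ha : a < 0) (hb : b < 0) (hc : c ≠ 0) (h : c * a + d * b = 0) :
    c * d < 0 := by
  by_contra e
  have h1 := mul_neg_of_pos_of_neg (by positivity : 0 < c ^ 2) ha
  have h2 := mul_nonpos_of_nonneg_of_nonpos (not_lt.1 e) hb.le
  refine (add_neg_of_neg_of_nonpos h1 h2).ne ?_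
  linear_combination c * h

theorem cv_sgn {a b c : ℝ} (h1 : b * c < 0) (h2 : c * a < 0) (h3 : a * b < 0) : False :=
  absurd (mul_neg_of_pos_of_neg (mul_pos_of_neg_of_neg h1 h2) h3)
    (not_lt.2 (le_of_le_of_eq (sq_nonneg (a * b * c)) (by ring)))

theorem cv_three {a1 b1 a2 b2 a3 b3 x1 y1 x2 y2 x3 y3 : ℝ} (e1 : a1 * x1 + b1 * y1 = 0)
    (e2 : a2 * x2 + b2 * y2 = 0) (e3 : a3 * x3 + b3 * y3 = 0) (n12 : a1 * x2 + b1 * y2 < 0)
    (n13 : a1 * x3 + b1 * y3 < 0) (n23 : a2 * x3 + b2 * y3 < 0) (n21 : a2 * x1 + b2 * y1 < 0)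
    (n31 : a3 * x1 + b3 * y1 < 0) (n32 : a3 * x2 + b3 * y2 < 0) (c1 : x2 * y3 - y2 * x3 ≠ 0)
    (c2 : x3 * y1 - y3 * x1 ≠ 0) (c3 : x1 * y2 - y1 * x2 ≠ 0) : False :=
  cv_sgn (cv_opp (d := x1 * y2 - y1 * x2) n12 n13 c2
      (by linear_combination -(x2 * y3 - y2 * x3) * e1))
    (cv_opp (d := x2 * y3 - y2 * x3) n23 n21 c3 (by linear_combination -(x3 * y1 - y3 * x1) * e2))
    (cv_opp (d := x3 * y1 - y3 * x1) n31 n32 c1 (by linear_combination -(x1 * y2 - y1 * x2) * e3))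

theorem cv_out {x1 x2 a1 a2 o1 o2 r : ℝ} (h0 : 0 < (x1 - a1) ^ 2 + (x2 - a2) ^ 2)
    (e : (x1 - a1) * (x1 - o1) + (x2 - a2) * (x2 - o2) ≤ 0)
    (s : (x1 - o1) ^ 2 + (x2 - o2) ^ 2 = r ^ 2) (s' : (a1 - o1) ^ 2 + (a2 - o2) ^ 2 = r ^ 2) :
    False := by
  refine (add_pos_of_pos_of_nonneg h0 (mul_nonneg zero_le_two (neg_nonneg.2 e))).ne' ?_
  linear_combination s' - s

theorem cv_mid {α β t x1 x2 a1 a2 b1 b2 : ℝ} (t0 : 0 < t) (t1 : t < 1)
    (e1 : x1 = a1 + t * (b1 - a1)) (e2 : x2 = a2 + t * (b2 - a2))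
    (h1 : α * a1 + β * a2 ≤ α * x1 + β * x2) (h2 : α * b1 + β * b2 ≤ α * x1 + β * x2) :
    α * (x1 - a1) + β * (x2 - a2) = 0 := by
  have h3 : (1 - t) * (α * (x1 - a1) + β * (x2 - a2)) + t * (α * (x1 - b1) + β * (x2 - b2)) = 0 := by
    linear_combination α * e1 + β * e2
  have h4 : 0 ≤ t * (α * (x1 - b1) + β * (x2 - b2)) := mul_nonneg t0.le (by linarith)
  exact le_antisymm (nonpos_of_mul_nonpos_right (by linarith) (sub_pos.2 t1)) (by linarith)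

variable {ι : Type} {X : ι → ℂ}

theorem cv_supp (hc : ∀ i, X i ∈ frontier (convexHull ℝ (Set.range X)))
    (hl : ∀ u w : ℂ, ∃ i, X i ∉ line[ℝ, u, w]) (i : ι) : ∃ α β : ℝ, (α ≠ 0 ∨ β ≠ 0) ∧
      ∀ j, α * (X j).re + β * (X j).im ≤ α * (X i).re + β * (X i).im := by
  obtain ⟨a, ha⟩ := hl (X i) (X i)
  obtain ⟨b, hb⟩ := hl (X i) (X a)
  have h1 : X i ≠ X a := fun e => ha (e ▸ left_mem_affineSpan_pair _ _ _)
  have h2 : AffineIndependent ℝ ![X i, X a, X b] :=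
    affineIndependent_iff_not_collinear_set.2 fun h =>
      hb (h.mem_affineSpan_of_mem_of_ne (by simp) (by simp) (by simp) h1)
  have h3 := h2.affineSpan_eq_top_iff_card_eq_finrank_add_one.2 (by simp)
  have h4 : affineSpan ℝ (Set.range X) = ⊤ := eq_top_iff.2 (h3.ge.trans (affineSpan_mono _ (by
    rintro _ ⟨j, rfl⟩
    fin_cases j <;> simp)))
  obtain ⟨f, f0, hf⟩ := geometric_hahn_banach_of_nonempty_interior_point
    (convex_convexHull ℝ (Set.range X)) (hc i).2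
    (interior_convexHull_nonempty_iff_affineSpan_eq_top.2 h4)
  have e : ∀ z : ℂ, f z = f 1 * z.re + f Complex.I * z.im := fun z => by
    conv_lhs => rw [← Complex.re_add_im z, ← mul_one (z.re : ℂ), ← Complex.real_smul,
      ← Complex.real_smul, map_add, map_smul, map_smul]
    simp [mul_comm]
  refine ⟨f 1, f Complex.I, ?_, fun j => ?_⟩
  · by_contra h
    push Not at h
    exact f0 (ContinuousLinearMap.ext fun z => by simp [e z, h.1, h.2])
  · rw [← e, ← e]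
    exact hf _ (subset_convexHull _ _ ⟨j, rfl⟩)

theorem cv_btw {a x b : ℂ} (h : Sbtw ℝ a x b) : ∃ t : ℝ, 0 < t ∧ t < 1 ∧
    x.re = a.re + t * (b.re - a.re) ∧ x.im = a.im + t * (b.im - a.im) := by
  obtain ⟨⟨t, ⟨h0, h1⟩, rfl⟩, -⟩ := sbtw_iff_mem_image_Ioo_and_ne.1 h
  refine ⟨t, h0, h1, ?_, ?_⟩ <;> simp [AffineMap.lineMap_apply, add_comm]

theorem cv_sph {x o : ℂ} {r : ℝ} (h : x ∈ Metric.sphere o r) :
    (x.re - o.re) ^ 2 + (x.im - o.im) ^ 2 = r ^ 2 := by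
  rw [← Metric.mem_sphere.1 h, Complex.dist_eq_re_im, Real.sq_sqrt (by positivity)]

theorem cv_pos {a x : ℂ} (h : x ≠ a) : 0 < (x.re - a.re) ^ 2 + (x.im - a.im) ^ 2 := by
  rw [cv_sph (x := x) (o := a) (r := dist x a) rfl]
  exact pow_pos (dist_pos.2 h) 2

/-- in weakly convex position a circle misses a third as many points as there are non-vertices -/
theorem miss_circle [Fintype ι] (hX : Function.Injective X)
    (hc : ∀ i, X i ∈ frontier (convexHull ℝ (Set.range X)))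
    (hl : ∀ u w : ℂ, ∃ i, X i ∉ line[ℝ, u, w]) (o : ℂ) (r : ℝ) :
    {i | ∃ a b, Sbtw ℝ (X a) (X i) (X b)}.ncard ≤ 3 * {i | X i ∉ Metric.sphere o r}.ncard := by
  classical
  choose α β h0 hs using cv_supp hc hl
  let R : ι → ι → Prop := fun i a => (∃ b, Sbtw ℝ (X a) (X i) (X b)) ∧
    ((X i).re - (X a).re) * ((X i).re - o.re) + ((X i).im - (X a).im) * ((X i).im - o.im) ≤ 0
  have ex : ∀ i, (∃ a b, Sbtw ℝ (X a) (X i) (X b)) → ∃ a, R i a := by
    rintro i ⟨a, b, h⟩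
    obtain ⟨t, t0, t1, e1, e2⟩ := cv_btw h
    by_contra hn
    have h1 := not_le.1 fun e => hn ⟨a, ⟨b, h⟩, e⟩
    have h2 := not_le.1 fun e => hn ⟨b, ⟨a, h.symm⟩, e⟩
    have h3 := add_pos (mul_pos (sub_pos.2 t1) h1) (mul_pos t0 h2)
    refine h3.ne' ?_
    linear_combination ((X i).re - o.re) * e1 + ((X i).im - o.im) * e2
  choose! g hg using ex
  have eq : ∀ i a, R i a → α i * ((X i).re - (X a).re) + β i * ((X i).im - (X a).im) = 0 := by
    rintro i a ⟨⟨b, h⟩, -⟩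
    obtain ⟨t, t0, t1, e1, e2⟩ := cv_btw h
    exact cv_mid t0 t1 e1 e2 (hs i a) (hs i b)
  have cr : ∀ i j a, R i a → R j a → X i ∈ Metric.sphere o r → X j ∈ Metric.sphere o r → i ≠ j →
      ((X i).re - (X a).re) * ((X j).im - (X a).im) -
        ((X i).im - (X a).im) * ((X j).re - (X a).re) ≠ 0 := by
    rintro i j a ⟨⟨b, h⟩, hi⟩ ⟨⟨b', h'⟩, hj⟩ si sj hij e
    obtain ⟨e1, e2⟩ := cv_par (w1 := (X a).re - o.re) (w2 := (X a).im - o.im) (cv_pos h.2.1)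
      (cv_pos h'.2.1) e (by linarith) (by linarith)
      (by linear_combination cv_sph si - cv_sph sj)
    exact hij (hX (Complex.ext (by linarith) (by linarith)))
  have ng : ∀ i j a, R i a → R j a → X i ∈ Metric.sphere o r → X j ∈ Metric.sphere o r → i ≠ j →
      α i * ((X j).re - (X a).re) + β i * ((X j).im - (X a).im) < 0 := fun i j a ri rj si sj h =>
    cv_neg (h0 i) (eq i a ri) (by linarith [eq i a ri, hs i j]) (cr i j a ri rj si sj h)
  let A := univ.filter fun i => (∃ a b, Sbtw ℝ (X a) (X i) (X b)) ∧ X i ∈ Metric.sphere o r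
  let M := univ.filter fun i => X i ∉ Metric.sphere o r
  have h1 : #A ≤ 2 * #M := by
    refine card_le_mul_card_image_of_maps_to (f := g) (fun i hi => ?_) 2 fun a _ => ?_
    · obtain ⟨h, s⟩ := (mem_filter.1 hi).2
      obtain ⟨⟨b, hb⟩, e⟩ := hg i h
      exact mem_filter.2 ⟨mem_univ _, fun s' => cv_out (cv_pos hb.2.1) e (cv_sph s) (cv_sph s')⟩
    · by_contra h
      obtain ⟨i, j, l, hi, hj, hl, ij, il, jl⟩ := two_lt_card_iff.1 (not_le.1 h)
      have k : ∀ i ∈ A.filter fun i => g i = a, R i a ∧ X i ∈ Metric.sphere o r := fun i hi => by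
        obtain ⟨h1, rfl⟩ := mem_filter.1 hi
        exact ⟨hg i (mem_filter.1 h1).2.1, (mem_filter.1 h1).2.2⟩
      obtain ⟨ri, si⟩ := k i hi
      obtain ⟨rj, sj⟩ := k j hj
      obtain ⟨rl, sl⟩ := k l hl
      exact cv_three (eq i a ri) (eq j a rj) (eq l a rl) (ng i j a ri rj si sj ij)
        (ng i l a ri rl si sl il) (ng j l a rj rl sj sl jl) (ng j i a rj ri sj si ij.symm)
        (ng l i a rl ri sl si il.symm) (ng l j a rl rj sl sj jl.symm) (cr j l a rj rl sj sl jl)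
        (cr l i a rl ri sl si il.symm) (cr i j a ri rj si sj ij)
  have h2 : {i | X i ∉ Metric.sphere o r} = (M : Set ι) := by ext; simp [M]
  have h3 : {i | ∃ a b, Sbtw ℝ (X a) (X i) (X b)} ⊆ ((A ∪ M : Finset ι) : Set ι) := fun i hi => by
    by_cases s : X i ∈ Metric.sphere o r
    · exact mem_coe.2 (mem_union_left _ (mem_filter.2 ⟨mem_univ _, hi, s⟩))
    · exact mem_coe.2 (mem_union_right _ (mem_filter.2 ⟨mem_univ _, s⟩))
  have h4 := Set.ncard_le_ncard h3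
  have h5 := card_union_le A M
  rw [Set.ncard_coe_finset] at h4
  rw [h2, Set.ncard_coe_finset]
  omega

end Pool.Agent.Lib.MP_e5111b_co.Gp
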