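import Mathlib

set_option autoImplicit false

/-! Paucity off lines and circles: definitions. -/

namespace Pool.Agent.Lib.MP_e5111b_co.Gp

open Finset WithZero

/-- the places of a function field of one variable, with all complexities bounded by `B` -/
structure Cur (k K : Type) [Field k] [Field K] [Algebra k K] (B : ℕ) where
  P : Type
  v : P → Valuation K ℤᵐ⁰
  S : Finset P
  D : Derivation k K K
  t : K
  nonempty : Nonempty P
  card_S : #S ≤ B
  triv : ∀ p (c : k), v p (algebraMap k K c) ≤ 1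
  res : ∀ p f, v p f ≤ 1 → ∃ c : k, v p (f - algebraMap k K c) < 1
  unif : ∀ p, ∃ π, v p π = exp (-1)
  Dt : D t = 1
  t_le : ∀ p, v p t ≤ exp (B : ℤ)
  t_good : ∀ p ∉ S, v p t ≤ 1
  dgood : ∀ p ∉ S, ∀ f, v p f ≤ 1 → v p (D f) ≤ 1
  dbad : ∀ p f, v p f ≤ 1 → v p (D f) ≤ exp (B : ℤ)
  cnt : ∀ (m : ℕ) (f : K), f ≠ 0 → (∀ p, v p f ≤ exp (m : ℤ)) → (∀ p ∉ S, v p f ≤ 1) →
    ∀ (T : Finset P) (e : P → ℕ), (∀ p ∈ T, v p f ≤ exp (-(e p : ℤ))) → ∑ p ∈ T, e p ≤ B * m

/-- poles only in `S`, of order at most `m` -/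
def Cur.Reg {k K : Type} [Field k] [Field K] [Algebra k K] {B : ℕ} (C : Cur k K B) (m : ℕ)
    (f : K) : Prop :=
  (∀ p, C.v p f ≤ exp (m : ℤ)) ∧ ∀ p ∉ C.S, C.v p f ≤ 1

/-- `f` has poles only where `t` has, of order at most `j` times that of `t` -/
def Itg (k : Type) {K : Type} [Field k] [Field K] [Algebra k K] (t : K) (j : ℕ) (f : K) : Prop :=
  IsIntegral (Algebra.adjoin k {t}) f ∧ IsIntegral (Algebra.adjoin k {t⁻¹}) (f / t ^ j)

/-- points in isotropic coordinates whose distances lie in the field -/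
structure Cf (ι K : Type) [Field K] where
  Z : ι → K
  W : ι → K
  d : ι → ι → K
  sq : ∀ i j, (Z i - Z j) * (W i - W j) = d i j ^ 2
  ne : ∀ i j, i ≠ j → d i j ≠ 0

/-- the equation of a line or circle -/
def bil {K : Type} [CommRing K] (γ : Fin 4 → K) (z w : K) : K :=
  γ 0 * (z * w) + γ 1 * z + γ 2 * w + γ 3

namespace Cf

variable {ι K : Type} [Field K] (c : Cf ι K)

/-- the two coordinates exchanged -/
def swap : Cf ι K := ⟨c.W, c.Z, c.d, fun i j => by rw [mul_comm, c.sq], c.ne⟩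

theorem Z_ne {i j : ι} (h : i ≠ j) : c.Z i - c.Z j ≠ 0 :=
  left_ne_zero_of_mul (by rw [c.sq]; exact pow_ne_zero 2 (c.ne i j h))

theorem W_ne {i j : ι} (h : i ≠ j) : c.W i - c.W j ≠ 0 := c.swap.Z_ne h

/-- point `i` lies on `γ` -/
def On (γ : Fin 4 → K) (i : ι) : Prop := bil γ (c.Z i) (c.W i) = 0

/-- every line or circle misses `n` points -/
def Miss (n : ℕ) : Prop := ∀ γ : Fin 4 → K, γ ≠ 0 → ∃ Y : Finset ι, n ≤ #Y ∧ ∀ i ∈ Y, ¬ c.On γ i

/-- four points on a line or circle -/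
def cyc (i j l m : ι) : K :=
  (c.Z i - c.Z l) * (c.Z j - c.Z m) * ((c.W i - c.W m) * (c.W j - c.W l)) -
    (c.Z i - c.Z m) * (c.Z j - c.Z l) * ((c.W i - c.W l) * (c.W j - c.W m))

variable (k : Type) [Field k] [Algebra k K]

/-- the shape of the triangle `a`, `b`, `i` is constant -/
def Con (a b i : ι) : Prop := ∃ u w : k, c.Z i - c.Z a = algebraMap k K u * (c.Z b - c.Z a) ∧
  c.W i - c.W a = algebraMap k K w * (c.W b - c.W a)

/-- the differences of the two coordinates have the same divisor up to a fixed one -/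
def Hom (Y : Finset ι) : Prop := ∃ μ : K, ∀ i ∈ Y, ∀ j ∈ Y, ∃ u : k,
  c.W i - c.W j = algebraMap k K u * μ * (c.Z i - c.Z j)

/-- point `i` moves on a line or circle defined over `k` that also holds point `j` -/
def Bad (i j : ι) : Prop := (∃ γ : Fin 4 → k, γ ≠ 0 ∧ c.On (fun r => algebraMap k K (γ r)) i) ∧
  ∀ γ : Fin 4 → k, c.On (fun r => algebraMap k K (γ r)) i → c.On (fun r => algebraMap k K (γ r)) j

end Cf

/-- a realization with coprime integer distances such that every line and every circle misses at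
least `n` points -/
def Good {ι : Type} (n : ℕ) (P : ι × ι → ℤ) : Prop :=
  (∀ q : ℕ, (∀ i, (q : ℤ) ∣ P i) → q = 1) ∧ ∃ X : ι → ℂ, Function.Injective X ∧
    (∀ a b, dist (X a) (X b) = P (a, b)) ∧
    (∀ u w : ℂ, n ≤ {i | X i ∉ line[ℝ, u, w]}.ncard) ∧
    ∀ (o : ℂ) (r : ℝ), n ≤ {i | X i ∉ Metric.sphere o r}.ncard

/-- the configuration attached to a matrix `x` over a field, normalized by the points `p`, `q` -/
structure Norm (F : Type) {ι Ω : Type} [Field F] [Field Ω] [Algebra F Ω] (x : ι × ι → Ω)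
    (p q : ι) (c : Cf ι Ω) : Prop where
  ne : p ≠ q
  d : ∀ i j, c.d i j = 2 * x (p, q) * x (i, j)
  Zp : c.Z p = 0
  Wp : c.W p = 0
  Zq : c.Z q = 2 * x (p, q) ^ 2
  Wq : c.W q = 2 * x (p, q) ^ 2
  gen : ∃ o, ∀ i, ∃ a ∈ IntermediateField.adjoin F (Set.range x),
    ∃ b ∈ IntermediateField.adjoin F (Set.range x), c.Z i = a + b * c.Z o

end Pool.Agent.Lib.MP_e5111b_co.Gp
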