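import Pool.Agent.Lib.MP_e5111b_co.Gp.Defs

set_option autoImplicit false

namespace Pool.Agent.Lib.MP_e5111b_co.Gp

open Finset Polynomial IntermediateField

variable {k K : Type} [Field k] [Field K] [Algebra k K] {t : K}

theorem exists_der [CharZero k] (ht : Transcendental k t) [FiniteDimensional k⟮t⟯ K] :
    ∃ D : Derivation k K K, D t = 1 := by
  have : CharZero k⟮t⟯ := charZero_of_injective_algebraMap (algebraMap k k⟮t⟯).injective
  have : Algebra.IsSeparable k⟮t⟯ K := Algebra.IsAlgebraic.isSeparable_of_perfectField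
  let e := RatFunc.algEquivOfTranscendental t ht
  let _ : Algebra k[X] k⟮t⟯ :=
    ((e : RatFunc k →+* k⟮t⟯).comp (algebraMap k[X] (RatFunc k))).toAlgebra
  let _ : Algebra k[X] K := ((algebraMap k⟮t⟯ K).comp (algebraMap k[X] k⟮t⟯)).toAlgebra
  have : IsScalarTower k[X] k⟮t⟯ K := .of_algebraMap_eq fun _ => rfl
  have hP : ∀ a : k[X], algebraMap k[X] K a = aeval t a := fun a => by
    change ((e (algebraMap k[X] (RatFunc k) a) : k⟮t⟯) : K) = _
    rw [RatFunc.algEquivOfTranscendental_algebraMap]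
    exact (aeval_algHom_apply k⟮t⟯.val (AdjoinSimple.gen k t) a).symm
  have : IsScalarTower k k[X] K := .of_algebraMap_eq fun c => by
    rw [hP]
    exact ((aeval t).commutes c).symm
  have : IsFractionRing k[X] k⟮t⟯ := IsLocalization.isLocalization_of_algEquiv
    (nonZeroDivisors k[X]) (AlgEquiv.ofRingEquiv (f := e.toRingEquiv) fun _ => rfl)
  have : Algebra.FormallyEtale k[X] k⟮t⟯ := .of_isLocalization (nonZeroDivisors k[X])
  have : Algebra.FormallyEtale k⟮t⟯ K := .of_isSeparable k⟮t⟯ K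
  have : Algebra.FormallyEtale k[X] K := .comp k[X] k⟮t⟯ K
  let g : Ω[k[X]⁄k] →ₗ[k[X]] K :=
    (Algebra.linearMap k[X] K) ∘ₗ (KaehlerDifferential.polynomialEquiv k).toLinearMap
  have hb := KaehlerDifferential.isBaseChange_of_formallyEtale k k[X] K
  refine ⟨(hb.lift g).compDer (KaehlerDifferential.D k K), ?_⟩
  have e1 : t = algebraMap k[X] K X := by rw [hP, aeval_X]
  change hb.lift g (KaehlerDifferential.D k K t) = 1
  rw [show KaehlerDifferential.D k K t = KaehlerDifferential.D k K (algebraMap k[X] K X) from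
    congrArg _ e1, ← KaehlerDifferential.map_D k k k[X] K, hb.lift_eq]
  simp [g]

open scoped IntermediateField.algebraAdjoinAdjoin in
theorem der_poly {s x : K} (hs : Transcendental k s) (hx : x ∈ k⟮s⟯)
    (h : IsIntegral (Algebra.adjoin k {s}) x) : ∃ r : k[X], x = aeval s r := by
  have : IsPrincipalIdealRing (Algebra.adjoin k {s}) :=
    IsPrincipalIdealRing.of_surjective (Polynomial.algEquivOfTranscendental k s hs).toRingHom
      (Polynomial.algEquivOfTranscendental k s hs).surjective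
  have h1 : IsIntegral (Algebra.adjoin k {s}) (⟨x, hx⟩ : k⟮s⟯) :=
    (isIntegral_algebraMap_iff (algebraMap k⟮s⟯ K).injective).1 h
  obtain ⟨y, hy⟩ := IsIntegrallyClosed.isIntegral_iff.1 h1
  obtain ⟨r, hr⟩ : (y : K) ∈ (aeval s : k[X] →ₐ[k] K).range :=
    Algebra.adjoin_singleton_eq_range_aeval k s ▸ y.2
  have e : (y : K) = x := congrArg (fun z : k⟮s⟯ => (z : K)) hy
  exact ⟨r, (hr.trans e).symm⟩

theorem der_norm {s x : K} (hs : s ∈ k⟮t⟯) (h : IsIntegral (Algebra.adjoin k {s}) x) :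
    IsIntegral (Algebra.adjoin k {s}) ((Algebra.norm k⟮t⟯ x : k⟮t⟯) : K) := by
  have hle : Algebra.adjoin k {s} ≤ k⟮t⟯.toSubalgebra :=
    Algebra.adjoin_le (Set.singleton_subset_iff.2 hs)
  let _ : Algebra (Algebra.adjoin k {s}) k⟮t⟯ := (Subalgebra.inclusion hle).toAlgebra
  have : IsScalarTower (Algebra.adjoin k {s}) k⟮t⟯ K := .of_algebraMap_eq fun _ => rfl
  exact (Algebra.isIntegral_norm k⟮t⟯ h).algebraMap

theorem norm_deg (ht : Transcendental k t) [FiniteDimensional k⟮t⟯ K] {m : ℕ} {g : K}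
    (hg : Itg k t m g) : ∃ q : k[X], ((Algebra.norm k⟮t⟯ g : k⟮t⟯) : K) = aeval t q ∧
      q.natDegree ≤ Module.finrank k⟮t⟯ K * m := by
  have t0 : t ≠ 0 := fun e => ht (e ▸ isAlgebraic_zero)
  have tm : t ∈ k⟮t⟯ := mem_adjoin_simple_self k t
  obtain ⟨q, hq⟩ := der_poly ht (Algebra.norm k⟮t⟯ g).2 (der_norm tm hg.1)
  refine ⟨q, hq, ?_⟩
  have h2 := der_norm (inv_mem tm) hg.2
  have e : ((Algebra.norm k⟮t⟯ (g / t ^ m) : k⟮t⟯) : K) =
      aeval t q * t⁻¹ ^ (Module.finrank k⟮t⟯ K * m) := by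
    have : g / t ^ m = g * algebraMap k⟮t⟯ K (⟨t⁻¹, inv_mem tm⟩ ^ m) := by
      rw [map_pow, div_eq_mul_inv, ← inv_pow]
      rfl
    rw [this, map_mul, Algebra.norm_algebraMap, ← pow_mul, mul_comm m, ← hq]
    rfl
  rw [e] at h2
  have im : t⁻¹ ∈ k⟮t⁻¹⟯ := mem_adjoin_simple_self k t⁻¹
  have tm' : t ∈ k⟮t⁻¹⟯ := by simpa using inv_mem im
  have hi : Transcendental k t⁻¹ := fun h => ht (IsAlgebraic.inv_iff.1 h)
  have qm : aeval t q ∈ k⟮t⁻¹⟯ := by
    have := aeval_algHom_apply k⟮t⁻¹⟯.val ⟨t, tm'⟩ q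
    exact (show aeval t q = _ from this) ▸ (aeval (⟨t, tm'⟩ : k⟮t⁻¹⟯) q).2
  obtain ⟨r, hr⟩ := der_poly hi (mul_mem qm (pow_mem im _)) h2
  let _ := invertibleOfNonzero (inv_ne_zero t0)
  have h3 := eval₂_reverse_mul_pow (algebraMap k K) t⁻¹ r
  rw [invOf_eq_inv, inv_inv, ← aeval_def, ← aeval_def, ← hr] at h3
  have h4 : q * X ^ r.natDegree = r.reverse * X ^ (Module.finrank k⟮t⟯ K * m) := by
    apply transcendental_iff_injective.1 ht
    simp only [map_mul, map_pow, aeval_X]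
    rw [inv_pow, inv_pow] at h3
    field_simp at h3
    linear_combination -h3
  by_cases q0 : q = 0
  · simp [q0]
  have h5 := congrArg natDegree h4
  rw [natDegree_mul_X_pow _ q0] at h5
  have h6 := natDegree_mul_le (p := r.reverse) (q := X ^ (Module.finrank k⟮t⟯ K * m))
  have h7 := reverse_natDegree_le r
  rw [natDegree_X_pow] at h6
  omega

end Pool.Agent.Lib.MP_e5111b_co.Gp
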