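import Pool.Agent.Lib.MP_e5111b_co.Gp.GeoA
import Pool.Agent.Lib.MP_e5111b_co.Pc.Ult

set_option autoImplicit false

namespace Pool.Agent.Lib.MP_e5111b_co.Gp

open Filter MvPolynomial Finset Pc

section

variable {ι A B G : Type} [CommRing A] [CommRing B] (x : ι × ι → A) (p q : ι)

/-- twice the scalar product with the base vector -/
def gbf (i : ι) : A := x (p, i) ^ 2 + x (p, q) ^ 2 - x (q, i) ^ 2

/-- the square of the second coordinate -/
def gbS (i : ι) : A := gbf x p q i ^ 2 - 4 * x (p, q) ^ 2 * x (p, i) ^ 2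

/-- twice the product of the second coordinates -/
def gbh (i j : ι) : A :=
  4 * x (p, q) ^ 2 * x (i, j) ^ 2 - (gbf x p q i - gbf x p q j) ^ 2 + gbS x p q i + gbS x p q j

variable [FunLike G A B] [RingHomClass G A B] (φ : G)

theorem gbS_map (i : ι) : φ (gbS x p q i) = gbS (fun s => φ (x s)) p q i := by
  simp only [gbS, gbf, map_sub, map_add, map_mul, map_pow, map_ofNat]

theorem gbh_map (i j : ι) : φ (gbh x p q i j) = gbh (fun s => φ (x s)) p q i j := by
  simp only [gbh, gbS, gbf, map_sub, map_add, map_mul, map_pow, map_ofNat]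

theorem gb_pto_map (i j l m : ι) : φ (pto x i j l m) = pto (fun s => φ (x s)) i j l m := by
  simp only [pto, map_sub, map_mul, map_pow, map_ofNat]

end

theorem gb_real {ι : Type} {n : ℕ} {P : ι × ι → ℤ} (h : Good n P) (p q : ι) :
    (∀ i, P (i, i) = 0) ∧ (∀ i j, P (i, j) = P (j, i)) ∧
    (∀ i j o, gbh P p q i o * gbh P p q j o = 2 * gbS P p q o * gbh P p q i j) ∧
    ∀ i j, gbh P p q i j ^ 2 = 4 * gbS P p q i * gbS P p q j := by
  obtain ⟨-, X, -, hd, -⟩ := h
  have hs : ∀ a b, (P (a, b) : ℝ) ^ 2 = ((X a).re - (X b).re) ^ 2 + ((X a).im - (X b).im) ^ 2 := by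
    intro a b
    rw [← hd, Complex.dist_eq, Complex.sq_norm, Complex.normSq_apply]
    simp only [Complex.sub_re, Complex.sub_im]
    ring
  obtain ⟨c, hc⟩ : ∃ c : ι → ℝ, ∀ i, c i = 2 * (((X q).re - (X p).re) * ((X i).im - (X p).im) -
      ((X q).im - (X p).im) * ((X i).re - (X p).re)) := ⟨_, fun _ => rfl⟩
  have h1 : ∀ i, ((gbS P p q i : ℤ) : ℝ) = -c i ^ 2 := fun i => by
    simp only [gbS, gbf]
    push_cast
    simp only [hs, hc]
    ring
  have h2 : ∀ i j, ((gbh P p q i j : ℤ) : ℝ) = -2 * c i * c j := fun i j => by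
    simp only [gbh, gbS, gbf]
    push_cast
    simp only [hs, hc]
    ring
  refine ⟨fun i => ?_, fun i j => ?_, fun i j o => ?_, fun i j => ?_⟩
  · have := hd i i
    rw [dist_self] at this
    exact_mod_cast this.symm
  · have := (hd i j).symm.trans ((dist_comm _ _).trans (hd j i))
    exact_mod_cast this
  · apply Int.cast_injective (α := ℝ)
    push_cast
    rw [h1, h2, h2, h2]
    ring
  · apply Int.cast_injective (α := ℝ)
    push_cast
    rw [h1, h1, h2]
    ring

theorem gb_ev (c : Ctx) {σ : Type} {T : ℕ → Finset (σ → ℤ)} (hT : c.Box T) {Ω : Type} [Field Ω]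
    [Algebra c.F Ω] {x : σ → Ω} (hx : c.Gen T x) (g : MvPolynomial σ ℤ) (h : aeval x g = 0) :
    ∀ᶠ k in (c.U : Filter ℕ), ∀ P ∈ T k, eval P g = 0 := by
  obtain ⟨h1, h2⟩ := c.int_u x g
  have := (c.van_iff hT _).1 ((hx _).1 (h1.trans h))
  simpa only [h2] using this

/-- the second coordinates -/
theorem gb_root {F ι Ω : Type} [Field F] [Field Ω] [IsAlgClosed Ω] [CharZero Ω] [Algebra F Ω]
    (x : ι × ι → Ω) (p q : ι) (h0 : ∀ i, x (i, i) = 0)
    (h1 : ∀ i j o, gbh x p q i o * gbh x p q j o = 2 * gbS x p q o * gbh x p q i j)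
    (h2 : ∀ i j, gbh x p q i j ^ 2 = 4 * gbS x p q i * gbS x p q j) :
    ∃ s : ι → Ω, (∀ i j, 2 * s i * s j = gbh x p q i j) ∧
      ∃ o, ∀ i, ∃ b ∈ IntermediateField.adjoin F (Set.range x), s i = b * s o := by
  by_cases h : ∀ o, gbS x p q o = 0
  · refine ⟨fun _ => 0, fun i j => ?_, p, fun i => ⟨0, zero_mem _, by simp⟩⟩
    have := h2 i j
    rw [h, mul_zero, zero_mul] at this
    rw [mul_zero, pow_eq_zero_iff two_ne_zero |>.mp this]
  push Not at h
  obtain ⟨o, ho⟩ := h
  obtain ⟨r, hr⟩ := IsAlgClosed.exists_pow_nat_eq (gbS x p q o) two_pos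
  have r0 : r ≠ 0 := fun h => ho (by rw [← hr, h]; ring)
  have hm : ∀ s, x s ∈ IntermediateField.adjoin F (Set.range x) := fun s =>
    IntermediateField.subset_adjoin _ _ ⟨s, rfl⟩
  have hf : ∀ i, gbf x p q i ∈ IntermediateField.adjoin F (Set.range x) := fun i =>
    sub_mem (add_mem (pow_mem (hm _) _) (pow_mem (hm _) _)) (pow_mem (hm _) _)
  have hS : ∀ i, gbS x p q i ∈ IntermediateField.adjoin F (Set.range x) := fun i =>
    sub_mem (pow_mem (hf _) _) (mul_mem (mul_mem (ofNat_mem _ 4) (pow_mem (hm _) _))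
      (pow_mem (hm _) _))
  have hh : ∀ i, gbh x p q i o ∈ IntermediateField.adjoin F (Set.range x) := fun i =>
    add_mem (add_mem (sub_mem (mul_mem (mul_mem (ofNat_mem _ 4) (pow_mem (hm _) _))
      (pow_mem (hm _) _)) (pow_mem (sub_mem (hf _) (hf _)) _)) (hS _)) (hS _)
  have hoo : gbh x p q o o = 2 * r ^ 2 := by
    rw [gbh, h0, hr]
    ring
  refine ⟨fun i => gbh x p q i o / (2 * r), fun i j => ?_, o, fun i =>
    ⟨gbh x p q i o / (2 * gbS x p q o), div_mem (hh i) (mul_mem (ofNat_mem _ 2) (hS o)), ?_⟩⟩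
  · have := h1 i j o
    rw [← hr] at this
    field_simp
    linear_combination this
  · simp only [hoo, ← hr]
    field_simp

/-- the configuration of a generic point -/
theorem geo (c : Ctx) {ι : Type} [Fintype ι] {n : ℕ} {T : ℕ → Finset (ι × ι → ℤ)} (hT : c.Box T)
    (hG : ∀ k, ∀ P ∈ T k, Good n P) {Ω : Type} [Field Ω] [IsAlgClosed Ω] [Algebra c.F Ω]
    {x : ι × ι → Ω} (hx : c.Gen T x) {p q : ι} (hpq : p ≠ q) :
    ∃ cf : Cf ι Ω, Norm c.F x p q cf ∧ cf.Miss n := by
  classical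
  have : CharZero Ω := charZero_of_injective_algebraMap (algebraMap c.F Ω).injective
  have h0 : ∀ i, x (i, i) = 0 := fun i => by
    simpa using hx.zero c (X (i, i)) fun k P hP => by
      simpa using (gb_real (hG k P hP) p q).1 i
  have hsy : x (q, p) = x (p, q) := by
    have := hx.zero c (X (q, p) - X (p, q)) fun k P hP => by
      simpa [sub_eq_zero] using (gb_real (hG k P hP) p q).2.1 q p
    simpa [sub_eq_zero] using this
  have hne : ∀ i j, i ≠ j → x (i, j) ≠ 0 := fun i j hij => by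
    simpa using hx.ne_zero c hT (X (i, j)) fun k P hP => by
      simpa using ((hG k P hP).pos hij).ne'
  obtain ⟨s, hs, o, ho⟩ := gb_root (F := c.F) x p q h0 (fun i j o => by
    have := hx.zero c (gbh X p q i o * gbh X p q j o - 2 * gbS X p q o * gbh X p q i j)
      fun k P hP => by
        simp only [map_sub, map_mul, map_ofNat, gbh_map, gbS_map, eval_X]
        exact sub_eq_zero.2 ((gb_real (hG k P hP) p q).2.2.1 i j o)
    simp only [map_sub, map_mul, map_ofNat, gbh_map, gbS_map, aeval_X] at this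
    exact sub_eq_zero.1 this) fun i j => by
    have := hx.zero c (gbh X p q i j ^ 2 - 4 * gbS X p q i * gbS X p q j)
      fun k P hP => by
        simp only [map_sub, map_mul, map_pow, map_ofNat, gbh_map, gbS_map, eval_X]
        exact sub_eq_zero.2 ((gb_real (hG k P hP) p q).2.2.2 i j)
    simp only [map_sub, map_mul, map_pow, map_ofNat, gbh_map, gbS_map, aeval_X] at this
    exact sub_eq_zero.1 this
  have hS : ∀ i, s i ^ 2 = gbS x p q i := fun i => by
    have := hs i i
    rw [gbh, h0] at this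
    linear_combination this / 2
  have l0 := hne p q hpq
  let cf : Cf ι Ω := ⟨fun i => gbf x p q i + s i, fun i => gbf x p q i - s i,
    fun i j => 2 * x (p, q) * x (i, j), fun i j => by
      have := hs i j
      rw [gbh] at this
      linear_combination this - hS i - hS j,
    fun i j hij => mul_ne_zero (mul_ne_zero two_ne_zero l0) (hne i j hij)⟩
  have fp : gbf x p q p = 0 := by rw [gbf, h0, hsy]; ring
  have fq : gbf x p q q = 2 * x (p, q) ^ 2 := by rw [gbf, h0]; ring
  have sp : s p = 0 := pow_eq_zero_iff two_ne_zero |>.mp (by rw [hS, gbS, fp, h0]; ring)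
  have sq' : s q = 0 := pow_eq_zero_iff two_ne_zero |>.mp (by rw [hS, gbS, fq]; ring)
  have hm : ∀ s, x s ∈ IntermediateField.adjoin c.F (Set.range x) := fun s =>
    IntermediateField.subset_adjoin _ _ ⟨s, rfl⟩
  have hf : ∀ i, gbf x p q i ∈ IntermediateField.adjoin c.F (Set.range x) := fun i =>
    sub_mem (add_mem (pow_mem (hm _) _) (pow_mem (hm _) _)) (pow_mem (hm _) _)
  refine ⟨cf, ⟨hpq, fun _ _ => rfl, by simp [cf, fp, sp], by simp [cf, fp, sp],
    by simp [cf, fq, sq'], by simp [cf, fq, sq'], o, fun i => ?_⟩, fun γ hγ => ?_⟩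
  · obtain ⟨b, hb, e⟩ := ho i
    refine ⟨gbf x p q i - b * gbf x p q o, sub_mem (hf i) (mul_mem hb (hf o)), b, hb, ?_⟩
    simp only [cf]
    linear_combination e
  refine ⟨univ.filter fun i => ¬cf.On γ i, ?_, fun i hi => (mem_filter.1 hi).2⟩
  by_cases h3 : 2 < #(univ.filter fun i => cf.On γ i)
  · obtain ⟨i, j, l, hi, hj, hl, hij, hil, hjl⟩ := two_lt_card_iff.1 h3
    have hp : ∀ m, cf.On γ m → aeval x (pto (X : ι × ι → MvPolynomial (ι × ι) ℤ) i j l m) = 0 := by
      intro m hm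
      have h1 := cf.cyc_sq i j l m
      rw [(Cf.on_iff_cyc hγ hij hil hjl (mem_filter.1 hi).2 (mem_filter.1 hj).2
        (mem_filter.1 hl).2 m).1 hm] at h1
      simp only [gb_pto_map, aeval_X]
      refine (mul_eq_zero.1 (?_ : (2 * x (p, q)) ^ 8 * _ = 0)).resolve_left
        (pow_ne_zero _ (mul_ne_zero two_ne_zero l0))
      simp only [cf] at h1
      simp only [pto]
      linear_combination -h1
    have he : ∀ᶠ k in (c.U : Filter ℕ), ∀ m, cf.On γ m → ∀ P ∈ T k, pto P i j l m = 0 := by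
      refine eventually_all.2 fun m => ?_
      by_cases hm : cf.On γ m
      · filter_upwards [gb_ev c hT hx _ (hp m hm)] with k hk _ P hP
        simpa only [gb_pto_map, eval_X] using hk P hP
      · exact Eventually.of_forall fun _ h => absurd h hm
    obtain ⟨k, hk, P, hP⟩ := (he.and (hx.nonempty c)).exists
    refine ((hG k P hP).pto hij hil hjl).trans ?_
    rw [← Set.ncard_coe_finset]
    refine Set.ncard_le_ncard (fun m hm => ?_) (Set.toFinite _)
    simp only [coe_filter, mem_univ, true_and, Set.mem_ofPred_eq]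
    exact fun h => hm (hk m h P hP)
  · obtain ⟨k, P, hP⟩ := (hx.nonempty c).exists
    have h1 := (hG k P hP).card hpq
    have h2 := card_filter_add_card_filter_not (s := (univ : Finset ι)) fun i => cf.On γ i
    rw [card_univ] at h2
    omega

variable {F ι Ω : Type} [Field F] [Field Ω] [CharZero Ω] [Algebra F Ω] {x : ι × ι → Ω} {p q : ι}
  {cf : Cf ι Ω}

theorem Norm.l_ne (h : Norm F x p q cf) : x (p, q) ≠ 0 := fun h0 =>
  cf.ne p q h.ne (by rw [h.d, h0, mul_zero])

theorem Norm.mul (h : Norm F x p q cf) (i : ι) :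
    cf.Z i * cf.W i = (2 * x (p, q) * x (p, i)) ^ 2 := by
  have := cf.sq p i
  rw [h.d, h.Zp, h.Wp] at this
  linear_combination this

theorem Norm.add (h : Norm F x p q cf) (i : ι) :
    cf.Z i + cf.W i = 2 * (x (p, i) ^ 2 + x (p, q) ^ 2 - x (q, i) ^ 2) := by
  have h1 := cf.sq q i
  rw [h.d, h.Zq, h.Wq] at h1
  refine mul_left_cancel₀ (mul_ne_zero two_ne_zero (pow_ne_zero 2 h.l_ne)) ?_
  linear_combination h.mul i - h1

omit [CharZero Ω] in
theorem gb_quad {R : Subalgebra F Ω} {z s m : Ω} (hs : s ∈ R) (hm : m ∈ R)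
    (h : z ^ 2 - s * z + m = 0) : IsIntegral R z := by
  refine ⟨Polynomial.X ^ 2 - Polynomial.C ⟨s, hs⟩ * Polynomial.X + Polynomial.C ⟨m, hm⟩,
    by monicity!, ?_⟩
  simpa [Polynomial.eval₂_add, Polynomial.eval₂_sub, Polynomial.eval₂_mul] using h

theorem Norm.int (h : Norm F x p q cf) (i : ι) {R : Subalgebra F Ω} (h1 : x (p, q) ∈ R)
    (h2 : x (p, i) ∈ R) (h3 : x (q, i) ∈ R) : IsIntegral R (cf.Z i) ∧ IsIntegral R (cf.W i) := by
  have a : cf.Z i + cf.W i ∈ R := h.add i ▸ mul_mem (ofNat_mem _ 2)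
    (sub_mem (add_mem (pow_mem h2 _) (pow_mem h1 _)) (pow_mem h3 _))
  have b : cf.Z i * cf.W i ∈ R := h.mul i ▸ pow_mem (mul_mem (mul_mem (ofNat_mem _ 2) h1) h2) _
  exact ⟨gb_quad a b (by ring), gb_quad a b (by ring)⟩

theorem Norm.alg (h : Norm F x p q cf) (i : ι) :
    IsAlgebraic (Algebra.adjoin F {x (p, q), x (p, i), x (q, i)}) (cf.Z i) ∧
      IsAlgebraic (Algebra.adjoin F {x (p, q), x (p, i), x (q, i)}) (cf.W i) := by
  have := h.int i (R := Algebra.adjoin F {x (p, q), x (p, i), x (q, i)})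
    (Algebra.subset_adjoin (by simp)) (Algebra.subset_adjoin (by simp))
    (Algebra.subset_adjoin (by simp))
  exact ⟨this.1.isAlgebraic, this.2.isAlgebraic⟩

/-- all distances are algebraic over the distances to `p` and `q` -/
theorem Norm.all (h : Norm F x p q cf) (s : ι × ι) : IsAlgebraic (Algebra.adjoin F
    ({x (p, q)} ∪ (Set.range (fun i => x (p, i)) ∪ Set.range fun i => x (q, i)))) (x s) := by
  obtain ⟨i, j⟩ := s
  set R := Algebra.adjoin F
    ({x (p, q)} ∪ (Set.range (fun i => x (p, i)) ∪ Set.range fun i => x (q, i)))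
  have m0 : x (p, q) ∈ R := Algebra.subset_adjoin (Or.inl rfl)
  have hi := fun i => h.int i (R := R) m0 (Algebra.subset_adjoin (Or.inr (Or.inl ⟨i, rfl⟩)))
    (Algebra.subset_adjoin (Or.inr (Or.inr ⟨i, rfl⟩)))
  have h1 := ((hi i).1.sub (hi j).1).mul ((hi i).2.sub (hi j).2)
  rw [cf.sq, h.d] at h1
  exact IsAlgebraic.of_mul (mem_nonZeroDivisors_of_ne_zero (mul_ne_zero two_ne_zero h.l_ne))
    (isAlgebraic_algebraMap (⟨2 * x (p, q), mul_mem (ofNat_mem _ 2) m0⟩ : R))
    (IsIntegral.of_pow two_pos h1).isAlgebraic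

end Pool.Agent.Lib.MP_e5111b_co.Gp
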