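import Pool.Agent.Lib.MP_e5111b_co.Gp.Kit

set_option autoImplicit false

namespace Pool.Agent.Lib.MP_e5111b_co.Gp

open Finset Pc

theorem sel_pair {E Ω : Type} [Field E] [Field Ω] [Algebra E Ω] {p q : Ω}
    (hp : Transcendental E p) (hq : ¬ IsAlgebraic (Algebra.adjoin E {p}) q) :
    AlgebraicIndependent E (fun c : Bool => cond c p q) ∧
      AlgebraicIndependent E (fun c : Bool => cond c q p) := by
  have h1 : AlgebraicIndependent E fun _ : Unit => p :=
    algebraicIndependent_unique_type_iff.2 hp
  have h2 := (h1.option_iff_transcendental q).2 (by rwa [Set.range_const])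
  constructor
  · have h3 := h2.comp (fun c : Bool => cond c (some ()) none) (by decide)
    convert h3 using 1
    funext c
    cases c <;> rfl
  · have h3 := h2.comp (fun c : Bool => cond c none (some ())) (by decide)
    convert h3 using 1
    funext c
    cases c <;> rfl

theorem sel_ext {F Ω ι : Type} [Field F] [Field Ω] [Algebra F Ω] (l : Ω) (u w : ι → Ω) {n : ℕ}
    (o : Fin n → ι) (a : ι) (ho : AlgebraicIndependent (IntermediateField.adjoin F {l})
      (Sum.elim (fun i => u (o i)) fun i => w (o i)))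
    (ha : AlgebraicIndependent (IntermediateField.adjoin F
      ({l} ∪ (Set.range (fun i => u (o i)) ∪ Set.range fun i => w (o i))))
      fun c : Bool => cond c (u a) (w a)) :
    ∃ o' : Fin (n + 1) → ι, AlgebraicIndependent (IntermediateField.adjoin F {l})
      (Sum.elim (fun i => u (o' i)) fun i => w (o' i)) := by
  let E := IntermediateField.adjoin (IntermediateField.adjoin F {l})
    (Set.range (fun i => u (o i)) ∪ Set.range fun i => w (o i))
  have h1 : AlgebraicIndependent E fun c : Bool => cond c (u a) (w a) := by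
    refine indep_cl (fun y => ?_) ha
    have hy : (y : Ω) ∈ IntermediateField.adjoin F
        ({l} ∪ (Set.range (fun i => u (o i)) ∪ Set.range fun i => w (o i))) := by
      rw [← IntermediateField.adjoin_adjoin_left, IntermediateField.mem_restrictScalars]
      exact y.2
    exact isAlgebraic_algebraMap (⟨(y : Ω), hy⟩ : IntermediateField.adjoin F _)
  have h2 := indep_sum ho E (by
    rintro (i | i)
    · exact IntermediateField.subset_adjoin _ _ (Or.inl ⟨i, rfl⟩)
    · exact IntermediateField.subset_adjoin _ _ (Or.inr ⟨i, rfl⟩)) h1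
  let e : Fin (n + 1) ⊕ Fin (n + 1) → (Fin n ⊕ Fin n) ⊕ Bool :=
    Sum.elim (Fin.cases (.inr true) fun j => .inl (.inl j))
      (Fin.cases (.inr false) fun j => .inl (.inr j))
  have he : Function.Injective e := by
    rintro (i | i) (j | j) <;> induction i using Fin.cases <;> induction j using Fin.cases <;>
      simp [e]
  refine ⟨Fin.cases a o, ?_⟩
  convert h2.comp e he using 1
  funext i
  rcases i with i | i <;> induction i using Fin.cases <;> simp [e]

/-- many generic points, or many independent points with one degree of freedom over few -/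
theorem sel {F Ω ι : Type} [Field F] [Field Ω] [Algebra F Ω] [Fintype ι] (l : Ω) (u w : ι → Ω)
    {ρ y₁ y₂ : ℕ} (b : Fin ρ → Ω) (hb : AlgebraicIndependent F b)
    (h : ∀ i, IsAlgebraic (Algebra.adjoin F ({l} ∪ (Set.range u ∪ Set.range w))) (b i))
    (hρ : 2 * y₁ + y₂ ≤ ρ) (hy : 1 ≤ y₁) :
    (∃ a : Fin y₁ → ι, AlgebraicIndependent (IntermediateField.adjoin F {l})
      (Sum.elim (fun i => u (a i)) fun i => w (a i))) ∨
    ∃ (n : ℕ) (o : Fin n → ι) (a : Fin y₂ → ι) (t : Fin y₂ → Ω), n < y₁ ∧
      (∀ i, t i = u (a i) ∨ t i = w (a i)) ∧ ∀ E, E = IntermediateField.adjoin F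
        ({l} ∪ (Set.range (fun i => u (o i)) ∪ Set.range fun i => w (o i))) →
      AlgebraicIndependent E t ∧ ∀ i, IsAlgebraic (Algebra.adjoin E {t i}) (u (a i)) ∧
        IsAlgebraic (Algebra.adjoin E {t i}) (w (a i)) := by
  classical
  let P : ℕ → Prop := fun n => ∃ a : Fin n → ι,
    AlgebraicIndependent (IntermediateField.adjoin F {l})
      (Sum.elim (fun i => u (a i)) fun i => w (a i))
  by_cases hP : P y₁
  · exact Or.inl hP
  right
  have h0 : P 0 := ⟨Fin.elim0, algebraicIndependent_empty_type⟩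
  obtain ⟨n, hn, ⟨o, ho⟩, hn'⟩ : ∃ n < y₁, P n ∧ ¬ P (n + 1) := by
    by_contra hc
    have : ∀ n ≤ y₁, P n := by
      intro n
      induction n with
      | zero => exact fun _ => h0
      | succ n ih =>
        intro hn
        by_contra hc'
        exact hc ⟨n, hn, ih (by omega), hc'⟩
    exact hP (this _ le_rfl)
  set S : Set Ω := {l} ∪ (Set.range (fun i => u (o i)) ∪ Set.range fun i => w (o i)) with hS
  obtain ⟨m, v, hv⟩ := exists_bas (F := IntermediateField.adjoin F S) (Sum.elim u w)
  let z : (Unit ⊕ (Fin n ⊕ Fin n)) ⊕ Fin m → Ω := Sum.elim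
    (Sum.elim (fun _ => l) (Sum.elim (fun i => u (o i)) fun i => w (o i)))
    fun j => Sum.elim u w (v j)
  have hz : Set.range z = S ∪ Set.range fun j => Sum.elim u w (v j) := by
    simp only [z, hS, Set.Sum.elim_range, Set.range_const]
  have hc := card_le_of_alg (v := z) hb fun i => rk_trans (h i) (by
    rw [hz]
    rintro y (hy | ⟨j, rfl⟩ | ⟨j, rfl⟩)
    · exact rk_mem (Algebra.subset_adjoin (Or.inl (Or.inl hy)))
    · exact rk_tower (hv.2 (.inl j))
    · exact rk_tower (hv.2 (.inr j)))
  simp only [Fintype.card_sum, Fintype.card_fin, Fintype.card_unit] at hc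
  have hm : y₂ ≤ m := by omega
  have hi := hv.1.comp _ (Fin.castLE_injective hm)
  refine ⟨n, o, fun i => (v (Fin.castLE hm i)).elim id id,
    fun i => Sum.elim u w (v (Fin.castLE hm i)), hn, fun i => ?_, ?_⟩
  · beta_reduce
    rcases v (Fin.castLE hm i) with j | j
    · exact Or.inl rfl
    · exact Or.inr rfl
  rintro E rfl
  refine ⟨hi, fun i => ?_⟩
  have ht : Transcendental (IntermediateField.adjoin F S) (Sum.elim u w (v (Fin.castLE hm i))) :=
    hi.transcendental i
  revert ht
  beta_reduce
  rcases v (Fin.castLE hm i) with j | j <;> intro ht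
  · refine ⟨rk_mem (Algebra.subset_adjoin rfl), ?_⟩
    by_contra hq
    exact hn' (sel_ext l u w o j ho (sel_pair ht hq).1)
  · refine ⟨?_, rk_mem (Algebra.subset_adjoin rfl)⟩
    by_contra hq
    exact hn' (sel_ext l u w o j ho (sel_pair ht hq).2)

theorem sel_pick {κ : Type} (T : Finset κ) {n : ℕ} (h : n ≤ #T) :
    ∃ a : Fin n → κ, Function.Injective a ∧ ∀ j, a j ∈ T := by
  obtain ⟨L, hL, hc⟩ := exists_subset_card_eq h
  let e := L.equivFinOfCardEq hc
  exact ⟨fun j => e.symm j, Subtype.val_injective.comp e.symm.injective,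
    fun j => hL (e.symm j).2⟩

/-- a relation has a large star or a large empty bipartite subgraph -/
theorem star {κ : Type} [Fintype κ] (R : κ → κ → Prop) {s y : ℕ}
    (h : 2 * s + s * y ≤ Fintype.card κ) :
    (∃ (i : κ) (a : Fin y → κ), Function.Injective a ∧ ∀ j, R i (a j)) ∨
    ∃ a : Fin s ⊕ Fin s → κ, Function.Injective a ∧ ∀ l r, ¬ R (a (.inl l)) (a (.inr r)) := by
  classical
  by_cases hc : ∃ i, y ≤ #(univ.filter fun j => R i j)
  · obtain ⟨i, hi⟩ := hc
    obtain ⟨a, h1, h2⟩ := sel_pick _ hi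
    exact Or.inl ⟨i, a, h1, fun j => (mem_filter.1 (h2 j)).2⟩
  right
  have hc' : ∀ i, #(univ.filter fun j => R i j) ≤ y := fun i =>
    (not_le.1 fun hi => hc ⟨i, hi⟩).le
  obtain ⟨a, ha, -⟩ := sel_pick (univ : Finset κ) (n := s) (by
    rw [card_univ]
    omega)
  let U : Finset κ := univ.image a ∪ univ.biUnion fun i => univ.filter fun j => R (a i) j
  have hU : #U ≤ s + s * y := by
    refine (card_union_le _ _).trans (add_le_add (card_image_le.trans (by simp)) ?_)
    refine (card_biUnion_le_card_mul _ _ y fun i _ => hc' _).trans (by simp)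
  obtain ⟨c, h1, h2⟩ := sel_pick Uᶜ (n := s) (by
    rw [card_compl]
    omega)
  refine ⟨Sum.elim a c, ha.sumElim h1 fun i j e => ?_, fun i j e => ?_⟩
  · exact mem_compl.1 (h2 j) (mem_union_left _ (mem_image.2 ⟨i, mem_univ _, e⟩))
  · exact mem_compl.1 (h2 j) (mem_union_right _
      (mem_biUnion.2 ⟨i, mem_univ _, mem_filter.2 ⟨mem_univ _, e⟩⟩))

end Pool.Agent.Lib.MP_e5111b_co.Gp
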