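import Pool.Agent.Lib.MP_e5111b_co.Gp.FreeA
import Pool.Agent.Lib.MP_e5111b_co.Gp.Sel
import Pool.Agent.Lib.MP_e5111b_co.Gp.GeoB

set_option autoImplicit false

namespace Pool.Agent.Lib.MP_e5111b_co.Gp

open Filter MvPolynomial Finset Pc

section Alg

variable {F ι Ω : Type} [Field F] [Field Ω] [CharZero Ω] [Algebra F Ω] {x : ι × ι → Ω} {p q : ι}
  {cf : Cf ι Ω} {R : Type} [CommRing R] [IsDomain R] [Algebra R Ω]

omit [CharZero Ω] in
theorem fr_two {l : Ω} (hl : IsAlgebraic R l) : IsAlgebraic R (2 * l) := by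
  rw [two_mul]
  exact hl.add hl

theorem fr_w (hN : Norm F x p q cf) (i : ι) (hZ : IsAlgebraic R (cf.Z i))
    (hW : IsAlgebraic R (cf.W i)) (hl : IsAlgebraic R (x (p, q)))
    (hu : IsAlgebraic R (x (p, i))) : IsAlgebraic R (x (q, i)) := by
  refine IsAlgebraic.of_pow (n := 2) (by norm_num)
    (fa_div (m := 2) (by simpa using fr_two (isAlgebraic_one (R := R) (A := Ω))) two_ne_zero ?_)
  have e : 2 * x (q, i) ^ 2 = 2 * (x (p, i) ^ 2 + x (p, q) ^ 2) - (cf.Z i + cf.W i) := by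
    rw [hN.add]
    ring
  rw [e]
  exact (fr_two ((hu.pow 2).add (hl.pow 2))).sub (hZ.add hW)

theorem fr_u (hN : Norm F x p q cf) (i : ι) (hZ : IsAlgebraic R (cf.Z i))
    (hW : IsAlgebraic R (cf.W i)) (hl : IsAlgebraic R (x (p, q))) : IsAlgebraic R (x (p, i)) := by
  refine fa_div (fr_two hl) (mul_ne_zero two_ne_zero hN.l_ne)
    (IsAlgebraic.of_pow (n := 2) (by norm_num) ?_)
  rw [← hN.mul]
  exact hZ.mul hW

theorem fr_W (hN : Norm F x p q cf) (i : ι) (hZ : IsAlgebraic R (cf.Z i))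
    (hl : IsAlgebraic R (x (p, q))) (hu : IsAlgebraic R (x (p, i))) : IsAlgebraic R (cf.W i) := by
  by_cases h : i = p
  · rw [h, hN.Wp]
    exact isAlgebraic_zero
  · have h0 := cf.Z_ne h
    rw [hN.Zp, sub_zero] at h0
    refine fa_div hZ h0 ?_
    rw [hN.mul]
    exact ((fr_two hl).mul hu).pow 2

omit [CharZero Ω] in
theorem fr_sq_ne {κ : Type} {u : κ → Ω} (hu : AlgebraicIndependent F u) {i j : κ} (h : i ≠ j) :
    u i ^ 2 ≠ u j ^ 2 := fun e => by
  refine hu.transcendental_adjoin (s := {j}) (i := i) h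
    (IsAlgebraic.of_pow (n := 2) (by norm_num) ?_)
  rw [e]
  exact (rk_mem (Algebra.subset_adjoin (Set.mem_image_of_mem u (Set.mem_singleton j)))).pow 2

omit [CharZero Ω] in
theorem fr_half {κ : Type} [Fintype κ] {m : ℕ} (h : 2 * m ≤ Fintype.card κ) (A B : κ → Prop)
    (hAB : ∀ i, A i ∨ B i) : (∃ e : Fin m → κ, Function.Injective e ∧ ∀ i, A (e i)) ∨
      ∃ e : Fin m → κ, Function.Injective e ∧ ∀ i, B (e i) := by
  classical
  have key : ∀ C : κ → Prop, m ≤ Fintype.card {i // C i} →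
      ∃ e : Fin m → κ, Function.Injective e ∧ ∀ i, C (e i) := fun C hC => by
    obtain ⟨f⟩ := Function.Embedding.nonempty_of_card_le
      (α := Fin m) (β := {i // C i}) (by simpa using hC)
    exact ⟨fun i => (f i).1, Subtype.val_injective.comp f.injective, fun i => (f i).2⟩
  by_cases h1 : m ≤ Fintype.card {i // A i}
  · exact Or.inl (key A h1)
  · obtain ⟨e, e1, e2⟩ := key (fun i => ¬A i) (by
      have h2 : m ≤ Fintype.card κ - Fintype.card {i // A i} := by omega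
      rw [← Fintype.card_subtype_compl A] at h2
      convert h2)
    exact Or.inr ⟨e, e1, fun i => (hAB _).resolve_left (e2 i)⟩

end Alg

variable (c : Ctx) {ι : Type} {T : ℕ → Finset (ι × ι → ℤ)} {Ω : Type} [Field Ω] [IsAlgClosed Ω]
  [Algebra c.F Ω] {x : ι × ι → Ω} {p q : ι}

omit [IsAlgClosed Ω] in
theorem fr_out {j r : ℕ} (hr : r + 1 ≤ 70 * j) (h : c.Out T x (4 * ((r : ℝ) + 1) ^ 2 / 2 ^ j)) :
    c.Out T x (4 * (70 * (j : ℝ)) ^ 2 / 2 ^ j) := by
  refine Ctx.Out.mono c h ?_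
  have h1 : (r : ℝ) + 1 ≤ 70 * j := by exact_mod_cast hr
  gcongr

/-- many points which move independently on curves -/
theorem free_two (hT : c.Box T) (hx : c.Gen T x) (cf : Cf ι Ω)
    (hd : ∀ i j, cf.d i j = 2 * x (p, q) * x (i, j)) (hl0 : x (p, q) ≠ 0) {j : ℕ} (hj : 1 ≤ j)
    (hM : cf.Miss (4 * j + 2))
    (ho : ∀ i, IsAlgebraic (Algebra.adjoin c.F {x (p, q), x (p, i), x (q, i)}) (cf.Z i) ∧
      IsAlgebraic (Algebra.adjoin c.F {x (p, q), x (p, i), x (q, i)}) (cf.W i))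
    {κ₀ : Type} [Fintype κ₀] (z : κ₀ → ι × ι) (E : IntermediateField c.F Ω) [IsAlgClosed E]
    (hE : ∀ y, y ∈ E ↔ IsAlgebraic (Algebra.adjoin c.F (Set.range fun i => x (z i))) y)
    (hl : x (p, q) ∈ E) (hκ : Fintype.card κ₀ ≤ 24 * j + 3) {m : ℕ}
    (hm : 2 * (6 * j + 1) + (6 * j + 1) * (4 * j + 2 + (28 * j + 7)) ≤ m) (a : Fin m → ι)
    (τ : Fin m → ι × ι) (ha : Function.Injective a)
    (h1 : AlgebraicIndependent E fun i => x (τ i))
    (h2 : ∀ i, IsAlgebraic (Algebra.adjoin E {x (τ i)}) (cf.Z (a i)))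
    (h3 : ∀ i, IsAlgebraic (Algebra.adjoin E {x (τ i)}) (cf.W (a i)))
    (h4 : ∀ i, Transcendental E (cf.Z (a i))) :
    c.Out T x (4 * (70 * (j : ℝ)) ^ 2 / 2 ^ j) := by
  rcases star (fun i i' => cf.Bad E (a i) (a i')) (s := 6 * j + 1)
    (y := 4 * j + 2 + (28 * j + 7)) (by simpa using hm) with ⟨i, e, e1, e2⟩ | ⟨e, e1, e2⟩
  · obtain ⟨γ, hγ, hi⟩ := (e2 ⟨0, by omega⟩).1
    refine fr_out c (r := 56 * j + 13) (by omega) (freeB c hT hx cf hd hl0 hM ho z E hE hl
      (fun l => a (e l)) (indep_swap (h1.comp e e1) fun l => ?_) γ hγ (fun l => (e2 l).2 γ hi)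
      (by omega) (by nlinarith))
    refine rk_trans (alg_swap (h4 (e l)) (h2 (e l))) ?_
    rintro _ rfl
    exact rk_mem (Algebra.subset_adjoin ⟨l, rfl⟩)
  · exact fr_out c (r := 36 * j + 6) (by omega) (freeA c hT hx cf hd z E hE hl (fun l => a (e l))
      (fun l => τ (e l)) (ha.comp e1) (h1.comp e e1) (fun l => h2 (e l)) (fun l => h3 (e l))
      (fun l => h4 (e l)) e2 (by omega) (by nlinarith))

/-- many points which move independently in the plane -/
theorem free_one (hT : c.Box T) (hx : c.Gen T x) {cf : Cf ι Ω} (hN : Norm c.F x p q cf) {j : ℕ}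
    (hj : 1 ≤ j) (a : Fin (6 * j + 1) ⊕ Fin (6 * j + 1) → ι)
    (h : AlgebraicIndependent (IntermediateField.adjoin c.F {x (p, q)})
      (Sum.elim (fun i => x (q, a i)) fun i => x (p, a i))) :
    c.Out T x (4 * (70 * (j : ℝ)) ^ 2 / 2 ^ j) := by
  have : CharZero Ω := charZero_of_injective_algebraMap (algebraMap c.F Ω).injective
  obtain ⟨hu, hw⟩ := AlgebraicIndependent.sumElim_iff.1 h
  let z : Option (Fin (6 * j + 1) ⊕ Fin (6 * j + 1)) → ι × ι :=
    fun o => o.elim (p, q) fun i => (p, a i)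
  obtain ⟨E, hE, hc⟩ := kit_cl (F := c.F) (Set.range fun i => x (z i))
  have m1 : ∀ i, x (z i) ∈ E := fun i => (hE _).2 (rk_mem (Algebra.subset_adjoin ⟨i, rfl⟩))
  have hl : x (p, q) ∈ E := m1 none
  have mu : ∀ i, x (p, a i) ∈ E := fun i => m1 (some i)
  have h1 : AlgebraicIndependent E fun i => x (q, a i) := by
    refine indep_cl (fun y => IntermediateField.isAlgebraic_adjoin_iff.2 ?_)
      (IntermediateField.algebraicIndependent_adjoin_iff.2 hw)
    refine alg_up _ ((hE y).1 y.2) ?_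
    rintro _ ⟨_ | i, rfl⟩
    · exact Or.inl (IntermediateField.subset_adjoin _ _ rfl)
    · exact Or.inr ⟨i, rfl⟩
  have m2 : ∀ i, ∀ y ∈ ({x (p, q), x (p, a i), x (q, a i)} : Set Ω),
      y ∈ E ∨ y ∈ ({x (q, a i)} : Set Ω) := by
    rintro i _ (rfl | rfl | rfl)
    exacts [Or.inl hl, Or.inl (mu i), Or.inr rfl]
  refine fr_out c (r := 36 * j + 6) (by omega) (freeA c hT hx cf hN.d z E hE hl a
    (fun i => (q, a i)) (fun i i' e => h1.injective (by simp only [e])) h1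
    (fun i => alg_up E (hN.alg (a i)).1 (m2 i)) (fun i => alg_up E (hN.alg (a i)).2 (m2 i))
    (fun i hZ => ?_) (fun l r hB => ?_) (by simp; omega) (by nlinarith))
  · have al : IsAlgebraic E (x (p, q)) := isAlgebraic_algebraMap (⟨_, hl⟩ : E)
    have au : IsAlgebraic E (x (p, a i)) := isAlgebraic_algebraMap (⟨_, mu i⟩ : E)
    exact h1.transcendental i (fr_w hN _ hZ (fr_W hN _ hZ al au) al au)
  · have h2 := hB.2 ![1, 0, 0, -⟨(2 * x (p, q) * x (p, a (.inl l))) ^ (2 : ℕ),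
      pow_mem (E.mul_mem (fa_two E hl) (mu _)) 2⟩] (by simp [Cf.On, bil, hN.mul])
    simp only [Cf.On, bil, hN.mul, Matrix.cons_val, map_one, map_zero, map_neg, one_mul, zero_mul,
      add_zero, IntermediateField.algebraMap_apply, add_neg_eq_zero, mul_pow] at h2
    exact fr_sq_ne hu (i := .inr r) (j := .inl l) (by simp) (mul_left_cancel₀
      (mul_ne_zero (pow_ne_zero 2 two_ne_zero) (pow_ne_zero 2 hN.l_ne)) (h2.trans (by ring)))

/-- large dimension -/
theorem free (c : Ctx) {ι : Type} [Fintype ι] {T : ℕ → Finset (ι × ι → ℤ)} (hT : c.Box T)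
    {Ω : Type} [Field Ω] [IsAlgClosed Ω] [Algebra c.F Ω] {x : ι × ι → Ω} (hx : c.Gen T x)
    {p q : ι} {cf : Cf ι Ω} (hN : Norm c.F x p q cf) {j : ℕ} (hj : 1 ≤ j)
    (hM : cf.Miss (4 * j + 2)) {ρ : ℕ} {b : Fin ρ → ι × ι} (hb : IsBas c.F x b)
    (hρ : 1000 * j ^ 2 ≤ ρ) : c.Out T x (4 * (70 * (j : ℝ)) ^ 2 / 2 ^ j) := by
  have : CharZero Ω := charZero_of_injective_algebraMap (algebraMap c.F Ω).injective
  obtain ⟨m, hm⟩ : ∃ m, m = 2 * (6 * j + 1) + (6 * j + 1) * (4 * j + 2 + (28 * j + 7)) := ⟨_, rfl⟩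
  rcases sel (x (p, q)) (fun i => x (p, i)) (fun i => x (q, i)) (y₁ := 6 * j + 1 + (6 * j + 1))
    (y₂ := 2 * m) (fun i => x (b i)) hb.1 (fun i => hN.all (b i)) (by nlinarith) (by omega) with
    ⟨a, ha⟩ | ⟨n, o, a, t, hn, ht, h⟩
  · refine free_one c hT hx hN hj (fun i => a (finSumFinEquiv i)) ?_
    have h1 := ha.comp (fun i => Sum.map finSumFinEquiv finSumFinEquiv (Sum.swap i))
      ((Sum.map_injective.2 ⟨finSumFinEquiv.injective, finSumFinEquiv.injective⟩).comp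
        Sum.swap_leftInverse.injective)
    convert h1 using 1
    funext i
    cases i <;> rfl
  obtain ⟨h1, h2⟩ := h _ rfl
  let z : Option (Fin n ⊕ Fin n) → ι × ι :=
    fun i => i.elim (p, q) (Sum.elim (fun i => (p, o i)) fun i => (q, o i))
  have eS : ({x (p, q)} ∪ (Set.range (fun i => x (p, o i)) ∪ Set.range fun i => x (q, o i))) =
      Set.range fun i => x (z i) := by
    ext y
    constructor
    · rintro (rfl | ⟨i, rfl⟩ | ⟨i, rfl⟩)
      exacts [⟨none, rfl⟩, ⟨some (.inl i), rfl⟩, ⟨some (.inr i), rfl⟩]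
    · rintro ⟨_ | i | i, rfl⟩
      exacts [Or.inl rfl, Or.inr (Or.inl ⟨i, rfl⟩), Or.inr (Or.inr ⟨i, rfl⟩)]
  rw [eS] at h1 h2
  obtain ⟨E, hE, hc⟩ := kit_cl (F := c.F) (Set.range fun i => x (z i))
  have m1 : ∀ i, x (z i) ∈ E := fun i => (hE _).2 (rk_mem (Algebra.subset_adjoin ⟨i, rfl⟩))
  have hl : x (p, q) ∈ E := m1 none
  have g1 : AlgebraicIndependent E t :=
    indep_cl (fun y => IntermediateField.isAlgebraic_adjoin_iff.2 ((hE y).1 y.2)) h1
  have up : ∀ {s : Set Ω} {y : Ω}, IsAlgebraic (Algebra.adjoin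
      (IntermediateField.adjoin c.F (Set.range fun i => x (z i))) s) y →
      IsAlgebraic (Algebra.adjoin E s) y := fun hy => alg_up E (rk_tower hy) (by
    rintro _ (⟨i, rfl⟩ | hs)
    exacts [Or.inl (m1 i), Or.inr hs])
  have m2 : ∀ i, ∀ y ∈ ({x (p, q), x (p, a i), x (q, a i)} : Set Ω),
      y ∈ E ∨ y ∈ ({x (p, a i), x (q, a i)} : Set Ω) := by
    rintro i _ (rfl | rfl | rfl)
    exacts [Or.inl hl, Or.inr (Or.inl rfl), Or.inr (Or.inr rfl)]
  have m3 : ∀ i, ∀ y ∈ ({x (p, a i), x (q, a i)} : Set Ω),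
      IsAlgebraic (Algebra.adjoin E {t i}) y := by
    rintro i _ (rfl | rfl)
    exacts [up (h2 i).1, up (h2 i).2]
  have gZ := fun i => rk_trans (alg_up E (hN.alg (a i)).1 (m2 i)) (m3 i)
  have gW := fun i => rk_trans (alg_up E (hN.alg (a i)).2 (m2 i)) (m3 i)
  have ha : Function.Injective a := fun i i' e => by
    by_contra hne
    refine g1.transcendental_adjoin (s := {i'}) (i := i) hne ?_
    rw [Set.image_singleton]
    refine m3 i' _ ?_
    rw [← e]
    exact ht i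
  have al : IsAlgebraic E (x (p, q)) := isAlgebraic_algebraMap (⟨_, hl⟩ : E)
  have htr : ∀ i, Transcendental E (cf.Z (a i)) ∨ Transcendental E (cf.W (a i)) := fun i => by
    by_contra hn
    rw [not_or, Transcendental, Transcendental, not_not, not_not] at hn
    have au := fr_u hN _ hn.1 hn.2 al
    refine g1.transcendental i ?_
    rcases ht i with e | e <;> rw [e]
    exacts [au, fr_w hN _ hn.1 hn.2 al au]
  have hτ : ∀ i, ∃ s, t i = x s := fun i => (ht i).elim (fun e => ⟨_, e⟩) fun e => ⟨_, e⟩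
  choose τ hτ using hτ
  obtain rfl : t = fun i => x (τ i) := funext hτ
  have hκ : Fintype.card (Option (Fin n ⊕ Fin n)) ≤ 24 * j + 3 := by simp; omega
  rcases fr_half (m := m) (by simp) _ _ htr with ⟨e, e1, e2⟩ | ⟨e, e1, e2⟩
  · exact free_two c hT hx cf hN.d hN.l_ne hj hM hN.alg z E hE hl hκ hm.ge (fun i => a (e i))
      (fun i => τ (e i)) (ha.comp e1) (g1.comp e e1) (fun i => gZ (e i)) (fun i => gW (e i)) e2
  · exact free_two c hT hx cf.swap hN.d hN.l_ne hj hM.swap (fun i => (hN.alg i).symm) z E hE hl hκ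
      hm.ge (fun i => a (e i)) (fun i => τ (e i)) (ha.comp e1) (g1.comp e e1)
      (fun i => gW (e i)) (fun i => gZ (e i)) e2

end Pool.Agent.Lib.MP_e5111b_co.Gp
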