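import Pool.Agent.Lib.MP_e5111b_co.Gp.Kit

set_option autoImplicit false

namespace Pool.Agent.Lib.MP_e5111b_co.Gp

open Filter MvPolynomial Finset Pc

theorem pk_adj {Ω ι : Type} [Field Ω] [CharZero Ω] [DecidableEq ι] (y : ι → Ω) (L : Subfield Ω)
    (h1 : ∀ i, y i ^ 2 ∈ L) (h2 : ∀ J : Finset ι, J.Nonempty → ∏ i ∈ J, y i ∉ L) (A : Finset ι) :
    ∃ L' : Subfield Ω, L ≤ L' ∧ (∀ i ∈ A, y i ∈ L') ∧
      ∀ J : Finset ι, J.Nonempty → (∀ i ∈ J, i ∉ A) → ∏ i ∈ J, y i ∉ L' := by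
  induction A using Finset.induction_on with
  | empty => exact ⟨L, le_rfl, by simp, fun J hJ _ => h2 J hJ⟩
  | insert a A ha ih =>
    obtain ⟨k, hk, hA, hn⟩ := ih
    have h2a : y a ^ 2 ∈ k := hk (h1 a)
    have up : ∀ u ∈ k, u ∈ Qadj k (y a) h2a := fun u hu => ⟨u, hu, 0, zero_mem _, by ring⟩
    refine ⟨Qadj k (y a) h2a, fun u hu => up u (hk hu), fun i hi => ?_, ?_⟩
    · rcases mem_insert.1 hi with rfl | hi
      · exact ⟨0, zero_mem _, 1, one_mem _, by ring⟩
      · exact up _ (hA i hi)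
    rintro S hne hS ⟨u, hu, v, hv, e⟩
    have hya : y a ∉ k := by simpa using hn {a} (by simp) (by simpa using ha)
    have haS : a ∉ S := fun h => hS a h (mem_insert_self _ _)
    have hSA : ∀ i ∈ S, i ∉ A := fun i hi h => hS i hi (mem_insert_of_mem h)
    have hq : (∏ i ∈ S, y i) ^ 2 ∈ k := by
      rw [← prod_pow]; exact prod_mem fun i _ => hk (h1 i)
    by_cases u0 : u = 0
    · refine hn (insert a S) (insert_nonempty _ _) (fun i hi => ?_) ?_
      · rcases mem_insert.1 hi with rfl | hi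
        · exact ha
        · exact hSA i hi
      · rw [prod_insert haS, e, u0, show y a * (0 + v * y a) = v * y a ^ 2 by ring]
        exact mul_mem hv h2a
    by_cases v0 : v = 0
    · refine hn S hne hSA ?_
      rw [e, v0]; simpa using hu
    refine hya ?_
    have : y a = ((∏ i ∈ S, y i) ^ 2 - u ^ 2 - v ^ 2 * y a ^ 2) / (2 * (u * v)) := by
      rw [e]; field_simp; ring
    rw [this]
    exact div_mem (sub_mem (sub_mem hq (pow_mem hu 2)) (mul_mem (pow_mem hv 2) h2a))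
      (mul_mem (by exact_mod_cast natCast_mem k 2) (mul_mem hu hv))

theorem split_sq {Ω α β : Type} [Field Ω] [CharZero Ω] [Fintype α] (y : α ⊕ β → Ω)
    (L : Subfield Ω) (h1 : ∀ i, y i ^ 2 ∈ L)
    (h2 : ∀ J : Finset (α ⊕ β), J.Nonempty → ∏ i ∈ J, y i ∉ L) :
    ∃ L' : Subfield Ω, L ≤ L' ∧ (∀ i, y (.inl i) ∈ L') ∧
      ∀ J : Finset β, J.Nonempty → ∏ i ∈ J, y (.inr i) ∉ L' := by
  classical
  obtain ⟨L', a1, a2, a3⟩ := pk_adj y L h1 h2 (univ.image .inl)
  refine ⟨L', a1, fun i => a2 _ (mem_image_of_mem _ (mem_univ i)), fun J hJ => ?_⟩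
  have := a3 (J.image .inr) (hJ.image _) (by simp)
  rwa [prod_image fun _ _ _ _ h => Sum.inr_injective h] at this

/-- independent square roots give a hypersurface -/
theorem pack (c : Ctx) {σ : Type} {T : ℕ → Finset (σ → ℤ)} (hT : c.Box T) {Ω : Type} [Field Ω]
    [Algebra c.F Ω] {x : σ → Ω} (hx : c.Gen T x) {κ₀ κ ω : Type} [Fintype κ₀] [Fintype κ]
    [Fintype ω] (z : κ₀ → σ) (τ : κ → σ) (δ : ω → σ) (E : IntermediateField c.F Ω)
    (hE : ∀ y, y ∈ E ↔ IsAlgebraic (Algebra.adjoin c.F (Set.range fun i => x (z i))) y)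
    (h1 : AlgebraicIndependent E fun i => x (τ i)) (L : Subfield Ω) (hEL : ∀ y ∈ E, y ∈ L)
    (hτ : ∀ i, x (τ i) ∈ L) (h2 : ∀ l, x (δ l) ^ 2 ∈ L)
    (h3 : ∀ J : Finset ω, J.Nonempty → ∏ l ∈ J, x (δ l) ∉ L)
    (h4 : ∀ l, IsAlgebraic (Algebra.adjoin E (Set.range fun i => x (τ i))) (x (δ l))) {j r : ℕ}
    (hr : Fintype.card κ₀ + Fintype.card κ ≤ r) (hj : j * r + 1 ≤ Fintype.card ω) :
    c.Out T x (4 * ((r : ℝ) + 1) ^ 2 / 2 ^ j) := by
  classical
  have : CharZero Ω := charZero_of_injective_algebraMap (algebraMap c.F Ω).injective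
  obtain ⟨ρ, b, hb⟩ := exists_bas (F := c.F) fun i => x (z i)
  have hρ : ρ ≤ Fintype.card κ₀ := by
    simpa using Fintype.card_le_of_injective b fun i k e => hb.1.injective (by simp only [e])
  have hzE : ∀ i, x (z i) ∈ E := fun i => (hE _).2 (rk_mem (Algebra.subset_adjoin ⟨i, rfl⟩))
  have hE' : ∀ y ∈ E, IsAlgebraic (Algebra.adjoin c.F (Set.range fun i => x (z (b i)))) y :=
    fun y hy => rk_trans ((hE y).1 hy) (by
      rintro _ ⟨i, rfl⟩
      exact hb.2 i)
  let t : Fin ρ ⊕ κ → σ := Sum.elim (fun i => z (b i)) τ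
  have ht : (Sum.elim (fun i => x (z (b i))) fun i => x (τ i)) = fun i => x (t i) := by
    funext i
    cases i <;> rfl
  have a1 := indep_sum hb.1 E (fun i => hzE _) h1
  rw [ht] at a1
  have a2 : ∀ l, IsAlgebraic (Algebra.adjoin c.F (Set.range fun i => x (t i))) (x (δ l)) :=
    fun l => by
      rw [← ht, Set.Sum.elim_range]
      exact alg_tower hE' (h4 l)
  let L' : IntermediateField c.F Ω := L.toIntermediateField fun y => hEL _ (E.algebraMap_mem y)
  have a3 : LinearIndependent L' fun J : Finset ω => ∏ l ∈ J, x (δ l) := by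
    refine Fintype.linearIndependent_iff.2 fun g hg J => Subtype.ext ?_
    refine sq_indep (fun l => x (δ l)) univ L (fun l _ => h2 l) (fun S _ => h3 S)
      (fun S => g S) (fun S => (g S).2) ?_ J (subset_univ _)
    rw [powerset_univ]
    exact hg
  have a4 := kit_tower a1 L' (by
    rintro (i | i)
    · exact hEL _ (hzE _)
    · exact hτ i) a3
  have hc : Fintype.card (Fin ρ ⊕ κ) ≤ r := by
    simp only [Fintype.card_sum, Fintype.card_fin]
    omega
  have hd := det_step c hT hx (fun i => X (t i)) (fun i => (totalDegree_X _).le)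
    (fun p => X (δ p)) (fun p => by simpa only [aeval_X] using sep_rel _ (a2 p))
    (fun (J : Finset ω) l => if l ∈ J then 1 else 0) (γ := 2 ^ j) Nat.one_le_two_pow (by
      rw [Fintype.card_finset, ← pow_mul, ← pow_succ']
      refine Nat.pow_le_pow_right two_pos ?_
      have h5 := Nat.mul_le_mul_left j hc
      omega) (by simpa [aeval_X, Finset.prod_ite_mem] using a4)
  refine Ctx.Out.mono c hd ?_
  have h5 : (Fintype.card (Fin ρ ⊕ κ) : ℝ) ≤ r := by exact_mod_cast hc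
  push_cast
  gcongr

end Pool.Agent.Lib.MP_e5111b_co.Gp
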