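import Pool.Agent.Lib.MP_e5111b_co.Gp.CoreA
import Pool.Agent.Lib.MP_e5111b_co.Gp.CoreB
import Pool.Agent.Lib.MP_e5111b_co.Gp.Pack

set_option autoImplicit false

namespace Pool.Agent.Lib.MP_e5111b_co.Gp

open Filter MvPolynomial Finset Pc

theorem fa_div {R Ω : Type} [CommRing R] [IsDomain R] [Field Ω] [Algebra R Ω] {m y : Ω}
    (hm : IsAlgebraic R m) (h0 : m ≠ 0) (h : IsAlgebraic R (m * y)) : IsAlgebraic R y := by
  have h1 := hm.inv.mul h
  rwa [inv_mul_cancel_left₀ h0] at h1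

theorem fa_sq {Ω : Type} [Field Ω] (L : Subfield Ω) {m y : Ω} (hm : m ∈ L) (h0 : m ≠ 0)
    (h : (m * y) ^ 2 ∈ L) : y ^ 2 ∈ L := by
  have h1 := L.mul_mem (L.pow_mem (L.inv_mem hm) 2) h
  rwa [← mul_pow, inv_mul_cancel_left₀ h0] at h1

theorem fa_prod {Ω α : Type} [Field Ω] (L : Subfield Ω) {m : Ω} (hm : m ∈ L) (J : Finset α)
    (y : α → Ω) (h : ∏ i ∈ J, y i ∈ L) : ∏ i ∈ J, m * y i ∈ L := by
  rw [prod_mul_distrib]
  exact L.mul_mem (L.prod_mem fun _ _ => hm) h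

theorem fa_two {F Ω : Type} [Field F] [Field Ω] [Algebra F Ω] (E : IntermediateField F Ω) {l : Ω}
    (hl : l ∈ E) : 2 * l ∈ E := by
  rw [two_mul]
  exact E.add_mem hl hl

variable (c : Ctx) {ι : Type} {T : ℕ → Finset (ι × ι → ℤ)} {Ω : Type} [Field Ω] [IsAlgClosed Ω]
  [Algebra c.F Ω] {x : ι × ι → Ω} {p q : ι} {κ₀ : Type} [Fintype κ₀]

theorem freeA (hT : c.Box T) (hx : c.Gen T x) (cf : Cf ι Ω)
    (hd : ∀ i j, cf.d i j = 2 * x (p, q) * x (i, j)) (z : κ₀ → ι × ι) (E : IntermediateField c.F Ω)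
    [IsAlgClosed E]
    (hE : ∀ y, y ∈ E ↔ IsAlgebraic (Algebra.adjoin c.F (Set.range fun i => x (z i))) y)
    (hl : x (p, q) ∈ E) {s : ℕ} (a : Fin s ⊕ Fin s → ι) (τ : Fin s ⊕ Fin s → ι × ι)
    (ha : Function.Injective a) (h1 : AlgebraicIndependent E fun i => x (τ i))
    (h2 : ∀ i, IsAlgebraic (Algebra.adjoin E {x (τ i)}) (cf.Z (a i)))
    (h3 : ∀ i, IsAlgebraic (Algebra.adjoin E {x (τ i)}) (cf.W (a i)))
    (h4 : ∀ i, Transcendental E (cf.Z (a i)))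
    (h5 : ∀ l r, ¬ cf.Bad E (a (.inl l)) (a (.inr r))) {j r : ℕ}
    (hr : Fintype.card κ₀ + 2 * s ≤ r) (hj : j * r + 1 ≤ s ^ 2) :
    c.Out T x (4 * ((r : ℝ) + 1) ^ 2 / 2 ^ j) := by
  have : CharZero E := charZero_of_injective_algebraMap (algebraMap c.F E).injective
  have hA := coreA cf a (fun i => x (τ i)) ha h1 h2 h3 h4 h5
  set L := IntermediateField.adjoin E (Set.range (fun i => x (τ i)) ∪
    (Set.range (fun i => cf.Z (a i)) ∪ Set.range fun i => cf.W (a i))) with hL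
  have hEL : ∀ y ∈ E, y ∈ L.toSubfield := fun y hy => L.algebraMap_mem ⟨y, hy⟩
  have hm : 2 * x (p, q) ∈ E := fa_two E hl
  have hZ : ∀ i, cf.Z (a i) ∈ L := fun i =>
    IntermediateField.subset_adjoin _ _ (Or.inr (Or.inl ⟨i, rfl⟩))
  have hW : ∀ i, cf.W (a i) ∈ L := fun i =>
    IntermediateField.subset_adjoin _ _ (Or.inr (Or.inr ⟨i, rfl⟩))
  have h0 : ∀ l : Fin s × Fin s, 2 * x (p, q) ≠ 0 := fun l => left_ne_zero_of_mul (by
    rw [← hd]
    exact cf.ne (a (.inl l.1)) (a (.inr l.2)) (ha.ne (by simp)))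
  have aZ : ∀ i, IsAlgebraic (Algebra.adjoin E (Set.range fun i => x (τ i))) (cf.Z (a i)) :=
    fun i => rk_trans (h2 i) (by
      rintro _ rfl
      exact rk_mem (Algebra.subset_adjoin ⟨i, rfl⟩))
  have aW : ∀ i, IsAlgebraic (Algebra.adjoin E (Set.range fun i => x (τ i))) (cf.W (a i)) :=
    fun i => rk_trans (h3 i) (by
      rintro _ rfl
      exact rk_mem (Algebra.subset_adjoin ⟨i, rfl⟩))
  refine pack c hT hx z τ (fun l : Fin s × Fin s => (a (.inl l.1), a (.inr l.2))) E hE h1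
    L.toSubfield hEL (fun i => IntermediateField.subset_adjoin _ _ (Or.inl ⟨i, rfl⟩))
    (fun l => ?_) (fun J hJ h => hA J hJ ?_) (fun l => ?_) (by simp; omega) (by simpa [sq] using hj)
  · refine fa_sq _ (hEL _ hm) (h0 l) ?_
    rw [← hd, ← cf.sq]
    exact L.mul_mem (L.sub_mem (hZ _) (hZ _)) (L.sub_mem (hW _) (hW _))
  · simp only [hd]
    exact fa_prod L.toSubfield (hEL _ hm) J _ h
  · refine fa_div (m := 2 * x (p, q))
      (rk_mem (Subalgebra.algebraMap_mem _ (⟨_, hm⟩ : E))) (h0 l) ?_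
    refine IsAlgebraic.of_pow (n := 2) (by norm_num) ?_
    rw [← hd, ← cf.sq]
    exact ((aZ _).sub (aZ _)).mul ((aW _).sub (aW _))

omit [IsAlgClosed Ω] in
theorem fa_gam {k : Type} [Field k] [Algebra k Ω] {γ : Fin 4 → k} (hγ : γ ≠ 0) {z w : Ω}
    (hz : Transcendental k z) (h : bil (fun r => algebraMap k Ω (γ r)) z w = 0) :
    algebraMap k Ω (γ 0) ≠ 0 ∨ algebraMap k Ω (γ 2) ≠ 0 := by
  by_contra hn
  push Not at hn
  obtain ⟨h0, h2⟩ := hn
  simp only [bil, h0, h2, zero_mul, zero_add, add_zero] at h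
  have h1 : algebraMap k Ω (γ 1) = 0 := by
    by_contra h1
    refine hz (fa_div (isAlgebraic_algebraMap (γ 1)) h1 ?_)
    rw [eq_neg_of_add_eq_zero_left h]
    exact (isAlgebraic_algebraMap (γ 3)).neg
  rw [h1, zero_mul, zero_add] at h
  refine hγ (funext fun r => (algebraMap k Ω).injective ?_)
  rw [Pi.zero_apply, map_zero]
  fin_cases r
  exacts [h0, h1, h2, h]

/-- the first point off the curve gives the parameters -/
def fbE (s j : ℕ) : Fin s ⊕ Fin s × Fin (2 * j) ↪ Fin s × Fin (2 * j + 1) where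
  toFun := Sum.elim (fun i => (i, 0)) fun i => (i.1, i.2.succ)
  inj' := by
    rintro (i | ⟨i, l⟩) (i' | ⟨i', l'⟩) h <;>
      simp only [Sum.elim_inl, Sum.elim_inr, Prod.mk.injEq] at h
    · rw [h.1]
    · exact absurd h.2.symm (Fin.succ_ne_zero _)
    · exact absurd h.2 (Fin.succ_ne_zero _)
    · rw [h.1, Fin.succ_inj.1 h.2]

omit [IsAlgClosed Ω] in
theorem fb_pack (hT : c.Box T) (hx : c.Gen T x) (cf : Cf ι Ω)
    (hd : ∀ i j, cf.d i j = 2 * x (p, q) * x (i, j)) (hl0 : x (p, q) ≠ 0) {j : ℕ}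
    (z : κ₀ → ι × ι) (E : IntermediateField c.F Ω)
    (hE : ∀ y, y ∈ E ↔ IsAlgebraic (Algebra.adjoin c.F (Set.range fun i => x (z i))) y)
    (hl : x (p, q) ∈ E) {s : ℕ} (a : Fin s → ι) (o : Fin (2 * j + 1) → ι)
    (h1 : AlgebraicIndependent E fun i => cf.Z (a i))
    (c1 : ∀ i l, cf.d (a i) (o l) ^ 2 ∈
      IntermediateField.adjoin E (Set.range fun i => cf.Z (a i)))
    (c2 : ∀ i l, IsAlgebraic (Algebra.adjoin E {cf.d (a i) (o l)}) (cf.Z (a i)))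
    (c3 : ∀ J : Finset (Fin s × Fin (2 * j + 1)), J.Nonempty → ∏ s ∈ J, cf.d (a s.1) (o s.2) ∉
      IntermediateField.adjoin E (Set.range fun i => cf.Z (a i))) {r : ℕ}
    (hr : Fintype.card κ₀ + s ≤ r) (hj : j * r + 1 ≤ 2 * j * s) :
    c.Out T x (4 * ((r : ℝ) + 1) ^ 2 / 2 ^ j) := by
  have : CharZero Ω := charZero_of_injective_algebraMap (algebraMap c.F Ω).injective
  set L := IntermediateField.adjoin E (Set.range fun i => cf.Z (a i)) with hL
  have hEL : ∀ y ∈ E, y ∈ L.toSubfield := fun y hy => L.algebraMap_mem ⟨y, hy⟩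
  have hm : 2 * x (p, q) ∈ E := fa_two E hl
  have h0 : 2 * x (p, q) ≠ 0 := mul_ne_zero two_ne_zero hl0
  have s1 : ∀ i l, x (a i, o l) ^ 2 ∈ L.toSubfield := fun i l =>
    fa_sq _ (hEL _ hm) h0 (by rw [← hd]; exact c1 i l)
  obtain ⟨L', e1, e2, e3⟩ := split_sq (fun i => x (a (fbE s j i).1, o (fbE s j i).2)) L.toSubfield
    (fun i => s1 _ _) fun J hJ h => c3 (J.map (fbE s j)) hJ.map (by
      rw [prod_map]
      simp only [hd]
      exact fa_prod L.toSubfield (hEL _ hm) J _ h)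
  have aZ : ∀ i, IsAlgebraic (Algebra.adjoin E (Set.range fun i => x (a i, o 0))) (cf.Z (a i)) :=
    fun i => rk_trans (c2 i 0) (by
      rintro _ rfl
      rw [hd]
      exact rk_mem (Subalgebra.mul_mem _ (Subalgebra.algebraMap_mem _ (⟨_, hm⟩ : E))
        (Algebra.subset_adjoin ⟨i, rfl⟩)))
  refine pack c hT hx z (fun i => (a i, o 0))
    (fun l : Fin s × Fin (2 * j) => (a l.1, o l.2.succ)) E hE (indep_swap h1 aZ) L'
    (fun y hy => e1 (hEL y hy)) e2 (fun l => e1 (s1 _ _)) e3 (fun l => ?_) (by simpa using hr)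
    (by simpa [mul_comm s] using hj)
  refine rk_trans (s := Set.range fun i => cf.Z (a i)) ?_ (by
    rintro _ ⟨i, rfl⟩
    exact aZ i)
  refine IsAlgebraic.of_pow (n := 2) (by norm_num) (IntermediateField.isAlgebraic_adjoin_iff.1 ?_)
  exact isAlgebraic_algebraMap (⟨_, s1 l.1 l.2.succ⟩ : L)

theorem freeB (hT : c.Box T) (hx : c.Gen T x) (cf : Cf ι Ω)
    (hd : ∀ i j, cf.d i j = 2 * x (p, q) * x (i, j)) (hl0 : x (p, q) ≠ 0) {j : ℕ}
    (hM : cf.Miss (4 * j + 2))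
    (ho : ∀ i, IsAlgebraic (Algebra.adjoin c.F {x (p, q), x (p, i), x (q, i)}) (cf.Z i) ∧
      IsAlgebraic (Algebra.adjoin c.F {x (p, q), x (p, i), x (q, i)}) (cf.W i))
    (z : κ₀ → ι × ι) (E : IntermediateField c.F Ω)
    (hE : ∀ y, y ∈ E ↔ IsAlgebraic (Algebra.adjoin c.F (Set.range fun i => x (z i))) y)
    (hl : x (p, q) ∈ E) {s : ℕ} (a : Fin (4 * j + 2 + s) → ι)
    (h1 : AlgebraicIndependent E fun i => cf.Z (a i)) (γ : Fin 4 → E) (hγ : γ ≠ 0)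
    (h2 : ∀ i, cf.On (fun r => algebraMap E Ω (γ r)) (a i)) {r : ℕ}
    (hr : Fintype.card κ₀ + (4 * j + 2) + s ≤ r) (hj : j * r + 1 ≤ 2 * j * s) :
    c.Out T x (4 * ((r : ℝ) + 1) ^ 2 / 2 ^ j) := by
  have i0 : Fin (4 * j + 2 + s) := ⟨0, by omega⟩
  obtain ⟨o, o1, o2, o3⟩ := offs cf (γ := fun r => algebraMap E Ω (γ r))
    (fa_gam hγ (h1.transcendental i0) (h2 i0)) (2 * j + 1)
    (by rwa [show 2 * (2 * j + 1) = 4 * j + 2 by ring])
  let zo : Fin (2 * j + 1) ⊕ Fin (2 * j + 1) → ι × ι :=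
    Sum.elim (fun l => (p, o l)) fun l => (q, o l)
  rcases Pc.select (F := E) (fun i => x (zo i)) (fun i => cf.Z (a i)) s with
    ⟨_, _, v, -, -, hv⟩ | ⟨n, u, hn, -, hu⟩
  swap
  · have h3 := card_le_of_alg h1 hu
    simp only [Fintype.card_fin, Fintype.card_sum] at h3 hn
    omega
  obtain ⟨E', hE', -⟩ := kit_cl (F := c.F) (Set.range fun i => x (Sum.elim z zo i))
  have : CharZero E' := charZero_of_injective_algebraMap (algebraMap c.F E').injective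
  have m1 : ∀ i, x (Sum.elim z zo i) ∈ E' := fun i =>
    (hE' _).2 (rk_mem (Algebra.subset_adjoin ⟨i, rfl⟩))
  have hEE : ∀ y ∈ E, y ∈ E' := fun y hy => (hE' y).2 (rk_trans ((hE y).1 hy) (by
    rintro _ ⟨i, rfl⟩
    exact (hE' _).1 (m1 (.inl i))))
  have hv' : AlgebraicIndependent E' fun i => cf.Z (a (v i)) := by
    refine indep_cl (fun y => IntermediateField.isAlgebraic_adjoin_iff.2 ?_) hv
    refine alg_up E ((hE' y).1 y.2) ?_
    rintro _ ⟨i | i, rfl⟩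
    · exact Or.inl ((hE _).2 (rk_mem (Algebra.subset_adjoin ⟨i, rfl⟩)))
    · exact Or.inr ⟨i, rfl⟩
  have m2 : ∀ l, ∀ y ∈ ({x (p, q), x (p, o l), x (q, o l)} : Set Ω),
      IsAlgebraic (Algebra.adjoin c.F (Set.range fun i => x (Sum.elim z zo i))) y := by
    rintro l _ (rfl | rfl | rfl)
    exacts [(hE' _).1 (hEE _ hl), (hE' _).1 (m1 (.inr (.inl l))), (hE' _).1 (m1 (.inr (.inr l)))]
  obtain ⟨c1, c2, c3⟩ := coreB (k := E') cf (fun r => ⟨γ r, hEE _ (γ r).2⟩) (fun i => a (v i)) hv'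
    (fun i => h2 (v i)) o (fun l => ⟨_, (hE' _).2 (rk_trans (ho (o l)).1 (m2 l))⟩)
    (fun l => ⟨_, (hE' _).2 (rk_trans (ho (o l)).2 (m2 l))⟩) (fun _ => rfl) (fun _ => rfl) o1
    (fun l h => o2 l (congrArg Subtype.val h)) fun l l' hl h => o3 l l' hl (congrArg Subtype.val h)
  refine fb_pack c hT hx cf hd hl0 (Sum.elim z zo) E' hE' (hEE _ hl) (fun i => a (v i)) o hv'
    c1 c2 c3 ?_ hj
  simp only [Fintype.card_fin, Fintype.card_sum]
  omega

end Pool.Agent.Lib.MP_e5111b_co.Gp
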