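import Pool.Agent.Lib.MP_e5111b_co.Gp.Lin

set_option autoImplicit false

namespace Pool.Agent.Lib.MP_e5111b_co.Gp

open Finset

/-- the Ptolemy polynomial of four points -/
def pto {A ι : Type} [CommRing A] (x : ι × ι → A) (i j l m : ι) : A :=
  ((x (i, j) * x (l, m)) ^ 2 - (x (i, l) * x (j, m)) ^ 2 - (x (i, m) * x (j, l)) ^ 2) ^ 2 -
    4 * (x (i, l) * x (j, m)) ^ 2 * (x (i, m) * x (j, l)) ^ 2

theorem ga_circ (o z : ℂ) {r : ℝ} (hr : 0 ≤ r) :
    bil ![1, -(starRingEnd ℂ o), -o, o * starRingEnd ℂ o - (r : ℂ) ^ 2] z (starRingEnd ℂ z) = 0 ↔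
      dist z o = r := by
  have e : bil ![1, -(starRingEnd ℂ o), -o, o * starRingEnd ℂ o - (r : ℂ) ^ 2] z
      (starRingEnd ℂ z) = ((dist z o ^ 2 - r ^ 2 : ℝ) : ℂ) := by
    rw [Complex.dist_eq]
    push_cast
    rw [← Complex.mul_conj', map_sub]
    simp [bil]
    ring
  rw [e, Complex.ofReal_eq_zero, sub_eq_zero, sq_eq_sq₀ dist_nonneg hr]

theorem ga_line {u w z : ℂ} (h : u ≠ w)
    (e : starRingEnd ℂ (w - u) * (z - u) = (w - u) * starRingEnd ℂ (z - u)) :
    z ∈ line[ℝ, u, w] := by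
  have h0 : w - u ≠ 0 := sub_ne_zero.2 h.symm
  have h1 : starRingEnd ℂ (w - u) ≠ 0 := (map_ne_zero _).2 h0
  have h2 : starRingEnd ℂ ((z - u) / (w - u)) = (z - u) / (w - u) := by
    rw [map_div₀, div_eq_div_iff h1 h0]
    linear_combination -e
  obtain ⟨t, ht⟩ := Complex.conj_eq_iff_real.1 h2
  have h3 : z = AffineMap.lineMap u w t := by
    rw [AffineMap.lineMap_apply, vsub_eq_sub, vadd_eq_add, Complex.real_smul, ← ht]
    field_simp
    ring
  rw [h3]
  exact AffineMap.lineMap_mem_affineSpan_pair t u w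

variable {ι : Type} {n : ℕ} {P P' : ι × ι → ℤ}

theorem Good.mono {n' : ℕ} (h : Good n P) (hn : n' ≤ n) : Good n' P := by
  obtain ⟨h1, X, h2, h3, h4, h5⟩ := h
  exact ⟨h1, X, h2, h3, fun u w => hn.trans (h4 u w), fun o r => hn.trans (h5 o r)⟩

theorem Good.pos (h : Good n P) {i j : ι} (hij : i ≠ j) : 0 < P (i, j) := by
  obtain ⟨-, X, h2, h3, -⟩ := h
  have := dist_pos.2 (h2.ne hij)
  rw [h3] at this
  exact_mod_cast this

theorem Good.eq (h : Good n P) (h' : Good n P') {p q : ι} (hpq : p ≠ q)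
    (e : ∀ i, P i * P' (p, q) = P' i * P (p, q)) : P = P' := by
  have ha := h.pos hpq
  have hb := h'.pos hpq
  generalize P (p, q) = a at ha e
  generalize P' (p, q) = b at hb e
  have hg : 0 < Int.gcd a b := Int.gcd_pos_of_ne_zero_left b ha.ne'
  obtain ⟨a', b', hab, h1, h2⟩ := Int.exists_gcd_one hg
  have hg' : (0 : ℤ) < Int.gcd a b := by exact_mod_cast hg
  generalize (Int.gcd a b : ℤ) = g at h1 h2 hg'
  have hc' : ∀ i, P' i * a' = P i * b' := by
    intro i
    have := e i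
    rw [h1, h2] at this
    exact mul_right_cancel₀ hg'.ne' (by linear_combination -this)
  have hco : IsCoprime a' b' := Int.isCoprime_iff_gcd_eq_one.2 hab
  have ha' : 0 < a' := (mul_pos_iff_of_pos_right hg').1 (h1 ▸ ha)
  have hb' : 0 < b' := (mul_pos_iff_of_pos_right hg').1 (h2 ▸ hb)
  have e1 : a'.natAbs = 1 := h.1 _ fun i =>
    Int.natAbs_dvd.2 (hco.dvd_of_dvd_mul_right ⟨P' i, by rw [← hc' i]; ring⟩)
  have e2 : b'.natAbs = 1 := h'.1 _ fun i =>
    Int.natAbs_dvd.2 (hco.symm.dvd_of_dvd_mul_right ⟨P i, by rw [hc' i]; ring⟩)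
  have e3 : a' = 1 := by omega
  have e4 : b' = 1 := by omega
  funext i
  have := hc' i
  rw [e3, e4, mul_one, mul_one] at this
  exact this.symm

theorem Good.card [Fintype ι] (h : Good n P) {p q : ι} (hpq : p ≠ q) :
    n + 2 ≤ Fintype.card ι := by
  obtain ⟨-, X, -, -, h4, -⟩ := h
  have h1 : {i | X i ∉ line[ℝ, X p, X q]} ⊆ ({p, q} : Set ι)ᶜ := by
    rintro i hi (rfl | rfl)
    · exact hi (left_mem_affineSpan_pair _ _ _)
    · exact hi (right_mem_affineSpan_pair _ _ _)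
  have h2 := (h4 _ _).trans (Set.ncard_le_ncard h1)
  have h3 := Set.ncard_add_ncard_compl ({p, q} : Set ι)
  rw [Set.ncard_pair hpq, Nat.card_eq_fintype_card] at h3
  omega

theorem ga_sq {X : ι → ℂ} (h : ∀ a b, dist (X a) (X b) = P (a, b)) (i j : ι) :
    (X i - X j) * (starRingEnd ℂ (X i) - starRingEnd ℂ (X j)) = (P (i, j) : ℂ) ^ 2 := by
  rw [← map_sub, Complex.mul_conj', ← Complex.dist_eq, h]
  simp

/-- at least `n` points are not on the line or circle through three given points -/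
theorem Good.pto [Fintype ι] (h : Good n P) {i j l : ι} (hij : i ≠ j) (hil : i ≠ l) (hjl : j ≠ l) :
    n ≤ {m | pto P i j l m ≠ 0}.ncard := by
  have hp := fun a b => h.pos (i := a) (j := b)
  obtain ⟨-, X, h2, h3, h4, h5⟩ := h
  let c : Cf ι ℂ := ⟨X, fun a => starRingEnd ℂ (X a), fun a b => P (a, b), ga_sq h3,
    fun a b hab => by exact_mod_cast (hp a b hab).ne'⟩
  have key : ∀ γ : Fin 4 → ℂ, γ ≠ 0 → c.On γ i → c.On γ j → c.On γ l → ∀ m,
      Gp.pto P i j l m = 0 → c.On γ m := fun γ g0 gi gj gl m hm => by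
    rw [Cf.on_iff_cyc g0 hij hil hjl gi gj gl, ← pow_eq_zero_iff two_ne_zero, Cf.cyc_sq]
    have : ((Gp.pto P i j l m : ℤ) : ℂ) = 0 := by rw [hm, Int.cast_zero]
    simpa [Gp.pto] using this
  have h0 : X j - X i ≠ 0 := sub_ne_zero.2 (h2.ne hij.symm)
  by_cases hδ : starRingEnd ℂ (X j - X i) * (X l - X i) =
      (X j - X i) * starRingEnd ℂ (X l - X i)
  · refine (h4 (X i) (X j)).trans (Set.ncard_le_ncard fun m hm h6 => hm ?_)
    have on : ∀ a, c.On ![0, starRingEnd ℂ (X j - X i), -(X j - X i),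
        (X j - X i) * starRingEnd ℂ (X i) - starRingEnd ℂ (X j - X i) * X i] a ↔
        starRingEnd ℂ (X j - X i) * (X a - X i) = (X j - X i) * starRingEnd ℂ (X a - X i) := by
      intro a
      rw [← sub_eq_zero (a := starRingEnd ℂ (X j - X i) * (X a - X i)), Cf.On]
      refine Eq.congr_left ?_
      simp [bil, c]
      ring
    refine ga_line (h2.ne hij) ((on m).1 (key _ (fun e => h0 ?_) ((on i).2 (by simp))
      ((on j).2 (mul_comm _ _)) ((on l).2 hδ) m h6))
    exact neg_eq_zero.1 (congrFun e 2)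
  · obtain ⟨a, ha⟩ : ∃ a, a = X j - X i := ⟨_, rfl⟩
    obtain ⟨b, hb⟩ : ∃ b, b = X l - X i := ⟨_, rfl⟩
    rw [← ha, ← hb, ← sub_eq_zero] at hδ
    have hδ' : a * starRingEnd ℂ b - starRingEnd ℂ a * b ≠ 0 := fun e =>
      hδ (by linear_combination -e)
    obtain ⟨v, hv⟩ : ∃ v, v = a * b * (starRingEnd ℂ a - starRingEnd ℂ b) /
      (starRingEnd ℂ a * b - a * starRingEnd ℂ b) := ⟨_, rfl⟩
    have v1 : v * (starRingEnd ℂ a * b - a * starRingEnd ℂ b) =
        a * b * (starRingEnd ℂ a - starRingEnd ℂ b) := by rw [hv, div_mul_cancel₀ _ hδ]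
    have v2 := congrArg (starRingEnd ℂ) v1
    simp only [map_mul, map_sub, Complex.conj_conj] at v2
    have d : ∀ z : ℂ, (z - v) * starRingEnd ℂ (z - v) = v * starRingEnd ℂ v →
        dist (X i + z) (X i + v) = ‖v‖ := fun z hz => by
      rw [dist_add_left, Complex.dist_eq, ← sq_eq_sq₀ (norm_nonneg _) (norm_nonneg _)]
      rw [Complex.mul_conj', Complex.mul_conj'] at hz
      exact_mod_cast hz
    have di := d 0 (by simp)
    have dj := d a (mul_right_cancel₀ hδ (by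
      rw [map_sub]
      linear_combination (-(starRingEnd ℂ a)) * v1 + a * v2))
    have dl := d b (mul_right_cancel₀ hδ (by
      rw [map_sub]
      linear_combination (-(starRingEnd ℂ b)) * v1 + b * v2))
    rw [add_zero] at di
    rw [ha, add_sub_cancel] at dj
    rw [hb, add_sub_cancel] at dl
    refine (h5 (X i + v) ‖v‖).trans (Set.ncard_le_ncard fun m hm h6 => hm ?_)
    exact (ga_circ _ _ (norm_nonneg v)).1 (key _ (fun e => by simpa using congrFun e 0)
      ((ga_circ _ _ (norm_nonneg v)).2 di) ((ga_circ _ _ (norm_nonneg v)).2 dj)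
      ((ga_circ _ _ (norm_nonneg v)).2 dl) m h6)

end Pool.Agent.Lib.MP_e5111b_co.Gp
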