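import Pool.Agent.Lib.MP_e5111b_co.Gp.Tang

set_option autoImplicit false

namespace Pool.Agent.Lib.MP_e5111b_co.Gp

open Finset WithZero

theorem hom_pre (c N : ℕ) : ∃ n : ℕ, ∀ (ι : Type) (I : Finset ι) (χ : ι → ι → Fin c),
    (∀ i j, χ i j = χ j i) → n ≤ #I → ∃ Y ⊆ I, N ≤ #Y ∧ ∃ f : ι → Fin c,
      ∀ i ∈ Y, ∀ j ∈ Y, i ≠ j → χ i j = f i ∨ χ i j = f j := by
  classical
  induction N with
  | zero => exact ⟨0, fun ι I χ _ _ => ⟨∅, empty_subset _, le_rfl, fun i => χ i i, by simp⟩⟩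
  | succ N ih =>
    obtain ⟨n, hn⟩ := ih
    refine ⟨c * n + 1, fun ι I χ hs hI => ?_⟩
    obtain ⟨x, hx⟩ : I.Nonempty := card_pos.1 (by omega)
    obtain ⟨u, -, hu⟩ := exists_le_card_fiber_of_mul_le_card_of_maps_to (s := I.erase x)
      (t := univ) (f := χ x) (n := n) (fun _ _ => mem_univ _) ⟨χ x x, mem_univ _⟩
      (by rw [card_erase_of_mem hx, card_univ, Fintype.card_fin]; omega)
    obtain ⟨Y, hY, hc, f, hf⟩ := hn ι _ χ hs hu
    have h1 : ∀ i ∈ Y, i ≠ x ∧ i ∈ I ∧ χ x i = u := fun i hi => by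
      have := mem_filter.1 (hY hi)
      exact ⟨(mem_erase.1 this.1).1, (mem_erase.1 this.1).2, this.2⟩
    refine ⟨insert x Y, ?_, ?_, Function.update f x u, ?_⟩
    · exact insert_subset hx fun i hi => (h1 i hi).2.1
    · rw [card_insert_of_notMem fun h => (h1 x h).1 rfl]
      omega
    · intro i hi j hj hij
      rcases mem_insert.1 hi with rfl | hi'
      · rcases mem_insert.1 hj with rfl | hj'
        · exact absurd rfl hij
        · exact .inl (by rw [Function.update_self]; exact (h1 j hj').2.2)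
      · rcases mem_insert.1 hj with rfl | hj'
        · exact .inr (by rw [Function.update_self, hs]; exact (h1 i hi').2.2)
        · rw [Function.update_of_ne (h1 i hi').1, Function.update_of_ne (h1 j hj').1]
          exact hf i hi' j hj' hij

theorem ramsey (c a : ℕ) : ∃ n : ℕ, ∀ (ι : Type) (I : Finset ι) (χ : ι → ι → Fin c),
    (∀ i j, χ i j = χ j i) → n ≤ #I →
    ∃ Y ⊆ I, a ≤ #Y ∧ ∃ u, ∀ i ∈ Y, ∀ j ∈ Y, i ≠ j → χ i j = u := by
  obtain ⟨n, hn⟩ := hom_pre c (c * a + 1)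
  refine ⟨n, fun ι I χ hs hI => ?_⟩
  obtain ⟨Y, hY, hc, f, hf⟩ := hn ι I χ hs hI
  obtain ⟨x, -⟩ : Y.Nonempty := card_pos.1 (by omega)
  obtain ⟨u, -, hu⟩ := exists_le_card_fiber_of_mul_le_card_of_maps_to (s := Y)
    (t := univ) (f := f) (n := a) (fun _ _ => mem_univ _) ⟨f x, mem_univ _⟩
    (by rw [card_univ, Fintype.card_fin]; omega)
  refine ⟨_, (filter_subset _ _).trans hY, hu, u, fun i hi j hj hij => ?_⟩
  rw [mem_filter] at hi hj
  rcases hf i hi.1 j hj.1 hij with h | h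
  · exact h.trans hi.2
  · exact h.trans hj.2

theorem hom_ram (κ : Type) [Fintype κ] (a : ℕ) : ∃ n : ℕ, ∀ (ι : Type) (I : Finset ι)
    (χ : ι → ι → κ), (∀ i j, χ i j = χ j i) → n ≤ #I →
    ∃ Y ⊆ I, a ≤ #Y ∧ ∃ u, ∀ i ∈ Y, ∀ j ∈ Y, i ≠ j → χ i j = u := by
  obtain ⟨n, hn⟩ := ramsey (Fintype.card κ) a
  refine ⟨n, fun ι I χ hs hI => ?_⟩
  obtain ⟨Y, hY, hc, u, hu⟩ := hn ι I (fun i j => Fintype.equivFin κ (χ i j))
    (fun i j => by rw [hs]) hI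
  exact ⟨Y, hY, hc, (Fintype.equivFin κ).symm u, fun i hi j hj hij =>
    (Equiv.eq_symm_apply _).2 (hu i hi j hj hij)⟩

section

variable {k K ι : Type} [Field k] [Field K] [Algebra k K] {B m : ℕ} {C : Cur k K B}

/-- few places see two points agree in one coordinate -/
theorem hom_card (c : Cf ι K) (hZ : ∀ i, C.Reg m (c.Z i)) (hW : ∀ i, C.Reg m (c.W i))
    {I : Finset ι} (hI : 2 ≤ #I) {S₁ : Finset C.P}
    (h : ∀ p ∈ S₁, (∀ i ∈ I, ∀ j ∈ I, C.v p (c.Z i - c.Z j) < 1) ∨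
      ∀ i ∈ I, ∀ j ∈ I, C.v p (c.W i - c.W j) < 1) : #S₁ ≤ 2 * (B * m) := by
  classical
  obtain ⟨i, hi, j, hj, hij⟩ := one_lt_card.1 hI
  have h1 := ((hZ i).sub (hZ j)).card_le (c.Z_ne hij)
    (T := S₁.filter fun p => C.v p (c.Z i - c.Z j) < 1) fun p hp => (mem_filter.1 hp).2
  have h2 := ((hW i).sub (hW j)).card_le (c.W_ne hij)
    (T := S₁.filter fun p => ¬ C.v p (c.Z i - c.Z j) < 1) fun p hp =>
      ((h p (mem_filter.1 hp).1).resolve_left fun h' => (mem_filter.1 hp).2 (h' i hi j hj))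
        i hi j hj
  have := card_filter_add_card_filter_not (s := S₁) fun p => C.v p (c.Z i - c.Z j) < 1
  omega

theorem hom_tri (p : C.P) (Z : ι → K) {Y : Finset ι} {j : ι}
    (h : ∀ i ∈ Y, C.v p (Z i - Z j) < 1) : ∀ i ∈ Y, ∀ l ∈ Y, C.v p (Z i - Z l) < 1 := by
  intro i hi l hl
  rw [show Z i - Z l = (Z i - Z j) - (Z l - Z j) by ring]
  exact ((C.v p).map_sub _ _).trans_lt (max_lt (h i hi) (h l hl))

theorem hom_sq (p : C.P) {f g : K} (h : C.v p (f ^ 2) = C.v p (g ^ 2)) : C.v p f = C.v p g := by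
  rw [map_pow, map_pow] at h
  exact (pow_left_inj₀ zero_le zero_le two_ne_zero).1 h

/-- equal orders on `S₂` and no double zeros off `S₂` give a homogeneous family -/
theorem hom_of (c : Cf ι K) (hZ : ∀ i, C.Reg m (c.Z i)) (hW : ∀ i, C.Reg m (c.W i))
    {Y : Finset ι} {S₂ : Finset C.P} (hS : C.S ⊆ S₂)
    (h1 : ∀ i ∈ Y, ∀ j ∈ Y, i ≠ j → ∀ p ∉ S₂, ¬ C.v p (c.Z i - c.Z j) ≤ exp (-2) ∧
      ¬ C.v p (c.W i - c.W j) ≤ exp (-2))
    (h2 : ∀ i ∈ Y, ∀ j ∈ Y, i ≠ j → ∀ a ∈ Y, ∀ b ∈ Y, a ≠ b → ∀ p ∈ S₂,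
      C.v p (c.Z i - c.Z j) = C.v p (c.Z a - c.Z b) ∧
        C.v p (c.W i - c.W j) = C.v p (c.W a - c.W b)) : c.Hom k Y := by
  by_cases hY : ∃ a ∈ Y, ∃ b ∈ Y, a ≠ b
  · obtain ⟨a, ha, b, hb, hab⟩ := hY
    refine ⟨(c.W a - c.W b) / (c.Z a - c.Z b), fun i hi j hj => ?_⟩
    by_cases hij : i = j
    · exact ⟨0, by simp [hij]⟩
    have key : ∀ i ∈ Y, ∀ j ∈ Y, i ≠ j → ∀ p ∉ S₂,
        C.v p (c.Z i - c.Z j) = C.v p (c.W i - c.W j) := fun i hi j hj hij p hp =>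
      C.v_eq_of_sq p (c.sq i j) (((hZ i).sub (hZ j)).2 p fun h => hp (hS h))
        (((hW i).sub (hW j)).2 p fun h => hp (hS h)) (h1 i hi j hj hij p hp).1
        (h1 i hi j hj hij p hp).2
    obtain ⟨u, hu⟩ := Cur.ratio (C := C) (f := (c.W i - c.W j) * (c.Z a - c.Z b))
      (g := (c.Z i - c.Z j) * (c.W a - c.W b)) (mul_ne_zero (c.Z_ne hij) (c.W_ne hab)) fun p => by
        rw [map_mul, map_mul]
        by_cases hp : p ∈ S₂
        · rw [(h2 i hi j hj hij a ha b hb hab p hp).1, (h2 i hi j hj hij a ha b hb hab p hp).2,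
            mul_comm]
        · rw [key i hi j hj hij p hp, key a ha b hb hab p hp]
    refine ⟨u, ?_⟩
    have := c.Z_ne hab
    field_simp
    linear_combination hu
  · refine ⟨0, fun i hi j hj => ⟨0, ?_⟩⟩
    have : i = j := by
      by_contra h
      exact hY ⟨i, hi, j, hj, h⟩
    simp [this]

end

theorem hom_aux (B m y r : ℕ) : ∃ n : ℕ, ∀ (k K : Type) [Field k] [CharZero k] [Field K]
    [Algebra k K] (C : Cur k K B) (ι : Type) (c : Cf ι K) (I : Finset ι) (S₁ : Finset C.P),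
    (∀ i, C.Reg m (c.Z i)) → (∀ i, C.Reg m (c.W i)) → n ≤ #I → 2 * (B * m) < #S₁ + r →
    (∀ p ∈ S₁, (∀ i ∈ I, ∀ j ∈ I, C.v p (c.Z i - c.Z j) < 1) ∨
      ∀ i ∈ I, ∀ j ∈ I, C.v p (c.W i - c.W j) < 1) → ∃ Y ⊆ I, y ≤ #Y ∧ c.Hom k Y := by
  classical
  induction r with
  | zero =>
    refine ⟨2, fun k K _ _ _ _ C ι c I S₁ hZ hW hI hr h => ?_⟩
    have := hom_card c hZ hW hI h
    omega
  | succ r ih =>
    obtain ⟨M, hM⟩ := ih
    obtain ⟨A, hA⟩ := tang B m M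
    obtain ⟨n, hn⟩ := hom_ram (Prop × Prop × Fin ((B * (m * 2) + m * 2 + 1) ^ (B + 2 * (B * m))) ×
      Fin ((B * (m * 2) + m * 2 + 1) ^ (B + 2 * (B * m)))) (y + A + 1)
    refine ⟨n + 2, fun k K _ _ _ _ C ι c I S₁ hZ hW hI hr h => ?_⟩
    by_cases hx : ∃ p ∉ C.S ∪ S₁, ∃ j ∈ I, ∃ Y ⊆ I, M < #Y ∧
        ((∀ i ∈ Y, C.v p (c.Z i - c.Z j) < 1) ∨ ∀ i ∈ Y, C.v p (c.W i - c.W j) < 1)
    · obtain ⟨p, hp, j, -, Y, hY, hc, hv⟩ := hx
      obtain ⟨Y', h1, h2⟩ := hM k K C ι c Y (insert p S₁) hZ hW hc.le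
        (by rw [card_insert_of_notMem fun h => hp (mem_union_right _ h)]; omega) fun q hq => by
          rcases mem_insert.1 hq with rfl | hq
          · exact hv.imp (hom_tri q c.Z) (hom_tri q c.W)
          · exact (h q hq).imp (fun h i hi j hj => h i (hY hi) j (hY hj))
              fun h i hi j hj => h i (hY hi) j (hY hj)
      exact ⟨Y', h1.trans hY, h2⟩
    have hc := hom_card c hZ hW (by omega) h
    have hS := C.card_S
    obtain ⟨col, hcol⟩ := C.colour (m * 2) (B + 2 * (B * m)) (C.S ∪ S₁)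
      ((card_union_le _ _).trans (by omega))
    obtain ⟨Y, hY, hy, u, hu⟩ := hn ι I (fun i j =>
      (∃ p ∉ C.S ∪ S₁, C.v p (c.Z i - c.Z j) ≤ exp (-2),
        ∃ p ∉ C.S ∪ S₁, C.v p (c.W i - c.W j) ≤ exp (-2),
        col ((c.Z i - c.Z j) ^ 2), col ((c.W i - c.W j) ^ 2))) (fun i j => by
      rw [sub_sq_comm (c.Z i), sub_sq_comm (c.W i)]
      simp only [Valuation.map_sub_swap _ (c.Z i) (c.Z j), Valuation.map_sub_swap _ (c.W i) (c.W j)])
      (by omega)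
    have hf : ∀ p ∉ C.S ∪ S₁, ∀ j ∈ Y, ∀ Y' ⊆ Y, ((∀ i ∈ Y', C.v p (c.Z i - c.Z j) < 1) ∨
        ∀ i ∈ Y', C.v p (c.W i - c.W j) < 1) → #Y' ≤ M := fun p hp j hj Y' hY' hv =>
      not_lt.1 fun hlt => hx ⟨p, hp, j, hY hj, Y', hY'.trans hY, hlt, hv⟩
    have n1 : ¬ u.1 := fun h1 => by
      have := hA k K C ι c.Z Y (C.S ∪ S₁) subset_union_left hZ
        (fun i j e => by_contra fun hne => c.Z_ne hne (sub_eq_zero.2 e))
        (fun p hp j hj Y' hY' hv => hf p hp j hj Y' hY' (.inl hv))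
        fun i hi j hj hij => by rw [← hu i hi j hj hij] at h1; exact h1
      omega
    have n2 : ¬ u.2.1 := fun h1 => by
      have := hA k K C ι c.W Y (C.S ∪ S₁) subset_union_left hW
        (fun i j e => by_contra fun hne => c.W_ne hne (sub_eq_zero.2 e))
        (fun p hp j hj Y' hY' hv => hf p hp j hj Y' hY' (.inr hv))
        fun i hi j hj hij => by rw [← hu i hi j hj hij] at h1; exact h1
      omega
    refine ⟨Y, hY, by omega, hom_of c hZ hW (S₂ := C.S ∪ S₁) subset_union_left ?_ ?_⟩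
    · intro i hi j hj hij p hp
      rw [← hu i hi j hj hij] at n1 n2
      exact ⟨fun h => n1 ⟨p, hp, h⟩, fun h => n2 ⟨p, hp, h⟩⟩
    · intro i hi j hj hij a ha b hb hab p hp
      have e := (hu i hi j hj hij).trans (hu a ha b hb hab).symm
      simp only [Prod.mk.injEq] at e
      exact ⟨hom_sq p (hcol _ _ (((hZ i).sub (hZ j)).pow 2) (((hZ a).sub (hZ b)).pow 2)
          (pow_ne_zero 2 (c.Z_ne hij)) (pow_ne_zero 2 (c.Z_ne hab)) e.2.2.1 p hp),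
        hom_sq p (hcol _ _ (((hW i).sub (hW j)).pow 2) (((hW a).sub (hW b)).pow 2)
          (pow_ne_zero 2 (c.W_ne hij)) (pow_ne_zero 2 (c.W_ne hab)) e.2.2.2 p hp)⟩

/-- a large family has a large homogeneous subfamily -/
theorem hom (B m y : ℕ) : ∃ n : ℕ, ∀ (k K : Type) [Field k] [CharZero k] [Field K] [Algebra k K]
    (C : Cur k K B) (ι : Type) (c : Cf ι K) (I : Finset ι), (∀ i, C.Reg m (c.Z i)) →
    (∀ i, C.Reg m (c.W i)) → n ≤ #I → ∃ Y ⊆ I, y ≤ #Y ∧ c.Hom k Y := by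
  obtain ⟨n, hn⟩ := hom_aux B m y (2 * (B * m) + 1)
  exact ⟨n, fun k K _ _ _ _ C ι c I hZ hW hI => hn k K C ι c I ∅ hZ hW hI (by simp) (by simp)⟩

end Pool.Agent.Lib.MP_e5111b_co.Gp
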