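import Pool.Agent.Lib.MP_e5111b_co.Gp.Kit

set_option autoImplicit false

namespace Pool.Agent.Lib.MP_e5111b_co.Gp

open Filter MvPolynomial Finset Pc

/-- a generic point may be read in the algebraic closure -/
theorem ind_cl (c : Ctx) {σ : Type} {T : ℕ → Finset (σ → ℤ)} {Ω : Type} [Field Ω] [Algebra c.F Ω]
    {x : σ → Ω} (hx : c.Gen T x) {ρ : ℕ} {b : Fin ρ → σ} (hb : IsBas c.F x b) {e : ℝ}
    (h : ∀ y : σ → AlgebraicClosure Ω, c.Gen T y → IsBas c.F y b → c.Out T y e) : c.Out T x e := by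
  let φ : Ω →ₐ[c.F] AlgebraicClosure Ω := IsScalarTower.toAlgHom _ _ _
  have hφ : Function.Injective φ := φ.toRingHom.injective
  have ev : ∀ H : MvPolynomial σ c.F, aeval (fun i => φ (x i)) H = φ (aeval x H) := fun H =>
    (comp_aeval_apply x φ H).symm
  obtain ⟨T', s, ⟨H, H1, H2⟩, hc⟩ := h (fun i => φ (x i))
    (fun H => by rw [ev, map_eq_zero_iff φ hφ]; exact hx H) ⟨hb.1.map' hφ, fun i => by
      have e1 : (Algebra.adjoin c.F (Set.range fun j => x (b j))).map φ =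
          Algebra.adjoin c.F (Set.range fun j => φ (x (b j))) := by
        rw [AlgHom.map_adjoin, ← Set.range_comp]
        rfl
      rw [← e1]
      exact (hb.2 i).ringHom_of_comp_eq (φ.subalgebraMap _).toRingHom φ.toRingHom
        (fun u w huw => Subtype.ext (hφ (congrArg Subtype.val huw))) rfl⟩
  exact ⟨T', s, ⟨H, fun h0 => H1 (by rw [ev, h0, map_zero]), H2⟩, hc⟩

/-- induction on the transcendence degree, with algebraically closed coefficient fields -/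
theorem ind (c : Ctx) {σ : Type} [Finite σ] (Q : (σ → ℤ) → Prop) (e : ℕ → ℝ) (he : ∀ i, 0 ≤ e i)
    (h : ∀ T : ℕ → Finset (σ → ℤ), c.Box T → (∀ k, ∀ P ∈ T k, Q P) →
      ∀ (Ω : Type) [Field Ω] [IsAlgClosed Ω] [Algebra c.F Ω] (x : σ → Ω), c.Gen T x →
      ∀ (ρ : ℕ) (b : Fin (ρ + 1) → σ), IsBas c.F x b → c.Out T x (e ρ)) (ρ : ℕ) :
    ∀ T : ℕ → Finset (σ → ℤ), c.Box T → (∀ k, ∀ P ∈ T k, Q P) →
      ∀ (Ω : Type) [Field Ω] [Algebra c.F Ω] (x : σ → Ω), c.Gen T x →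
      ∀ b : Fin ρ → σ, IsBas c.F x b → ∀ η : ℝ, 0 < η →
      ∀ᶠ k in (c.U : Filter ℕ), (#(T k) : ℝ) ≤ (c.N k : ℝ) ^ (∑ i ∈ range ρ, e i + η) := by
  induction ρ using Nat.strong_induction_on with
  | _ ρ ih =>
  intro T hT hQ Ω _ _ x hx b hb η hη
  have hN : ∀ᶠ k in (c.U : Filter ℕ), (1 : ℝ) ≤ c.N k :=
    (c.hN.eventually_ge_atTop 1).mono fun k hk => by exact_mod_cast hk
  cases ρ with
  | zero =>
    have ha : ∀ i, IsAlgebraic c.F (x i) := fun i => by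
      have h1 := hb.2 i
      rw [Set.range_eq_empty, Algebra.adjoin_empty] at h1
      exact (Subalgebra.isAlgebraic_bot_iff (algebraMap c.F Ω).injective).1 h1
    filter_upwards [c.card_le_one hT hx ha, hN] with k h1 h2
    refine le_trans (by exact_mod_cast h1) (Real.one_le_rpow h2 ?_)
    simpa using hη.le
  | succ ρ =>
    obtain ⟨T', s, ⟨H, H1, H2⟩, hc⟩ := ind_cl c hx hb (h T hT hQ _ · · ρ b ·)
    have hT' : c.Box T' := fun k P hP => hT k P (s k hP)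
    have hne : ∀ᶠ k in (c.U : Filter ℕ), (T' k).Nonempty := by
      filter_upwards [Ctx.Gen.nonempty c hx, hc] with k h1 h2
      rw [← card_pos]
      by_contra h3
      have h4 : #(T' k) = 0 := by omega
      have h5 : (0 : ℝ) < #(T k) := by exact_mod_cast h1.card_pos
      rw [h4, Nat.cast_zero, mul_zero] at h2
      linarith
    obtain ⟨T'', K, Ω', _, _, x', s', hx', hK⟩ := c.refine hT' hne
    obtain ⟨ρ', b', hb'⟩ := exists_bas (F := c.F) x'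
    have hv : ∀ {A B : ℕ → Finset (σ → ℤ)} {G : MvPolynomial σ c.F}, c.Van A G →
        (∀ k, B k ⊆ A k) → c.Van B G := fun hG hs z ⟨ξ, h1, h2⟩ =>
      hG z ⟨ξ, h1.mono fun k hk => hs k hk, h2⟩
    have hlt : ρ' < ρ + 1 := drop
      (fun G hG => (hx' G).2 (hv ((hx G).1 hG) fun k => (s' k).trans (s k))) H1
      ((hx' H).2 (hv H2 s')) hb hb'
    have hK' : ∀ᶠ k in (c.U : Filter ℕ), (K : ℝ) ≤ (c.N k : ℝ) ^ (η / 2) :=
      ((tendsto_rpow_atTop (half_pos hη)).comp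
        (tendsto_natCast_atTop_atTop.comp c.hN)).eventually_ge_atTop _
    filter_upwards [ih ρ' hlt T'' (fun k P hP => hT' k P (s' k hP))
      (fun k P hP => hQ k P (s k (s' k hP))) Ω' x' hx' b' hb' (η / 2) (half_pos hη),
      hc, hK, hK', hN] with k h1 h2 h3 h4 h5
    have h0 : (0 : ℝ) < c.N k := by linarith
    have h6 : ∑ i ∈ range ρ', e i ≤ ∑ i ∈ range ρ, e i :=
      sum_le_sum_of_subset_of_nonneg (range_mono (by omega)) fun i _ _ => he i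
    have h7 : (#(T'' k) : ℝ) ≤ (c.N k : ℝ) ^ (∑ i ∈ range ρ, e i + η / 2) :=
      h1.trans (Real.rpow_le_rpow_of_exponent_le h5 (by linarith))
    have h8 : (#(T' k) : ℝ) ≤ (c.N k : ℝ) ^ (η / 2) * (c.N k : ℝ) ^ (∑ i ∈ range ρ, e i + η / 2) :=
      le_trans (by exact_mod_cast h3)
        (mul_le_mul h4 h7 (Nat.cast_nonneg _) (Real.rpow_nonneg h0.le _))
    refine h2.trans ((mul_le_mul_of_nonneg_left h8 (Real.rpow_nonneg h0.le _)).trans (le_of_eq ?_))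
    rw [← Real.rpow_add h0, ← Real.rpow_add h0, sum_range_succ]
    congr 1
    ring

/-- from the steps to the count -/
theorem count {σ : Type} [Finite σ] (Q : (σ → ℤ) → Prop) (e : ℕ → ℝ) (he : ∀ i, 0 ≤ e i) {ε : ℝ}
    (hε : 0 < ε) (hs : ∀ ρ, ∑ i ∈ range ρ, e i ≤ ε / 2)
    (h : ∀ (c : Ctx) (T : ℕ → Finset (σ → ℤ)), c.Box T → (∀ k, ∀ P ∈ T k, Q P) →
      ∀ (Ω : Type) [Field Ω] [IsAlgClosed Ω] [Algebra c.F Ω] (x : σ → Ω), c.Gen T x →
      ∀ (ρ : ℕ) (b : Fin (ρ + 1) → σ), IsBas c.F x b → c.Out T x (e ρ)) :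
    ∃ C : ℝ, ∀ N : ℕ, 1 ≤ N →
      (({P : σ → ℤ | (∀ i, |P i| ≤ N) ∧ Q P}.ncard : ℕ) : ℝ) ≤ C * (N : ℝ) ^ ε := by
  classical
  by_contra hn
  simp only [not_exists, not_forall, not_le] at hn
  choose N N1 hN using fun k : ℕ => hn (k + 1)
  have hf : ∀ M : ℕ, {P : σ → ℤ | (∀ i, |P i| ≤ M) ∧ Q P}.Finite := fun M =>
    (Set.Finite.pi' fun _ => Set.finite_Icc (-(M : ℤ)) M).subset fun P hP i => abs_le.1 (hP.1 i)
  have h1 : ∀ k, (1 : ℝ) ≤ (N k : ℝ) ^ ε := fun k =>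
    Real.one_le_rpow (by exact_mod_cast N1 k) hε.le
  have hc : ∀ k : ℕ, ((k : ℝ) + 1) * (N k : ℝ) ^ ε < #(hf (N k)).toFinset := fun k => by
    rw [← Set.ncard_eq_toFinset_card _ (hf (N k))]
    exact hN k
  have hk : ∀ k, k < #(hf (N k)).toFinset := fun k => by
    have h2 : (0 : ℝ) ≤ k := Nat.cast_nonneg k
    have h3 : (k : ℝ) < #(hf (N k)).toFinset := by nlinarith [hc k, h1 k]
    exact_mod_cast h3
  have ht : Tendsto N atTop atTop := tendsto_atTop.2 fun M => by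
    filter_upwards [eventually_ge_atTop #(hf M).toFinset] with k h2
    by_contra h3
    have h4 : (hf (N k)).toFinset ⊆ (hf M).toFinset := Set.Finite.toFinset_subset_toFinset.2
      fun P hP => ⟨fun i => (hP.1 i).trans (by exact_mod_cast (not_le.1 h3).le), hP.2⟩
    have := card_le_card h4
    have := hk k
    omega
  have hU : (hyperfilter ℕ : Filter ℕ) ≤ atTop := Nat.hyperfilter_le_atTop
  let c : Ctx := ⟨hyperfilter ℕ, N, ht.mono_left hU⟩
  have hT : c.Box fun k => (hf (N k)).toFinset := fun k P hP =>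
    ((hf (N k)).mem_toFinset.1 hP).1
  obtain ⟨T, K, Ω, _, _, x, s, hx, hK⟩ := c.refine hT (Eventually.of_forall fun k =>
    card_pos.1 (lt_of_le_of_lt (Nat.zero_le k) (hk k)))
  obtain ⟨ρ, b, hb⟩ := exists_bas (F := c.F) x
  have h2 := ind c Q e he (h c) ρ T
    (fun k P hP => hT k P (s k hP)) (fun k P hP => ((hf (N k)).mem_toFinset.1 (s k hP)).2)
    Ω x hx b hb (ε / 2) (half_pos hε)
  obtain ⟨k, ⟨k1, k2⟩, k3⟩ := ((h2.and hK).and (hU (eventually_ge_atTop K))).exists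
  have k4 : (#(T k) : ℝ) ≤ (N k : ℝ) ^ ε := k1.trans
    (Real.rpow_le_rpow_of_exponent_le (by exact_mod_cast N1 k) (by linarith [hs ρ]))
  have k5 : (#(hf (N k)).toFinset : ℝ) ≤ K * #(T k) := by exact_mod_cast k2
  have k6 : (K : ℝ) ≤ k := by exact_mod_cast k3
  have k7 : (K : ℝ) * #(T k) ≤ k * (N k : ℝ) ^ ε :=
    mul_le_mul k6 k4 (Nat.cast_nonneg _) (Nat.cast_nonneg _)
  nlinarith [hc k, h1 k]

theorem ind_sq (L : ℕ) : L ^ 2 ≤ 2 * 2 ^ L := by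
  induction L with
  | zero => simp
  | succ n ih =>
    have h1 : n < 2 ^ n := Nat.lt_two_pow_self
    rw [pow_succ 2]
    nlinarith

theorem ind_big {L : ℕ} (h : 23 ≤ L) : 9000 * L ^ 2 ≤ 2 ^ L := by
  induction L, h using Nat.le_induction with
  | base => norm_num
  | succ n hn ih =>
    rw [pow_succ 2]
    nlinarith

theorem ind_sum : Summable fun i : ℕ =>
    4 * (70 * ((3 * Nat.log 2 i : ℕ) : ℝ)) ^ 2 / 2 ^ (3 * Nat.log 2 i) := by
  have h : Summable fun i : ℕ => 1411200 * (1 / ((i + 1 : ℕ) : ℝ) ^ 2) :=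
    ((summable_nat_add_iff 1).2 (Real.summable_one_div_nat_pow.2 one_lt_two)).mul_left _
  refine h.of_nonneg_of_le (fun i => by positivity) fun i => ?_
  have h1 : ((i + 1 : ℕ) : ℝ) ≤ 2 * 2 ^ Nat.log 2 i := by
    have := Nat.lt_pow_succ_log_self one_lt_two i
    rw [pow_succ] at this
    exact_mod_cast (by omega : i + 1 ≤ 2 * 2 ^ Nat.log 2 i)
  have h2 : ((Nat.log 2 i : ℕ) : ℝ) ^ 2 ≤ 2 * 2 ^ Nat.log 2 i := by exact_mod_cast ind_sq _
  have h3 : ((i + 1 : ℕ) : ℝ) ^ 2 ≤ (2 * 2 ^ Nat.log 2 i) ^ 2 := by gcongr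
  rw [mul_one_div, div_le_div_iff₀ (by positivity) (by positivity), pow_mul', Nat.cast_mul]
  calc 4 * (70 * (((3 : ℕ) : ℝ) * (Nat.log 2 i : ℕ))) ^ 2 * ((i + 1 : ℕ) : ℝ) ^ 2
      = 176400 * (((Nat.log 2 i : ℕ) : ℝ) ^ 2 * ((i + 1 : ℕ) : ℝ) ^ 2) := by push_cast; ring
    _ ≤ 176400 * ((2 * 2 ^ Nat.log 2 i) * (2 * 2 ^ Nat.log 2 i) ^ 2) := by gcongr
    _ = 1411200 * (2 ^ Nat.log 2 i) ^ 3 := by ring

/-- the exponents -/
theorem expo {ε : ℝ} (hε : 0 < ε) : ∃ (r γ : ℕ) (e : ℕ → ℝ), 1 ≤ γ ∧ (∀ i, 0 ≤ e i) ∧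
    (∀ ρ, ∑ i ∈ range ρ, e i ≤ ε) ∧ (∀ i < r, 4 * ((i : ℝ) + 2) ^ 2 / γ ≤ e i) ∧
    ∀ i, r ≤ i → 1 ≤ Nat.log 2 i ∧ 1000 * (3 * Nat.log 2 i) ^ 2 ≤ i ∧
      4 * (70 * ((3 * Nat.log 2 i : ℕ) : ℝ)) ^ 2 / 2 ^ (3 * Nat.log 2 i) ≤ e i := by
  classical
  let g : ℕ → ℝ := fun i => 4 * (70 * ((3 * Nat.log 2 i : ℕ) : ℝ)) ^ 2 / 2 ^ (3 * Nat.log 2 i)
  have hg : Summable g := ind_sum
  have g0 : ∀ i, 0 ≤ g i := fun i => by positivity
  obtain ⟨s, hs⟩ := hg.vanishing (Iio_mem_nhds (half_pos hε))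
  obtain ⟨r, hr⟩ : ∃ r, r = s.sup id + 1 + 2 ^ 23 := ⟨_, rfl⟩
  have hδ : 0 < ε / 2 / (r + 1) := by positivity
  obtain ⟨γ, hγ⟩ := exists_nat_ge (4 * ((r : ℝ) + 2) ^ 2 / (ε / 2 / (r + 1)))
  have hγ0 : (0 : ℝ) < γ := lt_of_lt_of_le (by positivity) hγ
  refine ⟨r, γ, fun i => if i < r then ε / 2 / (r + 1) else g i, by exact_mod_cast hγ0,
    fun i => ?_, fun ρ => ?_, fun i hi => ?_, fun i hi => ?_⟩
  · dsimp only
    split_ifs
    exacts [hδ.le, g0 i]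
  · rw [sum_ite, sum_const, nsmul_eq_mul]
    have h1 : ∑ i ∈ (range ρ).filter fun i => ¬ i < r, g i < ε / 2 := hs _ (by
      rw [disjoint_left]
      intro i hi hi'
      have h2 : i ≤ s.sup id := le_sup (f := id) hi'
      have h3 := (mem_filter.1 hi).2
      omega)
    have h2 : #((range ρ).filter fun i => i < r) ≤ r := by
      refine (card_le_card (t := range r) fun i hi => mem_range.2 (mem_filter.1 hi).2).trans ?_
      rw [card_range]
    have h3 : (#((range ρ).filter fun i => i < r) : ℝ) ≤ r + 1 := by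
      have : (#((range ρ).filter fun i => i < r) : ℝ) ≤ r := by exact_mod_cast h2
      linarith
    have h4 := mul_le_mul_of_nonneg_right h3 hδ.le
    rw [mul_div_cancel₀ _ (by positivity : (r : ℝ) + 1 ≠ 0)] at h4
    linarith
  · simp only [if_pos hi]
    rw [div_le_iff₀ hδ] at hγ
    rw [div_le_iff₀ hγ0, mul_comm _ (γ : ℝ)]
    refine le_trans ?_ hγ
    have : (i : ℝ) ≤ r := by exact_mod_cast hi.le
    gcongr
  · have h1 : 23 ≤ Nat.log 2 i := Nat.le_log_of_pow_le one_lt_two (by omega)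
    have h2 := Nat.pow_log_le_self 2 (by omega : i ≠ 0)
    have h3 := ind_big h1
    refine ⟨by omega, by rw [mul_pow]; omega, ?_⟩
    simp only [if_neg (not_lt.2 hi)]
    exact le_rfl

end Pool.Agent.Lib.MP_e5111b_co.Gp
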