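import Pool.Agent.Lib.MP_e5111b_co.Gp.Defs
import Pool.Agent.Lib.MP_e5111b_co.Pc.Rank

set_option autoImplicit false

namespace Pool.Agent.Lib.MP_e5111b_co.Gp

open Finset

variable {k K : Type} [Field k] [Field K] [Algebra k K] {t f g : K} {j j' : ℕ}

theorem it_adj {Γ : Type} [LinearOrderedCommGroupWithZero Γ] (v : Valuation K Γ)
    (hk : ∀ c : k, v (algebraMap k K c) ≤ 1) (ht : v t ≤ 1)
    (hf : f ∈ Algebra.adjoin k {t}) : v f ≤ 1 := by
  induction hf using Algebra.adjoin_induction with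
  | mem x hx => exact (Set.mem_singleton_iff.1 hx).symm ▸ ht
  | algebraMap c => exact hk c
  | add x y _ _ hx hy => exact v.map_add_le hx hy
  | mul x y _ _ hx hy => exact (v.map_mul x y).trans_le (mul_le_one' hx hy)

theorem val_le_one {Γ : Type} [LinearOrderedCommGroupWithZero Γ] (v : Valuation K Γ)
    (hk : ∀ c : k, v (algebraMap k K c) ≤ 1) (ht : v t ≤ 1)
    (hf : IsIntegral (Algebra.adjoin k {t}) f) : v f ≤ 1 := by
  refine (Valuation.integer.integers v).isIntegral_iff_v_le_one.1 ?_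
  exact hf.map_of_comp_eq ((algebraMap (Algebra.adjoin k {t}) K).codRestrict v.integer
    fun y => it_adj v hk ht y.2) (RingHom.id K) (RingHom.ext fun _ => rfl)

theorem it_mem {s : Set K} (h : f ∈ Algebra.adjoin k s) : IsIntegral (Algebra.adjoin k s) f :=
  isIntegral_algebraMap (x := (⟨f, h⟩ : Algebra.adjoin k s))

theorem it_self : IsIntegral (Algebra.adjoin k {t}) t := it_mem (Algebra.subset_adjoin rfl)

theorem Itg.add (hf : Itg k t j f) (hg : Itg k t j g) : Itg k t j (f + g) :=
  ⟨hf.1.add hg.1, by rw [add_div]; exact hf.2.add hg.2⟩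

theorem Itg.sub (hf : Itg k t j f) (hg : Itg k t j g) : Itg k t j (f - g) :=
  ⟨hf.1.sub hg.1, by rw [sub_div]; exact hf.2.sub hg.2⟩

theorem Itg.mul (hf : Itg k t j f) (hg : Itg k t j' g) : Itg k t (j + j') (f * g) :=
  ⟨hf.1.mul hg.1, by rw [pow_add, ← div_mul_div_comm]; exact hf.2.mul hg.2⟩

theorem Itg.pow (hf : Itg k t j f) (n : ℕ) : Itg k t (j * n) (f ^ n) :=
  ⟨hf.1.pow n, by rw [pow_mul, ← div_pow]; exact hf.2.pow n⟩

theorem Itg.mono (hf : Itg k t j f) (h : j ≤ j') : Itg k t j' f := by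
  obtain ⟨d, rfl⟩ := Nat.exists_eq_add_of_le h
  refine ⟨hf.1, ?_⟩
  rw [pow_add, ← div_div, div_eq_mul_inv (f / t ^ j), ← inv_pow]
  exact hf.2.mul (it_self.pow d)

theorem Itg.int_mul (n : ℤ) (hf : Itg k t j f) : Itg k t j (n * f) :=
  ⟨(it_mem (intCast_mem _ n)).mul hf.1, by
    rw [mul_div_assoc]; exact (it_mem (intCast_mem _ n)).mul hf.2⟩

theorem itg_sum {ι : Type} (s : Finset ι) {a : ι → K} (h : ∀ i ∈ s, Itg k t j (a i)) :
    Itg k t j (∑ i ∈ s, a i) :=
  Finset.sum_induction a (Itg k t j) (fun _ _ => Itg.add)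
    ⟨isIntegral_zero, by rw [zero_div]; exact isIntegral_zero⟩ h

theorem itg_self (ht : t ≠ 0) : Itg k t 1 t :=
  ⟨it_self, by rw [pow_one, div_self ht]; exact isIntegral_one⟩

theorem Itg.inv (ht : t ≠ 0) (hf : Itg k t j f) : Itg k t⁻¹ j (f / t ^ j) := by
  refine ⟨hf.2, ?_⟩
  rw [inv_inv, inv_pow, div_inv_eq_mul, div_mul_cancel₀ _ (pow_ne_zero j ht)]
  exact hf.1

theorem it_quad {R : Type} [CommRing R] [Algebra R K] {a b : K} (ha : IsIntegral R a)
    (hb : IsIntegral R b) (h : f ^ 2 - a * f + b = 0) : IsIntegral R f := by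
  refine isIntegral_trans (A := integralClosure R K) f ⟨Polynomial.X ^ 2 -
    Polynomial.C (⟨a, ha⟩ : integralClosure R K) * Polynomial.X + Polynomial.C ⟨b, hb⟩, ?_, ?_⟩
  · monicity!
  · simpa using h

theorem Itg.of_quad {a b : K} (ha : Itg k t j a) (hb : Itg k t (j + j) b)
    (h : f ^ 2 - a * f + b = 0) : Itg k t j f := by
  refine ⟨it_quad ha.1 hb.1 h, it_quad ha.2 hb.2 ?_⟩
  rw [div_pow, div_mul_div_comm, ← pow_add, ← pow_mul, mul_two, ← sub_div, ← add_div, h, zero_div]

/-- integrality is tested by valuation rings -/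
theorem it_int (h : ∀ V : ValuationSubring K, (∀ c : k, V.valuation (algebraMap k K c) ≤ 1) →
    V.valuation t ≤ 1 → V.valuation f ≤ 1) : IsIntegral (Algebra.adjoin k {t}) f := by
  have h1 := iInf_valuationSubring_superset (s := ((Algebra.adjoin k {t}).toSubring : Set K))
  rw [Subring.closure_eq] at h1
  have h2 : f ∈ (integralClosure (Algebra.adjoin k {t}).toSubring K).toSubring := by
    rw [← h1, Subring.mem_iInf]
    rintro ⟨V, hV⟩
    refine V.mem_of_valuation_le_one f (h V (fun c => ?_) ?_)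
    · exact (V.valuation_le_one_iff _).2 (hV (Subalgebra.algebraMap_mem _ c))
    · exact (V.valuation_le_one_iff _).2 (hV (Algebra.subset_adjoin rfl))
  exact h2

/-- the poles of `x` are bounded by those of `l` -/
def ItDom (k : Type) {K : Type} [Field k] [Field K] [Algebra k K] (l x : K) : Prop :=
  ∀ V : ValuationSubring K, (∀ c : k, V.valuation (algebraMap k K c) ≤ 1) →
    V.valuation x ≤ max 1 (V.valuation l)

theorem ItDom.int (h : ItDom k t f) : IsIntegral (Algebra.adjoin k {t}) f :=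
  it_int fun V hk ht => (h V hk).trans (max_le le_rfl ht)

theorem ItDom.itg (ht : t ≠ 0) (h : ItDom k t f) : Itg k t 1 f := by
  refine ⟨h.int, it_int fun V hk h1 => ?_⟩
  have h0 : 0 < V.valuation t := (V.valuation.pos_iff).2 ht
  rw [map_inv₀, inv_le_one₀ h0] at h1
  rw [pow_one, map_div₀, div_le_one₀ h0]
  exact (h V hk).trans (max_le h1 le_rfl)

theorem ItDom.trans {l : K} (h : ItDom k l t) (h' : ItDom k t f) : ItDom k l f :=
  fun V hk => (h' V hk).trans (max_le (le_max_left _ _) (h V hk))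

theorem it_unit {Γ : Type} [LinearOrderedCommGroupWithZero Γ] (v : Valuation K Γ)
    (hk : ∀ c : k, v (algebraMap k K c) ≤ 1) {c : k} (hc : c ≠ 0) :
    v (algebraMap k K c) = 1 := by
  refine le_antisymm (hk c) ?_
  have h := hk c⁻¹
  rwa [map_inv₀, map_inv₀, inv_le_one₀ (v.pos_iff.2 ((map_ne_zero _).2 hc))] at h

theorem it_step [CharZero k] {x₀ l x : K} (h0 : Transcendental k x₀)
    (hl : IsAlgebraic (Algebra.adjoin k {x₀}) l) (hx : IsAlgebraic (Algebra.adjoin k {x₀}) x) :
    ∃ c : ℕ, ItDom k (l - c * x) x := by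
  obtain ⟨q, hq, hi⟩ : ∃ q : Polynomial k, q ≠ 0 ∧
      IsIntegral (Algebra.adjoin k {l / x}) (Polynomial.aeval (l / x) q * x) := by
    by_cases hu : IsAlgebraic k (l / x)
    · obtain ⟨q, hq, h1⟩ := hu
      exact ⟨q, hq, by rw [h1, zero_mul]; exact isIntegral_zero⟩
    · have h1 : IsAlgebraic (Algebra.adjoin k {x₀}) (l / x) := by
        rw [div_eq_mul_inv]
        exact hl.mul hx.inv
      have h2 : IsAlgebraic (Algebra.adjoin k {l / x}) x₀ :=
        IsAlgebraic.adjoin_singleton (A := K) h0 hu h1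
      have h3 : IsAlgebraic (Algebra.adjoin k {l / x}) x :=
        Pc.rk_trans hx fun b hb => (Set.mem_singleton_iff.1 hb).symm ▸ h2
      obtain ⟨r, hr, h4⟩ := h3.exists_integral_multiple
      obtain ⟨q, hq⟩ := Algebra.adjoin_eq_exists_aeval k (l / x) r
      refine ⟨q, fun h => hr (Subtype.ext ?_), by rw [hq]; exact h4⟩
      rw [← hq, h, map_zero]
      rfl
  obtain ⟨c, hc⟩ : ∃ c : ℕ, q.eval (c : k) ≠ 0 := by
    by_contra h
    push Not at h
    exact hq (q.eq_zero_of_infinite_isRoot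
      (Set.infinite_of_injective_forall_mem (f := fun c : ℕ => (c : k)) Nat.cast_injective h))
  refine ⟨c, fun V hk => ?_⟩
  by_contra h
  rw [not_le, max_lt_iff] at h
  have h0 : 0 < V.valuation x := zero_lt_one.trans h.1
  have hx0 : x ≠ 0 := V.valuation.pos_iff.1 h0
  have h1 : V.valuation (l / x - algebraMap k K c) < 1 := by
    rw [map_natCast, show l / x - c = (l - c * x) / x by field_simp, map_div₀, div_lt_one₀ h0]
    exact h.2
  have h2 : V.valuation (l / x) ≤ 1 := by
    rw [← sub_add_cancel (l / x) (algebraMap k K c)]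
    exact V.valuation.map_add_le h1.le (hk _)
  obtain ⟨r, hr⟩ := Polynomial.X_sub_C_dvd_sub_C_eval (a := (c : k)) (p := q)
  have h3 := congrArg (Polynomial.aeval (l / x)) hr
  rw [map_sub, map_mul, map_sub, Polynomial.aeval_X, Polynomial.aeval_C, Polynomial.aeval_C] at h3
  have h4 : V.valuation (Polynomial.aeval (l / x) q) = 1 := by
    rw [← it_unit V.valuation hk hc]
    refine V.valuation.map_eq_of_sub_lt ?_
    rw [h3, it_unit V.valuation hk hc, map_mul, mul_comm]
    exact mul_lt_of_le_one_of_lt (it_adj _ hk h2 (Polynomial.aeval_mem_adjoin_singleton _ _)) h1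
  have h5 := val_le_one V.valuation hk h2 hi
  rw [map_mul, h4, one_mul] at h5
  exact h.1.not_ge h5

/-- Noether normalization of a curve by an integral linear form -/
theorem noether [CharZero k] {σ : Type} [Fintype σ] (x : σ → K) (i₀ : σ)
    (h0 : Transcendental k (x i₀)) (h : ∀ i, IsAlgebraic (Algebra.adjoin k {x i₀}) (x i)) :
    ∃ n : σ → ℤ, Transcendental k (∑ i, (n i : K) * x i) ∧
      ∀ i, Itg k (∑ i, (n i : K) * x i) 1 (x i) := by
  classical
  have hs : ∀ (i : σ) (c : ℤ), ∑ r, ((Pi.single i c : σ → ℤ) r : K) * x r = c * x i := by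
    intro i c
    rw [Finset.sum_eq_single i (fun r _ hr => by rw [Pi.single_eq_of_ne hr]; simp) (by simp),
      Pi.single_eq_same]
  have ha : ∀ n : σ → ℤ, IsAlgebraic (Algebra.adjoin k {x i₀}) (∑ i, (n i : K) * x i) := fun n =>
    Finset.sum_induction _ _ (fun _ _ => IsAlgebraic.add) isAlgebraic_zero fun i _ =>
      (Pc.rk_mem (intCast_mem _ _)).mul (h i)
  have key : ∀ s : Finset σ, ∃ n : σ → ℤ, Transcendental k (∑ i, (n i : K) * x i) ∧
      ∀ i ∈ s, ItDom k (∑ i, (n i : K) * x i) (x i) := by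
    intro s
    induction s using Finset.induction_on with
    | empty => exact ⟨Pi.single i₀ 1, by rw [hs]; simpa using h0, by simp⟩
    | insert i s _ ih =>
      obtain ⟨n, h1, h2⟩ := ih
      obtain ⟨c, hc⟩ := it_step h0 (ha n) (h i)
      have e : ∑ r, ((n - Pi.single i (c : ℤ) : σ → ℤ) r : K) * x r =
          ∑ r, (n r : K) * x r - c * x i := by
        simp only [Pi.sub_apply, Int.cast_sub, sub_mul, Finset.sum_sub_distrib, hs,
          Int.cast_natCast]
      have h3 : ItDom k (∑ r, (n r : K) * x r - c * x i) (∑ r, (n r : K) * x r) := by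
        intro V hk
        have h4 : V.valuation ((c : K) * x i) ≤
            max 1 (V.valuation (∑ r, (n r : K) * x r - c * x i)) := by
          rw [map_mul, ← map_natCast (algebraMap k K)]
          refine (mul_le_of_le_one_left' (hk _)).trans ?_
          rw [map_natCast]
          exact hc V hk
        have h5 := V.valuation.map_add_le (le_max_right 1 _) h4
        rwa [sub_add_cancel] at h5
      refine ⟨n - Pi.single i (c : ℤ), ?_, fun r hr => ?_⟩
      · rw [e]
        intro h4
        have := Algebra.IsIntegral.adjoin (R := k) (S := {∑ r, (n r : K) * x r - c * x i})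
          fun y hy => (Set.mem_singleton_iff.1 hy).symm ▸ h4.isIntegral
        exact h1 (isIntegral_trans _ h3.int).isAlgebraic
      · rw [e]
        rcases Finset.mem_insert.1 hr with rfl | hr
        · exact hc
        · exact h3.trans (h2 r hr)
  obtain ⟨n, h1, h2⟩ := key univ
  exact ⟨n, h1, fun i => (h2 i (mem_univ i)).itg fun h3 => h1 (h3 ▸ isAlgebraic_zero)⟩

end Pool.Agent.Lib.MP_e5111b_co.Gp
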