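import Pool.Agent.Lib.MP_e5111b_co.Gp.Defs
import Pool.Agent.Lib.MP_e5111b_co.Pc.Det
import Pool.Agent.Lib.MP_e5111b_co.Pc.Rank
import Pool.Agent.Lib.MP_e5111b_co.Pc.Quad
import Pool.Agent.Lib.MP_e5111b_co.Pc.Prim

set_option autoImplicit false

namespace Pool.Agent.Lib.MP_e5111b_co.Gp

open Filter MvPolynomial Finset Pc

theorem kit_mono {F A κ : Type} [Field F] [CommRing A] [Algebra F A] [Fintype κ] {z : κ → A}
    (hz : AlgebraicIndependent F z) : LinearIndependent F fun β : κ → ℕ => ∏ i, z i ^ β i := by
  have h1 := ((basisMonomials κ F).linearIndependent.map' (aeval z : _ →ₐ[F] A).toLinearMap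
    (LinearMap.ker_eq_bot.2 hz)).comp _ Finsupp.equivFunOnFinite.symm.injective
  have h2 : (fun β : κ → ℕ => ∏ i, z i ^ β i) = ((aeval z : _ →ₐ[F] A).toLinearMap ∘
      basisMonomials κ F) ∘ Finsupp.equivFunOnFinite.symm := by
    funext β
    simp [aeval_monomial, Finsupp.prod_fintype]
  rw [h2]
  exact h1

variable {F Ω : Type} [Field F] [Field Ω] [Algebra F Ω]

/-- monomials in independent elements of a subfield times elements independent over it -/
theorem kit_tower {κ L : Type} [Fintype κ] {z : κ → Ω} (hz : AlgebraicIndependent F z)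
    (E : IntermediateField F Ω) (hE : ∀ i, z i ∈ E) {D : L → Ω} (h : LinearIndependent E D) :
    LinearIndependent F fun p : (κ → ℕ) × L => (∏ i, z i ^ p.1 i) * D p.2 := by
  have h0 : AlgebraicIndependent F fun i => (⟨z i, hE i⟩ : E) :=
    AlgebraicIndependent.of_comp E.val hz
  convert linearIndependent_smul (kit_mono h0) h using 1
  funext p
  simp [IntermediateField.smul_def]

/-- the elements algebraic over a set form an algebraically closed field -/
theorem kit_cl [IsAlgClosed Ω] (S : Set Ω) : ∃ E : IntermediateField F Ω,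
    (∀ y, y ∈ E ↔ IsAlgebraic (Algebra.adjoin F S) y) ∧ IsAlgClosed E := by
  refine ⟨(algebraicClosure (IntermediateField.adjoin F S) Ω).restrictScalars F, fun y => ?_,
    (algebraicClosure.isAlgClosure (IntermediateField.adjoin F S) Ω).isAlgClosed⟩
  rw [IntermediateField.mem_restrictScalars, mem_algebraicClosure_iff,
    IntermediateField.isAlgebraic_adjoin_iff]

theorem indep_cl {K : Type} [Field K] [Algebra K Ω] {κ : Type} {u : κ → Ω}
    (h : ∀ y : K, IsAlgebraic F (algebraMap K Ω y)) (hu : AlgebraicIndependent F u) :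
    AlgebraicIndependent K u := by
  let f : K →+* algebraicClosure F Ω :=
    (algebraMap K Ω).codRestrict _ fun y => mem_algebraicClosure_iff.2 (h y)
  let _ := f.toAlgebra
  have : IsScalarTower K (algebraicClosure F Ω) Ω := IsScalarTower.of_algebraMap_eq fun _ => rfl
  exact hu.algebraicClosure.restrictScalars f.injective

theorem indep_swap {κ : Type} [Fintype κ] {u w : κ → Ω} (hu : AlgebraicIndependent F u)
    (h : ∀ i, IsAlgebraic (Algebra.adjoin F (Set.range w)) (u i)) :
    AlgebraicIndependent F w := by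
  obtain ⟨ρ, b, hb⟩ := exists_bas (F := F) w
  have h1 := card_le_of_alg (v := fun j => w (b j)) hu fun i => rk_trans (h i) (by
    rintro _ ⟨j, rfl⟩
    exact hb.2 j)
  have h2 : Function.Injective b := fun i j e => hb.1.injective (by simp only [e])
  have h3 := (Fintype.bijective_iff_injective_and_card b).2
    ⟨h2, le_antisymm (Fintype.card_le_of_injective b h2) h1⟩
  exact (algebraicIndependent_equiv (Equiv.ofBijective b h3)).1 hb.1

theorem alg_swap {u w : Ω} (hu : Transcendental F u) (h : IsAlgebraic (Algebra.adjoin F {w}) u) :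
    IsAlgebraic (Algebra.adjoin F {u}) w := by
  by_contra hn
  have h1 : AlgebraicIndependent F fun _ : Unit => u :=
    algebraicIndependent_unique_type_iff.2 hu
  have h2 := (h1.option_iff_transcendental w).2 (by rwa [Set.range_const])
  have h3 := card_le_of_alg (v := fun _ : Unit => w) h2 (by
    rw [Set.range_const]
    rintro (_ | i)
    · exact rk_mem (Algebra.subset_adjoin rfl)
    · exact h)
  simp at h3

/-- algebraic over `E[t]`, with `E` algebraic over `F[S]` -/
theorem alg_tower {S t : Set Ω} {E : IntermediateField F Ω}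
    (hE : ∀ y ∈ E, IsAlgebraic (Algebra.adjoin F S) y) {a : Ω}
    (h : IsAlgebraic (Algebra.adjoin E t) a) : IsAlgebraic (Algebra.adjoin F (S ∪ t)) a := by
  have h1 : IsAlgebraic (Algebra.adjoin F ((E : Set Ω) ∪ t)) a := by
    refine rk_tower ?_
    rwa [IntermediateField.adjoin_self]
  refine rk_trans h1 ?_
  rintro y (hy | hy)
  · exact rk_trans (hE y hy) fun b hb => rk_mem (Algebra.subset_adjoin (Or.inl hb))
  · exact rk_mem (Algebra.subset_adjoin (Or.inr hy))

theorem alg_up (E : IntermediateField F Ω) {S t : Set Ω} {a : Ω}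
    (h : IsAlgebraic (Algebra.adjoin F S) a) (hS : ∀ y ∈ S, y ∈ E ∨ y ∈ t) :
    IsAlgebraic (Algebra.adjoin E t) a := by
  have h1 : Algebra.adjoin F S ≤ (Algebra.adjoin E t).restrictScalars F :=
    Algebra.adjoin_le fun y hy => (hS y hy).elim
      (fun e => (Algebra.adjoin E t).algebraMap_mem ⟨y, e⟩) fun e => Algebra.subset_adjoin e
  exact h.tower_top_of_subalgebra_le h1

theorem indep_sum {κ₀ κ : Type} {z : κ₀ → Ω} {u : κ → Ω} (hz : AlgebraicIndependent F z)
    (E : IntermediateField F Ω) (hE : ∀ i, z i ∈ E) (hu : AlgebraicIndependent E u) :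
    AlgebraicIndependent F (Sum.elim z u) := by
  have h := (hz.sumElim_of_tower (S := E) (by
    rintro _ ⟨i, rfl⟩
    exact ⟨⟨_, hE i⟩, rfl⟩) hu).comp _ (Equiv.sumComm κ₀ κ).injective
  convert h using 1
  funext i
  cases i <;> rfl

end Pool.Agent.Lib.MP_e5111b_co.Gp
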