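import Pool.Agent.Lib.MP_e5111b_co.Gp.SmallA
import Pool.Agent.Lib.MP_e5111b_co.Gp.Itg

set_option autoImplicit false

namespace Pool.Agent.Lib.MP_e5111b_co.Gp

open Filter MvPolynomial Finset Pc

theorem sm_hom {F σ : Type} [Field F] (f : Polynomial F) (s r : σ) :
    ∃ (H : MvPolynomial σ F) (d : ℕ), ∀ (A : Type) [Field A] [Algebra F A] (v : σ → A),
      v r ≠ 0 → aeval v H = v r ^ d * Polynomial.aeval (v s / v r) f := by
  refine ⟨∑ i ∈ range (f.natDegree + 1), C (f.coeff i) * (X s ^ i * X r ^ (f.natDegree - i)),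
    f.natDegree, fun A _ _ v hv => ?_⟩
  rw [Polynomial.aeval_eq_sum_range, map_sum, mul_sum]
  refine sum_congr rfl fun i hi => ?_
  obtain ⟨j, hj⟩ := Nat.exists_eq_add_of_le (Nat.lt_succ_iff.1 (mem_range.1 hi))
  rw [hj, Nat.add_sub_cancel_left, map_mul, map_mul, map_pow, map_pow, aeval_X, aeval_X, aeval_C,
    Algebra.smul_def, div_pow, pow_add]
  field_simp

theorem sm_ratio (c : Ctx) {σ : Type} {T : ℕ → Finset (σ → ℤ)} {Ω : Type} [Field Ω]
    [Algebra c.F Ω] {x : σ → Ω} (hx : c.Gen T x) {s r : σ} (hr : x r ≠ 0)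
    (ha : IsAlgebraic c.F (x s / x r)) {z z' : σ → c.F} (hz : z ∈ c.star T) (hz' : z' ∈ c.star T)
    (h : z r ≠ 0) (h' : z' r ≠ 0) : z s * z' r = z' s * z r := by
  have hi := minpoly.irreducible ha.isIntegral
  obtain ⟨H, d, hH⟩ := sm_hom (minpoly c.F (x s / x r)) s r
  have h0 : c.Van T H := (hx _).1 (by rw [hH Ω x hr, minpoly.aeval, mul_zero])
  have rt : ∀ w ∈ c.star T, w r ≠ 0 → (minpoly c.F (x s / x r)).IsRoot (w s / w r) :=
    fun w hw hw0 => by
      have := h0 w hw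
      rw [← coe_aeval_eq_eval, RingHom.coe_coe, hH c.F w hw0, Polynomial.coe_aeval_eq_eval] at this
      exact (mul_eq_zero.1 this).resolve_left (pow_ne_zero _ hw0)
  have e := Polynomial.degree_eq_one_of_irreducible_of_root hi (rt z hz h)
  have a := rt z hz h
  have b := rt z' hz' h'
  rw [Polynomial.eq_X_add_C_of_degree_eq_one e, (minpoly.monic ha.isIntegral).leadingCoeff] at a b
  simp only [Polynomial.IsRoot.def, Polynomial.eval_add, Polynomial.eval_mul, Polynomial.eval_C,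
    Polynomial.eval_X] at a b
  exact (div_eq_div_iff h h').1 (by linear_combination a - b)

/-- a family whose generic point is radial has one member -/
theorem ray (c : Ctx) {ι : Type} [Fintype ι] {n : ℕ} {T : ℕ → Finset (ι × ι → ℤ)} (hT : c.Box T)
    (hG : ∀ k, ∀ P ∈ T k, Good n P) {Ω : Type} [Field Ω] [Algebra c.F Ω] {x : ι × ι → Ω}
    (hx : c.Gen T x) {p q : ι} (hpq : p ≠ q) (h : ∀ s, IsAlgebraic c.F (x s / x (p, q))) :
    ∀ᶠ k in (c.U : Filter ℕ), #(T k) ≤ 1 := by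
  have hr : x (p, q) ≠ 0 := by
    simpa using hx.ne_zero c hT (X (p, q)) fun k P hP => by
      simpa using ((hG k P hP).pos hpq).ne'
  by_contra hn
  have h1 := Ultrafilter.eventually_not.2 hn
  have h2 : ∀ k, ¬ #(T k) ≤ 1 →
      ∃ P : (ι × ι → ℤ) × (ι × ι → ℤ), P.1 ∈ T k ∧ P.2 ∈ T k ∧ P.1 ≠ P.2 := fun k hk => by
    obtain ⟨a, ha, b, hb, hab⟩ := one_lt_card.1 (not_le.1 hk)
    exact ⟨(a, b), ha, hb, hab⟩
  choose! P hP using h2
  obtain ⟨ξ, hξ⟩ := c.pt26 hT fun k => (P k).1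
  obtain ⟨η, hη⟩ := c.pt26 hT fun k => (P k).2
  have a1 : ∀ᶠ k in (c.U : Filter ℕ), (fun i => c.ev k (ξ i)) ∈ T k :=
    h1.mono fun k hk => by rw [hξ k (hP k hk).1]; exact (hP k hk).1
  have a2 : ∀ᶠ k in (c.U : Filter ℕ), (fun i => c.ev k (η i)) ∈ T k :=
    h1.mono fun k hk => by rw [hη k (hP k hk).2.1]; exact (hP k hk).2.1
  have nz : ∀ ζ : ι × ι → c.Bd, (∀ᶠ k in (c.U : Filter ℕ), (fun i => c.ev k (ζ i)) ∈ T k) →
      c.pi (ζ (p, q)) ≠ 0 := fun ζ hζ h0 => by
    obtain ⟨k, a, b⟩ := (hζ.and (c.pi_eq_zero.1 h0)).exists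
    exact ((hG k _ a).pos hpq).ne' b
  have e : ∀ᶠ k in (c.U : Filter ℕ), ∀ i, c.ev k (ξ i * η (p, q) - η i * ξ (p, q)) = 0 :=
    eventually_all.2 fun i => c.pi_eq_zero.1 (by
      rw [map_sub, sub_eq_zero, map_mul, map_mul]
      exact sm_ratio c hx hr (h i) ⟨ξ, a1, rfl⟩ ⟨η, a2, rfl⟩ (nz ξ a1) (nz η a2))
  obtain ⟨k, hk, he⟩ := (h1.and e).exists
  refine (hP k hk).2.2 ((hG k _ (hP k hk).1).eq (hG k _ (hP k hk).2.1) hpq fun i => ?_)
  rw [← hξ k (hP k hk).1, ← hη k (hP k hk).2.1, ← sub_eq_zero, ← he i, map_sub, map_mul, map_mul]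

section
variable {F Ω : Type} [Field F] [Field Ω] [Algebra F Ω]

/-- passing to a larger subfield -/
theorem sm_up {K L : Type} [Field K] [Field L] [Algebra K Ω] [Algebra L Ω]
    (h : ∀ a : K, ∃ b : L, algebraMap L Ω b = algebraMap K Ω a) {y : Ω} (hy : IsIntegral K y) :
    IsIntegral L y ∧ (minpoly L y).natDegree ≤ (minpoly K y).natDegree ∧
      ∀ a ∈ IntermediateField.adjoin K {y}, a ∈ IntermediateField.adjoin L {y} := by
  choose f hf using h
  have inj := (algebraMap L Ω).injective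
  let φ : K →+* L :=
    { toFun := f
      map_one' := inj (by simp only [hf, map_one])
      map_mul' := fun a b => inj (by simp only [hf, map_mul])
      map_zero' := inj (by simp only [hf, map_zero])
      map_add' := fun a b => inj (by simp only [hf, map_add]) }
  let _ := φ.toAlgebra
  have : IsScalarTower K L Ω := IsScalarTower.of_algebraMap_eq fun a => (hf a).symm
  refine ⟨hy.tower_top, ?_, fun a ha => ?_⟩
  · have := Polynomial.natDegree_le_of_dvd (minpoly.dvd_map_of_isScalarTower K L y)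
      ((minpoly.monic hy).map _).ne_zero
    rwa [Polynomial.natDegree_map] at this
  · exact (IntermediateField.adjoin_simple_le_iff
      (K := (IntermediateField.adjoin L {y}).restrictScalars K)).2
      (IntermediateField.mem_adjoin_simple_self L y) ha

theorem sm_norm {ι : Type} {x : ι × ι → Ω} {p q : ι} {cf : Cf ι Ω} (h : Norm F x p q cf)
    (E : IntermediateField F Ω) : Norm E x p q cf := by
  obtain ⟨o, ho⟩ := h.gen
  have le : IntermediateField.adjoin F (Set.range x) ≤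
      (IntermediateField.adjoin E (Set.range x)).restrictScalars F :=
    IntermediateField.adjoin_le_iff.2 (IntermediateField.subset_adjoin E _)
  refine ⟨h.ne, h.d, h.Zp, h.Wp, h.Zq, h.Wq, o, fun i => ?_⟩
  obtain ⟨a, ha, b, hb, e⟩ := ho i
  exact ⟨a, le ha, b, le hb, e⟩

theorem sm_lin {σ : Type} [Fintype σ] (n : σ → ℤ) : ∃ w : MvPolynomial σ ℤ, w.totalDegree ≤ 1 ∧
    ∀ x : σ → Ω, aeval x w = ∑ i, (n i : Ω) * x i :=
  ⟨∑ i, C (n i) * X i, totalDegree_finsetSum_le fun i _ => (totalDegree_mul _ _).trans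
    (by rw [totalDegree_C, totalDegree_X]), fun x => by simp⟩

end

/-- small dimension -/
theorem small (D : ℕ) : ∃ n₀ k₀ : ℕ, ∀ (ι : Type) [Fintype ι], n₀ ≤ Fintype.card ι →
    ∀ (c : Ctx) (T : ℕ → Finset (ι × ι → ℤ)), c.Box T → (∀ k, ∀ P ∈ T k, Good k₀ P) →
    ∀ (Ω : Type) [Field Ω] [IsAlgClosed Ω] [Algebra c.F Ω] (x : ι × ι → Ω), c.Gen T x →
    ∀ (ρ : ℕ) (b : Fin (ρ + 1) → ι × ι), IsBas c.F x b → ∀ γ : ℕ, 1 ≤ γ →
    2 * γ ^ (ρ + 1) ≤ D → c.Out T x (4 * ((ρ : ℝ) + 2) ^ 2 / γ) := by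
  obtain ⟨n₀, k₀, hrad⟩ := radial D
  refine ⟨n₀ + 2, k₀, fun ι _ hn c T hT hG Ω _ _ _ x hx ρ b hb γ hγ hD => ?_⟩
  obtain ⟨p, q, hpq⟩ := Fintype.exists_pair_of_one_lt_card (α := ι) (by omega)
  have : CharZero Ω := charZero_of_injective_algebraMap (algebraMap c.F Ω).injective
  let z : Fin ρ → Ω := fun j => x (b j.succ)
  obtain ⟨E, hE, _⟩ := kit_cl (F := c.F) (Set.range z)
  have zE : ∀ j, z j ∈ E := fun j => (hE _).2 (rk_mem (Algebra.subset_adjoin ⟨j, rfl⟩))
  have h0 : Transcendental E (x (b 0)) := fun h => by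
    have h1 : IsAlgebraic (Algebra.adjoin E (∅ : Set Ω)) (x (b 0)) :=
      h.extendScalars (algebraMap E _).injective
    have h2 := alg_tower (fun y hy => (hE y).1 hy) h1
    rw [Set.union_empty] at h2
    have := card_le_of_alg (v := z) hb.1 fun j => Fin.cases h2
      (fun j => rk_mem (Algebra.subset_adjoin ⟨j, rfl⟩)) j
    simp at this
  obtain ⟨n, ht, hI⟩ := noether x (b 0) h0 fun s => alg_up E (hb.2 s) (by
    rintro _ ⟨j, rfl⟩
    exact Fin.cases (Or.inr rfl) (fun j => Or.inl (zE j)) j)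
  obtain ⟨wt, wt1, wt2⟩ := sm_lin (Ω := Ω) n
  set t := ∑ i, (n i : Ω) * x i with htd
  let w : Fin (ρ + 1) → MvPolynomial (ι × ι) ℤ := Fin.cons wt fun j => X (b j.succ)
  let u : Fin (ρ + 1) → Ω := fun j => aeval x (w j)
  have u0 : u 0 = t := wt2 x
  have us : ∀ j, u j.succ = z j := fun j => by simp [u, w, z]
  have hu : ∀ s, IsAlgebraic (Algebra.adjoin c.F (Set.range u)) (x s) := fun s =>
    rk_trans (alg_tower (fun y hy => (hE y).1 hy) (hI s).1.isAlgebraic) (by
      rintro _ (⟨j, rfl⟩ | rfl)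
      · exact rk_mem (Algebra.subset_adjoin ⟨_, us j⟩)
      · exact rk_mem (Algebra.subset_adjoin ⟨_, u0⟩))
  have hui : AlgebraicIndependent c.F u := indep_swap hb.1 fun j => hu _
  let K := IntermediateField.adjoin c.F (Set.range u)
  obtain ⟨m, hm⟩ := prim_el26 (K := K) x fun s => IntermediateField.isAlgebraic_adjoin_iff.2 (hu s)
  obtain ⟨wy, wy1, wy2⟩ := sm_lin (Ω := Ω) m
  set y := ∑ i, (m i : Ω) * x i with hyd
  have hyK : IsIntegral K y := IsIntegral.sum _ fun s _ => (isIntegral_intCast _).mul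
    (IntermediateField.isAlgebraic_adjoin_iff.2 (hu s)).isIntegral
  have ec : ((Fintype.card (Fin (ρ + 1)) : ℝ) + 1) = ρ + 2 := by simp; ring
  have he : 0 < 4 * ((ρ : ℝ) + 2) ^ 2 / γ := by positivity
  by_cases d : D ≤ (minpoly K y).natDegree
  · refine ec ▸ det_step c hT hx (ω := Unit) (L := Fin D) w (fun j => ?_) (fun _ => wy)
      (fun _ => ?_) (fun l _ => l) hγ (by simpa using hD) ?_
    · exact Fin.cases wt1 (fun j => by simp [w]) j
    · rw [wy2]
      exact sep_rel u (IntermediateField.isAlgebraic_adjoin_iff.1 hyK.isAlgebraic)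
    · have := kit_tower hui K (fun j => IntermediateField.subset_adjoin _ _ ⟨j, rfl⟩)
        ((linearIndependent_pow (K := K) y).comp _ (Fin.castLE_injective d))
      simpa [wy2] using this
  obtain ⟨cf, hN, hM⟩ := geo c hT hG hx hpq
  have KE : K ≤ (IntermediateField.adjoin E {t}).restrictScalars c.F :=
    IntermediateField.adjoin_le_iff.2 (by
      rintro _ ⟨j, rfl⟩
      refine Fin.cases ?_ (fun j => ?_) j
      · rw [u0]
        exact IntermediateField.mem_adjoin_simple_self E t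
      · rw [us]
        exact (IntermediateField.adjoin E {t}).algebraMap_mem ⟨_, zE j⟩)
  obtain ⟨y1, y2, y3⟩ := sm_up (K := K) (L := IntermediateField.adjoin E {t})
    (fun a => ⟨⟨a, KE a.2⟩, rfl⟩) hyK
  have hr := hrad E Ω ι x p q cf t y (by omega) (sm_norm hN E) hM ht hI y1 (by omega)
    fun s => y3 _ (hm s)
  have l0 := hN.l_ne
  rcases ρ with _ | ρ
  · refine c.out_of_card hT hx (hb.1.transcendental 0) (K := 1)
      (ray c hT hG hx hpq fun s => ?_) he
    obtain ⟨a, ha⟩ := hr s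
    rw [ha, mul_div_cancel_right₀ _ l0]
    by_contra hn
    have := card_le_of_alg (u := fun _ : Unit => algebraMap E Ω a) (v := z)
      (algebraicIndependent_unique_type_iff.2 hn) fun _ => (hE _).1 a.2
    simp at this
  · obtain ⟨a, ha⟩ := hr (b 0)
    obtain ⟨a', ha'⟩ := hr (b (Fin.succ 0))
    have a0 : algebraMap E Ω a' ≠ 0 := fun e => hb.1.transcendental (Fin.succ 0) (by
      rw [ha', e, zero_mul]
      exact isAlgebraic_zero)
    refine absurd ?_ h0
    have e : x (b 0) = algebraMap E Ω (a * ⟨_, zE 0⟩ / a') := by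
      rw [map_div₀, map_mul, eq_div_iff a0, ha, mul_assoc, mul_comm (x (p, q)), ← ha']
      rfl
    rw [e]
    exact isAlgebraic_algebraMap _

end Pool.Agent.Lib.MP_e5111b_co.Gp
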