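import Pool.Agent.Lib.MP_e5111b_co.Gp.Free
import Pool.Agent.Lib.MP_e5111b_co.Gp.Small
import Pool.Agent.Lib.MP_e5111b_co.Gp.Ind

set_option autoImplicit false

namespace Pool.Agent.Lib.MP_e5111b_co.Gp

open Filter MvPolynomial Finset Pc

theorem main_log {n ρ : ℕ} (h0 : ρ ≠ 0) (h : ρ < n * n) : Nat.log 2 ρ ≤ 2 * Nat.log 2 n + 1 := by
  have h1 := Nat.lt_pow_succ_log_self one_lt_two n
  have h2 : ρ < 2 ^ (2 * Nat.log 2 n + 2) := by
    rw [show 2 * Nat.log 2 n + 2 = (Nat.log 2 n).succ + (Nat.log 2 n).succ by omega, pow_add]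
    exact h.trans_le (Nat.mul_le_mul h1.le h1.le)
  exact Nat.lt_succ_iff.1 (Nat.log_lt_of_lt_pow h0 h2)

theorem paucity (ε : ℝ) (hε : 0 < ε) : ∃ n₀ : ℕ, ∀ n, n₀ ≤ n → ∃ C : ℝ, ∀ N : ℕ, 1 ≤ N →
    (({P : Fin n × Fin n → ℤ | (∀ i, |P i| ≤ N) ∧ Good (25 * Nat.log 2 n) P}.ncard : ℕ) : ℝ) ≤
      C * (N : ℝ) ^ ε := by
  obtain ⟨r, γ, e, hγ, e0, e1, e2, e3⟩ := expo (half_pos hε)
  obtain ⟨n₀, k₀, hs⟩ := small (2 * γ ^ r)
  refine ⟨n₀ + 2 ^ (k₀ + 14), fun n hn => ?_⟩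
  have hL : k₀ + 14 ≤ Nat.log 2 n :=
    Nat.le_log_of_pow_le one_lt_two (le_of_add_le_right hn)
  have h2 : 2 ≤ n := by
    have := Nat.lt_two_pow_self (n := k₀ + 14)
    omega
  refine count (Good (25 * Nat.log 2 n)) e e0 hε e1 fun c T hT hG Ω _ _ _ x hx ρ b hb => ?_
  rcases lt_or_ge ρ r with h | h
  · exact Ctx.Out.mono c (hs (Fin n)
      (by rw [Fintype.card_fin]; exact le_of_add_le_left hn) c T hT
      (fun k P hP => (hG k P hP).mono (by omega)) Ω x hx ρ b hb γ hγ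
      (Nat.mul_le_mul_left 2 (Nat.pow_le_pow_right hγ h))) (e2 ρ h)
  · obtain ⟨j1, j2, j3⟩ := e3 ρ h
    have hi : Function.Injective b := fun u w huw => hb.1.injective (by simp only [huw])
    have hc : ρ < n * n := by simpa using Fintype.card_le_of_injective b hi
    have h0 : ρ ≠ 0 := by
      rintro rfl
      simp at j1
    have hl := main_log h0 hc
    obtain ⟨cf, hN, hM⟩ := geo c (n := 4 * (3 * Nat.log 2 ρ) + 2) hT
      (fun k P hP => (hG k P hP).mono (by omega)) hx (p := ⟨0, by omega⟩) (q := ⟨1, by omega⟩)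
      (by simp)
    exact Ctx.Out.mono c (free c hT hx hN (by omega) hM hb (by omega)) j3

end Pool.Agent.Lib.MP_e5111b_co.Gp
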