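import Pool.Agent.Lib.MP_e5111b_co.Gp.ChartA
import Pool.Agent.Lib.MP_e5111b_co.Gp.ChartB

set_option autoImplicit false

namespace Pool.Agent.Lib.MP_e5111b_co.Gp

open Finset WithZero IntermediateField

theorem mkc_lt {x : ℤᵐ⁰} (h : x < 1) : x ≤ exp (-1) := by
  by_cases h0 : x = 0
  · simp [h0]
  · rw [← exp_zero, ← log_lt_iff_lt_exp h0] at h
    rw [← log_le_iff_le_exp h0]
    omega

theorem mkc_one (m : ℕ) : (1 : ℤᵐ⁰) ≤ exp (m : ℤ) := by
  rw [← exp_zero, exp_le_exp]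
  exact Int.natCast_nonneg m

theorem mkc_cancel {x z : ℤᵐ⁰} {m : ℕ} (hx : x ≤ exp (m : ℤ)) (hz : z < 1) : x * z ^ m ≤ 1 := by
  refine (mul_le_mul' hx (pow_le_pow_left' (mkc_lt hz) m)).trans ?_
  rw [← exp_nsmul, ← exp_add]
  simp

theorem mkc_inv {x z : ℤᵐ⁰} {m : ℕ} (hz : exp (-(m : ℤ)) ≤ z) (h : z * x ≤ 1) :
    x ≤ exp (m : ℤ) := by
  have h1 : exp (-(m : ℤ)) * x ≤ 1 := (mul_le_mul' hz le_rfl).trans h
  have h2 := mul_le_mul' (le_refl (exp (m : ℤ))) h1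
  rwa [← mul_assoc, ← exp_add, add_neg_cancel, exp_zero, one_mul, mul_one] at h2

/-- one affine chart -/
structure MkCh (k : Type) {K : Type} [Field k] [Field K] [Algebra k K] (δ : ℕ) (t : K) where
  P : Type
  v : P → Valuation K ℤᵐ⁰
  Δ : K
  ne : Nonempty P
  int : ∀ f, IsIntegral (Algebra.adjoin k {t}) f ↔ ∀ p, v p f ≤ 1
  unif : ∀ p, ∃ π, v p π = exp (-1)
  res : ∀ p f, v p f ≤ 1 → ∃ c : k, v p (f - algebraMap k K c) < 1
  cnt : ∀ (m : ℕ) (g : K), Itg k t m g → g ≠ 0 → ∀ (T : Finset P) (e : P → ℕ),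
    (∀ p ∈ T, v p g ≤ exp (-(e p : ℤ))) → ∑ p ∈ T, e p ≤ δ * m
  d0 : Δ ≠ 0
  di : Itg k t (4 * δ) Δ
  der : ∀ D : Derivation k K K, D t = 1 → ∀ p f, v p f ≤ 1 → v p (Δ * D f) ≤ 1

variable {k K : Type} [Field k] [Field K] [Algebra k K] {δ : ℕ} {t y : K}

theorem mkc_ex [IsAlgClosed k] [CharZero k] (ht : Transcendental k t) [FiniteDimensional k⟮t⟯ K]
    (hn : Module.finrank k⟮t⟯ K ≤ δ) (hy : k⟮t⟯⟮y⟯ = ⊤) (hy2 : Itg k t 2 y) :
    Nonempty (MkCh k δ t) := by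
  obtain ⟨P, v, h1, h2, h3, h4, h5, h6⟩ := chartA ht
  obtain ⟨Δ, d0, d1, d2⟩ := chartB ht hy hy2
  refine ⟨⟨P, v, Δ, h1, h2, h3, h4, fun m g a b T e c => (h6 m g a b T e c).trans
    (Nat.mul_le_mul_right _ hn), d0, d1.mono (by omega), fun D hD p f hf => ?_⟩⟩
  obtain ⟨g, h, ig, ih, vh, e⟩ := h5 p f hf
  have e1 : Δ * D f * h = Δ * D g - f * (Δ * D h) := by
    rw [← e, Derivation.leibniz, smul_eq_mul, smul_eq_mul]
    ring
  have e2 := congrArg (v p) e1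
  rw [map_mul, vh, mul_one] at e2
  rw [e2]
  refine (v p).map_sub_le ((h2 _).1 (d2 D hD g ig) p) ?_
  rw [map_mul]
  exact mul_le_one' hf ((h2 _).1 (d2 D hD h ih) p)

namespace MkCh

theorem triv (C : MkCh k δ t) (p : C.P) (c : k) : C.v p (algebraMap k K c) ≤ 1 :=
  (C.int _).1 (by
    rw [IsScalarTower.algebraMap_apply k (Algebra.adjoin k {t}) K]
    exact isIntegral_algebraMap) p

theorem low (C : MkCh k δ t) {m : ℕ} {g : K} (hg : Itg k t m g) (h0 : g ≠ 0) (p : C.P) :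
    exp (-((δ * m : ℕ) : ℤ)) ≤ C.v p g := by
  have hv : C.v p g ≠ 0 := (C.v p).ne_zero_iff.mpr h0
  have h1 : log (C.v p g) ≤ 0 := by
    rw [log_le_iff_le_exp hv, exp_zero]
    exact (C.int g).1 hg.1 p
  have := C.cnt m g hg h0 {p} (fun _ => (-log (C.v p g)).toNat) fun q hq => by
    rw [mem_singleton.1 hq, ← log_le_iff_le_exp hv]
    omega
  rw [sum_singleton] at this
  rw [← le_log_iff_exp_le hv]
  omega

theorem zeros (C : MkCh k δ t) {m : ℕ} {g : K} (hg : Itg k t m g) (h0 : g ≠ 0) :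
    ∃ T : Finset C.P, #T ≤ δ * m ∧ ∀ p, p ∈ T ↔ C.v p g < 1 := by
  have key : ∀ T : Finset C.P, (∀ p ∈ T, C.v p g < 1) → #T ≤ δ * m := fun T hT => by
    simpa using C.cnt m g hg h0 T (fun _ => 1) fun p hp => by simpa using mkc_lt (hT p hp)
  have hfin : {p | C.v p g < 1}.Finite := by
    by_contra hinf
    obtain ⟨T, h1, h2⟩ := Set.Infinite.exists_subset_card_eq hinf (δ * m + 1)
    have := key T fun p hp => h1 hp
    omega
  exact ⟨hfin.toFinset, key _ fun p hp => hfin.mem_toFinset.1 hp, fun p => hfin.mem_toFinset⟩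

end MkCh

theorem mkc_itg (t0 : t ≠ 0) (C1 : MkCh k δ t) (C2 : MkCh k δ t⁻¹) {m : ℕ} {f : K}
    (h1 : ∀ p, C1.v p f ≤ exp (m : ℤ)) (h1' : ∀ p, ¬ C1.v p C1.Δ < 1 → C1.v p f ≤ 1)
    (h2 : ∀ p, C2.v p t⁻¹ < 1 → C2.v p f ≤ exp (m : ℤ)) :
    Itg k t (m + 4 * δ * m) (f * C1.Δ ^ m) ∧ ∀ p, C2.v p (f * C1.Δ ^ m / t ^ (m + 4 * δ * m)) ≤
      C2.v p f * C2.v p t⁻¹ ^ m := by
  have a : IsIntegral (Algebra.adjoin k {t}) (f * C1.Δ ^ m) := (C1.int _).2 fun p => by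
    rw [map_mul, map_pow]
    by_cases h : C1.v p C1.Δ < 1
    · exact mkc_cancel (h1 p) h
    · exact mul_le_one' (h1' p h) (pow_le_one' ((C1.int _).1 C1.di.1 p) m)
  have b : ∀ p, C2.v p (f * C1.Δ ^ m / t ^ (m + 4 * δ * m)) ≤ C2.v p f * C2.v p t⁻¹ ^ m := by
    intro p
    have e : f * C1.Δ ^ m / t ^ (m + 4 * δ * m) = f * t⁻¹ ^ m * (C1.Δ / t ^ (4 * δ)) ^ m := by
      rw [pow_add, pow_mul, div_pow, inv_pow]
      field_simp
    rw [e, map_mul, map_mul, map_pow, map_pow]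
    exact mul_le_of_le_one_right' (pow_le_one' ((C2.int _).1 C1.di.2 p) m)
  refine ⟨⟨a, (C2.int _).2 fun p => ?_⟩, b⟩
  by_cases h : C2.v p t⁻¹ < 1
  · exact (b p).trans (mkc_cancel (h2 p h) h)
  · have e : C2.v p t⁻¹ = 1 :=
      le_antisymm ((C2.int _).1 (itg_self (inv_ne_zero t0)).1 p) (not_lt.1 h)
    rw [map_inv₀, inv_eq_one] at e
    rw [map_div₀, map_pow (C2.v p) t, e, one_pow, div_one]
    exact val_le_one _ (C2.triv p) e.le a

theorem mkc_main (hδ : 1 ≤ δ) (t0 : t ≠ 0) (C1 : MkCh k δ t) (C2 : MkCh k δ t⁻¹)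
    (D : Derivation k K K) (hD : D t = 1) :
    ∃ C : Cur k K (10 * δ ^ 2), ∀ j f, Itg k t j f → C.Reg (10 * δ ^ 2 * j) f := by
  classical
  have s0 := inv_ne_zero t0
  obtain ⟨S1, c1, m1⟩ := C1.zeros C1.di C1.d0
  obtain ⟨S2, c2, m2⟩ := C2.zeros (itg_self s0) s0
  have hD2 : ((-t ^ 2) • D) t⁻¹ = 1 := by
    rw [Derivation.smul_apply, Derivation.leibniz_inv, hD, smul_eq_mul, smul_eq_mul]
    field_simp
  have b1 : δ * 1 ≤ 10 * δ ^ 2 := by nlinarith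
  have b2 : δ * (4 * δ) ≤ 10 * δ ^ 2 := by nlinarith
  have mono : ∀ {a b : ℕ}, a ≤ b → exp (a : ℤ) ≤ exp (b : ℤ) := fun h =>
    exp_le_exp.2 (by exact_mod_cast h)
  have t1 : ∀ p, C1.v p t ≤ 1 := (C1.int _).1 (itg_self t0).1
  have s2 : ∀ p, C2.v p t⁻¹ ≤ 1 := (C2.int _).1 (itg_self s0).1
  have t2 : ∀ p, C2.v p t ≤ exp ((δ * 1 : ℕ) : ℤ) := fun p =>
    mkc_inv (C2.low (itg_self s0) s0 p) (by rw [← map_mul, inv_mul_cancel₀ t0, map_one])
  have out : ∀ p : C1.P ⊕ S2, p ∉ S1.disjSum univ → ∃ q, p = .inl q ∧ ¬ C1.v q C1.Δ < 1 := by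
    rintro (q | q) h
    · exact ⟨q, rfl, fun e => h (inl_mem_disjSum.2 ((m1 q).2 e))⟩
    · exact absurd (inr_mem_disjSum.2 (mem_univ q)) h
  refine ⟨⟨C1.P ⊕ S2, Sum.elim C1.v fun p => C2.v p, S1.disjSum univ, D, t,
    C1.ne.map .inl, ?_, ?_, ?_, ?_, hD, ?_, ?_, ?_, ?_, ?_⟩, fun j f hf => ⟨?_, ?_⟩⟩
  · rw [card_disjSum, card_univ, Fintype.card_coe]
    nlinarith
  · rintro (p | p) c
    exacts [C1.triv p c, C2.triv p c]
  · rintro (p | p)
    exacts [C1.res p, C2.res p]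
  · rintro (p | p)
    exacts [C1.unif p, C2.unif p]
  · rintro (p | p)
    exacts [(t1 p).trans (mkc_one _), (t2 p).trans (mono b1)]
  · intro p hp
    obtain ⟨q, rfl, -⟩ := out p hp
    exact t1 q
  · intro p hp f hf
    obtain ⟨q, rfl, h⟩ := out p hp
    have := C1.der D hD q f hf
    rwa [map_mul, le_antisymm ((C1.int _).1 C1.di.1 q) (not_lt.1 h), one_mul] at this
  · rintro (p | p) f hf
    · have := C1.der D hD p f hf
      rw [map_mul] at this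
      exact (mkc_inv (C1.low C1.di C1.d0 p) this).trans (mono b2)
    · have := C2.der _ hD2 p f hf
      rw [map_mul] at this
      have h3 := mkc_inv (C2.low C2.di C2.d0 p) this
      have e : D f = ((-t ^ 2) • D) f * (-t⁻¹ ^ 2) := by
        rw [Derivation.smul_apply, smul_eq_mul]
        field_simp
      change C2.v p (D f) ≤ _
      rw [e, map_mul, Valuation.map_neg, map_pow]
      exact (mul_le_of_le_one_right' (pow_le_one' (s2 p) 2)).trans (h3.trans (mono b2))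
  · intro m f f0 h1 h2 T e he
    obtain ⟨i1, i2⟩ := mkc_itg t0 C1 C2 (m := m) (f := f) (fun p => h1 (.inl p))
      (fun p hp => h2 (.inl p) fun e => hp ((m1 p).1 (inl_mem_disjSum.1 e)))
      fun p hp => h1 (.inr ⟨p, (m2 p).2 hp⟩)
    have g0 : f * C1.Δ ^ m ≠ 0 := mul_ne_zero f0 (pow_ne_zero _ C1.d0)
    have a1 := C1.cnt _ _ i1 g0 T.toLeft (fun p => e (.inl p)) fun p hp => by
      rw [map_mul, map_pow]
      exact (mul_le_of_le_one_right' (pow_le_one' ((C1.int _).1 C1.di.1 p) m)).trans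
        (he _ (mem_toLeft.1 hp))
    have a2 := C2.cnt _ _ (i1.inv t0) (div_ne_zero g0 (pow_ne_zero _ t0))
      (T.toRight.map (Function.Embedding.subtype _))
      (fun p => if h : p ∈ S2 then e (.inr ⟨p, h⟩) else 0) fun p hp => by
        obtain ⟨q, hq, rfl⟩ := mem_map.1 hp
        have := he _ (mem_toRight.1 hq)
        rw [Function.Embedding.coe_subtype, dif_pos q.2]
        exact (i2 q).trans ((mul_le_of_le_one_right' (pow_le_one' (s2 q) m)).trans this)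
    rw [sum_map] at a2
    simp only [Function.Embedding.coe_subtype, SetLike.coe_mem, dif_pos, Subtype.coe_eta] at a2
    rw [← T.toLeft_disjSum_toRight, sum_disjSum]
    have : δ * m ≤ δ * δ * m := Nat.mul_le_mul_right _ (Nat.le_mul_self δ)
    nlinarith
  · rintro (p | p)
    · exact ((C1.int f).1 hf.1 p).trans (mkc_one _)
    · have e : f = f / t ^ j * t ^ j := (div_mul_cancel₀ f (pow_ne_zero _ t0)).symm
      change C2.v p f ≤ _
      rw [e, map_mul, map_pow]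
      refine (mul_le_of_le_one_left' ((C2.int _).1 hf.2 p)).trans
        ((pow_le_pow_left' ((t2 p).trans (mono b1)) j).trans ?_)
      rw [← exp_nsmul, nsmul_eq_mul, ← Nat.cast_mul, mul_comm]
  · intro p hp
    obtain ⟨q, rfl, -⟩ := out p hp
    exact (C1.int f).1 hf.1 q

theorem mkCur (δ : ℕ) : ∃ B : ℕ, ∀ (k K : Type) [Field k] [IsAlgClosed k] [CharZero k] [Field K]
    [Algebra k K] (t y : K), Transcendental k t → FiniteDimensional k⟮t⟯ K →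
    Module.finrank k⟮t⟯ K ≤ δ → k⟮t⟯⟮y⟯ = ⊤ → Itg k t 2 y →
    ∃ C : Cur k K B, ∀ j f, Itg k t j f → C.Reg (B * j) f := by
  refine ⟨10 * δ ^ 2, fun k K _ _ _ _ _ t y ht fd hn hy hy2 => ?_⟩
  have t0 : t ≠ 0 := fun e => ht (e ▸ isAlgebraic_zero)
  have hs : Transcendental k t⁻¹ := fun h => ht (IsAlgebraic.inv_iff.1 h)
  have e : k⟮t⁻¹⟯ = k⟮t⟯ := le_antisymm
    (adjoin_simple_le_iff.2 (inv_mem (mem_adjoin_simple_self k t)))
    (adjoin_simple_le_iff.2 (by simpa using inv_mem (mem_adjoin_simple_self k t⁻¹)))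
  have key : ∀ F : IntermediateField k K, F = k⟮t⟯ → FiniteDimensional F K ∧
      Module.finrank F K ≤ δ ∧ F⟮y / t ^ 2⟯ = ⊤ := by
    rintro F rfl
    refine ⟨fd, hn, top_le_iff.1 (hy ▸ adjoin_simple_le_iff.2 ?_)⟩
    have h1 : t ^ 2 ∈ k⟮t⟯⟮y / t ^ 2⟯ := pow_mem (k⟮t⟯⟮y / t ^ 2⟯.algebraMap_mem
      ⟨t, mem_adjoin_simple_self k t⟩) 2
    have h2 := mul_mem (mem_adjoin_simple_self k⟮t⟯ (y / t ^ 2)) h1
    rwa [div_mul_cancel₀ y (pow_ne_zero 2 t0)] at h2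
  obtain ⟨fd', hn', hy'⟩ := key _ e
  obtain ⟨C1⟩ := mkc_ex ht hn hy hy2
  obtain ⟨C2⟩ := mkc_ex hs hn' hy' (hy2.inv t0)
  obtain ⟨D, hD⟩ := exists_der ht
  exact mkc_main (Module.finrank_pos.trans_le hn) t0 C1 C2 D hD

end Pool.Agent.Lib.MP_e5111b_co.Gp
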