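import Pool.Agent.Lib.MP_e5111b_co.Gp.Kit

set_option autoImplicit false

namespace Pool.Agent.Lib.MP_e5111b_co.Gp

open Polynomial
open scoped Polynomial.Bivariate

/-- evaluation in two steps -/
theorem md_eval {k Ω : Type} [Field k] [Field Ω] [Algebra k Ω] [Algebra k[X] Ω] {T : Ω}
    (hA : ∀ g : k[X], algebraMap k[X] Ω g = aeval T g) (y : Ω) (H : k[X][Y]) :
    aevalAeval T y H = aeval y H := by
  induction H using Polynomial.induction_on' with
  | add a b ha hb => rw [map_add, map_add, ha, hb]
  | monomial n a =>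
    rw [← C_mul_X_pow_eq_monomial, map_mul, map_mul, map_pow, map_pow, aevalAeval_C, aevalAeval_Y,
      aeval_C, aeval_X, hA]

/-- an element of a simple extension of the fraction field, with the denominator cleared -/
theorem md_clear {R K Ω : Type} [CommRing R] [IsDomain R] [Field K] [Field Ω] [Algebra R K]
    [IsFractionRing R K] [Algebra R Ω] [Algebra K Ω] [IsScalarTower R K Ω] (y : Ω) (Q : K[X]) :
    ∃ (g : R) (r : R[X]), g ≠ 0 ∧ algebraMap R Ω g * aeval y Q = aeval y r := by
  obtain ⟨b, hb, e⟩ := IsLocalization.integerNormalization_spec (nonZeroDivisors R) Q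
  refine ⟨b, IsLocalization.integerNormalization (nonZeroDivisors R) Q,
    nonZeroDivisors.ne_zero hb, ?_⟩
  rw [← aeval_map_algebraMap K y (IsLocalization.integerNormalization _ Q), e,
    ← algebraMap_smul K b Q, map_smul, Algebra.smul_def, ← IsScalarTower.algebraMap_apply]

/-- an integral primitive element -/
theorem md_prim {R K Ω : Type} [CommRing R] [IsDomain R] [Field K] [CharZero K] [Field Ω]
    [Algebra R K] [IsFractionRing R K] [Algebra R Ω] [Algebra K Ω] [IsScalarTower R K Ω] {w τ : Ω}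
    (hw : IsAlgebraic R w) (hτ : IsAlgebraic R τ) :
    ∃ y : Ω, IsIntegral R y ∧ (∃ Q : K[X], aeval y Q = w) ∧ ∃ Q : K[X], aeval y Q = τ := by
  have hw' : IsIntegral K w := ((IsFractionRing.isAlgebraic_iff R K Ω).1 hw).isIntegral
  have hτ' : IsIntegral K τ := ((IsFractionRing.isAlgebraic_iff R K Ω).1 hτ).isIntegral
  set L := IntermediateField.adjoin K ({w, τ} : Set Ω) with hL
  have : FiniteDimensional K L := IntermediateField.finiteDimensional_adjoin (by
    rintro x (rfl | rfl)
    exacts [hw', hτ'])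
  obtain ⟨α, hα⟩ := Field.exists_primitive_element K L
  have hαi : IsIntegral K α := IsIntegral.of_finite K α
  have key : ∀ z : L, ∃ Q : K[X], aeval (α : Ω) Q = (z : Ω) := by
    intro z
    have h1 : z ∈ (IntermediateField.adjoin K {α}).toSubalgebra := by
      rw [hα]; trivial
    rw [IntermediateField.adjoin_simple_toSubalgebra_of_isAlgebraic hαi.isAlgebraic,
      Algebra.adjoin_singleton_eq_range_aeval] at h1
    obtain ⟨Q, hQ⟩ := h1
    refine ⟨Q, ?_⟩
    rw [← hQ]
    exact aeval_algebraMap_apply Ω α Q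
  have hαΩ : IsAlgebraic R (α : Ω) := (IsFractionRing.isAlgebraic_iff R K Ω).2
    (IsIntegral.map (IsScalarTower.toAlgHom K L Ω) hαi).isAlgebraic
  obtain ⟨d, hd, hi⟩ := hαΩ.exists_integral_multiple
  have hd' : algebraMap R K d ≠ 0 := by
    rwa [Ne, IsFractionRing.to_map_eq_zero_iff]
  have key2 : ∀ z : L, ∃ Q : K[X], aeval (d • (α : Ω)) Q = (z : Ω) := by
    intro z
    obtain ⟨Q, hQ⟩ := key z
    refine ⟨Q.comp (C (algebraMap R K d)⁻¹ * X), ?_⟩
    rw [aeval_comp, map_mul, aeval_C, aeval_X, Algebra.smul_def,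
      IsScalarTower.algebraMap_apply R K Ω, ← mul_assoc, ← map_mul, inv_mul_cancel₀ hd', map_one,
      one_mul, hQ]
  exact ⟨_, hi, key2 ⟨w, IntermediateField.subset_adjoin _ _ (by simp)⟩,
    key2 ⟨τ, IntermediateField.subset_adjoin _ _ (by simp)⟩⟩

/-- a plane model with a monic equation -/
theorem model {k Ω : Type} [Field k] [CharZero k] [Field Ω] [Algebra k Ω] {T w τ : Ω}
    (hT : Transcendental k T) (hw : IsAlgebraic (Algebra.adjoin k {T}) w)
    (hτ : IsAlgebraic (Algebra.adjoin k {T}) τ) :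
    ∃ (y : Ω) (p r s : k[X][Y]) (g : k[X]), p.Monic ∧ 0 < p.natDegree ∧ g ≠ 0 ∧
      (∀ H : k[X][Y], aevalAeval T y H = 0 ↔ p ∣ H) ∧
      (∀ H : k[X][Y], ¬ p ∣ H → ∃ (u u' : k[X][Y]) (g' : k[X]), g' ≠ 0 ∧ u * p + u' * H = C g') ∧
      aeval T g * w = aevalAeval T y r ∧ aeval T g * τ = aevalAeval T y s := by
  let : Algebra k[X] Ω := (aeval T : k[X] →ₐ[k] Ω).toRingHom.toAlgebra
  have hA : ∀ g : k[X], algebraMap k[X] Ω g = aeval T g := fun _ => rfl
  have hinj : Function.Injective (algebraMap k[X] Ω) := transcendental_iff_injective.1 hT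
  have : FaithfulSMul k[X] Ω := (faithfulSMul_iff_algebraMap_injective _ _).2 hinj
  let : Algebra (FractionRing k[X]) Ω := FractionRing.liftAlgebra k[X] Ω
  have alg : ∀ z : Ω, IsAlgebraic (Algebra.adjoin k {T}) z → IsAlgebraic k[X] z := by
    intro z hz
    refine (IsAlgebraic.ringHom_of_comp_eq
      ((algEquivOfTranscendental k T hT).symm : Algebra.adjoin k {T} →+* k[X]) (RingHom.id Ω) hz
      (algEquivOfTranscendental k T hT).symm.injective ?_ :)
    ext x
    obtain ⟨x, rfl⟩ := (algEquivOfTranscendental k T hT).surjective x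
    simp [hA]
  obtain ⟨y, hy, ⟨Q, hQ⟩, Q', hQ'⟩ := md_prim (K := FractionRing k[X]) (alg w hw) (alg τ hτ)
  obtain ⟨g, r, hg, e⟩ := md_clear (R := k[X]) y Q
  obtain ⟨g', s, hg', e'⟩ := md_clear (R := k[X]) y Q'
  have hdv : ∀ H : k[X][Y], aeval y H = 0 ↔ minpoly k[X] y ∣ H :=
    minpoly.isIntegrallyClosed_dvd_iff hy
  refine ⟨y, minpoly k[X] y, C g' * r, C g * s, g * g', minpoly.monic hy, minpoly.natDegree_pos hy,
    mul_ne_zero hg hg', fun H => by rw [md_eval hA, hdv], fun H hH => ?_, ?_, ?_⟩
  · have h0 : aeval y H ≠ 0 := fun h => hH ((hdv H).1 h)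
    have hi : IsIntegral k[X] (aeval y H) := by
      have : aeval y H ∈ Algebra.adjoin k[X] {y} := aeval_mem_adjoin_singleton _ _
      exact (adjoin_le_integralClosure hy this :)
    obtain ⟨q, hq0, hq⟩ := hi.isAlgebraic.exists_nonzero_coeff_and_aeval_eq_zero
      (mem_nonZeroDivisors_of_ne_zero h0)
    obtain ⟨u, hu⟩ := (hdv (q.comp H)).1 (by rw [aeval_comp, hq])
    refine ⟨u, -(q.divX.comp H), q.coeff 0, hq0, ?_⟩
    have h2 : q.comp H = H * q.divX.comp H + C (q.coeff 0) := by
      conv_lhs => rw [← X_mul_divX_add q]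
      rw [add_comp, mul_comp, X_comp, C_comp]
    linear_combination h2 - hu
  · rw [md_eval hA, map_mul (aeval y), aeval_C, ← e, hQ, map_mul, hA, hA]; ring
  · rw [md_eval hA, map_mul (aeval y), aeval_C, ← e', hQ', map_mul, hA, hA]; ring

/-- a polynomial whose values at the points of an infinite subfield lie in that subfield -/
theorem md_lift {k k' : Type} [Field k] [Infinite k] [Field k'] [Algebra k k'] (a : k'[X])
    (h : ∀ c : k, a.eval (algebraMap k k' c) ∈ (algebraMap k k').range) :
    ∃ b : k[X], b.map (algebraMap k k') = a := by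
  classical
  choose v hv using h
  obtain ⟨S, hS⟩ := Infinite.exists_subset_card_eq k (a.natDegree + 1)
  have hb := Lagrange.degree_interpolate_lt (s := S) (v := id) v (Set.injOn_id _)
  refine ⟨Lagrange.interpolate S id v, ?_⟩
  refine eq_of_degrees_lt_of_eval_index_eq S (v := algebraMap k k')
    (algebraMap k k').injective.injOn (degree_map_le.trans_lt hb) ?_ fun c hc => ?_
  · rw [hS]
    exact degree_le_natDegree.trans_lt (by exact_mod_cast Nat.lt_succ_self _)
  · rw [eval_map_algebraMap, aeval_algebraMap_apply, coe_aeval_eq_eval, ← hv]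
    exact congrArg _ (Lagrange.eval_interpolate_at_node (v := id) v (Set.injOn_id _) hc)

/-- a monic divisor of a polynomial over an algebraically closed field is defined over it -/
theorem md_div {k k' : Type} [Field k] [IsAlgClosed k] [Field k'] [Algebra k k'] {p : k[X]}
    (hp : p.Monic) {q : k'[X]} (hq : q.Monic) (h : q ∣ p.map (algebraMap k k')) (n : ℕ) :
    q.coeff n ∈ (algebraMap k k').range := by
  have h1 : IsIntegral k (q.coeff n) := isIntegral_coeff_of_dvd p q hp hq h n
  exact minpoly.mem_range_of_degree_eq_one k _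
    (IsAlgClosed.degree_eq_one_of_irreducible k (minpoly.irreducible h1))

/-- the equation stays the equation over a larger field of constants -/
theorem descend {k k' Ω : Type} [Field k] [IsAlgClosed k] [Field k'] [Field Ω] [Algebra k k']
    [Algebra k Ω] [Algebra k' Ω] [IsScalarTower k k' Ω] {T y : Ω} (hT : Transcendental k' T)
    {p : k[X][Y]} (hp : p.Monic) (h : ∀ H : k[X][Y], aevalAeval T y H = 0 ↔ p ∣ H)
    (H : k'[X][Y]) : aevalAeval T y H = 0 ↔ p.map (mapRingHom (algebraMap k k')) ∣ H := by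
  have hmap : ∀ G : k[X][Y], aevalAeval T y (G.map (mapRingHom (algebraMap k k'))) =
      aevalAeval T y G := by
    intro G
    induction G using Polynomial.induction_on' with
    | add a b ha hb => rw [Polynomial.map_add, map_add, map_add, ha, hb]
    | monomial n a =>
      rw [Polynomial.map_monomial, ← C_mul_X_pow_eq_monomial, ← C_mul_X_pow_eq_monomial, map_mul,
        map_mul, map_pow, map_pow, aevalAeval_C, aevalAeval_C, aevalAeval_Y, aevalAeval_Y,
        coe_mapRingHom, aeval_map_algebraMap]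
  let : Algebra k'[X] Ω := (aeval T : k'[X] →ₐ[k'] Ω).toRingHom.toAlgebra
  have hA : ∀ g : k'[X], algebraMap k'[X] Ω g = aeval T g := fun _ => rfl
  have hinj : Function.Injective (algebraMap k'[X] Ω) := transcendental_iff_injective.1 hT
  have : FaithfulSMul k'[X] Ω := (faithfulSMul_iff_algebraMap_injective _ _).2 hinj
  set p' := p.map (mapRingHom (algebraMap k k')) with hp'
  have h0 : aeval y p' = 0 := by rw [← md_eval hA, hp', hmap, h]
  have hy : IsIntegral k'[X] y := ⟨p', hp.map _, h0⟩
  have hdv : ∀ G : k'[X][Y], aeval y G = 0 ↔ minpoly k'[X] y ∣ G :=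
    minpoly.isIntegrallyClosed_dvd_iff hy
  set q := minpoly k'[X] y with hq
  have hqm : q.Monic := minpoly.monic hy
  have hc : ∀ n, ∃ b : k[X], b.map (algebraMap k k') = q.coeff n := by
    intro n
    refine md_lift _ fun c => ?_
    have h1 : q.map (evalRingHom (algebraMap k k' c)) ∣
        (p.map (evalRingHom c)).map (algebraMap k k') := by
      have h2 : (p.map (evalRingHom c)).map (algebraMap k k') =
          p'.map (evalRingHom (algebraMap k k' c)) := by
        rw [hp', Polynomial.map_map, Polynomial.map_map]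
        congr 1
        ext <;> simp
      rw [h2]
      exact Polynomial.map_dvd _ ((hdv p').1 h0)
    have h3 := md_div (hp.map _) (hqm.map _) h1 n
    rwa [coeff_map] at h3
  obtain ⟨q₀, hq₀⟩ : q ∈ lifts (mapRingHom (algebraMap k k')) :=
    (lifts_iff_coeff_lifts _).2 fun n => hc n
  have hq₁ : q₀.map (mapRingHom (algebraMap k k')) = q := hq₀
  have h4 : p ∣ q₀ := (h q₀).1 (by rw [← hmap, hq₁, md_eval hA, hdv])
  have h5 : p' ∣ q := hq₁ ▸ Polynomial.map_dvd _ h4
  rw [md_eval hA, hdv]
  exact ⟨fun h6 => h5.trans h6, fun h6 => ((hdv p').1 h0).trans h6⟩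

end Pool.Agent.Lib.MP_e5111b_co.Gp
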