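import Pool.Agent.Lib.MP_e5111b_co.Gp.BasicB

set_option autoImplicit false

namespace Pool.Agent.Lib.MP_e5111b_co.Gp

open Finset WithZero

section

variable {k K : Type} [Field k] [Field K] [Algebra k K] {B : ℕ} {C : Cur k K B} {m : ℕ}

theorem mov_lt {x : ℤᵐ⁰} (h : x ≤ exp (-2)) : x < 1 :=
  ba_lt_one.mpr (h.trans (exp_le_exp.mpr (by norm_num)))

theorem mov_mul {x y : ℤᵐ⁰} (hx : x < 1) (hy : y ≤ 1) : x * y < 1 :=
  lt_of_le_of_lt (mul_le_of_le_one_right' hy) hx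

/-- few differences have a double zero -/
theorem mov_bad [CharZero k] {ι : Type} (Z : ι → K) (A : Finset ι) (a b o : ι) (S₁ : Finset C.P)
    (hZ : ∀ i, C.Reg m (Z i)) (hne : ∀ i j, i ≠ j → Z i - Z j ≠ 0) (hab : a ≠ b)
    (hA : ∀ i ∈ A, ∃ u : k, Z i - Z a = algebraMap k K u * (Z b - Z a)) (ho : o ∉ A)
    (h1 : ∀ p ∉ S₁, p ∉ C.S ∧ C.v p (Z b - Z a) = 1) :
    ∃ X : Finset ι, #X ≤ B * (m + (m + B + 1)) ∧
      ∀ i ∈ A, i ∉ X → ∀ p ∉ S₁, ¬ C.v p (Z o - Z i) ≤ exp (-2) := by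
  classical
  have hα := (hZ b).sub (hZ a)
  have α0 := hne b a hab.symm
  set α := Z b - Z a
  have hN : ∀ i ∈ A, α * C.D (Z o - Z i) - (Z o - Z i) * C.D α =
      α * C.D (Z o - Z a) - (Z o - Z a) * C.D α := by
    intro i hi
    obtain ⟨u, hu⟩ := hA i hi
    have e : Z o - Z i = Z o - Z a - u • α := by rw [Algebra.smul_def, ← hu]; ring
    rw [e, map_sub C.D (Z o - Z a), Derivation.map_smul, Algebra.smul_def, Algebra.smul_def]
    ring
  have F0 : ∀ i ∈ A, Z o - Z i ≠ 0 := fun i hi => hne o i fun h => ho (h ▸ hi)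
  by_cases h0 : α * C.D (Z o - Z a) - (Z o - Z a) * C.D α = 0
  · refine ⟨∅, by simp, fun i hi _ p hp h => ?_⟩
    obtain ⟨c, hc⟩ := Cur.prop hα ((hZ o).sub (hZ i)) α0 ((hN i hi).trans h0)
    have c0 : c ≠ 0 := fun h => F0 i hi (by rw [hc, h, map_zero, zero_mul])
    have := mov_lt h
    rw [hc, map_mul, C.v_const p c0, (h1 p hp).2, mul_one] at this
    exact lt_irrefl _ this
  · have hR : C.Reg (m + (m + B + 1)) (α * C.D (Z o - Z a) - (Z o - Z a) * C.D α) :=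
      (hα.mul ((hZ o).sub (hZ a)).deriv).sub (((hZ o).sub (hZ a)).mul hα.deriv)
    obtain ⟨T, hT, hT'⟩ := hR.zeros h0
    refine ⟨A.filter fun i => ∃ p, p ∉ S₁ ∧ C.v p (Z o - Z i) ≤ exp (-2), ?_,
      fun i hi hx p hp h => hx (mem_filter.mpr ⟨hi, p, hp, h⟩)⟩
    have := C.nonempty
    have hch : ∀ i ∈ A.filter fun i => ∃ p, p ∉ S₁ ∧ C.v p (Z o - Z i) ≤ exp (-2),
        ∃ p, p ∉ S₁ ∧ C.v p (Z o - Z i) ≤ exp (-2) := fun i hi => (mem_filter.mp hi).2
    choose! q hq using hch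
    refine le_trans (card_le_card_of_injOn q (fun i hi => ?_) fun i hi j hj e => ?_) hT
    · obtain ⟨q1, q2⟩ := hq i hi
      have hi' := (mem_filter.mp (mem_coe.mp hi)).1
      obtain ⟨r1, r2⟩ := h1 _ q1
      rw [mem_coe, hT', ← hN i hi']
      refine Valuation.map_sub_lt _ ?_ ?_
      · rw [map_mul, r2, one_mul]
        exact Cur.double r1 q2
      · rw [map_mul]
        exact mov_mul (mov_lt q2) (C.dgood _ r1 _ r2.le)
    · by_contra hij
      obtain ⟨q1, q2⟩ := hq i hi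
      obtain ⟨-, q3⟩ := hq j hj
      rw [← e] at q3
      obtain ⟨u, hu⟩ := hA i (mem_filter.mp (mem_coe.mp hi)).1
      obtain ⟨w, hw⟩ := hA j (mem_filter.mp (mem_coe.mp hj)).1
      have e1 : Z i - Z j = algebraMap k K (u - w) * α := by
        rw [map_sub]; linear_combination hu - hw
      have c0 : u - w ≠ 0 := fun h => hne i j hij (by rw [e1, h, map_zero, zero_mul])
      have := Valuation.map_sub_lt _ (mov_lt q3) (mov_lt q2)
      rw [show Z o - Z j - (Z o - Z i) = Z i - Z j by ring, e1, map_mul, C.v_const _ c0,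
        (h1 _ q1).2, mul_one] at this
      exact lt_irrefl _ this

/-- two differences with the same divisor fix the point -/
theorem mov_con {x y z w α : K} {u u' : k} (hx : x - w = algebraMap k K u * α)
    (hy : y - w = algebraMap k K u' * α) (hxy : x - y ≠ 0) (h0 : z - y ≠ 0)
    (h : ∀ p, C.v p (z - x) = C.v p (z - y)) : ∃ c : k, z - w = algebraMap k K c * α := by
  obtain ⟨c, hc⟩ := Cur.ratio h0 h
  have c1 : c - 1 ≠ 0 := fun h1 => hxy (by
    rw [sub_eq_zero.mp h1, map_one] at hc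
    linear_combination -hc)
  have c2 : algebraMap k K c - 1 ≠ 0 := by
    have := (map_ne_zero (algebraMap k K)).mpr c1
    rwa [map_sub, map_one] at this
  refine ⟨(u' - u) / (c - 1) + u', ?_⟩
  rw [map_add, map_div₀, map_sub, map_sub, map_one]
  field_simp
  linear_combination -hc - hx + algebraMap k K c * hy

end

/-- a point that moves against many points of constant shape lies with almost all of them on a
line or circle -/
theorem mov (B m : ℕ) : ∃ y : ℕ, ∀ (k K : Type) [Field k] [CharZero k] [Field K] [Algebra k K]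
    (C : Cur k K B) (ι : Type) (c : Cf ι K) (A : Finset ι) (a b o : ι), (∀ i, C.Reg m (c.Z i)) →
    (∀ i, C.Reg m (c.W i)) → a ≠ b → (∀ i ∈ A, c.Con k a b i) → y ≤ #A → ¬ c.Con k a b o →
    ∃ γ : Fin 4 → K, γ ≠ 0 ∧ c.On γ o ∧ ∃ A' ⊆ A, #A ≤ #A' + y ∧ ∀ i ∈ A', c.On γ i := by
  classical
  refine ⟨2 * (B * (m + (m + B + 1))) + ((B * m + m + 1) ^ (B + B * m + B * m)) ^ 2 + 1, ?_⟩
  intro k K _ _ _ _ C ι c A a b o hZ hW hab hA hy ho
  have oA : o ∉ A := fun h => ho (hA o h)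
  obtain ⟨T1, t1, t1'⟩ := ((hZ b).sub (hZ a)).zeros (c.Z_ne hab.symm)
  obtain ⟨T2, t2, t2'⟩ := ((hW b).sub (hW a)).zeros (c.W_ne hab.symm)
  set S₁ := C.S ∪ T1 ∪ T2
  have hs : #S₁ ≤ B + B * m + B * m :=
    (card_union_le _ _).trans (add_le_add ((card_union_le _ _).trans (add_le_add C.card_S t1)) t2)
  have hS : ∀ p ∉ S₁, p ∉ C.S ∧ C.v p (c.Z b - c.Z a) = 1 ∧ C.v p (c.W b - c.W a) = 1 := by
    intro p hp
    simp only [S₁, mem_union, not_or, t1', t2', not_lt] at hp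
    exact ⟨hp.1.1, le_antisymm (((hZ b).sub (hZ a)).2 p hp.1.1) hp.1.2,
      le_antisymm (((hW b).sub (hW a)).2 p hp.1.1) hp.2⟩
  obtain ⟨X1, x1, x1'⟩ := mov_bad c.Z A a b o S₁ hZ (fun _ _ => c.Z_ne) hab
    (fun i hi => (hA i hi).imp fun _ h => h.choose_spec.1) oA fun p hp => ⟨(hS p hp).1, (hS p hp).2.1⟩
  obtain ⟨X2, x2, x2'⟩ := mov_bad c.W A a b o S₁ hW (fun _ _ => c.W_ne) hab
    (fun i hi => (hA i hi).choose_spec.imp fun _ h => h.2) oA
    fun p hp => ⟨(hS p hp).1, (hS p hp).2.2⟩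
  have hcl := C.colour m _ S₁ hs
  generalize (B * m + m + 1) ^ (B + B * m + B * m) = n at hcl hy ⊢
  obtain ⟨col, hcol⟩ := hcl
  set Gd := A \ (X1 ∪ X2)
  have GA : ∀ i ∈ Gd, i ∈ A := fun i hi => (mem_sdiff.mp hi).1
  have oi : ∀ i ∈ Gd, o ≠ i := fun i hi h => oA (h ▸ GA i hi)
  have cG : #A ≤ #Gd + 2 * (B * (m + (m + B + 1))) := by
    have : #A ≤ #Gd + #(X1 ∪ X2) := card_le_card_sdiff_add_card
    have := card_union_le X1 X2
    omega
  have hG : ∀ i ∈ Gd, ∀ p ∉ S₁, C.v p (c.Z o - c.Z i) = C.v p (c.W o - c.W i) := by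
    intro i hi p hp
    have h := (mem_sdiff.mp hi).2
    rw [mem_union, not_or] at h
    exact C.v_eq_of_sq p (c.sq o i) (((hZ o).sub (hZ i)).2 p (hS p hp).1)
      (((hW o).sub (hW i)).2 p (hS p hp).1) (x1' i (GA i hi) h.1 p hp) (x2' i (GA i hi) h.2 p hp)
  have two : ∀ Y ⊆ Gd, n ^ 2 < #Y → ∃ i ∈ Y, ∃ j ∈ Y, i ≠ j ∧ ∀ p ∈ S₁,
      C.v p (c.Z o - c.Z i) = C.v p (c.Z o - c.Z j) ∧
        C.v p (c.W o - c.W i) = C.v p (c.W o - c.W j) := by
    intro Y hY h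
    obtain ⟨i, hi, j, hj, hij, e⟩ := exists_ne_map_eq_of_card_lt_of_maps_to (s := Y)
      (t := (univ : Finset (Fin n × Fin n))) (by simpa [sq] using h)
      (f := fun i => (col (c.Z o - c.Z i), col (c.W o - c.W i))) fun _ _ => mem_coe.mpr (mem_univ _)
    refine ⟨i, hi, j, hj, hij, fun p hp => ⟨?_, ?_⟩⟩
    · exact hcol _ _ ((hZ o).sub (hZ i)) ((hZ o).sub (hZ j)) (c.Z_ne (oi i (hY hi)))
        (c.Z_ne (oi j (hY hj))) (congrArg Prod.fst e) p hp
    · exact hcol _ _ ((hW o).sub (hW i)) ((hW o).sub (hW j)) (c.W_ne (oi i (hY hi)))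
        (c.W_ne (oi j (hY hj))) (congrArg Prod.snd e) p hp
  have cN : #(Gd.filter fun i => ¬∃ p, p ∉ S₁ ∧ C.v p (c.Z o - c.Z i) < 1) ≤ n ^ 2 := by
    by_contra h
    obtain ⟨i, hi, j, hj, hij, e⟩ := two _ (filter_subset _ _) (not_le.mp h)
    obtain ⟨gi, hi⟩ := mem_filter.mp hi
    obtain ⟨gj, hj⟩ := mem_filter.mp hj
    push Not at hi hj
    have e1 : ∀ p ∉ S₁, C.v p (c.Z o - c.Z i) = C.v p (c.Z o - c.Z j) := fun p hp =>
      (le_antisymm (((hZ o).sub (hZ i)).2 p (hS p hp).1) (hi p hp)).trans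
        (le_antisymm (((hZ o).sub (hZ j)).2 p (hS p hp).1) (hj p hp)).symm
    obtain ⟨u, w, hu, hw⟩ := hA i (GA i gi)
    obtain ⟨u', w', hu', hw'⟩ := hA j (GA j gj)
    obtain ⟨r, hr⟩ := mov_con (C := C) hu hu' (c.Z_ne hij) (c.Z_ne (oi j gj)) fun p => by
      by_cases hp : p ∈ S₁
      exacts [(e p hp).1, e1 p hp]
    obtain ⟨s, hs⟩ := mov_con (C := C) hw hw' (c.W_ne hij) (c.W_ne (oi j gj)) fun p => by
      by_cases hp : p ∈ S₁
      · exact (e p hp).2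
      · rw [← hG i gi p hp, ← hG j gj p hp, e1 p hp]
    exact ho ⟨r, s, hr, hs⟩
  obtain ⟨i, gi, j, gj, hij, e⟩ := two Gd Subset.rfl (by omega)
  obtain ⟨κ, hκ⟩ := Cur.ratio (C := C) (f := (c.Z o - c.Z i) * (c.W o - c.W j))
    (g := (c.Z o - c.Z j) * (c.W o - c.W i)) (mul_ne_zero (c.Z_ne (oi j gj)) (c.W_ne (oi i gi)))
    fun p => by
      rw [map_mul, map_mul]
      by_cases hp : p ∈ S₁
      · rw [(e p hp).1, (e p hp).2]
      · rw [hG i gi p hp, hG j gj p hp, mul_comm]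
  set q := algebraMap k K κ with hq
  have hb : ∀ z w : K, bil ![1 - q, q * c.W i - c.W j, q * c.Z j - c.Z i,
      c.Z i * c.W j - q * (c.Z j * c.W i)] z w =
      (z - c.Z i) * (w - c.W j) - q * ((z - c.Z j) * (w - c.W i)) := fun z w => by
    simp only [bil, Matrix.cons_val_zero, Matrix.cons_val_one, Matrix.cons_val]
    ring
  refine ⟨![1 - q, q * c.W i - c.W j, q * c.Z j - c.Z i, c.Z i * c.W j - q * (c.Z j * c.W i)],
    fun h => ?_, ?_, Gd.filter fun i => ∃ p, p ∉ S₁ ∧ C.v p (c.Z o - c.Z i) < 1,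
    fun l hl => GA l (mem_filter.mp hl).1, ?_, fun l hl => ?_⟩
  · have h0 : 1 - q = 0 := congrFun h 0
    have h1 : q * c.W i - c.W j = 0 := congrFun h 1
    exact c.W_ne hij (by linear_combination h1 + c.W i * h0)
  · unfold Cf.On
    rw [hb, hκ, sub_self]
  · have := card_filter_add_card_filter_not (s := Gd)
      fun i => ∃ p, p ∉ S₁ ∧ C.v p (c.Z o - c.Z i) < 1
    omega
  · obtain ⟨gl, p, hp, hv⟩ := mem_filter.mp hl
    have hv' : C.v p (c.W o - c.W l) < 1 := hG l gl p hp ▸ hv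
    obtain ⟨pS, p1, p2⟩ := hS p hp
    obtain ⟨u1, w1, hu1, hw1⟩ := hA i (GA i gi)
    obtain ⟨u2, w2, hu2, hw2⟩ := hA j (GA j gj)
    obtain ⟨u, w, hu, hw⟩ := hA l (GA l gl)
    unfold Cf.On
    rw [hb]
    have e1 : (c.Z l - c.Z i) * (c.W l - c.W j) - q * ((c.Z l - c.Z j) * (c.W l - c.W i)) =
        algebraMap k K ((u - u1) * (w - w2) - κ * ((u - u2) * (w - w1))) *
          ((c.Z b - c.Z a) * (c.W b - c.W a)) := by
      simp only [map_sub, map_mul, ← hq]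
      rw [show c.Z l - c.Z i = c.Z l - c.Z a - (c.Z i - c.Z a) by ring,
        show c.Z l - c.Z j = c.Z l - c.Z a - (c.Z j - c.Z a) by ring,
        show c.W l - c.W i = c.W l - c.W a - (c.W i - c.W a) by ring,
        show c.W l - c.W j = c.W l - c.W a - (c.W j - c.W a) by ring, hu, hw, hu1, hw1, hu2, hw2]
      ring
    have e2 : (c.Z l - c.Z i) * (c.W l - c.W j) - q * ((c.Z l - c.Z j) * (c.W l - c.W i)) =
        (c.Z o - c.Z l) * (c.W j - c.W l + q * (c.W l - c.W i)) +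
          (c.W o - c.W l) * (c.Z i - c.Z o + q * (c.Z o - c.Z j)) := by
      linear_combination hκ
    by_contra hne
    have c0 : (u - u1) * (w - w2) - κ * ((u - u2) * (w - w1)) ≠ 0 := fun h =>
      hne (by rw [e1, h, map_zero, zero_mul])
    have v1 : C.v p ((c.Z l - c.Z i) * (c.W l - c.W j) -
        q * ((c.Z l - c.Z j) * (c.W l - c.W i))) < 1 := by
      rw [e2]
      refine Valuation.map_add_lt _ ?_ ?_
      · rw [map_mul]
        exact mov_mul hv ((((hW j).sub (hW l)).add (((hW l).sub (hW i)).const_mul κ)).2 p pS)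
      · rw [map_mul]
        exact mov_mul hv' ((((hZ i).sub (hZ o)).add (((hZ o).sub (hZ j)).const_mul κ)).2 p pS)
    rw [e1, map_mul, map_mul, C.v_const p c0, p1, p2, mul_one, mul_one] at v1
    exact lt_irrefl _ v1

end Pool.Agent.Lib.MP_e5111b_co.Gp
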