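import Pool.Agent.Lib.MP_e5111b_co.Gp.Model

set_option autoImplicit false

namespace Pool.Agent.Lib.MP_e5111b_co.Gp

open Polynomial IntermediateField
open scoped Polynomial.Bivariate

theorem pl_dvd {k : Type} [Field k] [IsAlgClosed k] {f g : k[X]} (hf : f ≠ 0) (hs : f.Separable)
    (h : ∀ x, f.eval x = 0 → g.eval x = 0) : f ∣ g := by
  by_cases hg : g = 0
  · rw [hg]; exact dvd_zero _
  refine (IsAlgClosed.splits f).dvd_of_roots_le_roots hf ?_
  rw [Multiset.le_iff_subset (nodup_roots hs)]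
  intro x hx
  exact (mem_roots hg).2 (h x ((mem_roots hf).1 hx))

theorem pl_ev {k : Type} [Field k] (a x : k) (H : k[X][Y]) :
    (H.map (evalRingHom a)).eval x = H.evalEval a x := map_evalRingHom_eval a x H

theorem pl_zero {k : Type} [Field k] {p H : k[X][Y]} (h : p ∣ H) {a x : k}
    (hx : p.evalEval a x = 0) : H.evalEval a x = 0 := by
  obtain ⟨Q, rfl⟩ := h
  rw [evalEval_mul, hx, zero_mul]

theorem pl_ne {k Ω : Type} [Field k] [Field Ω] [Algebra k Ω] {T : Ω} (hT : Transcendental k T)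
    {g : k[X]} (hg : g ≠ 0) : aeval T g ≠ 0 := fun h => hT ⟨g, hg, h⟩

theorem pl_sub_ne {k Ω : Type} [Field k] [Field Ω] [Algebra k Ω] {T : Ω} (hT : Transcendental k T)
    (a : k) : T - algebraMap k Ω a ≠ 0 := by
  have := pl_ne hT (X_sub_C_ne_zero a)
  simpa using this

theorem pl_split {k : Type} [Field k] [IsAlgClosed k] {p : k[X][Y]} (hp : p.Monic) {a : k}
    (hs : (p.map (evalRingHom a)).Separable) {H : k[X][Y]}
    (h : ∀ x, p.evalEval a x = 0 → H.evalEval a x = 0) :
    ∃ Q H₁ : k[X][Y], H = p * Q + C (X - C a) * H₁ := by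
  obtain ⟨Q₀, hQ⟩ := pl_dvd (g := H.map (evalRingHom a)) (hp.map _).ne_zero hs
    (fun x hx => by rw [pl_ev] at hx ⊢; exact h x hx)
  have h1 : (H - p * Q₀.map C).map (evalRingHom a) = 0 := by
    rw [Polynomial.map_sub, Polynomial.map_mul, Polynomial.map_map, hQ]
    have : (evalRingHom a).comp (C : k →+* k[X]) = RingHom.id k := by ext; simp
    rw [this, Polynomial.map_id, sub_self]
  have h2 : C (X - C a) ∣ H - p * Q₀.map C := by
    rw [C_dvd_iff_dvd_coeff]
    intro i
    rw [dvd_iff_isRoot]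
    have := congrArg (fun q => q.coeff i) h1
    simp only [coeff_map, coeff_zero] at this
    exact this
  obtain ⟨H₁, h3⟩ := h2
  exact ⟨Q₀.map C, H₁, by rw [← h3]; ring⟩

theorem odd_place {k Ω : Type} [Field k] [IsAlgClosed k] [Field Ω] [Algebra k Ω] {T y : Ω}
    (hT : Transcendental k T) {p : k[X][Y]} (hp : p.Monic)
    (h : ∀ H : k[X][Y], aevalAeval T y H = 0 ↔ p ∣ H) {a : k}
    (hs : (p.map (evalRingHom a)).Separable) (e : ℕ) (H U : k[X][Y])
    (he : aevalAeval T y H ^ 2 = (T - algebraMap k Ω a) ^ (2 * e + 1) * aevalAeval T y U)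
    {η : k} (hη : p.evalEval a η = 0) : U.evalEval a η = 0 := by
  have hC : aevalAeval T y (C (X - C a) : k[X][Y]) = T - algebraMap k Ω a := by
    rw [aevalAeval_C]; simp
  have hC0 : ∀ x : k, (C (X - C a) : k[X][Y]).evalEval a x = 0 := by
    intro x; rw [evalEval_C]; simp
  have hne := pl_sub_ne hT a
  have hp0 : aevalAeval T y p = 0 := (h p).2 dvd_rfl
  have key : ∀ (e : ℕ) (H : k[X][Y]),
      aevalAeval T y H ^ 2 = (T - algebraMap k Ω a) ^ (2 * e + 1) * aevalAeval T y U →
      ∃ H₁ : k[X][Y], aevalAeval T y H = (T - algebraMap k Ω a) * aevalAeval T y H₁ := by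
    intro e H he
    have h1 : p ∣ H ^ 2 - C (X - C a) ^ (2 * e + 1) * U := by
      rw [← h, map_sub, map_mul, map_pow, map_pow, hC, he, sub_self]
    obtain ⟨Q, H₁, h2⟩ := pl_split hp hs (H := H) (fun x hx => by
      have := pl_zero h1 hx
      rw [evalEval_sub, evalEval_mul, evalEval_pow, evalEval_pow, hC0,
        zero_pow (Nat.succ_ne_zero _), zero_mul, sub_zero] at this
      exact pow_eq_zero_iff (two_ne_zero) |>.1 this)
    exact ⟨H₁, by rw [h2, map_add, map_mul, map_mul, hp0, hC, zero_mul, zero_add]⟩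
  induction e generalizing H with
  | zero =>
    obtain ⟨H₁, h1⟩ := key 0 H he
    have h2 : p ∣ U - C (X - C a) * H₁ ^ 2 := by
      rw [← h, map_sub, map_mul, map_pow, hC, sub_eq_zero]
      apply mul_left_cancel₀ hne
      rw [h1] at he
      linear_combination -he
    have := pl_zero h2 hη
    rwa [evalEval_sub, evalEval_mul, hC0, zero_mul, sub_zero] at this
  | succ e ih =>
    obtain ⟨H₁, h1⟩ := key _ H he
    refine ih H₁ ?_
    apply mul_left_cancel₀ (pow_ne_zero 2 hne)
    rw [h1] at he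
    linear_combination he

theorem pl_map {k k' A : Type} [Field k] [Field k'] [Field A] [Algebra k k'] [Algebra k A]
    [Algebra k' A] [IsScalarTower k k' A] (x y : A) (H : k[X][Y]) :
    aevalAeval x y (H.map (mapRingHom (algebraMap k k'))) = aevalAeval x y H := by
  induction H using Polynomial.induction_on' with
  | add p q hp hq => rw [Polynomial.map_add, map_add, map_add, hp, hq]
  | monomial n c =>
    rw [← C_mul_X_pow_eq_monomial, Polynomial.map_mul, Polynomial.map_pow, Polynomial.map_C,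
      Polynomial.map_X, map_mul, map_mul, map_pow, map_pow, aevalAeval_C, aevalAeval_C,
      aevalAeval_Y, aevalAeval_Y, coe_mapRingHom, aeval_map_algebraMap]

theorem pl_map' {k k' : Type} [Field k] [Field k'] [Algebra k k'] (x y : k') (H : k[X][Y]) :
    (H.map (mapRingHom (algebraMap k k'))).evalEval x y = aevalAeval x y H := by
  rw [← pl_map (k' := k') x y H, coe_aevalAeval_eq_evalEval]

theorem pl_aeval {k Ω : Type} [Field k] [Field Ω] [Algebra k Ω] (T y : Ω) (H : k[X][Y]) :
    aevalAeval T y H = H.eval₂ (aeval T : k[X] →ₐ[k] Ω).toRingHom y := by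
  induction H using Polynomial.induction_on' with
  | add p q hp hq => rw [map_add, eval₂_add, hp, hq]
  | monomial n c =>
    rw [eval₂_monomial, ← C_mul_X_pow_eq_monomial, map_mul, map_pow, aevalAeval_C, aevalAeval_Y]
    rfl

theorem pl_inv {k Ω : Type} [Field k] [Field Ω] [Algebra k Ω] {T y : Ω} {p : k[X][Y]}
    (hp : p.Monic) (h : aevalAeval T y p = 0) {H : k[X][Y]} (hH : aevalAeval T y H ≠ 0) :
    ∃ (G : k[X]) (H' : k[X][Y]), G ≠ 0 ∧ aevalAeval T y H * aevalAeval T y H' = aeval T G := by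
  let _ : Algebra k[X] Ω := (aeval T : k[X] →ₐ[k] Ω).toRingHom.toAlgebra
  have e : ∀ H : k[X][Y], aevalAeval T y H = aeval y H := fun H => pl_aeval T y H
  have hy : IsIntegral k[X] y := ⟨p, hp, by rw [← aeval_def, ← e, h]⟩
  have hm : aevalAeval T y H ∈ Algebra.adjoin k[X] {y} := by
    rw [e]; exact aeval_mem_adjoin_singleton _ _
  have hz : IsIntegral k[X] (aevalAeval T y H) := adjoin_le_integralClosure hy hm
  obtain ⟨t, ht, G, hG, h1⟩ :=
    hz.isAlgebraic.exists_nonzero_eq_adjoin_mul (mem_nonZeroDivisors_of_ne_zero hH)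
  have ht' : t ∈ Algebra.adjoin k[X] {y} :=
    Algebra.adjoin_le (Set.singleton_subset_iff.2 hm) ht
  rw [Algebra.adjoin_singleton_eq_range_aeval] at ht'
  obtain ⟨H', rfl⟩ := ht'
  exact ⟨G, H', hG, by rw [e H']; exact h1⟩

theorem pl_mem {k Ω : Type} [Field k] [Field Ω] [Algebra k Ω] {T y w τ : Ω} {p r s : k[X][Y]}
    {g : k[X]} (hT : Transcendental k T) (hp : p.Monic) (h : aevalAeval T y p = 0) (hg : g ≠ 0)
    (hr : aeval T g * w = aevalAeval T y r) (hs : aeval T g * τ = aevalAeval T y s) {x : Ω}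
    (hx : x ∈ k⟮T, w, τ⟯) :
    ∃ (G : k[X]) (H : k[X][Y]), G ≠ 0 ∧ aeval T G * x = aevalAeval T y H := by
  induction hx using adjoin_induction with
  | mem x hx =>
    rcases hx with rfl | rfl | rfl
    · exact ⟨1, C X, one_ne_zero, by rw [aevalAeval_X, map_one, one_mul]⟩
    · exact ⟨g, r, hg, hr⟩
    · exact ⟨g, s, hg, hs⟩
  | algebraMap c => exact ⟨1, C (C c), one_ne_zero, by rw [aevalAeval_C, map_one, one_mul, aeval_C]⟩
  | add x y _ _ hx hy =>
    obtain ⟨G, H, hG, h1⟩ := hx
    obtain ⟨G', H', hG', h2⟩ := hy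
    refine ⟨G * G', C G' * H + C G * H', mul_ne_zero hG hG', ?_⟩
    rw [map_add, map_mul, map_mul, map_mul, aevalAeval_C, aevalAeval_C, ← h1, ← h2]
    ring
  | inv x _ hx =>
    obtain ⟨G, H, hG, h1⟩ := hx
    by_cases h0 : x = 0
    · exact ⟨1, 0, one_ne_zero, by rw [h0, inv_zero, mul_zero, map_zero]⟩
    have h2 : aevalAeval T y H ≠ 0 := by rw [← h1]; exact mul_ne_zero (pl_ne hT hG) h0
    obtain ⟨G', H', hG', h3⟩ := pl_inv hp h h2
    refine ⟨G', C G * H', hG', ?_⟩
    rw [map_mul, aevalAeval_C, ← h3, ← h1]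
    field_simp
  | mul x y _ _ hx hy =>
    obtain ⟨G, H, hG, h1⟩ := hx
    obtain ⟨G', H', hG', h2⟩ := hy
    refine ⟨G * G', H * H', mul_ne_zero hG hG', ?_⟩
    rw [map_mul, map_mul, ← h1, ← h2]
    ring

theorem pl_int {k k' : Type} [Field k] [Field k'] [Algebra k k'] {a η : k'} {p : k[X][Y]}
    (hp : p.Monic) (h : aevalAeval a η p = 0) (H : k[X][Y]) :
    IsIntegral (Algebra.adjoin k {a}) (aevalAeval a η H) := by
  have ha : ∀ g : k[X], IsIntegral (Algebra.adjoin k {a}) (aeval a g) := fun g =>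
    isIntegral_algebraMap (x := (⟨aeval a g, aeval_mem_adjoin_singleton _ _⟩ :
      Algebra.adjoin k {a}))
  have hη : IsIntegral (Algebra.adjoin k {a}) η := by
    let a₀ : Algebra.adjoin k {a} := ⟨a, Algebra.self_mem_adjoin_singleton _ _⟩
    refine ⟨p.map (aeval a₀ : k[X] →ₐ[k] _).toRingHom, hp.map _, ?_⟩
    rw [eval₂_map, ← h, pl_aeval]
    congr 1
    ext c
    · simp
    · simp [a₀]
  induction H using Polynomial.induction_on' with
  | add p q hp hq => rw [map_add]; exact hp.add hq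
  | monomial n c =>
    rw [← C_mul_X_pow_eq_monomial, map_mul, map_pow, aevalAeval_C, aevalAeval_Y]
    exact (ha c).mul (hη.pow n)

theorem pl_sep {k k' : Type} [Field k] [CharZero k] [Field k'] [Algebra k k'] {a : k'}
    (ha : Transcendental k a) {p : k[X][Y]} (hd : 0 < p.natDegree)
    (hb : ∀ H : k[X][Y], ¬ p ∣ H →
      ∃ (u u' : k[X][Y]) (g' : k[X]), g' ≠ 0 ∧ u * p + u' * H = C g') :
    ((p.map (mapRingHom (algebraMap k k'))).map (evalRingHom a)).Separable := by
  have h1 : ¬ p ∣ derivative p := fun hdv => by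
    have h0 : derivative p ≠ 0 := fun h0 => by
      have := derivative_eq_zero.1 h0
      omega
    have := natDegree_le_of_dvd hdv h0
    have := natDegree_derivative_lt hd.ne'
    omega
  obtain ⟨u, u', g, hg, h2⟩ := hb _ h1
  rw [Polynomial.map_map]
  set ψ := (evalRingHom a).comp (mapRingHom (algebraMap k k')) with hψ
  have h3 : ψ g ≠ 0 := by
    have := pl_ne ha hg
    rwa [hψ, RingHom.comp_apply, coe_mapRingHom, coe_evalRingHom, eval_map_algebraMap]
  have h4 := congrArg (Polynomial.map ψ) h2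
  rw [Polynomial.map_add, Polynomial.map_mul, Polynomial.map_mul, Polynomial.map_C,
    ← derivative_map] at h4
  refine ⟨C (ψ g)⁻¹ * u.map ψ, C (ψ g)⁻¹ * u'.map ψ, ?_⟩
  rw [mul_assoc, mul_assoc, ← mul_add, h4, ← C_mul, inv_mul_cancel₀ h3, C_1]

/-- if the product is a square, then `w` is a rational function of `T` that takes `a` to `b` -/
theorem place {k k' Ω Λ : Type} [Field k] [IsAlgClosed k] [CharZero k] [Field k'] [IsAlgClosed k']
    [Field Ω] [Algebra k k'] [Algebra k Ω] [Algebra k' Ω] [IsScalarTower k k' Ω] {T w τ : Ω}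
    (hT : Transcendental k' T) (hw : IsAlgebraic (Algebra.adjoin k {T}) w)
    (hτ : IsAlgebraic (Algebra.adjoin k {T}) τ) {a b u : k'} (ha : Transcendental k a) (hu : u ≠ 0)
    (s : Finset Λ) (z v : Λ → k') (hz : ∀ l ∈ s, z l ≠ a)
    (hv : ∀ l ∈ s, (∃ e : k, v l = algebraMap k k' e ∧ w ≠ algebraMap k Ω e) ∨
      Transcendental (Algebra.adjoin k {a}) (v l)) {h : Ω} (hh : h ∈ k'⟮T, w, τ⟯)
    (e : h ^ 2 = algebraMap k' Ω u * ((T - algebraMap k' Ω a) * (w - algebraMap k' Ω b)) *
      ∏ l ∈ s, (T - algebraMap k' Ω (z l)) * (w - algebraMap k' Ω (v l))) :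
    ∃ A B : k[X], B ≠ 0 ∧ aeval T B * w = aeval T A ∧ aeval a B * b = aeval a A := by
  have hTk : Transcendental k T := hT.restrictScalars (algebraMap k k').injective
  obtain ⟨y, p, r, s', g, hp, hd, hg, hker, hb, hr, hs'⟩ := model hTk hw hτ
  have hker' := descend hT hp hker
  have hsep := pl_sep ha hd hb
  have hp' : (p.map (mapRingHom (algebraMap k k'))).Monic := hp.map _
  have hg' : g.map (algebraMap k k') ≠ 0 := Polynomial.map_ne_zero hg
  have hgT : aeval T (g.map (algebraMap k k')) = aeval T g := aeval_map_algebraMap _ _ _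
  have hga : (g.map (algebraMap k k')).eval a = aeval a g := eval_map_algebraMap _ _
  have hga0 : aeval a g ≠ 0 := pl_ne ha hg
  obtain ⟨G, H, hG, hH⟩ := pl_mem (r := r.map (mapRingHom (algebraMap k k')))
    (s := s'.map (mapRingHom (algebraMap k k'))) hT hp' ((hker' _).2 dvd_rfl) hg'
    (by rw [hgT, pl_map, hr]) (by rw [hgT, pl_map, hs']) hh
  obtain ⟨G₀, hG₀, hnd⟩ := exists_eq_pow_rootMultiplicity_mul_and_not_dvd G hG a
  set m := rootMultiplicity a G
  have hG₀a : G₀.eval a ≠ 0 := fun h0 => hnd (dvd_iff_isRoot.2 h0)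
  have hGT : aeval T G = (T - algebraMap k' Ω a) ^ m * aeval T G₀ := by
    rw [hG₀, map_mul, map_pow, map_sub, aeval_X, aeval_C]
  let f : k' → k'[X][Y] := fun c =>
    r.map (mapRingHom (algebraMap k k')) - C (g.map (algebraMap k k') * C c)
  have hfT : ∀ c, aevalAeval T y (f c) = aeval T g * (w - algebraMap k' Ω c) := by
    intro c
    simp only [f]
    rw [map_sub, pl_map, aevalAeval_C, map_mul, hgT, aeval_C, ← hr]
    ring
  have hfa : ∀ c η, (f c).evalEval a η = aevalAeval a η r - aeval a g * c := by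
    intro c η
    simp only [f]
    rw [evalEval_sub, pl_map', evalEval_C, eval_mul, hga, eval_C]
  have root : ∀ η : k', (p.map (mapRingHom (algebraMap k k'))).evalEval a η = 0 →
      aevalAeval a η r = aeval a g * b := by
    intro η hη
    have h1 := odd_place hT hp' hker' hsep m (H * C (g.map (algebraMap k k')) ^ (s.card + 1))
      (C (G₀ ^ 2 * C u * g.map (algebraMap k k') ^ (s.card + 1)) * f b *
        ∏ l ∈ s, C (X - C (z l)) * f (v l)) (by
        rw [map_mul, map_mul, map_mul, map_pow, map_prod, aevalAeval_C, aevalAeval_C, ← hH, hGT,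
          hfT, map_mul, map_mul, map_pow, map_pow, aeval_C, hgT]
        have h2 : ∏ l ∈ s, aevalAeval T y (C (X - C (z l)) * f (v l)) = aeval T g ^ s.card *
            ∏ l ∈ s, (T - algebraMap k' Ω (z l)) * (w - algebraMap k' Ω (v l)) := by
          rw [← Finset.prod_const, ← Finset.prod_mul_distrib]
          refine Finset.prod_congr rfl fun l _ => ?_
          rw [map_mul, aevalAeval_C, hfT, map_sub, aeval_X, aeval_C]
          ring
        rw [h2]
        linear_combination
          ((T - algebraMap k' Ω a) ^ m * aeval T G₀ * aeval T g ^ (s.card + 1)) ^ 2 * e) hη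
    rw [evalEval_mul, evalEval_mul, evalEval_prod, evalEval_C, hfa, eval_mul, eval_mul, eval_pow,
      eval_pow, eval_C, hga] at h1
    have h3 : ∏ l ∈ s, (C (X - C (z l)) * f (v l)).evalEval a η ≠ 0 := by
      refine Finset.prod_ne_zero_iff.2 fun l hl => ?_
      rw [evalEval_mul, evalEval_C, hfa, eval_sub, eval_X, eval_C]
      refine mul_ne_zero (sub_ne_zero.2 (hz l hl).symm) fun h0 => ?_
      rw [pl_map'] at hη
      rcases hv l hl with ⟨c, hc, hwc⟩ | htr
      · have h4 : ¬ p ∣ r - C (g * C c) := by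
          rw [← hker, map_sub, aevalAeval_C, map_mul, aeval_C, ← hr, ← mul_sub]
          exact mul_ne_zero (pl_ne hTk hg) (sub_ne_zero.2 hwc)
        obtain ⟨u₁, u₂, g₁, hg₁, h5⟩ := hb _ h4
        have h6 := congrArg (aevalAeval a η) h5
        rw [map_add, map_mul, map_mul, hη, map_sub, aevalAeval_C, aevalAeval_C, map_mul, aeval_C,
          ← hc, h0, mul_zero, mul_zero, add_zero] at h6
        exact pl_ne ha hg₁ h6.symm
      · refine htr (IsAlgebraic.of_mul (y := aeval a g) (mem_nonZeroDivisors_of_ne_zero hga0) ?_ ?_)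
        · have := (pl_int hp hη (C g)).isAlgebraic
          rwa [aevalAeval_C] at this
        · rw [← sub_eq_zero.1 h0]
          exact (pl_int hp hη r).isAlgebraic
    have h7 : eval a G₀ ^ 2 * u * aeval a g ^ (s.card + 1) ≠ 0 :=
      mul_ne_zero (mul_ne_zero (pow_ne_zero _ hG₀a) hu) (pow_ne_zero _ hga0)
    exact sub_eq_zero.1 ((mul_eq_zero.1 ((mul_eq_zero.1 h1).resolve_right h3)).resolve_left h7)
  have hmod : ∀ {A : Type} [Field A] [Algebra k A] (x y : A), aevalAeval x y p = 0 →
      aevalAeval x y (r %ₘ p) = aevalAeval x y r := by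
    intro A _ _ x y h0
    conv_rhs => rw [← modByMonic_add_div r p]
    rw [map_add, map_mul, h0, zero_mul, add_zero]
  set ψ := (evalRingHom a).comp (mapRingHom (algebraMap k k')) with hψ
  have hψa : ∀ q : k[X], ψ q = aeval a q := fun q => by
    rw [hψ, RingHom.comp_apply, coe_mapRingHom, coe_evalRingHom, eval_map_algebraMap]
  have hev : ∀ (q : k[X][Y]) (η : k'), (q.map ψ).eval η = aevalAeval a η q := fun q η => by
    rw [hψ, ← Polynomial.map_map, pl_ev, pl_map']
  rw [Polynomial.map_map] at hsep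
  have hdv : p.map ψ ∣ (r %ₘ p).map ψ - C (aeval a g * b) := by
    refine pl_dvd (hp.map _).ne_zero hsep fun η hη => ?_
    rw [hev] at hη
    rw [eval_sub, eval_C, hev, hmod a η hη, root η (by rw [pl_map', hη]), sub_self]
  have hlt : (r %ₘ p).natDegree < p.natDegree :=
    natDegree_modByMonic_lt r hp (fun h1 => by rw [h1, natDegree_one] at hd; omega)
  have hz0 : (r %ₘ p).map ψ - C (aeval a g * b) = 0 := by
    refine eq_zero_of_dvd_of_natDegree_lt hdv ?_
    rw [natDegree_sub_C, hp.natDegree_map]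
    exact lt_of_le_of_lt natDegree_map_le hlt
  have hco : ∀ i, aeval a ((r %ₘ p).coeff i) = (C (aeval a g * b)).coeff i := fun i => by
    rw [← sub_eq_zero.1 hz0, coeff_map, hψa]
  have hC : r %ₘ p = C ((r %ₘ p).coeff 0) := by
    ext1 i
    rw [coeff_C]
    split_ifs with hi
    · rw [hi]
    · by_contra h0
      exact pl_ne ha h0 (by rw [hco, coeff_C, if_neg hi])
  refine ⟨(r %ₘ p).coeff 0, g, hg, ?_, ?_⟩
  · rw [hr, ← hmod T y ((hker p).2 dvd_rfl), ← aevalAeval_C T y, ← hC]
  · rw [hco, coeff_C_zero]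

end Pool.Agent.Lib.MP_e5111b_co.Gp
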