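import Pool.Agent.Lib.MP_e5111b_co.Gp.Hom
import Pool.Agent.Lib.MP_e5111b_co.Gp.Col
import Pool.Agent.Lib.MP_e5111b_co.Gp.Mov

set_option autoImplicit false

namespace Pool.Agent.Lib.MP_e5111b_co.Gp

open Finset WithZero

/-- a family of bounded degree that is not concentrated on a line or circle has constant shape -/
theorem rigid (B m : ℕ) : ∃ n₀ k₀ : ℕ, ∀ (k K : Type) [Field k] [CharZero k] [Field K]
    [Algebra k K] (C : Cur k K B) (ι : Type) [Fintype ι] (c : Cf ι K), (∀ i, C.Reg m (c.Z i)) →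
    (∀ i, C.Reg m (c.W i)) → n₀ ≤ Fintype.card ι → c.Miss k₀ →
    ∃ a b, a ≠ b ∧ ∀ i, c.Con k a b i := by
  obtain ⟨y, hy⟩ := mov B m
  obtain ⟨n1, h1⟩ := col B m (2 * y + 3)
  obtain ⟨n2, h2⟩ := hom B m (n1 + (2 * y + 3))
  refine ⟨n2, y + 3, ?_⟩
  intro k K _ _ _ _ C ι _ c hZ hW hn hM
  classical
  obtain ⟨Y, -, hY, hH⟩ := h2 k K C ι c univ hZ hW (by rwa [card_univ])
  obtain ⟨a, b, hab, Y0, h3, h4⟩ : ∃ a b, a ≠ b ∧ ∃ Y0 : Finset ι, 2 * y + 3 ≤ #Y0 ∧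
      ∀ i ∈ Y0, c.Con k a b i := by
    obtain ⟨a, ha, b, hb, hab⟩ := one_lt_card.1 (show 1 < #Y by omega)
    rcases hH.split ha hb hab with h | ⟨l, h⟩
    · exact ⟨a, b, hab, Y, by omega, h⟩
    · obtain ⟨Y', -, h5, a', b', h6, h7⟩ :=
        h1 k K C ι c Y l hZ hW (hM.mono (by omega)) (by omega) h
      exact ⟨a', b', h6, Y', h5, h7⟩
  refine ⟨a, b, hab, fun o => ?_⟩
  by_contra ho
  set A := univ.filter fun i => c.Con k a b i with hA
  have hA1 : ∀ i ∈ A, c.Con k a b i := fun i hi => (mem_filter.1 hi).2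
  have hA2 : 2 * y + 3 ≤ #A :=
    h3.trans (card_le_card fun i hi => mem_filter.2 ⟨mem_univ _, h4 i hi⟩)
  obtain ⟨γ, hγ, -, A', s1, c1, o1⟩ := hy k K C ι c A a b o hZ hW hab hA1 (by omega) ho
  obtain ⟨X, hX, hX'⟩ := hM γ hγ
  have hsub : X ⊆ A \ A' := by
    intro i hi
    refine mem_sdiff.2 ⟨?_, fun h => hX' i hi (o1 i h)⟩
    by_contra hi'
    obtain ⟨γ', hγ', oi, A'', s2, c2, o2⟩ := hy k K C ι c A a b i hZ hW hab hA1 (by omega)
      fun h => hi' (mem_filter.2 ⟨mem_univ _, h⟩)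
    have e1 := card_union_add_card_inter A' A''
    have e2 := card_le_card (union_subset s1 s2)
    obtain ⟨p, q, r, hp, hq, hr, hpq, hpr, hqr⟩ :=
      two_lt_card_iff.1 (show 2 < #(A' ∩ A'') by omega)
    rw [mem_inter] at hp hq hr
    exact hX' i hi ((Cf.on_iff_cyc hγ hpq hpr hqr (o1 p hp.1) (o1 q hq.1) (o1 r hr.1) i).2
      ((Cf.on_iff_cyc hγ' hpq hpr hqr (o2 p hp.2) (o2 q hq.2) (o2 r hr.2) i).1 oi))
  have e3 := card_le_card hsub
  rw [card_sdiff_of_subset s1] at e3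
  omega

end Pool.Agent.Lib.MP_e5111b_co.Gp
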