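import Pool.Agent.Lib.MP_e5111b_co.Gp.Rigid
import Pool.Agent.Lib.MP_e5111b_co.Gp.MkCur
import Pool.Agent.Lib.MP_e5111b_co.Gp.Kit
import Pool.Agent.Lib.MP_e5111b_co.Gp.GeoB

set_option autoImplicit false

namespace Pool.Agent.Lib.MP_e5111b_co.Gp

open Finset IntermediateField Pc

section
variable {k K Ω : Type} [Field k] [Field K] [Field Ω] [Algebra k K] [Algebra k Ω]

theorem sa_int (φ : K →ₐ[k] Ω) {t f : K} (h : IsIntegral (Algebra.adjoin k {φ t}) (φ f)) :
    IsIntegral (Algebra.adjoin k {t}) f := by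
  have e := φ.map_adjoin_singleton t
  let g : Algebra.adjoin k {t} →+* Algebra.adjoin k {φ t} :=
    ((φ.comp (Algebra.adjoin k {t}).val).codRestrict _ fun a => e ▸ ⟨a, a.2, rfl⟩).toRingHom
  have hs : Function.Surjective g := fun a => by
    obtain ⟨b, hb, h1⟩ : (a : Ω) ∈ (Algebra.adjoin k {t}).map φ := e.symm ▸ a.2
    exact ⟨⟨b, hb⟩, Subtype.ext h1⟩
  obtain ⟨p, hp, h0⟩ := h
  obtain ⟨q, hq, -, hm⟩ := Polynomial.lifts_and_natDegree_eq_and_monic
    ((Polynomial.mem_lifts p).2 (Polynomial.map_surjective g hs p)) hp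
  refine ⟨q, hm, φ.toRingHom.injective ?_⟩
  rw [Polynomial.hom_eval₂, map_zero, ← h0, ← hq, Polynomial.eval₂_map]
  rfl

theorem sa_itg (φ : K →ₐ[k] Ω) {t f : K} {j : ℕ} (h : Itg k (φ t) j (φ f)) : Itg k t j f :=
  ⟨sa_int φ h.1, sa_int φ (by rw [map_inv₀, map_div₀, map_pow]; exact h.2)⟩

theorem sa_two {a b z y : Ω} (hy : IsIntegral k y) (ha : a ∈ k⟮y⟯) (hb : b ∈ k⟮y⟯)
    (h : z ^ 2 - a * z + b = 0) {S : Set Ω} (hS : ∀ s ∈ S, s = z ∨ s ∈ k⟮y⟯) :
    FiniteDimensional k (adjoin k S) ∧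
      Module.finrank k (adjoin k S) ≤ 2 * (minpoly k y).natDegree := by
  have hL : adjoin k S ≤ (k⟮y⟯⟮z⟯).restrictScalars k := adjoin_le_iff.2 fun s hs => by
    rw [SetLike.mem_coe, mem_restrictScalars]
    rcases hS s hs with rfl | e
    · exact mem_adjoin_simple_self _ _
    · exact (k⟮y⟯⟮z⟯).algebraMap_mem ⟨s, e⟩
  have := adjoin.finiteDimensional hy
  let q : Polynomial k⟮y⟯ := Polynomial.X ^ 2 - Polynomial.C ⟨a, ha⟩ * Polynomial.X +
    Polynomial.C ⟨b, hb⟩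
  have q1 : q.Monic := by simp only [q]; monicity!
  have q2 : Polynomial.aeval z q = 0 := by simpa [q] using h
  have q3 : q.natDegree ≤ 2 := by simp only [q]; compute_degree
  have hz : IsIntegral k⟮y⟯ z := ⟨q, q1, q2⟩
  let N := (k⟮y⟯⟮z⟯).restrictScalars k
  let _ : Algebra k⟮y⟯ N := (k⟮y⟯⟮z⟯).toSubalgebra.algebra
  have : IsScalarTower k k⟮y⟯ N := IsScalarTower.of_algebraMap_eq fun _ => rfl
  have : FiniteDimensional k⟮y⟯ N := adjoin.finiteDimensional hz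
  have h0 : Module.finrank k⟮y⟯ N = (minpoly k⟮y⟯ z).natDegree := adjoin.finrank hz
  have h1 : FiniteDimensional k N := Module.Finite.trans k⟮y⟯ N
  refine ⟨Module.Finite.of_injective (inclusion hL).toLinearMap (inclusion_injective hL), ?_⟩
  refine (finrank_le_of_le_right hL).trans ?_
  rw [← Module.finrank_mul_finrank k k⟮y⟯ N, adjoin.finrank hy, h0, mul_comm]
  exact Nat.mul_le_mul_right _
    ((Polynomial.natDegree_le_natDegree (minpoly.min _ _ q1 q2)).trans q3)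

theorem sa_fin (E : Type) [Field E] [Algebra E K] [FiniteDimensional E K]
    (M : IntermediateField k K) (h : ∀ a : E, algebraMap E K a ∈ M) :
    FiniteDimensional M K ∧ Module.finrank M K ≤ Module.finrank E K := by
  let _ := ((algebraMap E K).codRestrict M h).toAlgebra
  have : IsScalarTower E M K := IsScalarTower.of_algebraMap_eq fun _ => rfl
  have h1 := FiniteDimensional.right E M K
  have h2 := FiniteDimensional.left E M K
  refine ⟨h1, ?_⟩
  rw [← Module.finrank_mul_finrank E M K]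
  exact Nat.le_mul_of_pos_left _ Module.finrank_pos

end

/-- a curve of small degree is radial -/
theorem radial (D : ℕ) : ∃ n₀ k₀ : ℕ, ∀ (k Ω ι : Type) [Field k] [IsAlgClosed k] [CharZero k]
    [Field Ω] [Algebra k Ω] [Fintype ι] (x : ι × ι → Ω) (p q : ι) (cf : Cf ι Ω) (t y : Ω),
    n₀ ≤ Fintype.card ι → Norm k x p q cf → cf.Miss k₀ → Transcendental k t →
    (∀ s, Itg k t 1 (x s)) → IsIntegral k⟮t⟯ y → (minpoly k⟮t⟯ y).natDegree ≤ D →
    (∀ s, x s ∈ k⟮t⟯⟮y⟯) → ∀ s, ∃ u : k, x s = algebraMap k Ω u * x (p, q) := by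
  obtain ⟨B, hB⟩ := mkCur (2 * D)
  obtain ⟨n₀, k₀, hR⟩ := rigid B (B * 2)
  refine ⟨n₀, k₀, fun k Ω ι _ _ _ _ _ _ x p q cf t y hn hN hM ht hx hy hD hxy => ?_⟩
  have : CharZero Ω := charZero_of_injective_algebraMap (algebraMap k Ω).injective
  obtain ⟨o, ho⟩ := hN.gen
  have two : ∀ {j : ℕ} {f : Ω}, Itg k t j f → Itg k t j (2 * f) := fun h => by
    simpa using h.int_mul 2
  have ia : ∀ i, Itg k t 2 (cf.Z i + cf.W i) := fun i => by
    rw [hN.add]
    exact two ((((hx _).pow 2).add ((hx _).pow 2)).sub ((hx _).pow 2))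
  have im : ∀ i, Itg k t (2 + 2) (cf.Z i * cf.W i) := fun i => by
    rw [hN.mul]
    exact ((two (hx _)).mul (hx _)).pow 2
  have iZ : ∀ i, Itg k t 2 (cf.Z i) := fun i => (ia i).of_quad (im i) (by ring)
  have iW : ∀ i, Itg k t 2 (cf.W i) := fun i => (ia i).of_quad (im i) (by ring)
  let u : Option (ι × ι) → Ω := fun s => s.elim (cf.Z o) x
  let L : IntermediateField k⟮t⟯ Ω := adjoin k⟮t⟯ (Set.range u)
  have uL : ∀ s, u s ∈ L := fun s => subset_adjoin _ _ ⟨s, rfl⟩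
  have xL : ∀ s, x s ∈ L := fun s => uL (some s)
  have h2 : ∀ {F : Type} [Field F] [Algebra F Ω] (M : IntermediateField F Ω), (2 : Ω) ∈ M :=
    fun M => by exact_mod_cast _root_.natCast_mem M 2
  obtain ⟨f1, f2⟩ := sa_two (S := Set.range u) (z := cf.Z o) (a := cf.Z o + cf.W o) (b := cf.Z o * cf.W o) hy
    (by
      rw [hN.add]
      exact mul_mem (h2 _) (sub_mem (add_mem (pow_mem (hxy _) 2) (pow_mem (hxy _) 2))
        (pow_mem (hxy _) 2)))
    (by
      rw [hN.mul]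
      exact pow_mem (mul_mem (mul_mem (h2 _) (hxy _)) (hxy _)) 2) (by ring)
    (by
      rintro _ ⟨_ | s, rfl⟩
      exacts [Or.inl rfl, Or.inr (hxy s)])
  have aL : adjoin k (Set.range x) ≤ L.restrictScalars k := adjoin_le_iff.2 (by
    rintro _ ⟨s, rfl⟩
    exact xL s)
  have ZL : ∀ i, cf.Z i ∈ L := fun i => by
    obtain ⟨a, ha, b, hb, e⟩ := ho i
    rw [e]
    exact add_mem (aL ha) (mul_mem (aL hb) (uL none))
  have WL : ∀ i, cf.W i ∈ L := fun i => by
    rw [eq_sub_of_add_eq' (hN.add i)]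
    exact sub_mem (mul_mem (h2 _) (sub_mem (add_mem (pow_mem (xL _) 2) (pow_mem (xL _) 2))
      (pow_mem (xL _) 2))) (ZL i)
  have dL : ∀ i j, cf.d i j ∈ L := fun i j => by
    rw [hN.d]
    exact mul_mem (mul_mem (h2 _) (xL _)) (xL _)
  let φ : L →ₐ[k] Ω := (L.restrictScalars k).val
  let t' : L := ⟨t, L.algebraMap_mem ⟨t, mem_adjoin_simple_self _ _⟩⟩
  obtain ⟨g1, g2⟩ := sa_fin k⟮t⟯ k⟮t'⟯ fun a => by
    have e : (k⟮t'⟯).map φ = k⟮t⟯ := by
      rw [adjoin_map, Set.image_singleton]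
      rfl
    obtain ⟨b, hb, h1⟩ : (a : Ω) ∈ (k⟮t'⟯).map φ := e.symm ▸ a.2
    have : algebraMap k⟮t⟯ L a = b := Subtype.ext h1.symm
    rw [this]
    exact hb
  let u' : Option (ι × ι) → L := fun s => ⟨u s, uL s⟩
  obtain ⟨n, hn'⟩ := prim_el26 (K := k⟮t'⟯) u' fun s => Algebra.IsAlgebraic.isAlgebraic _
  have top : k⟮t'⟯⟮∑ i, (n i : L) * u' i⟯ = ⊤ := by
    refine eq_top_iff.2 fun f _ => ?_
    have h1 : L.restrictScalars k ≤
        ((k⟮t'⟯⟮∑ i, (n i : L) * u' i⟯).restrictScalars k).map φ := by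
      rw [adjoin_adjoin_left, adjoin_le_iff]
      rintro _ (rfl | ⟨s, rfl⟩)
      · exact ⟨t', (k⟮t'⟯⟮∑ i, (n i : L) * u' i⟯).algebraMap_mem
          ⟨t', mem_adjoin_simple_self _ _⟩, rfl⟩
      · exact ⟨u' s, hn' s, rfl⟩
    obtain ⟨g, hg, e⟩ := h1 f.2
    have : f = g := Subtype.ext e.symm
    rw [this]
    exact hg
  obtain ⟨C, hC⟩ := hB k L t' _ (fun h => ht (h.algHom φ)) g1
    (g2.trans (f2.trans (Nat.mul_le_mul_left 2 hD))) top
    (itg_sum _ fun s _ => Itg.int_mul _ (sa_itg φ (by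
      cases s
      exacts [iZ o, (hx _).mono one_le_two])))
  let c' : Cf ι L := ⟨fun i => ⟨_, ZL i⟩, fun i => ⟨_, WL i⟩, fun i j => ⟨_, dL i j⟩,
    fun i j => Subtype.ext (cf.sq i j), fun i j h e => cf.ne i j h (congrArg Subtype.val e)⟩
  obtain ⟨a, b, -, hc⟩ := hR k L C ι c' (fun i => hC 2 _ (sa_itg φ (iZ i)))
    (fun i => hC 2 _ (sa_itg φ (iW i))) hn fun γ hγ => by
      obtain ⟨Y, h1, h3⟩ := hM (fun r => γ r) fun e => hγ (funext fun r => Subtype.ext (congrFun e r))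
      exact ⟨Y, h1, fun i hi e => h3 i hi (congrArg Subtype.val e)⟩
  choose v w hv hw using hc
  have hv' : ∀ i, cf.Z i - cf.Z a = algebraMap k Ω (v i) * (cf.Z b - cf.Z a) := fun i =>
    congrArg Subtype.val (hv i)
  have hw' : ∀ i, cf.W i - cf.W a = algebraMap k Ω (w i) * (cf.W b - cf.W a) := fun i =>
    congrArg Subtype.val (hw i)
  have key : ∀ i j, (2 * x (p, q) * x (i, j)) ^ 2 = algebraMap k Ω ((v i - v j) * (w i - w j)) *
      ((cf.Z b - cf.Z a) * (cf.W b - cf.W a)) := fun i j => by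
    rw [← hN.d, ← cf.sq, map_mul, map_sub, map_sub]
    linear_combination (cf.W i - cf.W j) * (hv' i - hv' j) +
      (algebraMap k Ω (v i) - algebraMap k Ω (v j)) * (cf.Z b - cf.Z a) * (hw' i - hw' j)
  rintro ⟨i, j⟩
  have l0 := hN.l_ne
  have k0 : (v p - v q) * (w p - w q) ≠ 0 := fun e => by
    have := key p q
    rw [e, map_zero, zero_mul] at this
    simp [l0] at this
  obtain ⟨r, hr⟩ := IsAlgClosed.exists_pow_nat_eq
    ((v i - v j) * (w i - w j) / ((v p - v q) * (w p - w q))) two_pos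
  have k1 : algebraMap k Ω ((v i - v j) * (w i - w j)) =
      algebraMap k Ω r ^ 2 * algebraMap k Ω ((v p - v q) * (w p - w q)) := by
    rw [← map_pow, ← map_mul, hr, div_mul_cancel₀ _ k0]
  have k2 : x (i, j) ^ 2 = (algebraMap k Ω r * x (p, q)) ^ 2 := by
    refine mul_left_cancel₀ (pow_ne_zero 2 (mul_ne_zero two_ne_zero l0)) ?_
    have := key i j
    rw [k1] at this
    linear_combination this - algebraMap k Ω r ^ 2 * key p q
  rcases sq_eq_sq_iff_eq_or_eq_neg.1 k2 with e | e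
  · exact ⟨r, e⟩
  · exact ⟨-r, by rw [e, map_neg, neg_mul]⟩

end Pool.Agent.Lib.MP_e5111b_co.Gp
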