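import Pool.Agent.Lib.MP_e5111b_co.Gp.BasicB

set_option autoImplicit false

namespace Pool.Agent.Lib.MP_e5111b_co.Gp

open Finset WithZero

section

variable {K : Type} [Field K]

/-- a polynomial in one variable -/
def tgP (E : ℕ) (co : ℕ → ℕ → K) (c : ℕ) (u : K) : K := ∑ b ∈ range (E + 1), co b c * u ^ b

/-- a polynomial in two variables -/
def tgE (E n : ℕ) (co : ℕ → ℕ → K) (u w : K) : K := ∑ c ∈ range n, tgP E co c u * w ^ c

/-- the derivative in the second variable -/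
def tgD (co : ℕ → ℕ → K) (b c : ℕ) : K := ((c + 1 : ℕ) : K) * co b (c + 1)

theorem tgP_D (E : ℕ) (co : ℕ → ℕ → K) (c : ℕ) (u : K) :
    tgP E (tgD co) c u = ((c + 1 : ℕ) : K) * tgP E co (c + 1) u := by
  simp only [tgP, tgD, Finset.mul_sum, mul_assoc]

variable (v : Valuation K ℤᵐ⁰)

theorem tg_mul_le {x y : K} {r : ℤᵐ⁰} (hx : v x ≤ 1) (hy : v y ≤ r) : v (x * y) ≤ r := by
  rw [map_mul]
  exact (mul_le_mul' hx hy).trans (one_mul r).le

theorem tg_pow_le {x : K} (hx : v x ≤ 1) (n : ℕ) : v (x ^ n) ≤ 1 := by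
  rw [map_pow]; exact pow_le_one' hx n

theorem tg_nat (n : ℕ) : v (n : K) ≤ 1 := by
  induction n with
  | zero => simp
  | succ n ih => rw [Nat.cast_succ]; exact v.map_add_le ih v.map_one.le

theorem tg_one {u F : K} (hu : v u ≤ 1) (hF : v F ≤ 1) (b : ℕ) :
    v ((u + F) ^ b - u ^ b) ≤ v F := by
  induction b with
  | zero => simp
  | succ b ih =>
    rw [show (u + F) ^ (b + 1) - u ^ (b + 1) = (u + F) * ((u + F) ^ b - u ^ b) + u ^ b * F by ring]
    exact v.map_add_le (tg_mul_le v (v.map_add_le hu hF) ih) (tg_mul_le v (tg_pow_le v hu b) le_rfl)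

theorem tg_two {w G : K} (hw : v w ≤ 1) (hG : v G ≤ 1) (c : ℕ) :
    v ((w + G) ^ (c + 1) - w ^ (c + 1) - ((c + 1 : ℕ) : K) * w ^ c * G) ≤ v (G * G) := by
  induction c with
  | zero => simp
  | succ c ih =>
    rw [show (w + G) ^ (c + 1 + 1) - w ^ (c + 1 + 1) - ((c + 1 + 1 : ℕ) : K) * w ^ (c + 1) * G =
      (w + G) * ((w + G) ^ (c + 1) - w ^ (c + 1) - ((c + 1 : ℕ) : K) * w ^ c * G) +
        ((c + 1 : ℕ) : K) * w ^ c * (G * G) by push_cast; ring]
    exact v.map_add_le (tg_mul_le v (v.map_add_le hw hG) ih)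
      (tg_mul_le v (tg_mul_le v (tg_nat v _) (tg_pow_le v hw c)) le_rfl)

variable {E : ℕ} {co : ℕ → ℕ → K}

theorem tgP_le (hc : ∀ b c, v (co b c) ≤ 1) {u : K} (hu : v u ≤ 1) (c : ℕ) :
    v (tgP E co c u) ≤ 1 :=
  v.map_sum_le fun b _ => tg_mul_le v (hc b c) (tg_pow_le v hu b)

theorem tgE_le (hc : ∀ b c, v (co b c) ≤ 1) {u w : K} (hu : v u ≤ 1) (hw : v w ≤ 1) (n : ℕ) :
    v (tgE E n co u w) ≤ 1 :=
  v.map_sum_le fun c _ => tg_mul_le v (tgP_le v hc hu c) (tg_pow_le v hw c)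

theorem tgP_sub (hc : ∀ b c, v (co b c) ≤ 1) {u F : K} (hu : v u ≤ 1) (hF : v F ≤ 1) (c : ℕ) :
    v (tgP E co c (u + F) - tgP E co c u) ≤ v F := by
  unfold tgP
  rw [← Finset.sum_sub_distrib]
  refine v.map_sum_le fun b _ => ?_
  rw [← mul_sub]
  exact tg_mul_le v (hc b c) (tg_one v hu hF b)

/-- Taylor expansion -/
theorem tg_taylor (hc : ∀ b c, v (co b c) ≤ 1) {u w F G : K} (hu : v u ≤ 1) (hw : v w ≤ 1)
    (hF : v F ≤ 1) (hG : v G ≤ 1) (n : ℕ) {r : ℤᵐ⁰} (h1 : v F ≤ r) (h2 : v (G * G) ≤ r) :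
    v (tgE E (n + 1) co (u + F) (w + G) - tgE E (n + 1) co u w - tgE E n (tgD co) u w * G) ≤ r := by
  have e : tgE E (n + 1) co (u + F) (w + G) - tgE E (n + 1) co u w - tgE E n (tgD co) u w * G =
      ∑ c ∈ range n, ((w + G) ^ (c + 1) * (tgP E co (c + 1) (u + F) - tgP E co (c + 1) u) +
        tgP E co (c + 1) u * ((w + G) ^ (c + 1) - w ^ (c + 1) - ((c + 1 : ℕ) : K) * w ^ c * G)) +
      (tgP E co 0 (u + F) - tgP E co 0 u) := by
    unfold tgE
    rw [Finset.sum_range_succ', Finset.sum_range_succ', Finset.sum_mul, pow_zero, pow_zero, mul_one,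
      mul_one, add_sub_add_comm, add_sub_right_comm, ← Finset.sum_sub_distrib,
      ← Finset.sum_sub_distrib]
    congr 1
    refine Finset.sum_congr rfl fun c _ => ?_
    rw [tgP_D]; ring
  rw [e]
  refine v.map_add_le (v.map_sum_le fun c _ => v.map_add_le ?_ ?_) ((tgP_sub v hc hu hF 0).trans h1)
  · exact tg_mul_le v (tg_pow_le v (v.map_add_le hw hG) _) ((tgP_sub v hc hu hF _).trans h1)
  · exact tg_mul_le v (tgP_le v hc hu _) ((tg_two v hw hG c).trans h2)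

theorem tg_roots {ι : Type} {Z : ι → K} (hZ : Function.Injective Z) {Y : Finset ι} {b : ℕ}
    (hb : b < E + 1) (h0 : co b 0 ≠ 0) (h : ∀ j ∈ Y, tgP E co 0 (Z j) = 0) : #Y ≤ E := by
  classical
  by_contra hY
  have h1 : (∑ b ∈ range (E + 1), Polynomial.monomial b (co b 0)).natDegree ≤ E :=
    Polynomial.natDegree_sum_le_of_forall_le _ _ fun i hi =>
      (Polynomial.natDegree_monomial_le _).trans (Nat.lt_succ_iff.1 (mem_range.1 hi))
  have h2 := Polynomial.eq_zero_of_natDegree_lt_card_of_eval_eq_zero'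
    (∑ b ∈ range (E + 1), Polynomial.monomial b (co b 0)) (Y.image Z) (fun x hx => by
      obtain ⟨j, hj, rfl⟩ := mem_image.1 hx
      rw [Polynomial.eval_finsetSum]
      simpa only [Polynomial.eval_monomial, tgP] using h j hj)
    (by rw [card_image_of_injective _ hZ]; omega)
  have h3 := congrArg (fun p => Polynomial.coeff p b) h2
  simp only [Polynomial.finsetSum_coeff, Polynomial.coeff_monomial, Finset.sum_ite_eq',
    mem_range, hb, if_true, Polynomial.coeff_zero] at h3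
  exact h0 h3

end

section

variable {k K : Type} [Field k] [Field K] [Algebra k K] {B : ℕ} {C : Cur k K B}

theorem tgE_reg {E n m₀ m m' : ℕ} {co : ℕ → ℕ → K} (hc : ∀ b c, C.Reg m₀ (co b c)) {u w : K}
    (hu : C.Reg m u) (hw : C.Reg m' w) (hn : n ≤ E + 1) :
    C.Reg (m₀ + m * E + m' * E) (tgE E n co u w) := by
  refine Cur.reg_sum _ fun c hc' => Cur.Reg.mul (Cur.reg_sum _ fun b hb => ?_) ?_
  · exact (hc b c).mul ((hu.pow b).mono
      (Nat.mul_le_mul_left _ (Nat.lt_succ_iff.1 (mem_range.1 hb))))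
  · exact (hw.pow c).mono (Nat.mul_le_mul_left _ (by have := mem_range.1 hc'; omega))

variable {ι : Type} {Z : ι → K} {Y : Finset ι} {S₁ : Finset C.P} {m M : ℕ}

theorem tg_lt : (exp (-2) : ℤᵐ⁰) < 1 := by
  rw [← exp_zero, exp_lt_exp]; norm_num

/-- a function that vanishes at the places of tangency with one graph -/
theorem tg_few (h3 : ∀ p ∉ S₁, ∀ j ∈ Y, ∀ Y' ⊆ Y, (∀ i ∈ Y', C.v p (Z i - Z j) < 1) → #Y' ≤ M)
    (h4 : ∀ i ∈ Y, ∀ j ∈ Y, i ≠ j → ∃ p ∉ S₁, C.v p (Z i - Z j) ≤ exp (-2)) {j : ι} (hj : j ∈ Y)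
    {g : K} {N : ℕ} (hg : C.Reg N g) (g0 : g ≠ 0) {Y' : Finset ι} (hY : Y' ⊆ Y) (hj' : j ∉ Y')
    (h : ∀ i ∈ Y', ∀ p ∉ S₁, C.v p (Z i - Z j) ≤ exp (-2) → C.v p g < 1) : #Y' ≤ M * (B * N) := by
  classical
  have := C.nonempty
  have ex : ∀ i, ∃ p, i ∈ Y' → p ∉ S₁ ∧ C.v p (Z i - Z j) ≤ exp (-2) := fun i => by
    by_cases hi : i ∈ Y'
    · obtain ⟨p, hp⟩ := h4 i (hY hi) j hj fun e => hj' (e ▸ hi)
      exact ⟨p, fun _ => hp⟩
    · exact ⟨Classical.arbitrary _, fun h => absurd h hi⟩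
  choose π hπ using ex
  refine (Finset.card_le_mul_card_image (f := π) Y' M fun p hp => ?_).trans
    (Nat.mul_le_mul_left _ (hg.card_le g0 fun p hp => ?_))
  · obtain ⟨i, hi, rfl⟩ := mem_image.1 hp
    refine h3 _ (hπ i hi).1 j hj _ ((filter_subset _ _).trans hY) fun l hl => ?_
    obtain ⟨h1, h2⟩ := mem_filter.1 hl
    exact lt_of_le_of_lt (h2 ▸ (hπ l h1).2) tg_lt
  · obtain ⟨i, hi, rfl⟩ := mem_image.1 hp
    exact h i hi _ (hπ i hi).1 (hπ i hi).2

variable [CharZero k]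

/-- the solutions of an algebraic differential equation that are pairwise tangent -/
theorem tg_ind (hS : C.S ⊆ S₁) (hZ : ∀ i, C.Reg m (Z i)) (hinj : Function.Injective Z)
    (h3 : ∀ p ∉ S₁, ∀ j ∈ Y, ∀ Y' ⊆ Y, (∀ i ∈ Y', C.v p (Z i - Z j) < 1) → #Y' ≤ M)
    (h4 : ∀ i ∈ Y, ∀ j ∈ Y, i ≠ j → ∃ p ∉ S₁, C.v p (Z i - Z j) ≤ exp (-2)) {E m₀ : ℕ} (n : ℕ) :
    ∀ co : ℕ → ℕ → K, n ≤ E + 1 → (∀ b c, C.Reg m₀ (co b c)) →
      (∃ b < E + 1, ∃ c < n, co b c ≠ 0) → (∀ j ∈ Y, tgE E n co (Z j) (C.D (Z j)) = 0) →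
      #Y ≤ E + (M * (B * (m₀ + m * E + (m + B + 1) * E)) + 1) := by
  classical
  have : CharZero K := charZero_of_injective_algebraMap (algebraMap k K).injective
  induction n with
  | zero => rintro co - - ⟨b, -, c, hc, -⟩; omega
  | succ n ih =>
    intro co hn hc ⟨b, hb, c, hcn, h0⟩ he
    have hc' : ∀ b c, C.Reg m₀ (tgD co b c) := fun b c => (hc b (c + 1)).nat_mul _
    by_cases h1 : ∃ b < E + 1, ∃ c < n, tgD co b c ≠ 0
    swap
    · push Not at h1
      have h2 : ∀ b < E + 1, ∀ c < n, co b (c + 1) = 0 := fun b hb c hc =>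
        (mul_eq_zero.1 (h1 b hb c hc)).resolve_left (Nat.cast_ne_zero.2 (Nat.succ_ne_zero c))
      obtain rfl : c = 0 := by
        rcases c with _ | c
        · rfl
        · exact absurd (h2 b hb c (by omega)) h0
      refine (tg_roots hinj hb h0 fun j hj => ?_).trans (Nat.le_add_right _ _)
      have := he j hj
      unfold tgE at this
      rw [Finset.sum_range_succ', Finset.sum_eq_zero, zero_add, pow_zero, mul_one] at this
      · exact this
      · intro c hc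
        rw [tgP, Finset.sum_eq_zero, zero_mul]
        intro b hb
        rw [h2 b (mem_range.1 hb) c (mem_range.1 hc), zero_mul]
    by_cases h2 : ∀ j ∈ Y, tgE E n (tgD co) (Z j) (C.D (Z j)) = 0
    · exact ih _ (by omega) hc' h1 h2
    push Not at h2
    obtain ⟨j, hj, g0⟩ := h2
    have := tg_few h3 h4 hj (tgE_reg hc' (hZ j) (hZ j).deriv (by omega)) g0 (erase_subset j Y)
      (notMem_erase j Y) fun i hi p hp hv => by
        have hp' : p ∉ C.S := fun h => hp (hS h)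
        have F0 : Z i - Z j ≠ 0 := sub_ne_zero.2 fun e => (mem_erase.1 hi).1 (hinj e)
        have a1 : C.v p (Z i - Z j) < 1 := lt_of_le_of_lt hv tg_lt
        have a2 := Cur.double hp' hv
        have a3 := Cur.simple hp' F0 a1
        have a4 : C.v p (Z i - Z j) ≠ 0 := (Valuation.ne_zero_iff _).2 F0
        have a5 : C.v p (Z i - Z j) < C.v p (C.D (Z i - Z j)) := by
          rw [a3]
          refine lt_mul_of_one_lt_right (zero_lt_iff.2 a4) ?_
          rw [← exp_zero, exp_lt_exp]; norm_num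
        have a6 : 0 < C.v p (C.D (Z i - Z j)) := lt_of_le_of_lt zero_le a5
        have a7 : C.v p (C.D (Z i - Z j) * C.D (Z i - Z j)) < C.v p (C.D (Z i - Z j)) := by
          rw [map_mul]; exact mul_lt_of_lt_one_right a6 a2
        have a8 := tg_taylor (C.v p) (E := E) (fun b c => (hc b c).2 p hp') ((hZ j).2 p hp')
          ((hZ j).deriv.2 p hp') a1.le a2.le n (le_max_left _ _) (le_max_right _ _)
        rw [add_sub_cancel, ← map_add, add_sub_cancel, he i (mem_erase.1 hi).2, he j hj, sub_zero,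
          zero_sub, Valuation.map_neg, map_mul] at a8
        have a9 := lt_of_le_of_lt a8 (max_lt a5 a7)
        by_contra hge
        exact absurd a9 (not_lt.2 (le_mul_of_one_le_left zero_le (not_lt.1 hge)))
    rw [card_erase_of_mem hj] at this
    omega

end

/-- pairwise tangent graphs, at most `M` through a point -/
theorem tang (B m M : ℕ) : ∃ A : ℕ, ∀ (k K : Type) [Field k] [CharZero k] [Field K] [Algebra k K]
    (C : Cur k K B) (ι : Type) (Z : ι → K) (Y : Finset ι) (S₁ : Finset C.P), C.S ⊆ S₁ →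
    (∀ i, C.Reg m (Z i)) → Function.Injective Z →
    (∀ p ∉ S₁, ∀ j ∈ Y, ∀ Y' ⊆ Y, (∀ i ∈ Y', C.v p (Z i - Z j) < 1) → #Y' ≤ M) →
    (∀ i ∈ Y, ∀ j ∈ Y, i ≠ j → ∃ p ∉ S₁, C.v p (Z i - Z j) ≤ exp (-2)) → #Y ≤ A := by
  obtain ⟨y, hy⟩ : ∃ y, y = B * (B + m + (m + B + 1)) := ⟨_, rfl⟩
  obtain ⟨E, hE⟩ : ∃ E, E = (M * y + 1) * (y + 1) := ⟨_, rfl⟩
  obtain ⟨N, hN⟩ : ∃ N, N = B * E + m * E + (m + B + 1) * E := ⟨_, rfl⟩
  have eN : B * N = y * E := by rw [hN, hy]; ring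
  refine ⟨E + (M * (B * N) + 1), fun k K _ _ _ _ C ι Z Y S₁ hS hZ hinj h3 h4 => ?_⟩
  classical
  by_cases hq : #Y ≤ M * (B * N) + 1
  · omega
  obtain ⟨Q, hQ, cQ⟩ := Finset.exists_subset_card_eq (not_le.1 hq).le
  obtain ⟨l, l0, hl⟩ := Cur.dep (C := C) (m := N) (κ := Q)
    (fun (x : Fin (E + 1) × Fin (E + 1) × Fin (E + 1)) i =>
      C.t ^ (x.2.2 : ℕ) * Z i ^ (x.2.1 : ℕ) * C.D (Z i) ^ (x.1 : ℕ))
    (fun x i => by
      rw [hN]
      exact (((C.reg_t.pow _).mono (Nat.mul_le_mul_left _ (Nat.lt_succ_iff.1 x.2.2.2))).mul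
        (((hZ i).pow _).mono (Nat.mul_le_mul_left _ (Nat.lt_succ_iff.1 x.2.1.2)))).mul
        (((hZ i).deriv.pow _).mono (Nat.mul_le_mul_left _ (Nat.lt_succ_iff.1 x.1.2))))
    (by
      simp only [Fintype.card_coe, cQ, Fintype.card_prod, Fintype.card_fin, eN]
      calc (M * (y * E) + 1) * (y * E + 1) ≤ ((M * y + 1) * (E + 1)) * ((y + 1) * (E + 1)) :=
            Nat.mul_le_mul (by nlinarith [Nat.zero_le (M * y)]) (by nlinarith)
        _ = E * ((E + 1) * (E + 1)) := by rw [hE]; ring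
        _ < _ := Nat.mul_lt_mul_of_pos_right (Nat.lt_succ_self E) (by positivity))
  obtain ⟨co, hco⟩ : ∃ co : ℕ → ℕ → K, co = fun b c => ∑ a : Fin (E + 1),
      algebraMap k K (l (Fin.ofNat (E + 1) c, Fin.ofNat (E + 1) b, a)) * C.t ^ (a : ℕ) := ⟨_, rfl⟩
  have hc : ∀ b c, C.Reg (B * E) (co b c) := fun b c => by
    rw [hco]
    exact Cur.reg_sum _ fun a _ => ((C.reg_t.pow _).mono
      (Nat.mul_le_mul_left _ (Nat.lt_succ_iff.1 a.2))).const_mul _
  have e1 : ∀ i ∈ Q, tgE E (E + 1) co (Z i) (C.D (Z i)) = 0 := fun i hi => by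
    rw [← hl ⟨i, hi⟩, Fintype.sum_prod_type, tgE, Finset.sum_range]
    refine Finset.sum_congr rfl fun c _ => ?_
    rw [Fintype.sum_prod_type, tgP, Finset.sum_range, Finset.sum_mul]
    refine Finset.sum_congr rfl fun b _ => ?_
    rw [hco]
    simp only [Fin.ofNat_val_eq_self, Finset.sum_mul, mul_assoc]
  rw [hN]
  refine tg_ind hS hZ hinj h3 h4 (E + 1) co le_rfl hc ?_ fun j hj => ?_
  · obtain ⟨⟨c, b, a⟩, hx⟩ := Function.ne_iff.1 l0
    refine ⟨b, b.2, c, c.2, fun h => hx ?_⟩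
    rw [hco] at h
    simp only [Fin.ofNat_val_eq_self] at h
    exact congrFun (C.t_indep (fun a => l (c, b, a)) h) a
  by_cases hjQ : j ∈ Q
  · exact e1 j hjQ
  by_contra g0
  have := tg_few h3 h4 hj (tgE_reg hc (hZ j) (hZ j).deriv le_rfl) g0 hQ hjQ fun i hi p hp hv => by
    have hp' : p ∉ C.S := fun h => hp (hS h)
    have a1 : C.v p (Z i - Z j) < 1 := lt_of_le_of_lt hv tg_lt
    have a2 := Cur.double hp' hv
    have a3 : C.v p (C.D (Z i - Z j) * C.D (Z i - Z j)) ≤ C.v p (C.D (Z i - Z j)) :=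
      tg_mul_le _ a2.le le_rfl
    have a8 := tg_taylor (C.v p) (E := E) (fun b c => (hc b c).2 p hp') ((hZ j).2 p hp')
      ((hZ j).deriv.2 p hp') a1.le a2.le E (le_max_left _ _) (a3.trans (le_max_right _ _))
    rw [add_sub_cancel, ← map_add, add_sub_cancel, e1 i hi, zero_sub] at a8
    have a9 : C.v p (tgE E E (tgD co) (Z j) (C.D (Z j)) * C.D (Z i - Z j)) < 1 :=
      lt_of_le_of_lt (tg_mul_le _ (tgE_le _ (fun b c => ((hc b (c + 1)).nat_mul _).2 p hp')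
        ((hZ j).2 p hp') ((hZ j).deriv.2 p hp') E) le_rfl) a2
    have b1 := (C.v p).map_add_lt (lt_of_le_of_lt a8 (max_lt a1 a2)) a9
    rwa [sub_add_cancel, Valuation.map_neg] at b1
  rw [← hN] at this
  omega

end Pool.Agent.Lib.MP_e5111b_co.Gp
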